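import Pool.Agent.V5helper60.MW.Win

/-!
# One-sided bounds and means, I: the balance of the two signs
-/

set_option autoImplicit false
set_option maxHeartbeats 4000000

open MeasureTheory Filter Topology Set

namespace Pool.Agent.V5helper60.MW

open Pool.Agent.W120.WM (gk)
open H313.TK

noncomputable section

/-- the part of the average over `|v| ≤ a`, `|w| ≤ 1` -/
def box (f : ℝ → ℝ) (h t a : ℝ) : ℝ := ∫ v in Icc (-a) a, (∫ w in Icc (-1) 1, f (t - v - w) * gk h w) * kp v

/-- the part of the smoothed average over `|v| ≤ a` -/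
def sbox (f : ℝ → ℝ) (h t a : ℝ) : ℝ := ∫ v in Icc (-a) a, Sf f h (t - v) * kp v

/-- the balance of the two signs -/
def BalI (m : ℝ → ℝ) : Prop :=
  ∃ D : ℝ, 0 < D ∧ ∀ᶠ t in atTop, ∀ a : ℝ, 0 ≤ a → D * (Real.log t) ^ 2 ≤ Real.exp (2 * a) →
    |sbox m (hw t) t a| ≤ Real.exp (t / 2)

theorem bal {m : ℝ → ℝ} {B : ℝ} (hm : MB m B)
    (h1 : ∃ C : ℝ, ∀ᶠ t in atTop, ∀ v : ℝ,
      |Sf m (hw t) (t - v)| ≤ Real.exp (t / 2) * Real.exp |v| * Real.exp (C * (Real.log t) ^ 2))
    (ε0 : ℝ → ℝ) (hε0 : Tendsto ε0 atTop (𝓝 0))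
    (h2 : ∀ᶠ t in atTop, ∀ w : ℝ,
      |∫ v, m (t - w - v) * kp v| ≤ ε0 t * (1 * Real.exp (t / 2)) * Real.exp (2 * |w|)) : BalI m := by
  obtain ⟨C1, h1⟩ := h1
  have hC0 := C0_nonneg
  have hD1 := D1_nonneg
  refine ⟨2 * (|C1| + 1), by positivity, ?_⟩
  have e2 : ∀ᶠ t : ℝ in atTop, 42 * ε0 t + C0 * (64 * D1 * Real.exp (-(Real.log t) ^ 2)) < 1 := by
    have : Tendsto (fun t : ℝ => 42 * ε0 t + C0 * (64 * D1 * Real.exp (-(Real.log t) ^ 2))) atTop (𝓝 0) := by
      simpa using (hε0.const_mul 42).add ((tau_tendsto (64 * D1)).const_mul C0)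
    exact this.eventually (gt_mem_nhds one_pos)
  filter_upwards [h1, h2, e2, eventually_ge_atTop (1:ℝ)] with t t1 t2 te2 ht a ha hDa
  have ht0 : 0 < t := by linarith
  unfold sbox
  set h := hw t with hh
  have hh0 : 0 < h := hw_pos ht0
  have hh1 : h ≤ 1 := hw_le ht
  set E : ℝ := 1 * Real.exp (t / 2) with hE
  have hE0 : 0 < E := by positivity
  have hEE : E = Real.exp (t / 2) := one_mul _
  have kP : |∫ v : ℝ, Sf m h (t - v) * kp v| ≤ 42 * ε0 t * E := by
    have q0 := hm.fub hh0 hh1 t kc_DK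
    have q1 : ∫ v : ℝ, ((Sf m h (t - v) : ℝ) : ℂ) * kc v = ((∫ v : ℝ, Sf m h (t - v) * kp v : ℝ) : ℂ) := by
      rw [← integral_complex_ofReal]
      refine integral_congr_ae (ae_of_all _ fun v => ?_)
      simp [kc]
    have q2 : ∀ w : ℝ, ∫ v : ℝ, (m (t - w - v) : ℂ) * kc v = ((∫ v : ℝ, m (t - w - v) * kp v : ℝ) : ℂ) := by
      intro w
      rw [← integral_complex_ofReal]
      refine integral_congr_ae (ae_of_all _ fun v => ?_)
      simp [kc]
    have q3 : |∫ v : ℝ, Sf m h (t - v) * kp v| = ‖∫ w : ℝ, (gk h w : ℂ) * ∫ v : ℝ, (m (t - w - v) : ℂ) * kc v‖ := by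
      rw [← q0, q1, Complex.norm_real, Real.norm_eq_abs]
    rw [q3]
    have hε : 0 ≤ ε0 t := by
      have := (abs_nonneg _).trans (t2 0)
      by_contra hcon
      push Not at hcon
      have h7 : ε0 t * E * Real.exp (2 * |(0:ℝ)|) < 0 :=
        mul_neg_of_neg_of_pos (mul_neg_of_neg_of_pos hcon hE0) (Real.exp_pos _)
      linarith
    have q4 : ‖∫ w : ℝ, (gk h w : ℂ) * ∫ v : ℝ, (m (t - w - v) : ℂ) * kc v‖ ≤ ∫ w, ε0 t * E * 21 * gw h w := by
      refine norm_integral_le_of_norm_le ((gw_int hh0).const_mul _) (ae_of_all _ fun w => ?_)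
      rw [q2, norm_mul, Complex.norm_real, Complex.norm_real, Real.norm_eq_abs, Real.norm_eq_abs,
        abs_of_pos (gk_pos hh0 w)]
      have q5 := gk_pos hh0 w
      have q6 := gA hh0 hh1 w
      calc gk h w * |∫ v : ℝ, m (t - w - v) * kp v| ≤ gk h w * (ε0 t * E * Real.exp (2 * |w|)) :=
            mul_le_mul_of_nonneg_left (t2 w) q5.le
        _ = ε0 t * E * (Real.exp (2 * |w|) * gk h w) := by ring
        _ ≤ ε0 t * E * (21 * gw h w) := mul_le_mul_of_nonneg_left q6 (by positivity)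
        _ = _ := by ring
    rw [integral_const_mul, gw_mass hh0] at q4
    refine q4.trans (le_of_eq ?_)
    ring
  set τ : ℝ := 64 * D1 * Real.exp (-(Real.log t) ^ 2) with hτ
  have hτ0 : 0 ≤ τ := by positivity
  have kT : Real.exp (C1 * (Real.log t) ^ 2) * ∫ v in (Icc (-a) a)ᶜ, Real.exp |v| * (1 * W v) ≤ τ := by
    have q1 := tailW a ha
    have q2 := XW a ha
    have q3 : Real.exp (-(Real.exp (2 * a) / 2)) ≤ Real.exp (-((|C1| + 1) * (Real.log t) ^ 2)) := by
      refine Real.exp_le_exp.2 ?_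
      linarith
    calc Real.exp (C1 * (Real.log t) ^ 2) * ∫ v in (Icc (-a) a)ᶜ, Real.exp |v| * (1 * W v)
        ≤ Real.exp (|C1| * (Real.log t) ^ 2) * (16 * D1 * (4 * Real.exp (-((|C1| + 1) * (Real.log t) ^ 2)))) := by
          refine mul_le_mul (Real.exp_le_exp.2 ?_) ?_ ?_ (Real.exp_pos _).le
          · exact mul_le_mul_of_nonneg_right (le_abs_self _) (sq_nonneg _)
          · refine q1.trans (mul_le_mul_of_nonneg_left (q2.trans ?_) (by positivity))
            exact mul_le_mul_of_nonneg_left q3 (by norm_num)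
          · refine integral_nonneg fun v => ?_
            have := W_pos v
            show 0 ≤ Real.exp |v| * (1 * W v)
            positivity
      _ = 64 * D1 * (Real.exp (|C1| * (Real.log t) ^ 2) * Real.exp (-((|C1| + 1) * (Real.log t) ^ 2))) := by ring
      _ = τ := by
          rw [← Real.exp_add, hτ]
          congr 2
          ring
  have kB : |∫ v in (Icc (-a) a)ᶜ, Sf m h (t - v) * kp v| ≤ C0 * (Real.exp (t / 2) * τ) := by
    have q1 : |∫ v in (Icc (-a) a)ᶜ, Sf m h (t - v) * kp v| ≤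
        ∫ v in (Icc (-a) a)ᶜ, (C0 * Real.exp (t / 2) * Real.exp (C1 * (Real.log t) ^ 2)) * (Real.exp |v| * (1 * W v)) := by
      rw [← Real.norm_eq_abs]
      refine norm_integral_le_of_norm_le ((eW_int 1).const_mul _).integrableOn (ae_of_all _ fun v => ?_)
      rw [Real.norm_eq_abs, abs_mul, abs_of_nonneg (kp_nonneg v)]
      have q2 := t1 v
      have q3 := W_pos v
      calc |Sf m h (t - v)| * kp v ≤
            (Real.exp (t / 2) * Real.exp |v| * Real.exp (C1 * (Real.log t) ^ 2)) * (C0 * W v) :=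
            mul_le_mul q2 (kp_bounds v).2 (kp_nonneg v) (by positivity)
        _ = _ := by ring
    rw [integral_const_mul] at q1
    refine q1.trans ?_
    calc C0 * Real.exp (t / 2) * Real.exp (C1 * (Real.log t) ^ 2) * ∫ v in (Icc (-a) a)ᶜ, Real.exp |v| * (1 * W v)
        = C0 * Real.exp (t / 2) * (Real.exp (C1 * (Real.log t) ^ 2) * ∫ v in (Icc (-a) a)ᶜ, Real.exp |v| * (1 * W v)) := by ring
      _ ≤ C0 * Real.exp (t / 2) * τ := mul_le_mul_of_nonneg_left kT (by positivity)
      _ = _ := by ring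
  have iR := hm.intR hh0 hh1 t
  have q1 := integral_add_compl (measurableSet_Icc (a := -a) (b := a)) iR
  have q2 : ∫ v in Icc (-a) a, Sf m h (t - v) * kp v =
      (∫ v : ℝ, Sf m h (t - v) * kp v) - ∫ v in (Icc (-a) a)ᶜ, Sf m h (t - v) * kp v := by linarith
  rw [q2]
  refine (abs_sub _ _).trans ((add_le_add kP kB).trans ?_)
  rw [hEE]
  have h3 := Real.exp_pos (t / 2)
  have h4 : 42 * ε0 t * Real.exp (t / 2) + C0 * (Real.exp (t / 2) * τ) = (42 * ε0 t + C0 * τ) * Real.exp (t / 2) := by ring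
  rw [h4]
  nlinarith

/-- dropping the tails of the Gaussian -/
theorem sbox_le {f : ℝ → ℝ} {B : ℝ} (hf : MB f B) (hf0 : ∀ u, 0 ≤ f u) {t a : ℝ} (ht : 1 ≤ t) :
    sbox f (hw t) t a ≤ box f (hw t) t a + 128 * B * C0 * D1 * Real.exp (-(3 * t)) := by
  have hC0 := C0_nonneg
  have hD1 := D1_nonneg
  have hB := hf.nonneg
  have ht0 : 0 < t := by linarith
  unfold sbox box
  set h := hw t with hh
  have hh0 : 0 < h := hw_pos ht0
  have hh1 : h ≤ 1 := hw_le ht
  have iP := hf.intR hh0 hh1 t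
  have q0 : ∀ v : ℝ, Sf f h (t - v) ≤
      (∫ w in Icc (-1) 1, f (t - v - w) * gk h w) +
        32 * B * Real.exp (-(3 * t)) * Real.exp |v| := by
    intro v
    have i1 := hf.int1 hh0 hh1 t v
    unfold Sf
    rw [← integral_add_compl (measurableSet_Icc (a := (-1:ℝ)) (b := 1)) i1]
    refine add_le_add le_rfl ?_
    have q1 : ∫ w in (Icc (-1:ℝ) 1)ᶜ, f (t - v - w) * gk h w ≤
        ∫ w in (Icc (-1:ℝ) 1)ᶜ, (2 * B * Real.exp t * Real.exp |v|) * (8 * Real.exp (-(4 * t))) * gw h w := by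
      refine setIntegral_mono_on i1.integrableOn ((gw_int hh0).const_mul _).integrableOn
        measurableSet_Icc.compl fun w hw => ?_
      have hw1 : 1 ≤ |w| := by
        by_contra h8
        push Not at h8
        rw [abs_lt] at h8
        exact hw ⟨h8.1.le, h8.2.le⟩
      have q2 := gT hh0 hh1 w hw1
      rw [hw_sq ht0] at q2
      have q3 := hf.bd2 t v w
      rw [abs_of_nonneg (hf0 _)] at q3
      have q4 := gk_pos hh0 w
      have q5 : Real.exp (t / 2) ≤ Real.exp t := Real.exp_le_exp.2 (by linarith)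
      calc f (t - v - w) * gk h w ≤
            (B * (Real.exp (t / 2) + Real.exp t) * Real.exp |v| * Real.exp |w|) * gk h w :=
            mul_le_mul_of_nonneg_right q3 q4.le
        _ = B * (Real.exp (t / 2) + Real.exp t) * Real.exp |v| * (Real.exp |w| * gk h w) := by ring
        _ ≤ B * (Real.exp t + Real.exp t) * Real.exp |v| * (8 * Real.exp (-(4 * t)) * gw h w) := by
            refine mul_le_mul ?_ q2 (by positivity) (by positivity)
            refine mul_le_mul_of_nonneg_right ?_ (Real.exp_pos _).le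
            exact mul_le_mul_of_nonneg_left (by linarith) hB
        _ = _ := by ring
    refine q1.trans ?_
    have q2 : ∫ w in (Icc (-1:ℝ) 1)ᶜ, (2 * B * Real.exp t * Real.exp |v|) * (8 * Real.exp (-(4 * t))) * gw h w ≤
        ∫ w, (2 * B * Real.exp t * Real.exp |v|) * (8 * Real.exp (-(4 * t))) * gw h w := by
      refine setIntegral_le_integral ((gw_int hh0).const_mul _) (ae_of_all _ fun w => ?_)
      have := gw_pos hh0 w
      show 0 ≤ (2 * B * Real.exp t * Real.exp |v|) * (8 * Real.exp (-(4 * t))) * gw h w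
      positivity
    refine q2.trans (le_of_eq ?_)
    rw [integral_const_mul, gw_mass hh0]
    have : Real.exp (-(3 * t)) = Real.exp t * Real.exp (-(4 * t)) := by
      rw [← Real.exp_add]; congr 1; ring
    rw [this]
    ring
  have i2 := int_inner hf hh0 hh1 t (Icc (-a) a) (Icc (-1:ℝ) 1)
  have i3 : Integrable (fun v : ℝ => 32 * B * Real.exp (-(3 * t)) * (Real.exp |v| * (C0 * W v))) :=
    (eW_int C0).const_mul _
  have q1 : ∫ v in Icc (-a) a, Sf f h (t - v) * kp v ≤
      ∫ v in Icc (-a) a, ((∫ w in Icc (-1) 1, f (t - v - w) * gk h w) * kp v +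
      32 * B * Real.exp (-(3 * t)) * (Real.exp |v| * (C0 * W v))) := by
    refine setIntegral_mono_on iP.integrableOn (i2.add i3.integrableOn) measurableSet_Icc fun v _ => ?_
    have q2 := mul_le_mul_of_nonneg_right (q0 v) (kp_nonneg v)
    have q3 : 32 * B * Real.exp (-(3 * t)) * Real.exp |v| * kp v ≤
        32 * B * Real.exp (-(3 * t)) * (Real.exp |v| * (C0 * W v)) := by
      rw [mul_assoc (32 * B * Real.exp (-(3 * t)))]
      refine mul_le_mul_of_nonneg_left ?_ (by positivity)
      exact mul_le_mul_of_nonneg_left (kp_bounds v).2 (Real.exp_pos _).le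
    rw [add_mul] at q2
    linarith
  rw [integral_add i2 i3.integrableOn] at q1
  refine q1.trans (add_le_add le_rfl ?_)
  rw [integral_const_mul]
  have q4 : ∫ v in Icc (-a) a, Real.exp |v| * (C0 * W v) ≤ ∫ v, Real.exp |v| * (C0 * W v) :=
    setIntegral_le_integral (eW_int C0) (ae_of_all _ fun v => by
      have := W_pos v
      show 0 ≤ Real.exp |v| * (C0 * W v)
      positivity)
  have q5 : ∫ v, Real.exp |v| * (C0 * W v) = C0 * ∫ v, Real.exp |v| * (1 * W v) := by
    rw [← integral_const_mul]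
    refine integral_congr_ae (ae_of_all _ fun v => ?_)
    simp only
    ring
  rw [q5] at q4
  have q6 : C0 * ∫ v, Real.exp |v| * (1 * W v) ≤ C0 * (4 * D1) := mul_le_mul_of_nonneg_left eW_mass hC0
  calc 32 * B * Real.exp (-(3 * t)) * ∫ v in Icc (-a) a, Real.exp |v| * (C0 * W v) ≤
        32 * B * Real.exp (-(3 * t)) * (C0 * (4 * D1)) :=
        mul_le_mul_of_nonneg_left (q4.trans q6) (by positivity)
    _ = _ := by ring

/-- the upper bound for the box -/
theorem box_le {f : ℝ → ℝ} {B : ℝ} (hf : MB f B) {t a A : ℝ} (ht : 1 ≤ t) (hA : 0 ≤ A)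
    (hb : ∀ u ∈ Icc (t - a - 1) (t + a + 1), f u ≤ A * Real.exp (u / 2)) :
    box f (hw t) t a ≤ 168 * C0 * D1 * (A * Real.exp (t / 2)) := by
  have hC0 := C0_nonneg
  have hD1 := D1_nonneg
  have ht0 : 0 < t := by linarith
  have hh0 := hw_pos ht0
  have hh1 := hw_le ht
  unfold box
  set h := hw t with hh
  have q0 : ∀ v ∈ Icc (-a) a, ∫ w in Icc (-1) 1, f (t - v - w) * gk h w ≤
      42 * A * Real.exp (t / 2) * Real.exp |v| := by
    intro v hv
    have i1 := hf.int1 hh0 hh1 t v
    have q1 : ∫ w in Icc (-1) 1, f (t - v - w) * gk h w ≤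
        ∫ w in Icc (-1:ℝ) 1, (A * Real.exp (t / 2) * Real.exp |v|) * (Real.exp |w| * gk h w) := by
      refine setIntegral_mono_on i1.integrableOn ((ea_gk_int hh0 hh1).const_mul _).integrableOn
        measurableSet_Icc fun w hw => ?_
      have hu : t - v - w ∈ Icc (t - a - 1) (t + a + 1) := by
        constructor <;> linarith [hv.1, hv.2, hw.1, hw.2]
      have q2 := hb _ hu
      have q3 : Real.exp ((t - v - w) / 2) ≤ Real.exp (t / 2) * Real.exp |v| * Real.exp |w| := by
        rw [← Real.exp_add, ← Real.exp_add]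
        refine Real.exp_le_exp.2 ?_
        have := neg_abs_le v
        have := neg_abs_le w
        have := abs_nonneg v
        have := abs_nonneg w
        linarith
      have q4 := gk_pos hh0 w
      calc f (t - v - w) * gk h w ≤ (A * (Real.exp (t / 2) * Real.exp |v| * Real.exp |w|)) * gk h w := by
            refine mul_le_mul_of_nonneg_right (q2.trans ?_) q4.le
            exact mul_le_mul_of_nonneg_left q3 (by positivity)
        _ = _ := by ring
    have q2 : ∫ w in Icc (-1:ℝ) 1, (A * Real.exp (t / 2) * Real.exp |v|) * (Real.exp |w| * gk h w) ≤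
        ∫ w, (A * Real.exp (t / 2) * Real.exp |v|) * (Real.exp |w| * gk h w) := by
      refine setIntegral_le_integral ((ea_gk_int hh0 hh1).const_mul _) (ae_of_all _ fun w => ?_)
      have := gk_pos hh0 w
      show 0 ≤ (A * Real.exp (t / 2) * Real.exp |v|) * (Real.exp |w| * gk h w)
      positivity
    have q12 := q1.trans q2
    rw [integral_const_mul] at q12
    have q3 := mul_le_mul_of_nonneg_left (ea_gk_mass hh0 hh1)
      (by positivity : 0 ≤ A * Real.exp (t / 2) * Real.exp |v|)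
    linarith
  obtain ⟨hmass, hmi⟩ := ekp_mass
  have q1 : ∫ v in Icc (-a) a, (∫ w in Icc (-1) 1, f (t - v - w) * gk h w) * kp v ≤
      ∫ v in Icc (-a) a, (42 * A * Real.exp (t / 2)) * (Real.exp |v| * kp v) := by
    refine setIntegral_mono_on (int_inner hf hh0 hh1 t _ _) (hmi.const_mul _).integrableOn measurableSet_Icc
      fun v hv => ?_
    have := mul_le_mul_of_nonneg_right (q0 v hv) (kp_nonneg v)
    linarith
  have q2 : ∫ v in Icc (-a) a, (42 * A * Real.exp (t / 2)) * (Real.exp |v| * kp v) ≤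
      ∫ v, (42 * A * Real.exp (t / 2)) * (Real.exp |v| * kp v) := by
    refine setIntegral_le_integral (hmi.const_mul _) (ae_of_all _ fun v => ?_)
    have := kp_nonneg v
    show 0 ≤ (42 * A * Real.exp (t / 2)) * (Real.exp |v| * kp v)
    positivity
  have q12 := q1.trans q2
  rw [integral_const_mul] at q12
  have q3 := mul_le_mul_of_nonneg_left hmass (by positivity : 0 ≤ 42 * A * Real.exp (t / 2))
  linarith

end

end Pool.Agent.V5helper60.MW
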