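import Pool.Agent.V5helper60.MW.Core2

/-!
# From the core inequality to windows
-/

set_option autoImplicit false
set_option maxHeartbeats 4000000

open MeasureTheory Filter Topology Set

namespace Pool.Agent.V5helper60.MW

open Pool.Agent.W120.WM (gk)
open H313.TK

noncomputable section

/-- the conclusion of the core inequality -/
def CoreI (m : ℝ → ℝ) (Lf : ℝ → ℝ) : Prop :=
  ∃ c D : ℝ, 0 < c ∧ 0 < D ∧ ∀ᶠ t in atTop, ∀ a : ℝ, 0 ≤ a → D * (Real.log t) ^ 2 ≤ Real.exp (2 * a) →
      ∀ s : ℝ, s = 1 ∨ s = -1 → c * (Lf t * Real.exp (t / 2)) ≤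
        ∫ v in Icc (-a) a, (∫ w in Icc (-1) 1, max (s * m (t - v - w)) 0 * gk (hw t) w) * kp v

theorem ekp_mass : ∫ v, Real.exp |v| * kp v ≤ 4 * C0 * D1 ∧ Integrable (fun v => Real.exp |v| * kp v) := by
  have hC0 := C0_nonneg
  have hi : Integrable (fun v => Real.exp |v| * kp v) := by
    refine (eW_int C0).mono' ?_ (ae_of_all _ fun v => ?_)
    · have := kp_cont
      exact (by fun_prop : Continuous fun v => Real.exp |v| * kp v).aestronglyMeasurable
    · rw [Real.norm_eq_abs, abs_mul, abs_of_pos (Real.exp_pos _), abs_of_nonneg (kp_nonneg v)]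
      exact mul_le_mul_of_nonneg_left (kp_bounds v).2 (Real.exp_pos _).le
  refine ⟨?_, hi⟩
  have q4 : ∫ v, Real.exp |v| * kp v ≤ ∫ v, Real.exp |v| * (C0 * W v) :=
    integral_mono hi (eW_int C0) fun v => mul_le_mul_of_nonneg_left (kp_bounds v).2 (Real.exp_pos _).le
  have q5 : ∫ v, Real.exp |v| * (C0 * W v) = C0 * ∫ v, Real.exp |v| * (1 * W v) := by
    rw [← integral_const_mul]
    refine integral_congr_ae (ae_of_all _ fun v => ?_)
    simp only
    ring
  rw [q5] at q4
  have q6 : C0 * ∫ v, Real.exp |v| * (1 * W v) ≤ C0 * (4 * D1) := mul_le_mul_of_nonneg_left eW_mass hC0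
  linarith

/-- integrability on products of intervals -/
theorem int_box {m : ℝ → ℝ} {B : ℝ} (hm : MB m B) {h : ℝ} (hh : 0 < h) (h1 : h ≤ 1) (t : ℝ) (V U : Set ℝ) :
    Integrable (fun p : ℝ × ℝ => m (t - p.1 - p.2) * gk h p.2 * kp p.1)
      ((volume.restrict V).prod (volume.restrict U)) := by
  have k1 := (hm.prod hh h1 t kc_DK).re
  have k2 : Integrable (fun p : ℝ × ℝ => m (t - p.1 - p.2) * gk h p.2 * kp p.1)
      (volume.prod volume) := by
    refine k1.congr (ae_of_all _ fun p => ?_)
    simp [kc]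
  exact k2.mono_measure (Measure.prod_mono Measure.restrict_le_self Measure.restrict_le_self)

theorem int_inner {m : ℝ → ℝ} {B : ℝ} (hm : MB m B) {h : ℝ} (hh : 0 < h) (h1 : h ≤ 1) (t : ℝ) (V U : Set ℝ) :
    IntegrableOn (fun v : ℝ => (∫ w in U, m (t - v - w) * gk h w) * kp v) V := by
  have k := (int_box hm hh h1 t V U).integral_prod_left
  refine k.congr (ae_of_all _ fun v => ?_)
  simp only
  rw [integral_mul_const]

theorem avg_like {m : ℝ → ℝ} {B : ℝ} (hm : MB m B) {s : ℝ} (hs : s = 1 ∨ s = -1) (t w a : ℝ) :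
    IntegrableOn (fun v => max (s * m (t - v - w)) 0 * kp v) (Icc (-a) a) := by
  have hpm := hm.pos hs
  have hmeas := hm.meas
  have hB := hm.nonneg
  refine Integrable.integrableOn ?_
  refine (ekp_mass.2.const_mul (B * (Real.exp (t / 2) + Real.exp t) * Real.exp |w|)).mono' ?_
    (ae_of_all _ fun v => ?_)
  · have := kp_cont
    exact (by fun_prop : Measurable fun v => max (s * m (t - v - w)) 0 * kp v).aestronglyMeasurable
  · have h1 := hpm.bd2 t v w
    rw [Real.norm_eq_abs, abs_mul, abs_of_nonneg (kp_nonneg v)]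
    refine (mul_le_mul_of_nonneg_right h1 (kp_nonneg v)).trans (le_of_eq ?_)
    ring

/-- the sup version -/
theorem sup_of {m : ℝ → ℝ} {B : ℝ} (hm : MB m B) {t a c E : ℝ} (ht : 1 ≤ t) (s : ℝ) (hs : s = 1 ∨ s = -1)
    (hE : 0 < E) (hc : 0 < c)
    (hcore : c * (E * Real.exp (t / 2)) ≤
      ∫ v in Icc (-a) a, (∫ w in Icc (-1) 1, max (s * m (t - v - w)) 0 * gk (hw t) w) * kp v) :
    ∃ u ∈ Icc (t - a - 1) (t + a + 1), c / (168 * C0 * D1 + 1) * E * Real.exp (u / 2) ≤ s * m u := by
  by_contra hcon
  push Not at hcon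
  have hC0 := C0_nonneg
  have hD1 := D1_nonneg
  have ht0 : 0 < t := by linarith
  have hh0 := hw_pos ht0
  have hh1 := hw_le ht
  set h := hw t with hh
  set c1 : ℝ := c / (168 * C0 * D1 + 1) with hc1
  have hc10 : 0 < c1 := by positivity
  have hpm := hm.pos hs
  have q0 : ∀ v ∈ Icc (-a) a, ∫ w in Icc (-1) 1, max (s * m (t - v - w)) 0 * gk h w ≤
      42 * c1 * E * Real.exp (t / 2) * Real.exp |v| := by
    intro v hv
    have i1 := hpm.int1 hh0 hh1 t v
    have q1 : ∫ w in Icc (-1) 1, max (s * m (t - v - w)) 0 * gk h w ≤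
        ∫ w in Icc (-1:ℝ) 1, (c1 * E * Real.exp (t / 2) * Real.exp |v|) * (Real.exp |w| * gk h w) := by
      refine setIntegral_mono_on i1.integrableOn ((ea_gk_int hh0 hh1).const_mul _).integrableOn
        measurableSet_Icc fun w hw => ?_
      have hu : t - v - w ∈ Icc (t - a - 1) (t + a + 1) := by
        constructor <;> linarith [hv.1, hv.2, hw.1, hw.2]
      have q2 : max (s * m (t - v - w)) 0 ≤ c1 * E * Real.exp ((t - v - w) / 2) :=
        max_le (hcon _ hu).le (by positivity)
      have q3 : Real.exp ((t - v - w) / 2) ≤ Real.exp (t / 2) * Real.exp |v| * Real.exp |w| := by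
        rw [← Real.exp_add, ← Real.exp_add]
        refine Real.exp_le_exp.2 ?_
        have := neg_abs_le v
        have := neg_abs_le w
        have := abs_nonneg v
        have := abs_nonneg w
        linarith
      have q4 := gk_pos hh0 w
      calc max (s * m (t - v - w)) 0 * gk h w ≤ (c1 * E * (Real.exp (t / 2) * Real.exp |v| * Real.exp |w|)) * gk h w := by
            refine mul_le_mul_of_nonneg_right (q2.trans ?_) q4.le
            exact mul_le_mul_of_nonneg_left q3 (by positivity)
        _ = _ := by ring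
    have q2 : ∫ w in Icc (-1:ℝ) 1, (c1 * E * Real.exp (t / 2) * Real.exp |v|) * (Real.exp |w| * gk h w) ≤
        ∫ w, (c1 * E * Real.exp (t / 2) * Real.exp |v|) * (Real.exp |w| * gk h w) := by
      refine setIntegral_le_integral ((ea_gk_int hh0 hh1).const_mul _) (ae_of_all _ fun w => ?_)
      have := gk_pos hh0 w
      show 0 ≤ (c1 * E * Real.exp (t / 2) * Real.exp |v|) * (Real.exp |w| * gk h w)
      positivity
    have q12 := q1.trans q2
    rw [integral_const_mul] at q12
    have q3 := mul_le_mul_of_nonneg_left (ea_gk_mass hh0 hh1)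
      (by positivity : 0 ≤ c1 * E * Real.exp (t / 2) * Real.exp |v|)
    linarith
  obtain ⟨hmass, hmi⟩ := ekp_mass
  have q1 : ∫ v in Icc (-a) a, (∫ w in Icc (-1) 1, max (s * m (t - v - w)) 0 * gk h w) * kp v ≤
      ∫ v in Icc (-a) a, (42 * c1 * E * Real.exp (t / 2)) * (Real.exp |v| * kp v) := by
    refine setIntegral_mono_on (int_inner hpm hh0 hh1 t _ _) (hmi.const_mul _).integrableOn measurableSet_Icc
      fun v hv => ?_
    have := mul_le_mul_of_nonneg_right (q0 v hv) (kp_nonneg v)
    linarith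
  have q2 : ∫ v in Icc (-a) a, (42 * c1 * E * Real.exp (t / 2)) * (Real.exp |v| * kp v) ≤
      ∫ v, (42 * c1 * E * Real.exp (t / 2)) * (Real.exp |v| * kp v) := by
    refine setIntegral_le_integral (hmi.const_mul _) (ae_of_all _ fun v => ?_)
    have := kp_nonneg v
    show 0 ≤ (42 * c1 * E * Real.exp (t / 2)) * (Real.exp |v| * kp v)
    positivity
  have q12 := (hcore.trans q1).trans q2
  rw [integral_const_mul] at q12
  have q3 := mul_le_mul_of_nonneg_left hmass (by positivity : 0 ≤ 42 * c1 * E * Real.exp (t / 2))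
  have q4 : c * (E * Real.exp (t / 2)) ≤ 42 * c1 * E * Real.exp (t / 2) * (4 * C0 * D1) := by linarith
  have q5 : 42 * c1 * E * Real.exp (t / 2) * (4 * C0 * D1) =
      (c * (E * Real.exp (t / 2))) * ((168 * C0 * D1) / (168 * C0 * D1 + 1)) := by
    rw [hc1]
    field_simp
    ring
  rw [q5] at q4
  have q6 : (168 * C0 * D1) / (168 * C0 * D1 + 1) < 1 := by
    rw [div_lt_one (by positivity)]
    linarith
  have q7 : 0 < c * (E * Real.exp (t / 2)) := by positivity
  nlinarith

/-- the mean version -/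
theorem mean_of {m : ℝ → ℝ} {B : ℝ} (hm : MB m B) {t a c E : ℝ} (ht : 1 ≤ t) (s : ℝ) (hs : s = 1 ∨ s = -1)
    (hcore : c * (E * Real.exp (t / 2)) ≤
      ∫ v in Icc (-a) a, (∫ w in Icc (-1) 1, max (s * m (t - v - w)) 0 * gk (hw t) w) * kp v) :
    c * E ≤ 168 * C0 * ∫ u in Icc (t - a - 1) (t + a + 1), max (s * m u) 0 * Real.exp (-(u / 2)) := by
  have hC0 := C0_nonneg
  have ht0 : 0 < t := by linarith
  have hh0 := hw_pos ht0
  have hh1 := hw_le ht
  set h := hw t with hh
  have hpm := hm.pos hs
  set I : ℝ := ∫ u in Icc (t - a - 1) (t + a + 1), max (s * m u) 0 * Real.exp (-(u / 2)) with hI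
  have hI0 : 0 ≤ I := integral_nonneg fun u => mul_nonneg (le_max_right _ _) (Real.exp_pos _).le
  have hmeas := hm.meas
  have hB := hm.nonneg
  -- local integrability
  have hloc : ∀ x y : ℝ, IntegrableOn (fun u => max (s * m u) 0 * Real.exp (-(u / 2))) (Icc x y) := by
    intro x y
    refine Integrable.mono' (g := fun u => B * (1 + Real.exp (u / 2))) ?_ ?_ (ae_of_all _ fun u => ?_)
    · exact (by fun_prop : Continuous fun u : ℝ => B * (1 + Real.exp (u / 2))).continuousOn.integrableOn_compact isCompact_Icc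
    · exact (by fun_prop : Measurable fun u => max (s * m u) 0 * Real.exp (-(u / 2))).aestronglyMeasurable
    · rw [Real.norm_eq_abs, abs_mul, abs_of_pos (Real.exp_pos _)]
      refine (mul_le_mul_of_nonneg_right (hpm.bd u) (Real.exp_pos _).le).trans (le_of_eq ?_)
      rw [mul_assoc, add_mul, ← Real.exp_add, ← Real.exp_add]
      congr 2
      · rw [add_neg_cancel, Real.exp_zero]
      · congr 1; ring
  have hbox := int_box hpm hh0 hh1 t (Icc (-a) a) (Icc (-1) 1)
  have key := integral_integral_swap (μ := volume.restrict (Icc (-a) a)) (ν := volume.restrict (Icc (-1:ℝ) 1))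
    (f := fun (v w : ℝ) => max (s * m (t - v - w)) 0 * gk h w * kp v) hbox
  have e1 : ∫ v in Icc (-a) a, (∫ w in Icc (-1) 1, max (s * m (t - v - w)) 0 * gk h w) * kp v =
      ∫ w in Icc (-1:ℝ) 1, ∫ v in Icc (-a) a, max (s * m (t - v - w)) 0 * gk h w * kp v := by
    rw [← key]
    refine integral_congr_ae (ae_of_all _ fun v => ?_)
    simp only
    rw [integral_mul_const]
  have hin : ∀ w ∈ Icc (-1:ℝ) 1, ∫ v in Icc (-a) a, max (s * m (t - v - w)) 0 * gk h w * kp v ≤
      4 * C0 * Real.exp (t / 2) * I * (Real.exp |w| * gk h w) := by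
    intro w hw
    have hgw := gk_pos hh0 w
    have q1 : ∫ v in Icc (-a) a, max (s * m (t - v - w)) 0 * gk h w * kp v ≤
        ∫ v in Icc (-a) a, (4 * C0 * Real.exp (t / 2) * Real.exp |w| * gk h w) *
          (max (s * m (t - w - v)) 0 * Real.exp (-((t - w - v) / 2))) := by
      have hGi : IntegrableOn (fun v => max (s * m (t - w - v)) 0 * Real.exp (-((t - w - v) / 2))) (Icc (-a) a) := by
        refine Integrable.mono' (g := fun v => B * (1 + Real.exp ((t - w - v) / 2))) ?_ ?_ (ae_of_all _ fun v => ?_)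
        · exact (by fun_prop : Continuous fun v : ℝ => B * (1 + Real.exp ((t - w - v) / 2))).continuousOn.integrableOn_compact isCompact_Icc
        · exact (by fun_prop : Measurable fun v => max (s * m (t - w - v)) 0 * Real.exp (-((t - w - v) / 2))).aestronglyMeasurable
        · rw [Real.norm_eq_abs, abs_mul, abs_of_pos (Real.exp_pos _)]
          refine (mul_le_mul_of_nonneg_right (hpm.bd _) (Real.exp_pos _).le).trans (le_of_eq ?_)
          rw [mul_assoc, add_mul, ← Real.exp_add, ← Real.exp_add]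
          congr 2
          · rw [add_neg_cancel, Real.exp_zero]
          · congr 1; ring
      have hGi2 : IntegrableOn (fun v => max (s * m (t - v - w)) 0 * gk h w * kp v) (Icc (-a) a) := by
        have k := avg_like hm hs t w a
        refine (k.const_mul (gk h w)).congr (ae_of_all _ fun v => ?_)
        simp only
        ring
      refine setIntegral_mono_on hGi2 (hGi.const_mul _) measurableSet_Icc fun v hv => ?_
      have q2 := kp_le_exp (1 / 4) v (by norm_num) (by norm_num)
      have q3 : Real.exp (2 * (1 / 4) * v) ≤ Real.exp (t / 2) * Real.exp |w| * Real.exp (-((t - w - v) / 2)) := by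
        rw [← Real.exp_add, ← Real.exp_add]
        refine Real.exp_le_exp.2 ?_
        have := neg_abs_le w
        have := abs_nonneg w
        linarith
      have q4 : 0 ≤ max (s * m (t - v - w)) 0 := le_max_right _ _
      rw [show t - w - v = t - v - w by ring] at q3 ⊢
      calc max (s * m (t - v - w)) 0 * gk h w * kp v ≤
            max (s * m (t - v - w)) 0 * gk h w * (4 * C0 * (Real.exp (t / 2) * Real.exp |w| * Real.exp (-((t - v - w) / 2)))) := by
            refine mul_le_mul_of_nonneg_left (q2.trans ?_) (by positivity)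
            exact mul_le_mul_of_nonneg_left q3 (by positivity)
        _ = _ := by ring
    rw [integral_const_mul] at q1
    have q2 := refl_Icc (fun u => max (s * m u) 0 * Real.exp (-(u / 2))) (t - w) a
    have q3 : ∫ u in Icc (t - w - a) (t - w + a), max (s * m u) 0 * Real.exp (-(u / 2)) ≤ I := by
      refine setIntegral_mono_set (hloc _ _) (ae_of_all _ fun u => ?_) (Eventually.of_forall ?_)
      · show 0 ≤ max (s * m u) 0 * Real.exp (-(u / 2))
        exact mul_nonneg (le_max_right _ _) (Real.exp_pos _).le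
      · intro u hu
        exact ⟨by linarith [hu.1, hw.2], by linarith [hu.2, hw.1]⟩
    rw [q2] at q1
    refine q1.trans ?_
    calc (4 * C0 * Real.exp (t / 2) * Real.exp |w| * gk h w) *
          ∫ u in Icc (t - w - a) (t - w + a), max (s * m u) 0 * Real.exp (-(u / 2))
        ≤ (4 * C0 * Real.exp (t / 2) * Real.exp |w| * gk h w) * I := mul_le_mul_of_nonneg_left q3 (by positivity)
      _ = _ := by ring
  have e2 : ∫ w in Icc (-1:ℝ) 1, ∫ v in Icc (-a) a, max (s * m (t - v - w)) 0 * gk h w * kp v ≤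
      ∫ w in Icc (-1:ℝ) 1, 4 * C0 * Real.exp (t / 2) * I * (Real.exp |w| * gk h w) := by
    refine setIntegral_mono_on hbox.integral_prod_right ((ea_gk_int hh0 hh1).const_mul _).integrableOn
      measurableSet_Icc hin
  have e3 : ∫ w in Icc (-1:ℝ) 1, 4 * C0 * Real.exp (t / 2) * I * (Real.exp |w| * gk h w) ≤
      ∫ w, 4 * C0 * Real.exp (t / 2) * I * (Real.exp |w| * gk h w) := by
    refine setIntegral_le_integral ((ea_gk_int hh0 hh1).const_mul _) (ae_of_all _ fun w => ?_)
    have := gk_pos hh0 w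
    show 0 ≤ 4 * C0 * Real.exp (t / 2) * I * (Real.exp |w| * gk h w)
    positivity
  have e23 := e2.trans e3
  rw [integral_const_mul] at e23
  have e4 := mul_le_mul_of_nonneg_left (ea_gk_mass hh0 hh1) (by positivity : 0 ≤ 4 * C0 * Real.exp (t / 2) * I)
  rw [e1] at hcore
  have e5 : c * (E * Real.exp (t / 2)) ≤ (168 * C0 * I) * Real.exp (t / 2) := by linarith
  have e6 : (c * E) * Real.exp (t / 2) ≤ (168 * C0 * I) * Real.exp (t / 2) := by linarith
  exact le_of_mul_le_mul_right e6 (Real.exp_pos _)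

end

end Pool.Agent.V5helper60.MW
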