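import Pool.Agent.V5helper60.MW.Gauss
import Pool.Agent.H313R3.TK.I

/-!
# One-sided windows from a smoothed bound: abstract form
-/

set_option autoImplicit false

open MeasureTheory Filter Topology Set

namespace Pool.Agent.V5helper60.MW

open Pool.Agent.W120.WM (gk)
open H313.TK

noncomputable section

/-- growth condition -/
structure MB (m : ℝ → ℝ) (B : ℝ) : Prop where
  meas : Measurable m
  nonneg : 0 ≤ B
  bd : ∀ u, |m u| ≤ B * (Real.exp (u / 2) + Real.exp u)

/-- Gaussian average -/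
def Sf (m : ℝ → ℝ) (h u : ℝ) : ℝ := ∫ w : ℝ, m (u - w) * gk h w

theorem MB.bd2 {m : ℝ → ℝ} {B : ℝ} (hm : MB m B) (t v w : ℝ) :
    |m (t - v - w)| ≤ B * (Real.exp (t / 2) + Real.exp t) * Real.exp |v| * Real.exp |w| := by
  refine (hm.bd _).trans ?_
  have hB := hm.nonneg
  have h1 : Real.exp ((t - v - w) / 2) ≤ Real.exp (t / 2) * Real.exp |v| * Real.exp |w| := by
    rw [← Real.exp_add, ← Real.exp_add]
    refine Real.exp_le_exp.2 ?_
    have := neg_abs_le v
    have := neg_abs_le w
    have := abs_nonneg v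
    have := abs_nonneg w
    linarith
  have h2 : Real.exp (t - v - w) ≤ Real.exp t * Real.exp |v| * Real.exp |w| := by
    rw [← Real.exp_add, ← Real.exp_add]
    refine Real.exp_le_exp.2 ?_
    have := neg_abs_le v
    have := neg_abs_le w
    linarith
  calc B * (Real.exp ((t - v - w) / 2) + Real.exp (t - v - w)) ≤
        B * (Real.exp (t / 2) * Real.exp |v| * Real.exp |w| + Real.exp t * Real.exp |v| * Real.exp |w|) :=
        mul_le_mul_of_nonneg_left (add_le_add h1 h2) hB
    _ = _ := by ring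

theorem ea_gk_int {h : ℝ} (hh : 0 < h) (h1 : h ≤ 1) : Integrable (fun w => Real.exp |w| * gk h w) := by
  refine ((gw_int hh).const_mul 21).mono' ?_ (ae_of_all _ fun w => ?_)
  · have := gk_cont h
    exact (by fun_prop : Continuous fun w => Real.exp |w| * gk h w).aestronglyMeasurable
  · have h2 := gA hh h1 w
    have h3 := gk_pos hh w
    rw [Real.norm_eq_abs, abs_of_pos (by positivity)]
    refine le_trans (mul_le_mul_of_nonneg_right (Real.exp_le_exp.2 ?_) h3.le) h2
    have := abs_nonneg w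
    linarith

theorem ea_gk_mass {h : ℝ} (hh : 0 < h) (h1 : h ≤ 1) : ∫ w, Real.exp |w| * gk h w ≤ 42 := by
  have h4 : ∫ w, Real.exp |w| * gk h w ≤ ∫ w, 21 * gw h w := by
    refine integral_mono (ea_gk_int hh h1) ((gw_int hh).const_mul 21) fun w => ?_
    have h2 := gA hh h1 w
    have h3 := gk_pos hh w
    refine le_trans (mul_le_mul_of_nonneg_right (Real.exp_le_exp.2 ?_) h3.le) h2
    have := abs_nonneg w
    linarith
  rw [integral_const_mul, gw_mass hh] at h4
  linarith

theorem MB.int1 {m : ℝ → ℝ} {B : ℝ} (hm : MB m B) {h : ℝ} (hh : 0 < h) (h1 : h ≤ 1) (t v : ℝ) :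
    Integrable (fun w => m (t - v - w) * gk h w) := by
  refine ((ea_gk_int hh h1).const_mul (B * (Real.exp (t / 2) + Real.exp t) * Real.exp |v|)).mono' ?_
    (ae_of_all _ fun w => ?_)
  · have h2 := hm.meas
    have h3 := (gk_cont h).measurable
    exact (by fun_prop : Measurable fun w => m (t - v - w) * gk h w).aestronglyMeasurable
  · rw [Real.norm_eq_abs, abs_mul, abs_of_pos (gk_pos hh w)]
    calc |m (t - v - w)| * gk h w ≤
          (B * (Real.exp (t / 2) + Real.exp t) * Real.exp |v| * Real.exp |w|) * gk h w :=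
          mul_le_mul_of_nonneg_right (hm.bd2 t v w) (gk_pos hh w).le
      _ = _ := by ring

theorem eW_int (C : ℝ) : Integrable (fun v => Real.exp |v| * (C * W v)) := by
  refine ((int_exp_abs 1 one_pos).const_mul (|C| * 4)).mono' ?_ (ae_of_all _ fun v => ?_)
  · have := W_cont
    exact (by fun_prop : Continuous fun v => Real.exp |v| * (C * W v)).aestronglyMeasurable
  · have h1 := W_decay v
    have h2 := W_pos v
    rw [Real.norm_eq_abs, abs_mul, abs_mul, abs_of_pos h2, abs_of_pos (Real.exp_pos _)]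
    have h3 : Real.exp |v| ≤ Real.exp (2 * |v|) := Real.exp_le_exp.2 (by have := abs_nonneg v; linarith)
    calc Real.exp |v| * (|C| * W v) ≤ Real.exp (2 * |v|) * (|C| * W v) :=
          mul_le_mul_of_nonneg_right h3 (by positivity)
      _ = |C| * (W v * Real.exp (2 * |v|)) := by ring
      _ ≤ |C| * (4 * Real.exp (-|v|)) := mul_le_mul_of_nonneg_left h1 (abs_nonneg _)
      _ = _ := by rw [one_mul]; ring

theorem eW_mass : ∫ v, Real.exp |v| * (1 * W v) ≤ 4 * D1 := by
  have h4 : ∫ v, Real.exp |v| * (1 * W v) ≤ ∫ v, 4 * Real.exp (-(1 * |v|)) := by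
    refine integral_mono (eW_int 1) ((int_exp_abs 1 one_pos).const_mul 4) fun v => ?_
    have h1 := W_decay v
    have h2 := W_pos v
    have h3 : Real.exp |v| ≤ Real.exp (2 * |v|) := Real.exp_le_exp.2 (by have := abs_nonneg v; linarith)
    show Real.exp |v| * (1 * W v) ≤ 4 * Real.exp (-(1 * |v|))
    calc Real.exp |v| * (1 * W v) ≤ Real.exp (2 * |v|) * (1 * W v) :=
          mul_le_mul_of_nonneg_right h3 (by positivity)
      _ = W v * Real.exp (2 * |v|) := by ring
      _ ≤ 4 * Real.exp (-|v|) := h1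
      _ = _ := by rw [one_mul]
  rw [integral_const_mul] at h4
  exact h4

/-- integrability on the product -/
theorem MB.prod {m : ℝ → ℝ} {B : ℝ} (hm : MB m B) {h : ℝ} (hh : 0 < h) (h1 : h ≤ 1) (t : ℝ)
    {K : ℝ → ℂ} (hK : DK K) :
    Integrable (fun p : ℝ × ℝ => ((m (t - p.1 - p.2) * gk h p.2 : ℝ) : ℂ) * K p.1)
      (volume.prod volume) := by
  obtain ⟨C, hC, hb⟩ := hK.bd
  have hB := hm.nonneg
  have hdom := ((eW_int C).mul_prod (ea_gk_int hh h1)).const_mul (B * (Real.exp (t / 2) + Real.exp t))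
  refine hdom.mono' ?_ (ae_of_all _ fun p => ?_)
  · have h2 := hm.meas
    have h3 := (gk_cont h).measurable
    have h4 := hK.cont.measurable
    exact (by fun_prop : Measurable fun p : ℝ × ℝ =>
      ((m (t - p.1 - p.2) * gk h p.2 : ℝ) : ℂ) * K p.1).aestronglyMeasurable
  · rw [norm_mul, Complex.norm_real, Real.norm_eq_abs, abs_mul, abs_of_pos (gk_pos hh p.2)]
    have h5 := gk_pos hh p.2
    have h6 := W_pos p.1
    calc |m (t - p.1 - p.2)| * gk h p.2 * ‖K p.1‖ ≤
          (B * (Real.exp (t / 2) + Real.exp t) * Real.exp |p.1| * Real.exp |p.2|) * gk h p.2 * (C * W p.1) := by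
          refine mul_le_mul ?_ (hb _) (norm_nonneg _) (by positivity)
          exact mul_le_mul_of_nonneg_right (hm.bd2 t p.1 p.2) h5.le
      _ = _ := by ring

/-- Fubini -/
theorem MB.fub {m : ℝ → ℝ} {B : ℝ} (hm : MB m B) {h : ℝ} (hh : 0 < h) (h1 : h ≤ 1) (t : ℝ)
    {K : ℝ → ℂ} (hK : DK K) :
    ∫ v : ℝ, ((Sf m h (t - v) : ℝ) : ℂ) * K v =
      ∫ w : ℝ, (gk h w : ℂ) * ∫ v : ℝ, (m (t - w - v) : ℂ) * K v := by
  have key := integral_integral_swap (μ := volume) (ν := volume)
    (f := fun (v w : ℝ) => ((m (t - v - w) * gk h w : ℝ) : ℂ) * K v) (hm.prod hh h1 t hK)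
  have e1 : ∀ v : ℝ, ∫ w : ℝ, ((m (t - v - w) * gk h w : ℝ) : ℂ) * K v = ((Sf m h (t - v) : ℝ) : ℂ) * K v := by
    intro v
    rw [integral_mul_const, integral_complex_ofReal]
    rfl
  have e2 : ∀ w : ℝ, ∫ v : ℝ, ((m (t - v - w) * gk h w : ℝ) : ℂ) * K v =
      (gk h w : ℂ) * ∫ v : ℝ, (m (t - w - v) : ℂ) * K v := by
    intro w
    rw [← integral_const_mul]
    refine integral_congr_ae (ae_of_all _ fun v => ?_)
    simp only
    rw [show t - v - w = t - w - v by ring]
    push_cast
    ring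
  simp only [e1, e2] at key
  exact key

theorem MB.intS {m : ℝ → ℝ} {B : ℝ} (hm : MB m B) {h : ℝ} (hh : 0 < h) (h1 : h ≤ 1) (t : ℝ)
    {K : ℝ → ℂ} (hK : DK K) : Integrable (fun v : ℝ => ((Sf m h (t - v) : ℝ) : ℂ) * K v) := by
  have key := (hm.prod hh h1 t hK).integral_prod_left
  refine key.congr (ae_of_all _ fun v => ?_)
  simp only
  rw [integral_mul_const, integral_complex_ofReal]
  rfl

theorem MB.intR {m : ℝ → ℝ} {B : ℝ} (hm : MB m B) {h : ℝ} (hh : 0 < h) (h1 : h ≤ 1) (t : ℝ) :
    Integrable (fun v : ℝ => Sf m h (t - v) * kp v) := by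
  have key := (hm.intS hh h1 t kc_DK).re
  refine key.congr (ae_of_all _ fun v => ?_)
  simp [kc]

theorem MB.pos {m : ℝ → ℝ} {B : ℝ} (hm : MB m B) {s : ℝ} (hs : s = 1 ∨ s = -1) :
    MB (fun u => max (s * m u) 0) B := by
  have h2 := hm.meas
  exact ⟨by fun_prop, hm.nonneg, fun u => (part_le s hs _).trans (hm.bd u)⟩

theorem MB.abs {m : ℝ → ℝ} {B : ℝ} (hm : MB m B) : MB (fun u => |m u|) B := by
  have h2 := hm.meas
  exact ⟨by fun_prop, hm.nonneg, fun u => by rw [abs_abs]; exact hm.bd u⟩

/-- the smoothed parts -/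
theorem Sf_parts {m : ℝ → ℝ} {B : ℝ} (hm : MB m B) {h : ℝ} (hh : 0 < h) (h1 : h ≤ 1) (u : ℝ) {s : ℝ}
    (hs : s = 1 ∨ s = -1) : |Sf m h u| ≤ 2 * Sf (fun u => max (s * m u) 0) h u - s * Sf m h u := by
  have i1 := hm.int1 hh h1 u 0
  have i2 := (hm.pos hs).int1 hh h1 u 0
  have i3 := hm.abs.int1 hh h1 u 0
  simp only [sub_zero] at i1 i2 i3
  have e1 : |Sf m h u| ≤ ∫ w, |m (u - w)| * gk h w := by
    unfold Sf
    refine (abs_integral_le_integral_abs).trans (le_of_eq ?_)
    refine integral_congr_ae (ae_of_all _ fun w => ?_)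
    simp only
    rw [abs_mul, abs_of_pos (gk_pos hh w)]
  refine e1.trans (le_of_eq ?_)
  unfold Sf
  rw [← integral_const_mul, ← integral_const_mul, ← integral_sub (i2.const_mul 2) (i1.const_mul s)]
  refine integral_congr_ae (ae_of_all _ fun w => ?_)
  simp only
  rw [part_id s hs (m (u - w))]
  ring

/-- the tail of the weight -/
theorem tailW (a : ℝ) (ha : 0 ≤ a) :
    ∫ v in (Icc (-a) a)ᶜ, Real.exp |v| * (1 * W v) ≤ 16 * D1 * (Real.exp (2 * a) * W (-a)) := by
  have hW := W_pos (-a)
  have hj : Integrable (fun v : ℝ => 8 * (Real.exp (2 * a) * W (-a)) *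
      (Real.exp (-(1 * |v - a|)) + Real.exp (-(1 * |v - -a|)))) :=
    (((int_exp_abs 1 one_pos).comp_sub_right a).add ((int_exp_abs 1 one_pos).comp_sub_right (-a))).const_mul _
  have hpt : ∀ v ∈ (Icc (-a) a)ᶜ, Real.exp |v| * (1 * W v) ≤ 8 * (Real.exp (2 * a) * W (-a)) *
      (Real.exp (-(1 * |v - a|)) + Real.exp (-(1 * |v - -a|))) := by
    intro v hv
    have hv2 : a ≤ |v| := by
      by_contra h
      push Not at h
      rw [abs_lt] at h
      exact hv ⟨h.1.le, h.2.le⟩
    rw [one_mul, one_mul, one_mul]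
    have hEa : 1 ≤ Real.exp a := Real.one_le_exp ha
    rcases le_total 0 v with h | h
    · rw [abs_of_nonneg h] at hv2 ⊢
      have h1 := W_dom a v (Or.inr ⟨ha, hv2⟩)
      rw [W_sym a ha] at h1
      set r := |a - v| with hr
      have hr0 : 0 ≤ r := abs_nonneg _
      have hr1 : |v - a| = r := by rw [hr, abs_sub_comm]
      have hr2 : v = a + r := by rw [← hr1, abs_of_nonneg (by linarith)]; ring
      rw [hr1]
      have e0 : Real.exp v = Real.exp a * Real.exp r := by rw [← Real.exp_add, ← hr2]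
      have e1 : Real.exp r * W v ≤ 4 * (Real.exp a * W (-a)) * Real.exp (-r) := by
        have h3 : Real.exp r ≤ Real.exp (2 * r) := Real.exp_le_exp.2 (by linarith)
        have h4 := mul_le_mul_of_nonneg_right h3 (W_pos v).le
        linarith
      have e4 := Real.exp_pos (-|v - -a|)
      have e6 : Real.exp (2 * a) = Real.exp a * Real.exp a := by rw [← Real.exp_add]; congr 1; ring
      calc Real.exp v * W v = Real.exp a * (Real.exp r * W v) := by rw [e0]; ring
        _ ≤ Real.exp a * (4 * (Real.exp a * W (-a)) * Real.exp (-r)) :=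
            mul_le_mul_of_nonneg_left e1 (Real.exp_pos _).le
        _ = 4 * (Real.exp (2 * a) * W (-a)) * Real.exp (-r) := by rw [e6]; ring
        _ ≤ 8 * (Real.exp (2 * a) * W (-a)) * Real.exp (-r) := by
            refine mul_le_mul_of_nonneg_right ?_ (Real.exp_pos _).le
            have : 0 < Real.exp (2 * a) * W (-a) := by positivity
            linarith
        _ ≤ _ := mul_le_mul_of_nonneg_left (by linarith) (by positivity)
    · rw [abs_of_nonpos h] at hv2 ⊢
      have h1 := W_dom (-a) v (Or.inl ⟨by linarith, by linarith⟩)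
      set r := |-a - v| with hr
      have hr0 : 0 ≤ r := abs_nonneg _
      have hr1 : |v - -a| = r := by rw [hr, abs_sub_comm]
      have hr2 : -v = a + r := by rw [hr, abs_of_nonneg (by linarith)]; ring
      rw [hr1, hr2, Real.exp_add]
      have e1 : Real.exp r * W v ≤ 4 * W (-a) * Real.exp (-r) := by
        have h3 : Real.exp r ≤ Real.exp (2 * r) := Real.exp_le_exp.2 (by linarith)
        have h4 := mul_le_mul_of_nonneg_right h3 (W_pos v).le
        linarith
      have e4 := Real.exp_pos (-|v - a|)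
      have e6 : Real.exp a ≤ Real.exp (2 * a) := Real.exp_le_exp.2 (by linarith)
      calc Real.exp a * Real.exp r * W v = Real.exp a * (Real.exp r * W v) := by ring
        _ ≤ Real.exp a * (4 * W (-a) * Real.exp (-r)) := mul_le_mul_of_nonneg_left e1 (Real.exp_pos _).le
        _ = 4 * (Real.exp a * W (-a)) * Real.exp (-r) := by ring
        _ ≤ 4 * (Real.exp (2 * a) * W (-a)) * Real.exp (-r) := by
            refine mul_le_mul_of_nonneg_right ?_ (Real.exp_pos _).le
            exact mul_le_mul_of_nonneg_left (mul_le_mul_of_nonneg_right e6 hW.le) (by norm_num)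
        _ ≤ 8 * (Real.exp (2 * a) * W (-a)) * Real.exp (-r) := by
            refine mul_le_mul_of_nonneg_right ?_ (Real.exp_pos _).le
            have : 0 < Real.exp (2 * a) * W (-a) := by positivity
            linarith
        _ ≤ _ := mul_le_mul_of_nonneg_left (by linarith) (by positivity)
  have e1 := setIntegral_mono_on (eW_int 1).integrableOn hj.integrableOn measurableSet_Icc.compl hpt
  have e2 : ∫ v in (Icc (-a) a)ᶜ, 8 * (Real.exp (2 * a) * W (-a)) *
      (Real.exp (-(1 * |v - a|)) + Real.exp (-(1 * |v - -a|))) ≤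
      ∫ v : ℝ, 8 * (Real.exp (2 * a) * W (-a)) *
      (Real.exp (-(1 * |v - a|)) + Real.exp (-(1 * |v - -a|))) :=
    setIntegral_le_integral hj (ae_of_all _ fun v => by
      show 0 ≤ 8 * (Real.exp (2 * a) * W (-a)) *
        (Real.exp (-(1 * |v - a|)) + Real.exp (-(1 * |v - -a|)))
      positivity)
  refine (e1.trans e2).trans (le_of_eq ?_)
  rw [integral_const_mul, integral_add ((int_exp_abs 1 one_pos).comp_sub_right a)
      ((int_exp_abs 1 one_pos).comp_sub_right (-a)),
      integral_sub_right_eq_self (fun x => Real.exp (-(1 * |x|))) a,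
      integral_sub_right_eq_self (fun x => Real.exp (-(1 * |x|))) (-a)]
  unfold D1
  ring

end

end Pool.Agent.V5helper60.MW
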