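import Pool.Agent.V5helper60.MW.Core2

/-!
# The core inequality, second form
-/

set_option autoImplicit false
set_option maxHeartbeats 4000000

open MeasureTheory Filter Topology Set

namespace Pool.Agent.V5helper60.MW

open Pool.Agent.W120.WM (gk)
open H313.TK

noncomputable section

theorem core' {m : ℝ → ℝ} {B : ℝ} (hm : MB m B) {K : ℝ → ℂ} (hK : DK K) (Lf : ℝ → ℝ)
    (hL : ∀ᶠ t in atTop, 1 ≤ Lf t)
    (h1 : ∃ C : ℝ, ∀ᶠ t in atTop, ∀ v : ℝ,
      |Sf m (hw t) (t - v)| ≤ Real.exp (t / 2) * Real.exp |v| * Real.exp (C * (Real.log t) ^ 2))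
    (ε0 : ℝ → ℝ) (hε0 : Tendsto ε0 atTop (𝓝 0))
    (h2 : ∀ᶠ t in atTop, ∀ w : ℝ,
      |∫ v, m (t - w - v) * kp v| ≤ ε0 t * (Lf t * Real.exp (t / 2)) * Real.exp (2 * |w|))
    (ε1 : ℝ → ℝ) (hε1 : Tendsto ε1 atTop (𝓝 0)) (hε1n : ∀ t, 0 ≤ ε1 t)
    (h3 : ∃ c C : ℝ, 0 < c ∧ ∀ᶠ t in atTop,
      c * (Lf t * Real.exp (t / 2)) ≤ ‖∫ v, (m (t - v) : ℂ) * K v‖ ∧
      ∀ w : ℝ, ‖(∫ v, (m (t - w - v) : ℂ) * K v) - ∫ v, (m (t - v) : ℂ) * K v‖ ≤
        C * (Lf t * Real.exp (t / 2)) * (|w| * Real.exp (3 / 2 * |w|)) +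
          ε1 t * (Lf t * Real.exp (t / 2)) * Real.exp (2 * |w|)) :
    ∃ c D : ℝ, 0 < c ∧ 0 < D ∧ ∀ᶠ t in atTop, ∀ a : ℝ, 0 ≤ a → D * (Real.log t) ^ 2 ≤ Real.exp (2 * a) →
      ∀ s : ℝ, s = 1 ∨ s = -1 → c * (Lf t * Real.exp (t / 2)) ≤
        ∫ v in Icc (-a) a, (∫ w in Icc (-1) 1, max (s * m (t - v - w)) 0 * gk (hw t) w) * kp v := by
  obtain ⟨C1, h1⟩ := h1
  obtain ⟨c, C3, hc, h3⟩ := h3
  obtain ⟨CK, hCK, hKb⟩ := hK.bd
  have hC0 := C0_nonneg
  have hD1 := D1_nonneg
  have hB := hm.nonneg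
  set κ : ℝ := CK + 1 with hκ
  have hκ0 : 0 < κ := by linarith
  refine ⟨c / (32 * κ), 2 * (|C1| + 1), by positivity, by positivity, ?_⟩
  -- the elementary conditions
  have e1 : ∀ᶠ t : ℝ in atTop, |C3| * 84 * hw t + 42 * ε1 t < c / 2 := by
    have : Tendsto (fun t : ℝ => |C3| * 84 * hw t + 42 * ε1 t) atTop (𝓝 0) := by
      simpa using (hw_tendsto.const_mul (|C3| * 84)).add (hε1.const_mul 42)
    exact this.eventually (gt_mem_nhds (by positivity))
  have e2 : ∀ᶠ t : ℝ in atTop, 84 * κ * ε0 t + (2 * κ * C0 + κ) * (64 * D1) * Real.exp (-(Real.log t) ^ 2) < c / 4 := by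
    have : Tendsto (fun t : ℝ => 84 * κ * ε0 t + (2 * κ * C0 + κ) * (64 * D1) * Real.exp (-(Real.log t) ^ 2))
        atTop (𝓝 0) := by
      simpa using (hε0.const_mul (84 * κ)).add (tau_tendsto ((2 * κ * C0 + κ) * (64 * D1)))
    exact this.eventually (gt_mem_nhds (by positivity))
  have e3 : ∀ᶠ t : ℝ in atTop, 128 * B * C0 * D1 * Real.exp (-(3 * t)) < c / (32 * κ) := by
    have h4 : Tendsto (fun t : ℝ => 3 * t) atTop atTop := Tendsto.const_mul_atTop (by norm_num) tendsto_id
    have h5 : Tendsto (fun t : ℝ => Real.exp (-(3 * t))) atTop (𝓝 0) :=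
      Real.tendsto_exp_atBot.comp (tendsto_neg_atTop_atBot.comp h4)
    have : Tendsto (fun t : ℝ => 128 * B * C0 * D1 * Real.exp (-(3 * t))) atTop (𝓝 0) := by
      simpa using h5.const_mul (128 * B * C0 * D1)
    exact this.eventually (gt_mem_nhds (by positivity))
  filter_upwards [hL, h1, h2, h3, e1, e2, e3, eventually_ge_atTop (1:ℝ)] with t tL t1 t2 t3 te1 te2 te3 ht a ha hDa s hs
  have ht0 : 0 < t := by linarith
  set h := hw t with hh
  have hh0 : 0 < h := hw_pos ht0
  have hh1 : h ≤ 1 := hw_le ht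
  set E : ℝ := Lf t * Real.exp (t / 2) with hE
  have hE0 : 0 < E := by positivity
  have hEE : Real.exp (t / 2) ≤ E := le_mul_of_one_le_left (Real.exp_pos _).le tL
  set J : ℝ → ℂ := fun w => ∫ v, (m (t - w - v) : ℂ) * K v with hJ
  have hJ0 : J 0 = ∫ v, (m (t - v) : ℂ) * K v := by simp only [hJ, sub_zero]
  -- the average against K
  have iJ : Integrable (fun w => (gk h w : ℂ) * J w) := by
    have key := (hm.prod hh0 hh1 t hK).integral_prod_right
    refine key.congr (ae_of_all _ fun w => ?_)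
    simp only [hJ]
    rw [← integral_const_mul]
    refine integral_congr_ae (ae_of_all _ fun v => ?_)
    simp only
    rw [show t - v - w = t - w - v by ring]
    push_cast
    ring
  have iG0 : Integrable (fun w => (gk h w : ℂ) * J 0) := (gk_int hh0).ofReal.mul_const _
  have kJ : ‖(∫ w, (gk h w : ℂ) * J w) - J 0‖ ≤ (|C3| * 84 * h + 42 * ε1 t) * E := by
    have q1 : J 0 = ∫ w, (gk h w : ℂ) * J 0 := by
      rw [integral_mul_const, integral_complex_ofReal, gk_mass hh0]
      simp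
    rw [q1, ← integral_sub iJ iG0]
    have q2 : ‖∫ w, ((gk h w : ℂ) * J w - (gk h w : ℂ) * J 0)‖ ≤
        ∫ w, (|C3| * E * (42 * h) + ε1 t * E * 21) * gw h w := by
      refine norm_integral_le_of_norm_le ((gw_int hh0).const_mul _) (ae_of_all _ fun w => ?_)
      rw [← mul_sub, norm_mul, Complex.norm_real, Real.norm_eq_abs, abs_of_pos (gk_pos hh0 w), hJ0]
      have q3 := t3.2 w
      have q4 := gB hh0 hh1 w
      have q5 := gk_pos hh0 w
      have q6 := gA hh0 hh1 w
      have q7 := hε1n t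
      calc gk h w * ‖J w - ∫ v, (m (t - v) : ℂ) * K v‖ ≤
            gk h w * (C3 * E * (|w| * Real.exp (3 / 2 * |w|)) + ε1 t * E * Real.exp (2 * |w|)) :=
            mul_le_mul_of_nonneg_left q3 q5.le
        _ ≤ gk h w * (|C3| * E * (|w| * Real.exp (3 / 2 * |w|)) + ε1 t * E * Real.exp (2 * |w|)) := by
            refine mul_le_mul_of_nonneg_left (add_le_add ?_ le_rfl) q5.le
            refine mul_le_mul_of_nonneg_right ?_ (by positivity)
            exact mul_le_mul_of_nonneg_right (le_abs_self _) hE0.le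
        _ = |C3| * E * (|w| * Real.exp (3 / 2 * |w|) * gk h w) + ε1 t * E * (Real.exp (2 * |w|) * gk h w) := by ring
        _ ≤ |C3| * E * (42 * h * gw h w) + ε1 t * E * (21 * gw h w) :=
            add_le_add (mul_le_mul_of_nonneg_left q4 (by positivity)) (mul_le_mul_of_nonneg_left q6 (by positivity))
        _ = _ := by ring
    rw [integral_const_mul, gw_mass hh0] at q2
    refine q2.trans (le_of_eq ?_)
    ring
  have kI : c / 2 * E ≤ ‖∫ v : ℝ, ((Sf m h (t - v) : ℝ) : ℂ) * K v‖ := by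
    rw [hm.fub hh0 hh1 t hK]
    have q1 : ‖J 0‖ ≤ ‖∫ w, (gk h w : ℂ) * J w‖ + ‖(∫ w, (gk h w : ℂ) * J w) - J 0‖ := by
      have := norm_sub_norm_le (J 0) (∫ w, (gk h w : ℂ) * J w)
      rw [← norm_neg (J 0 - _), neg_sub] at this
      linarith
    have q2 := t3.1
    rw [← hJ0] at q2
    have q3 : (|C3| * 84 * h + 42 * ε1 t) * E ≤ c / 2 * E := mul_le_mul_of_nonneg_right te1.le hE0.le
    show c / 2 * E ≤ ‖∫ w, (gk h w : ℂ) * J w‖
    linarith
  -- the average against kp
  have kP : |∫ v : ℝ, Sf m h (t - v) * kp v| ≤ 42 * ε0 t * E := by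
    have q0 := hm.fub hh0 hh1 t kc_DK
    have q1 : ∫ v : ℝ, ((Sf m h (t - v) : ℝ) : ℂ) * kc v = ((∫ v : ℝ, Sf m h (t - v) * kp v : ℝ) : ℂ) := by
      rw [← integral_complex_ofReal]
      refine integral_congr_ae (ae_of_all _ fun v => ?_)
      simp [kc]
    have q2 : ∀ w : ℝ, ∫ v : ℝ, (m (t - w - v) : ℂ) * kc v = ((∫ v : ℝ, m (t - w - v) * kp v : ℝ) : ℂ) := by
      intro w
      rw [← integral_complex_ofReal]
      refine integral_congr_ae (ae_of_all _ fun v => ?_)
      simp [kc]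
    have q3 : |∫ v : ℝ, Sf m h (t - v) * kp v| = ‖∫ w : ℝ, (gk h w : ℂ) * ∫ v : ℝ, (m (t - w - v) : ℂ) * kc v‖ := by
      rw [← q0, q1, Complex.norm_real, Real.norm_eq_abs]
    rw [q3]
    have hε : 0 ≤ ε0 t := by
      have := (abs_nonneg _).trans (t2 0)
      by_contra hcon
      push Not at hcon
      have h7 : ε0 t * E * Real.exp (2 * |(0:ℝ)|) < 0 :=
        mul_neg_of_neg_of_pos (mul_neg_of_neg_of_pos hcon hE0) (Real.exp_pos _)
      linarith
    have q4 : ‖∫ w : ℝ, (gk h w : ℂ) * ∫ v : ℝ, (m (t - w - v) : ℂ) * kc v‖ ≤ ∫ w, ε0 t * E * 21 * gw h w := by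
      refine norm_integral_le_of_norm_le ((gw_int hh0).const_mul _) (ae_of_all _ fun w => ?_)
      rw [q2, norm_mul, Complex.norm_real, Complex.norm_real, Real.norm_eq_abs, Real.norm_eq_abs,
        abs_of_pos (gk_pos hh0 w)]
      have q5 := gk_pos hh0 w
      have q6 := gA hh0 hh1 w
      calc gk h w * |∫ v : ℝ, m (t - w - v) * kp v| ≤ gk h w * (ε0 t * E * Real.exp (2 * |w|)) :=
            mul_le_mul_of_nonneg_left (t2 w) q5.le
        _ = ε0 t * E * (Real.exp (2 * |w|) * gk h w) := by ring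
        _ ≤ ε0 t * E * (21 * gw h w) := mul_le_mul_of_nonneg_left q6 (by positivity)
        _ = _ := by ring
    rw [integral_const_mul, gw_mass hh0] at q4
    refine q4.trans (le_of_eq ?_)
    ring
  -- tails
  set τ : ℝ := 64 * D1 * Real.exp (-(Real.log t) ^ 2) with hτ
  have hτ0 : 0 ≤ τ := by positivity
  have kT : Real.exp (C1 * (Real.log t) ^ 2) * ∫ v in (Icc (-a) a)ᶜ, Real.exp |v| * (1 * W v) ≤ τ := by
    have q1 := tailW a ha
    have q2 := XW a ha
    have q3 : Real.exp (-(Real.exp (2 * a) / 2)) ≤ Real.exp (-((|C1| + 1) * (Real.log t) ^ 2)) := by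
      refine Real.exp_le_exp.2 ?_
      linarith
    calc Real.exp (C1 * (Real.log t) ^ 2) * ∫ v in (Icc (-a) a)ᶜ, Real.exp |v| * (1 * W v)
        ≤ Real.exp (|C1| * (Real.log t) ^ 2) * (16 * D1 * (4 * Real.exp (-((|C1| + 1) * (Real.log t) ^ 2)))) := by
          refine mul_le_mul (Real.exp_le_exp.2 ?_) ?_ ?_ (Real.exp_pos _).le
          · exact mul_le_mul_of_nonneg_right (le_abs_self _) (sq_nonneg _)
          · refine q1.trans (mul_le_mul_of_nonneg_left (q2.trans ?_) (by positivity))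
            exact mul_le_mul_of_nonneg_left q3 (by norm_num)
          · refine integral_nonneg fun v => ?_
            have := W_pos v
            show 0 ≤ Real.exp |v| * (1 * W v)
            positivity
      _ = 64 * D1 * (Real.exp (|C1| * (Real.log t) ^ 2) * Real.exp (-((|C1| + 1) * (Real.log t) ^ 2))) := by ring
      _ = τ := by
          rw [← Real.exp_add, hτ]
          congr 2
          ring
  have kTK : ∀ (f : ℝ → ℂ) (Cf : ℝ), 0 ≤ Cf → (∀ v, ‖f v‖ ≤ Cf * W v) →
      ‖∫ v in (Icc (-a) a)ᶜ, ((Sf m h (t - v) : ℝ) : ℂ) * f v‖ ≤ Cf * (Real.exp (t / 2) * τ) := by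
    intro f Cf hCf hf
    have q1 : ‖∫ v in (Icc (-a) a)ᶜ, ((Sf m h (t - v) : ℝ) : ℂ) * f v‖ ≤
        ∫ v in (Icc (-a) a)ᶜ, (Cf * Real.exp (t / 2) * Real.exp (C1 * (Real.log t) ^ 2)) * (Real.exp |v| * (1 * W v)) := by
      refine norm_integral_le_of_norm_le ((eW_int 1).const_mul _).integrableOn (ae_of_all _ fun v => ?_)
      rw [norm_mul, Complex.norm_real, Real.norm_eq_abs]
      have q2 := t1 v
      have q3 := W_pos v
      calc |Sf m h (t - v)| * ‖f v‖ ≤
            (Real.exp (t / 2) * Real.exp |v| * Real.exp (C1 * (Real.log t) ^ 2)) * (Cf * W v) :=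
            mul_le_mul q2 (hf v) (norm_nonneg _) (by positivity)
        _ = _ := by ring
    rw [integral_const_mul] at q1
    refine q1.trans ?_
    calc Cf * Real.exp (t / 2) * Real.exp (C1 * (Real.log t) ^ 2) * ∫ v in (Icc (-a) a)ᶜ, Real.exp |v| * (1 * W v)
        = Cf * Real.exp (t / 2) * (Real.exp (C1 * (Real.log t) ^ 2) * ∫ v in (Icc (-a) a)ᶜ, Real.exp |v| * (1 * W v)) := by ring
      _ ≤ Cf * Real.exp (t / 2) * τ := mul_le_mul_of_nonneg_left kT (by positivity)
      _ = _ := by ring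
  have kA := kTK K κ hκ0.le (fun v => (hKb v).trans (mul_le_mul_of_nonneg_right (by linarith) (W_pos v).le))
  have kB0 := kTK kc C0 hC0 (fun v => by
    show ‖(kp v : ℂ)‖ ≤ _
    rw [Complex.norm_real, Real.norm_eq_abs, abs_of_nonneg (kp_nonneg v)]
    exact (kp_bounds v).2)
  have kB : |∫ v in (Icc (-a) a)ᶜ, Sf m h (t - v) * kp v| ≤ C0 * (Real.exp (t / 2) * τ) := by
    have q1 : ∫ v in (Icc (-a) a)ᶜ, ((Sf m h (t - v) : ℝ) : ℂ) * kc v =
        ((∫ v in (Icc (-a) a)ᶜ, Sf m h (t - v) * kp v : ℝ) : ℂ) := by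
      rw [← integral_complex_ofReal]
      refine integral_congr_ae (ae_of_all _ fun v => ?_)
      simp [kc]
    rw [q1, Complex.norm_real, Real.norm_eq_abs] at kB0
    exact kB0
  -- integrability
  have iS := hm.intS hh0 hh1 t hK
  have iR := hm.intR hh0 hh1 t
  have iP := (hm.pos hs).intR hh0 hh1 t
  -- the middle part
  have kM : ‖∫ v in Icc (-a) a, ((Sf m h (t - v) : ℝ) : ℂ) * K v‖ ≤
      2 * κ * (2 * (∫ v in Icc (-a) a, Sf (fun u => max (s * m u) 0) h (t - v) * kp v) -
        s * ∫ v in Icc (-a) a, Sf m h (t - v) * kp v) := by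
    rw [← integral_const_mul, ← integral_const_mul, ← integral_sub (iP.integrableOn.const_mul 2)
      (iR.integrableOn.const_mul s), ← integral_const_mul]
    refine norm_integral_le_of_norm_le (((iP.integrableOn.const_mul 2).sub
      (iR.integrableOn.const_mul s)).const_mul (2 * κ)) (ae_of_all _ fun v => ?_)
    rw [norm_mul, Complex.norm_real, Real.norm_eq_abs]
    have q1 := Sf_parts hm hh0 hh1 (t - v) hs
    have q2 : ‖K v‖ ≤ 2 * κ * kp v := by
      refine (hKb v).trans ?_
      have h6 := (kp_bounds v).1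
      have h7 := W_pos v
      nlinarith
    calc |Sf m h (t - v)| * ‖K v‖ ≤
          (2 * Sf (fun u => max (s * m u) 0) h (t - v) - s * Sf m h (t - v)) * (2 * κ * kp v) :=
          mul_le_mul q1 q2 (norm_nonneg _) ((abs_nonneg _).trans q1)
      _ = _ := by ring
  have kI2 : ‖∫ v : ℝ, ((Sf m h (t - v) : ℝ) : ℂ) * K v‖ ≤
      ‖∫ v in Icc (-a) a, ((Sf m h (t - v) : ℝ) : ℂ) * K v‖ +
      ‖∫ v in (Icc (-a) a)ᶜ, ((Sf m h (t - v) : ℝ) : ℂ) * K v‖ := by
    rw [← integral_add_compl (measurableSet_Icc (a := -a) (b := a)) iS]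
    exact norm_add_le _ _
  have kR : |s * ∫ v in Icc (-a) a, Sf m h (t - v) * kp v| ≤ 42 * ε0 t * E + C0 * (Real.exp (t / 2) * τ) := by
    rw [abs_mul]
    have : |s| = 1 := by rcases hs with h | h <;> rw [h] <;> simp
    rw [this, one_mul]
    have q1 := integral_add_compl (measurableSet_Icc (a := -a) (b := a)) iR
    have q2 : ∫ v in Icc (-a) a, Sf m h (t - v) * kp v =
        (∫ v : ℝ, Sf m h (t - v) * kp v) - ∫ v in (Icc (-a) a)ᶜ, Sf m h (t - v) * kp v := by linarith
    rw [q2]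
    refine (abs_sub _ _).trans ?_
    linarith
  set XG : ℝ := ∫ v in Icc (-a) a, Sf (fun u => max (s * m u) 0) h (t - v) * kp v with hXG
  have kG : c / (16 * κ) * E ≤ XG := by
    have q1 : c / 2 * E ≤ 4 * κ * XG + 2 * κ * (42 * ε0 t * E + C0 * (Real.exp (t / 2) * τ)) +
        κ * (Real.exp (t / 2) * τ) := by
      have := (abs_le.1 kR).1
      nlinarith
    have q2 : Real.exp (t / 2) * τ ≤ E * τ := mul_le_mul_of_nonneg_right hEE hτ0
    have q3 : (84 * κ * ε0 t + (2 * κ * C0 + κ) * (64 * D1) * Real.exp (-(Real.log t) ^ 2)) * E ≤ c / 4 * E :=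
      mul_le_mul_of_nonneg_right te2.le hE0.le
    have q4 : (84 * κ * ε0 t + (2 * κ * C0 + κ) * (64 * D1) * Real.exp (-(Real.log t) ^ 2)) * E =
        84 * κ * ε0 t * E + (2 * κ * C0 + κ) * (E * τ) := by
      rw [hτ]; ring
    rw [q4] at q3
    have q5 : (2 * κ * C0 + κ) * (Real.exp (t / 2) * τ) ≤ (2 * κ * C0 + κ) * (E * τ) :=
      mul_le_mul_of_nonneg_left q2 (by positivity)
    have q6 : c / 4 * E ≤ 4 * κ * XG := by nlinarith
    have q7 : c / (16 * κ) * E = (c / 4 * E) / (4 * κ) := by field_simp; ring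
    rw [q7, div_le_iff₀ (by positivity)]
    linarith
  -- dropping the tails of the Gaussian
  have hpm := (hm.pos hs)
  have kW : XG ≤ (∫ v in Icc (-a) a, (∫ w in Icc (-1) 1, max (s * m (t - v - w)) 0 * gk h w) * kp v) +
      128 * B * C0 * D1 * Real.exp (-(3 * t)) := by
    have q0 : ∀ v : ℝ, Sf (fun u => max (s * m u) 0) h (t - v) ≤
        (∫ w in Icc (-1) 1, max (s * m (t - v - w)) 0 * gk h w) +
          32 * B * Real.exp (-(3 * t)) * Real.exp |v| := by
      intro v
      have i1 := hpm.int1 hh0 hh1 t v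
      unfold Sf
      rw [← integral_add_compl (measurableSet_Icc (a := (-1:ℝ)) (b := 1)) i1]
      refine add_le_add le_rfl ?_
      have q1 : ∫ w in (Icc (-1:ℝ) 1)ᶜ, max (s * m (t - v - w)) 0 * gk h w ≤
          ∫ w in (Icc (-1:ℝ) 1)ᶜ, (2 * B * Real.exp t * Real.exp |v|) * (8 * Real.exp (-(4 * t))) * gw h w := by
        refine setIntegral_mono_on i1.integrableOn ((gw_int hh0).const_mul _).integrableOn
          measurableSet_Icc.compl fun w hw => ?_
        have hw1 : 1 ≤ |w| := by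
          by_contra h8
          push Not at h8
          rw [abs_lt] at h8
          exact hw ⟨h8.1.le, h8.2.le⟩
        have q2 := gT hh0 hh1 w hw1
        rw [hw_sq ht0] at q2
        have q3 := hpm.bd2 t v w
        rw [abs_of_nonneg (le_max_right _ _)] at q3
        have q4 := gk_pos hh0 w
        have q5 : Real.exp (t / 2) ≤ Real.exp t := Real.exp_le_exp.2 (by linarith)
        calc max (s * m (t - v - w)) 0 * gk h w ≤
              (B * (Real.exp (t / 2) + Real.exp t) * Real.exp |v| * Real.exp |w|) * gk h w :=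
              mul_le_mul_of_nonneg_right q3 q4.le
          _ = B * (Real.exp (t / 2) + Real.exp t) * Real.exp |v| * (Real.exp |w| * gk h w) := by ring
          _ ≤ B * (Real.exp t + Real.exp t) * Real.exp |v| * (8 * Real.exp (-(4 * t)) * gw h w) := by
              refine mul_le_mul ?_ q2 (by positivity) (by positivity)
              refine mul_le_mul_of_nonneg_right ?_ (Real.exp_pos _).le
              exact mul_le_mul_of_nonneg_left (by linarith) hB
          _ = _ := by ring
      refine q1.trans ?_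
      have q2 : ∫ w in (Icc (-1:ℝ) 1)ᶜ, (2 * B * Real.exp t * Real.exp |v|) * (8 * Real.exp (-(4 * t))) * gw h w ≤
          ∫ w, (2 * B * Real.exp t * Real.exp |v|) * (8 * Real.exp (-(4 * t))) * gw h w := by
        refine setIntegral_le_integral ((gw_int hh0).const_mul _) (ae_of_all _ fun w => ?_)
        have := gw_pos hh0 w
        show 0 ≤ (2 * B * Real.exp t * Real.exp |v|) * (8 * Real.exp (-(4 * t))) * gw h w
        positivity
      refine q2.trans (le_of_eq ?_)
      rw [integral_const_mul, gw_mass hh0]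
      have : Real.exp (-(3 * t)) = Real.exp t * Real.exp (-(4 * t)) := by
        rw [← Real.exp_add]; congr 1; ring
      rw [this]
      ring
    -- integrability of the inner integral
    have i2 : Integrable (fun v : ℝ => (∫ w in Icc (-1) 1, max (s * m (t - v - w)) 0 * gk h w) * kp v) := by
      have k1 := hpm.prod hh0 hh1 t kc_DK
      have k2 : Integrable (fun p : ℝ × ℝ => (((max (s * m (t - p.1 - p.2)) 0) * gk h p.2 : ℝ) : ℂ) * kc p.1)
          (volume.prod (volume.restrict (Icc (-1:ℝ) 1))) := by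
        refine k1.mono_measure ?_
        exact Measure.prod_mono le_rfl Measure.restrict_le_self
      have k3 := k2.integral_prod_left.re
      refine k3.congr (ae_of_all _ fun v => ?_)
      simp only [kc]
      rw [integral_mul_const, integral_complex_ofReal, ← Complex.ofReal_mul]
      simp
    have i3 : Integrable (fun v : ℝ => 32 * B * Real.exp (-(3 * t)) * (Real.exp |v| * (C0 * W v))) :=
      (eW_int C0).const_mul _
    have q1 : XG ≤ ∫ v in Icc (-a) a, ((∫ w in Icc (-1) 1, max (s * m (t - v - w)) 0 * gk h w) * kp v +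
        32 * B * Real.exp (-(3 * t)) * (Real.exp |v| * (C0 * W v))) := by
      refine setIntegral_mono_on iP.integrableOn (i2.add i3).integrableOn measurableSet_Icc fun v _ => ?_
      have q2 := mul_le_mul_of_nonneg_right (q0 v) (kp_nonneg v)
      have q3 : 32 * B * Real.exp (-(3 * t)) * Real.exp |v| * kp v ≤
          32 * B * Real.exp (-(3 * t)) * (Real.exp |v| * (C0 * W v)) := by
        rw [mul_assoc (32 * B * Real.exp (-(3 * t)))]
        refine mul_le_mul_of_nonneg_left ?_ (by positivity)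
        exact mul_le_mul_of_nonneg_left (kp_bounds v).2 (Real.exp_pos _).le
      rw [add_mul] at q2
      linarith
    rw [integral_add i2.integrableOn i3.integrableOn] at q1
    refine q1.trans (add_le_add le_rfl ?_)
    rw [integral_const_mul]
    have q4 : ∫ v in Icc (-a) a, Real.exp |v| * (C0 * W v) ≤ ∫ v, Real.exp |v| * (C0 * W v) :=
      setIntegral_le_integral (eW_int C0) (ae_of_all _ fun v => by
        have := W_pos v
        show 0 ≤ Real.exp |v| * (C0 * W v)
        positivity)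
    have q5 : ∫ v, Real.exp |v| * (C0 * W v) = C0 * ∫ v, Real.exp |v| * (1 * W v) := by
      rw [← integral_const_mul]
      refine integral_congr_ae (ae_of_all _ fun v => ?_)
      simp only
      ring
    rw [q5] at q4
    have q6 : C0 * ∫ v, Real.exp |v| * (1 * W v) ≤ C0 * (4 * D1) := mul_le_mul_of_nonneg_left eW_mass hC0
    calc 32 * B * Real.exp (-(3 * t)) * ∫ v in Icc (-a) a, Real.exp |v| * (C0 * W v) ≤
          32 * B * Real.exp (-(3 * t)) * (C0 * (4 * D1)) :=
          mul_le_mul_of_nonneg_left (q4.trans q6) (by positivity)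
      _ = _ := by ring
  have kE : 128 * B * C0 * D1 * Real.exp (-(3 * t)) ≤ c / (32 * κ) * E := by
    have q1 : 1 ≤ E := (Real.one_le_exp (by linarith)).trans hEE
    have q2 : c / (32 * κ) * 1 ≤ c / (32 * κ) * E := mul_le_mul_of_nonneg_left q1 (by positivity)
    linarith
  have kF : c / (16 * κ) * E = c / (32 * κ) * E + c / (32 * κ) * E := by field_simp; ring
  linarith

end

end Pool.Agent.V5helper60.MW
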