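import Pool.Agent.V5helper60.MW.Win
import Pool.Agent.N739.OW.Mu

/-!
# The windows in the original variable, and the case that the Riemann hypothesis is false
-/

set_option autoImplicit false
set_option maxHeartbeats 4000000

open MeasureTheory Filter Topology Set

namespace Pool.Agent.V5helper60.MW

open Pool.Agent.W190 (SF)
open Pool.Agent.N739.OW

noncomputable section

/-- the right end of the window -/
def rt (C x : ℝ) : ℝ := C * x * (Real.log (Real.log x)) ^ 2

/-- the windows statement -/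
def Wn (N κ : ℝ → ℝ) : Prop := ∃ c C0 : ℝ, 0 < c ∧ 1 ≤ C0 ∧ ∀ C : ℝ, C0 ≤ C → ∀ᶠ x : ℝ in atTop,
  ∀ s : ℝ, s = 1 ∨ s = -1 → (∃ u ∈ Icc x (rt C x), c * (Real.sqrt u * κ u) ≤ s * N u) ∧
    c * κ x ≤ ∫ u in x..rt C x, max (s * N u) 0 / u ^ (3 / 2 : ℝ)

theorem rt_exp {C x : ℝ} (hC : 0 < C) (hx : 0 < x) (hx2 : Real.log (Real.log x) ≠ 0) :
    rt C x = Real.exp (Real.log x + wl C (Real.log x)) := by
  unfold rt wl
  rw [Real.exp_add, Real.exp_log hx, Real.exp_log (by positivity)]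
  ring

theorem int_window (N : ℝ → ℝ) (s l L : ℝ) (h : l ≤ L) :
    ∫ u in Icc l L, max (s * N (Real.exp u)) 0 * Real.exp (-(u / 2)) =
      ∫ y in (Real.exp l)..(Real.exp L), max (s * N y) 0 / y ^ (3 / 2 : ℝ) := by
  have himg : Real.exp '' Icc l L = Icc (Real.exp l) (Real.exp L) := by
    ext y
    constructor
    · rintro ⟨u, hu, rfl⟩
      exact ⟨Real.exp_le_exp.2 hu.1, Real.exp_le_exp.2 hu.2⟩
    · intro hy
      have hy0 : 0 < y := (Real.exp_pos _).trans_le hy.1
      refine ⟨Real.log y, ⟨?_, ?_⟩, Real.exp_log hy0⟩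
      · rw [Real.le_log_iff_exp_le hy0]; exact hy.1
      · rw [Real.log_le_iff_le_exp hy0]; exact hy.2
  have key := integral_image_eq_integral_abs_deriv_smul (s := Icc l L) measurableSet_Icc
    (f := Real.exp) (f' := Real.exp) (fun x _ => (Real.hasDerivAt_exp x).hasDerivWithinAt)
    Real.exp_injective.injOn (fun y => max (s * N y) 0 / y ^ (3 / 2 : ℝ))
  rw [himg] at key
  rw [intervalIntegral.integral_of_le (Real.exp_le_exp.2 h), ← integral_Icc_eq_integral_Ioc, key]
  refine setIntegral_congr_fun measurableSet_Icc fun u _ => ?_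
  rw [smul_eq_mul, abs_of_pos (Real.exp_pos u), ← Real.exp_mul]
  have e1 : Real.exp (-(u / 2)) = Real.exp u / Real.exp (u * (3 / 2)) := by
    rw [← Real.exp_sub]
    congr 1
    ring
  rw [e1]
  ring

/-- from the logarithmic scale to the original variable -/
theorem Wn_of {N Lf κ : ℝ → ℝ}
    (h : ∃ c C0 : ℝ, 0 < c ∧ 1 ≤ C0 ∧ ∀ C : ℝ, C0 ≤ C → ∀ᶠ l in atTop,
      ∃ t : ℝ, l ≤ t ∧ ∀ s : ℝ, s = 1 ∨ s = -1 →
        (∃ u ∈ Icc l (l + wl C l), c * Lf t * Real.exp (u / 2) ≤ s * N (Real.exp u)) ∧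
        c * Lf t ≤ ∫ u in Icc l (l + wl C l), max (s * N (Real.exp u)) 0 * Real.exp (-(u / 2)))
    (hκ : ∀ C : ℝ, 1 ≤ C → ∀ᶠ l in atTop, ∀ t : ℝ, l ≤ t →
      (∀ u ∈ Icc l (l + wl C l), κ (Real.exp u) ≤ 3 * Lf t) ∧ κ (Real.exp l) ≤ 3 * Lf t) : Wn N κ := by
  obtain ⟨c, C0, hc, hC0, hev⟩ := h
  refine ⟨c / 3, C0, by positivity, hC0, fun C hC => ?_⟩
  have hC1 : 0 < C := by linarith
  have g : ∀ᶠ l : ℝ in atTop, 1 ≤ Real.log l := Real.tendsto_log_atTop.eventually_ge_atTop 1
  filter_upwards [Real.tendsto_log_atTop.eventually (hev C hC), Real.tendsto_log_atTop.eventually (hκ C (by linarith)),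
    eventually_ge_atTop (1:ℝ), Real.tendsto_log_atTop.eventually g] with x k1 k2 k3 k4 s hs
  have hx0 : 0 < x := by linarith
  have hll : Real.log (Real.log x) ≠ 0 := by linarith
  have hrt := rt_exp hC1 hx0 hll
  set l := Real.log x with hl
  obtain ⟨t, ht, h1⟩ := k1
  obtain ⟨⟨u, hu, h2⟩, h3⟩ := h1 s hs
  obtain ⟨h4, h5⟩ := k2 t ht
  have hwl : 0 ≤ wl C l := by
    unfold wl
    refine Real.log_nonneg ?_
    nlinarith
  constructor
  · refine ⟨Real.exp u, ⟨?_, ?_⟩, ?_⟩
    · rw [← Real.log_le_iff_le_exp hx0]; exact hu.1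
    · rw [hrt]; exact Real.exp_le_exp.2 hu.2
    · have e1 : Real.sqrt (Real.exp u) = Real.exp (u / 2) := by
        rw [Real.sqrt_eq_rpow, ← Real.exp_mul]
        congr 1
        ring
      rw [e1]
      have h6 := h4 u hu
      have h7 := Real.exp_pos (u / 2)
      calc c / 3 * (Real.exp (u / 2) * κ (Real.exp u)) ≤ c / 3 * (Real.exp (u / 2) * (3 * Lf t)) := by gcongr
        _ = c * Lf t * Real.exp (u / 2) := by ring
        _ ≤ _ := h2
  · have e1 := int_window N s l (l + wl C l) (by linarith)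
    rw [← hrt] at e1
    have e2 : Real.exp l = x := Real.exp_log hx0
    rw [e2] at e1 h5
    rw [← e1]
    refine le_trans ?_ h3
    nlinarith

theorem kap_one : ∀ C : ℝ, 1 ≤ C → ∀ᶠ l in atTop, ∀ t : ℝ, l ≤ t →
      (∀ u ∈ Icc l (l + wl C l), (fun _ : ℝ => (1:ℝ)) (Real.exp u) ≤ 3 * (fun _ : ℝ => (1:ℝ)) t) ∧
      (fun _ : ℝ => (1:ℝ)) (Real.exp l) ≤ 3 * (fun _ : ℝ => (1:ℝ)) t := by
  intro C _
  refine Eventually.of_forall fun l t _ => ⟨fun u _ => by norm_num, by norm_num⟩

theorem kap_log : ∀ C : ℝ, 1 ≤ C → ∀ᶠ l in atTop, ∀ t : ℝ, l ≤ t →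
      (∀ u ∈ Icc l (l + wl C l), Real.log (Real.exp u) ≤ 3 * (fun t : ℝ => t) t) ∧
      Real.log (Real.exp l) ≤ 3 * (fun t : ℝ => t) t := by
  intro C hC
  have g2 : ∀ᶠ l : ℝ in atTop, Real.log l ≤ l / 2 := by
    have := Real.isLittleO_log_id_atTop.def (show (0:ℝ) < 1 / 2 by norm_num)
    filter_upwards [this, eventually_ge_atTop (1:ℝ)] with l hl hl1
    rw [Real.norm_eq_abs, Real.norm_eq_abs, abs_of_nonneg (Real.log_nonneg hl1), id, abs_of_pos (by linarith)] at hl
    linarith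
  filter_upwards [g2, eventually_ge_atTop (Real.log C), eventually_ge_atTop (3:ℝ)] with l h1 h2 h3 t ht
  have hl1 : 1 ≤ Real.log l := by
    rw [Real.le_log_iff_exp_le (by linarith)]
    have := Real.exp_one_lt_d9
    linarith
  have hw3 : wl C l ≤ 2 * l := by
    unfold wl
    rw [Real.log_mul (by positivity) (by positivity), Real.log_pow]
    have h4 : Real.log (Real.log l) ≤ Real.log l - 1 := Real.log_le_sub_one_of_pos (by linarith)
    push_cast
    linarith
  constructor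
  · intro u hu
    rw [Real.log_exp]
    linarith [hu.2]
  · rw [Real.log_exp]
    linarith

/-- the case that the Riemann hypothesis is false -/
theorem Wn_false {a : ℕ → ℝ} (ha : Inp a) {ρ : ℂ} (hz : riemannZeta ρ = 0) (hρ : 1 / 2 < ρ.re) {κ : ℝ → ℝ}
    (hκ0 : ∀ᶠ u in atTop, κ u ≤ Real.log u) : Wn (SF a) κ := by
  have hρ1 := re_lt_one hz
  set ε : ℝ := (ρ.re - 1 / 2) / 2 with hε
  set σ : ℝ := (ρ.re + 1 / 2) / 2 with hσ
  have hε0 : 0 < ε := by rw [hε]; linarith
  set A : ℝ := Real.exp (Real.pi * hsum σ + 1) with hA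
  have hH0 : 0 ≤ hsum σ := tsum_nonneg fun ρ => div_nonneg (Nat.cast_nonneg _) ρ.2.2.2.le
  have hA1 : 1 < A := by
    rw [hA, Real.one_lt_exp_iff]
    have := mul_nonneg Real.pi_pos.le hH0
    linarith
  have hA0 : 0 < A := by linarith
  have hlA : Real.pi * hsum σ < Real.log A := by rw [hA, Real.log_exp]; linarith
  have hone : ∀ s : ℝ, s = 1 ∨ s = -1 → ∀ᶠ X : ℝ in atTop,
      X ^ (3 / 2 + ε) ≤ ∫ u in X..(A * X), max (s * SF a u) 0 := by
    intro s hs
    have h1 := ha.one (σ := σ) (A := A) (by rw [hσ]; linarith) (by rw [hσ]; linarith) hA0 hlA hz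
      (by rw [hσ]; linarith) hε0 hs
    have e1 : 1 + ρ.re - ε = 3 / 2 + ε := by rw [hε]; ring
    rwa [e1] at h1
  refine ⟨1, 1, one_pos, le_rfl, fun C hC => ?_⟩
  -- growth conditions
  have g1 : ∀ᶠ x : ℝ in atTop, A ≤ (Real.log (Real.log x)) ^ 2 := by
    have : Tendsto (fun x : ℝ => (Real.log (Real.log x)) ^ 2) atTop atTop :=
      (tendsto_pow_atTop (by norm_num : (2:ℕ) ≠ 0)).comp (Real.tendsto_log_atTop.comp Real.tendsto_log_atTop)
    exact this.eventually_ge_atTop A
  have g2 : ∀ᶠ x : ℝ in atTop, A ^ (3 / 2 : ℝ) * Real.log x ≤ x ^ ε := by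
    have h3 := (isLittleO_log_rpow_atTop hε0).def (show 0 < (A ^ (3 / 2 : ℝ))⁻¹ by positivity)
    filter_upwards [h3, eventually_gt_atTop 1] with x hx hx1
    have hx0 : 0 < x := by linarith
    rw [Real.norm_eq_abs, Real.norm_eq_abs, abs_of_pos (Real.log_pos hx1), abs_of_pos (Real.rpow_pos_of_pos hx0 _)] at hx
    rwa [inv_mul_eq_div, le_div_iff₀ (by positivity), mul_comm] at hx
  have g3 : ∀ᶠ x : ℝ in atTop, (A * Real.sqrt A) * (2 * Real.log x) < x ^ ε := by
    have h3 := (isLittleO_log_rpow_atTop hε0).def (show 0 < ((A * Real.sqrt A) * 4)⁻¹ by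
      have := Real.sqrt_pos.2 hA0
      positivity)
    filter_upwards [h3, eventually_gt_atTop 1] with x hx hx1
    have hx0 : 0 < x := by linarith
    have hsA := Real.sqrt_pos.2 hA0
    rw [Real.norm_eq_abs, Real.norm_eq_abs, abs_of_pos (Real.log_pos hx1), abs_of_pos (Real.rpow_pos_of_pos hx0 _)] at hx
    rw [inv_mul_eq_div, le_div_iff₀ (by positivity), mul_comm] at hx
    have : 0 < A * Real.sqrt A * Real.log x := mul_pos (by positivity) (Real.log_pos hx1)
    linarith
  obtain ⟨x0, hx0⟩ := eventually_atTop.1 hκ0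
  filter_upwards [hone 1 (Or.inl rfl), hone (-1) (Or.inr rfl), g1, g2, g3, eventually_ge_atTop (max x0 (max A (Real.exp 1)))]
    with x k1 k2 k3 k4 k5 k6 s hs
  have hxx0 : x0 ≤ x := le_trans (le_max_left _ _) k6
  have hxA : A ≤ x := le_trans (le_max_left _ _) (le_trans (le_max_right _ _) k6)
  have hxe : Real.exp 1 ≤ x := le_trans (le_max_right _ _) (le_trans (le_max_right _ _) k6)
  have hx1 : 1 < x := by linarith
  have hxp : 0 < x := by linarith
  have hlx : 1 ≤ Real.log x := by rwa [Real.le_log_iff_exp_le hxp]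
  have hk : x ^ (3 / 2 + ε) ≤ ∫ u in x..(A * x), max (s * SF a u) 0 := by
    rcases hs with rfl | rfl
    · exact k1
    · exact k2
  have hAx : A * x ≤ rt C x := by
    unfold rt
    have h1 : 0 ≤ (Real.log (Real.log x)) ^ 2 := sq_nonneg _
    calc A * x ≤ (Real.log (Real.log x)) ^ 2 * x := mul_le_mul_of_nonneg_right k3 hxp.le
      _ ≤ C * ((Real.log (Real.log x)) ^ 2 * x) := le_mul_of_one_le_left (by positivity) hC
      _ = _ := by ring
  have hxAx : x ≤ A * x := le_mul_of_one_le_left hxp.le hA1.le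
  have hpi := pos_int a s x (A * x) hs
  have e32 : x ^ (3 / 2 + ε) = x ^ (3 / 2 : ℝ) * x ^ ε := Real.rpow_add hxp _ _
  have hx32 : 0 < x ^ (3 / 2 : ℝ) := Real.rpow_pos_of_pos hxp _
  have hx32' : x ^ (3 / 2 : ℝ) = x * Real.sqrt x := by
    rw [Real.sqrt_eq_rpow, show (3 / 2 : ℝ) = 1 + 1 / 2 by norm_num, Real.rpow_add hxp, Real.rpow_one]
  constructor
  · by_contra hcon
    push Not at hcon
    have h1 : ∫ u in x..(A * x), max (s * SF a u) 0 ≤ ∫ u in x..(A * x), Real.sqrt (A * x) * (2 * Real.log x) := by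
      refine intervalIntegral.integral_mono_on hxAx hpi intervalIntegrable_const fun u hu => ?_
      have h2 := hcon u ⟨hu.1, hu.2.trans hAx⟩
      have hu0 : 0 < u := hxp.trans_le hu.1
      have h3 : Real.log u ≤ 2 * Real.log x := by
        have h4 : u ≤ x ^ 2 := by nlinarith [hu.2]
        have h5 := Real.log_le_log hu0 h4
        rw [Real.log_pow] at h5
        exact_mod_cast h5
      refine max_le ?_ (by positivity)
      rw [one_mul] at h2
      refine h2.le.trans ?_
      have h5 := hx0 u (hxx0.trans hu.1)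
      have h6 : Real.sqrt u ≤ Real.sqrt (A * x) := Real.sqrt_le_sqrt hu.2
      calc Real.sqrt u * κ u ≤ Real.sqrt u * (2 * Real.log x) :=
            mul_le_mul_of_nonneg_left (h5.trans h3) (Real.sqrt_nonneg _)
        _ ≤ _ := mul_le_mul_of_nonneg_right h6 (by linarith)
    rw [intervalIntegral.integral_const, smul_eq_mul, Real.sqrt_mul hA0.le] at h1
    have h2 : (A * x - x) * (Real.sqrt A * Real.sqrt x * (2 * Real.log x)) ≤
        ((A * Real.sqrt A) * (2 * Real.log x)) * (x * Real.sqrt x) := by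
      have h3 : 0 ≤ Real.sqrt A * Real.sqrt x * (2 * Real.log x) := by positivity
      nlinarith
    have h4 : ((A * Real.sqrt A) * (2 * Real.log x)) * (x * Real.sqrt x) < x ^ ε * (x * Real.sqrt x) := by
      have : 0 < x * Real.sqrt x := mul_pos hxp (Real.sqrt_pos.2 hxp)
      exact mul_lt_mul_of_pos_right k5 this
    rw [e32, hx32'] at hk
    linarith
  · have hI : IntervalIntegrable (fun u => max (s * SF a u) 0 / u ^ (3 / 2 : ℝ)) volume x (rt C x) := by
      simp_rw [div_eq_mul_inv]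
      refine (pos_int a s x (rt C x) hs).mul_continuousOn ?_
      refine ContinuousOn.inv₀ ?_ ?_
      · intro u hu
        have hu0 : 0 < u := by
          rw [uIcc_of_le (hxAx.trans hAx)] at hu
          exact hxp.trans_le hu.1
        exact (Real.continuousAt_rpow_const u _ (Or.inl hu0.ne')).continuousWithinAt
      · intro u hu
        have hu0 : 0 < u := by
          rw [uIcc_of_le (hxAx.trans hAx)] at hu
          exact hxp.trans_le hu.1
        exact (Real.rpow_pos_of_pos hu0 _).ne'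
    have h1 : ∫ u in x..(A * x), max (s * SF a u) 0 / u ^ (3 / 2 : ℝ) ≤
        ∫ u in x..(rt C x), max (s * SF a u) 0 / u ^ (3 / 2 : ℝ) := by
      refine intervalIntegral.integral_mono_interval le_rfl hxAx hAx ?_ hI
      refine (ae_restrict_iff' measurableSet_Ioc).2 (ae_of_all _ fun u hu => ?_)
      have hu0 : 0 < u := hxp.trans hu.1
      exact div_nonneg (le_max_right _ _) (Real.rpow_nonneg hu0.le _)
    have h2 : ∫ u in x..(A * x), max (s * SF a u) 0 * (1 / (A * x) ^ (3 / 2 : ℝ)) ≤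
        ∫ u in x..(A * x), max (s * SF a u) 0 / u ^ (3 / 2 : ℝ) := by
      refine intervalIntegral.integral_mono_on hxAx (hpi.mul_const _)
        (hI.mono_set (by rw [uIcc_of_le hxAx, uIcc_of_le (hxAx.trans hAx)]; exact Icc_subset_Icc_right hAx))
        fun u hu => ?_
      have hu0 : 0 < u := hxp.trans_le hu.1
      have e1 : max (s * SF a u) 0 / u ^ (3 / 2 : ℝ) = max (s * SF a u) 0 * (1 / u ^ (3 / 2 : ℝ)) := by
        rw [mul_one_div]
      rw [e1]
      refine mul_le_mul_of_nonneg_left ?_ (le_max_right _ _)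
      refine one_div_le_one_div_of_le (Real.rpow_pos_of_pos hu0 _) ?_
      exact Real.rpow_le_rpow hu0.le hu.2 (by norm_num)
    rw [intervalIntegral.integral_mul_const] at h2
    have h3 : Real.log x ≤ (∫ u in x..(A * x), max (s * SF a u) 0) * (1 / (A * x) ^ (3 / 2 : ℝ)) := by
      rw [mul_one_div, le_div_iff₀ (by positivity)]
      refine le_trans ?_ hk
      rw [e32, Real.mul_rpow hA0.le hxp.le]
      calc Real.log x * (A ^ (3 / 2 : ℝ) * x ^ (3 / 2 : ℝ)) = x ^ (3 / 2 : ℝ) * (A ^ (3 / 2 : ℝ) * Real.log x) := by ring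
        _ ≤ _ := mul_le_mul_of_nonneg_left k4 hx32.le
    rw [one_mul]
    have h4 := hx0 x hxx0
    linarith

end

end Pool.Agent.V5helper60.MW
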