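import Pool.Agent.V5helper60.MW.Mert
import Pool.Agent.V5helper60.MW.ToX
import Pool.Agent.N739.OW.Mu
import Pool.Agent.H313R3.TK.J

/-!
# The Mertens function: assembling
-/

set_option autoImplicit false
set_option maxHeartbeats 4000000

open MeasureTheory Filter Topology Set

namespace Pool.Agent.V5helper60.MW

open H313.TK
open Pool.Agent.W120.WM (RHp NT)
open Pool.Agent.W190 (SF)
open Pool.Agent.N739.OW

noncomputable section

/-- RH and simplicity of the nontrivial zeros -/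
def RHS : Prop := RiemannHypothesis ∧
  ∀ ρ : ℂ, riemannZeta ρ = 0 → 0 < ρ.re → ρ.re < 1 → deriv riemannZeta ρ ≠ 0

theorem rh_of_RHp (h : RHp) : RiemannHypothesis := by
  rw [Pool.Agent.W190.rh_free]
  intro s hs h0
  have h1 := re_lt_one h0
  have := h s ⟨h0, by linarith, h1⟩
  linarith

theorem not_RHp (h : ¬ RHp) : ∃ ρ : ℂ, riemannZeta ρ = 0 ∧ 1 / 2 < ρ.re := by
  unfold RHp at h
  push Not at h
  obtain ⟨ρ, ⟨h0, h1, h2⟩, h3⟩ := h
  rcases lt_or_gt_of_ne h3 with h4 | h4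
  · exact ⟨1 - ρ, refl_zero ρ h0 h1 h2, by simp; linarith⟩
  · exact ⟨ρ, h0, h4⟩

theorem M_eq : MM = SF muR := rfl

theorem one_le_log_ev : ∀ᶠ u : ℝ in atTop, (fun _ : ℝ => (1:ℝ)) u ≤ Real.log u :=
  Real.tendsto_log_atTop.eventually_ge_atTop 1

theorem M_one : Wn MM (fun _ => 1) := by
  by_cases hRH : RHp
  · obtain ⟨ρ, hz, h1, h2⟩ := exists_zero
    have hre : ρ.re = 1 / 2 := hRH ρ ⟨hz, by linarith, h2⟩
    have h := win mm_MB (fun _ => 1) (Eventually.of_forall fun _ => le_rfl) (core_one hRH ρ hz hre)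
    exact Wn_of (Lf := fun _ => 1) h kap_one
  · obtain ⟨ρ, hz, h1⟩ := not_RHp hRH
    rw [M_eq]
    exact Wn_false inp_mu hz h1 one_le_log_ev

theorem M_log (h : ¬ RHS) : Wn MM Real.log := by
  by_cases hRH : RHp
  · have h1 : ∃ ρ : ℂ, riemannZeta ρ = 0 ∧ 0 < ρ.re ∧ ρ.re < 1 ∧ deriv riemannZeta ρ = 0 := by
      by_contra hcon
      push Not at hcon
      exact h ⟨rh_of_RHp hRH, fun ρ hz h0 h1 => hcon ρ hz h0 h1⟩
    obtain ⟨ρ, hz, h0, h1, hd⟩ := h1
    have hre : ρ.re = 1 / 2 := hRH ρ ⟨hz, h0, h1⟩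
    have h := win mm_MB (fun t => t) (eventually_ge_atTop 1) (core_two hRH ρ hz hd hre)
    exact Wn_of (Lf := fun t => t) h kap_log
  · obtain ⟨ρ, hz, h1⟩ := not_RHp hRH
    rw [M_eq]
    exact Wn_false inp_mu hz h1 (Eventually.of_forall fun _ => le_rfl)

/-- consequences of the logarithmic lower bound -/
theorem Wn_cons {N : ℝ → ℝ} (h : Wn N Real.log) : ∃ C0 : ℝ, 0 < C0 ∧ ∀ C : ℝ, C0 ≤ C → ∀ s : ℝ, s = 1 ∨ s = -1 →
    ¬ (∀ ε : ℝ, 0 < ε → ∃ᶠ x : ℝ in atTop, ∀ u ∈ Icc x (rt C x), s * N u ≤ ε * (Real.sqrt u * Real.log u)) ∧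
    ¬ (∀ ε : ℝ, 0 < ε → ∃ᶠ x : ℝ in atTop, ∫ u in x..rt C x, max (s * N u) 0 / u ^ (3 / 2 : ℝ) ≤ ε * Real.log x) := by
  obtain ⟨c, C0, hc, hC0, hev⟩ := h
  refine ⟨C0, by linarith, fun C hC s hs => ⟨fun hcon => ?_, fun hcon => ?_⟩⟩
  · obtain ⟨x, h1, h2, h3⟩ := ((hcon (c / 2) (by positivity)).and_eventually
      ((hev C hC).and (eventually_gt_atTop (1:ℝ)))).exists
    obtain ⟨⟨u, hu, hu2⟩, -⟩ := h2 s hs
    have h4 := h1 u hu
    have hu1 : 1 < u := h3.trans_le hu.1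
    have h5 : 0 < Real.sqrt u * Real.log u := mul_pos (Real.sqrt_pos.2 (by linarith)) (Real.log_pos hu1)
    nlinarith
  · obtain ⟨x, h1, h2, h3⟩ := ((hcon (c / 2) (by positivity)).and_eventually
      ((hev C hC).and (eventually_gt_atTop (1:ℝ)))).exists
    obtain ⟨-, h4⟩ := h2 s hs
    have h5 : 0 < Real.log x := Real.log_pos h3
    nlinarith

/-- the comparison function of the problem is small -/
theorem F_small (K ε : ℝ) (hε : 0 < ε) : ∀ᶠ u : ℝ in atTop,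
    K * (u ^ (1 / 2 : ℝ) * Real.log (Real.log (Real.log u)) ^ (5 / 4 : ℝ)) ≤ ε * (Real.sqrt u * Real.log u) := by
  have h1 : Tendsto (fun u : ℝ => Real.log (Real.log u)) atTop atTop :=
    Real.tendsto_log_atTop.comp Real.tendsto_log_atTop
  -- (log z)^(5/4) ≤ z^(...) small, z = log log u
  have h2 : ∀ᶠ z : ℝ in atTop, |K| * Real.log z ^ (5 / 4 : ℝ) ≤ ε * Real.exp z := by
    have h3 := (isLittleO_log_rpow_atTop (show (0:ℝ) < 4 / 5 by norm_num)).def one_pos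
    have h4 := (Real.tendsto_exp_div_pow_atTop 1).eventually_ge_atTop (|K| / ε)
    filter_upwards [h3, h4, eventually_gt_atTop 1] with z k1 k2 k3
    have hz : 0 < z := by linarith
    have hl : 0 < Real.log z := Real.log_pos k3
    rw [Real.norm_eq_abs, Real.norm_eq_abs, abs_of_pos hl, abs_of_pos (Real.rpow_pos_of_pos hz _), one_mul] at k1
    have k4 : Real.log z ^ (5 / 4 : ℝ) ≤ z := by
      calc Real.log z ^ (5 / 4 : ℝ) ≤ (z ^ (4 / 5 : ℝ)) ^ (5 / 4 : ℝ) := Real.rpow_le_rpow hl.le k1 (by norm_num)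
        _ = z := by rw [← Real.rpow_mul hz.le]; norm_num
    rw [pow_one, div_le_div_iff₀ hε hz] at k2
    calc |K| * Real.log z ^ (5 / 4 : ℝ) ≤ |K| * z := mul_le_mul_of_nonneg_left k4 (abs_nonneg _)
      _ ≤ Real.exp z * ε := k2
      _ = _ := mul_comm _ _
  filter_upwards [h1.eventually h2, h1.eventually_gt_atTop 1, Real.tendsto_log_atTop.eventually_gt_atTop 1,
    eventually_gt_atTop 1] with u k1 k2 k3 k4
  rw [Real.exp_log (by linarith)] at k1
  rw [← Real.sqrt_eq_rpow]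
  have hs := Real.sqrt_nonneg u
  have h5 : 0 ≤ Real.log (Real.log (Real.log u)) ^ (5 / 4 : ℝ) := Real.rpow_nonneg (Real.log_nonneg k2.le) _
  calc K * (Real.sqrt u * Real.log (Real.log (Real.log u)) ^ (5 / 4 : ℝ)) ≤
        |K| * (Real.sqrt u * Real.log (Real.log (Real.log u)) ^ (5 / 4 : ℝ)) :=
        mul_le_mul_of_nonneg_right (le_abs_self _) (by positivity)
    _ = Real.sqrt u * (|K| * Real.log (Real.log (Real.log u)) ^ (5 / 4 : ℝ)) := by ring
    _ ≤ Real.sqrt u * (ε * Real.log u) := mul_le_mul_of_nonneg_left k1 hs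
    _ = _ := by ring

end

end Pool.Agent.V5helper60.MW
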