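import Pool.Agent.V5helper60.MW.LLf
import Pool.Agent.V5helper60.MW.FinM
import Pool.Agent.N739.OW.Lam

/-!
# The Liouville function: assembling
-/

set_option autoImplicit false
set_option maxHeartbeats 4000000

open MeasureTheory Filter Topology Set

namespace Pool.Agent.V5helper60.MW

open H313.TK
open Pool.Agent.W120.WM (RHp NT)
open Pool.Agent.W190 (SF)
open Pool.Agent.N739.OW
open Pool.Agent.R303.SW (laR)

noncomputable section

/-- `L` without its bias -/
def Lb (y : ℝ) : ℝ := LL y - bz * Real.sqrt y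

theorem sqrt_exp' (u : ℝ) : Real.sqrt (Real.exp u) = Real.exp (u / 2) := by
  rw [Real.sqrt_eq_rpow, ← Real.exp_mul]
  congr 1
  ring

theorem Lb_exp (u : ℝ) : Lb (Real.exp u) = mL u := by
  unfold Lb mL ll
  rw [sqrt_exp']

theorem Wn_mono {N κ κ' : ℝ → ℝ} (h : ∀ᶠ u in atTop, κ' u ≤ κ u) (hW : Wn N κ) : Wn N κ' := by
  obtain ⟨c, C0, hc, hC0, hev⟩ := hW
  obtain ⟨x0, hx0⟩ := eventually_atTop.1 h
  refine ⟨c, C0, hc, hC0, fun C hC => ?_⟩
  filter_upwards [hev C hC, eventually_ge_atTop x0] with x h1 h2 s hs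
  obtain ⟨⟨u, hu, h3⟩, h4⟩ := h1 s hs
  have h5 := hx0 u (h2.trans hu.1)
  have h6 := hx0 x h2
  refine ⟨⟨u, hu, le_trans ?_ h3⟩, le_trans ?_ h4⟩
  · have := Real.sqrt_nonneg u
    gcongr
  · gcongr

/-- a term of order `√u` does not matter for the bound with the logarithm -/
theorem Wn_bias {N : ℝ → ℝ} (b : ℝ) (hN : ∀ s x y : ℝ, s = 1 ∨ s = -1 →
      IntervalIntegrable (fun u => max (s * N u) 0) volume x y)
    (hN' : ∀ s x y : ℝ, s = 1 ∨ s = -1 →
      IntervalIntegrable (fun u => max (s * (N u + b * Real.sqrt u)) 0) volume x y)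
    (hW : Wn N Real.log) : Wn (fun u => N u + b * Real.sqrt u) Real.log := by
  obtain ⟨c, C0, hc, hC0, hev⟩ := hW
  refine ⟨c / 2, C0, by positivity, hC0, fun C hC => ?_⟩
  have hCpos : 0 < C := by linarith
  have g1 : ∀ᶠ x : ℝ in atTop, |b| ≤ c / 2 * Real.log x :=
    (Tendsto.const_mul_atTop (by positivity : 0 < c / 2) Real.tendsto_log_atTop).eventually_ge_atTop _
  have g2 : ∀ᶠ x : ℝ in atTop, 1 ≤ Real.log (Real.log x) :=
    (Real.tendsto_log_atTop.comp Real.tendsto_log_atTop).eventually_ge_atTop _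
  -- the logarithmic length of the window is small
  have g3 : ∀ᶠ x : ℝ in atTop, |b| * (Real.log C + 2 * Real.log (Real.log (Real.log x))) ≤ c / 2 * Real.log x := by
    have h1 : ∀ᶠ l : ℝ in atTop, |b| * (Real.log C + 2 * Real.log (Real.log l)) ≤ c / 2 * l := by
      have h2 := Real.isLittleO_log_id_atTop.def (show (0:ℝ) < c / 2 / (4 * (|b| + 1)) by positivity)
      filter_upwards [h2, eventually_ge_atTop (|b| * Real.log C * (4 / c)), eventually_ge_atTop (3:ℝ)] with l k1 k2 k3
      have hl1 : 1 ≤ Real.log l := by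
        rw [Real.le_log_iff_exp_le (by linarith)]
        have := Real.exp_one_lt_d9
        linarith
      rw [Real.norm_eq_abs, Real.norm_eq_abs, abs_of_nonneg (by linarith), id, abs_of_pos (show 0 < l by linarith),
        div_mul_eq_mul_div, le_div_iff₀ (by positivity)] at k1
      have k4 : Real.log (Real.log l) ≤ Real.log l := by
        have := Real.log_le_sub_one_of_pos (by linarith : 0 < Real.log l)
        linarith
      have k5 : |b| * Real.log C ≤ c / 4 * l := by
        have : |b| * Real.log C = (|b| * Real.log C * (4 / c)) * (c / 4) := by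
          field_simp
        rw [this, mul_comm (c / 4)]
        exact mul_le_mul_of_nonneg_right k2 (by positivity)
      have k6 : |b| * (2 * Real.log (Real.log l)) ≤ |b| * (2 * Real.log l) :=
        mul_le_mul_of_nonneg_left (by linarith) (abs_nonneg _)
      nlinarith [abs_nonneg b]
    exact Real.tendsto_log_atTop.eventually h1
  filter_upwards [hev C hC, g1, g2, g3, eventually_ge_atTop (1:ℝ)] with x k1 k2 k3 k4 k5 s hs
  have hx0 : 0 < x := by linarith
  obtain ⟨⟨u, hu, h3⟩, h4⟩ := k1 s hs
  have hsb : ∀ y : ℝ, s * (b * Real.sqrt y) ≥ -(|b| * Real.sqrt y) := by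
    intro y
    have hy := Real.sqrt_nonneg y
    have h5 := neg_abs_le b
    have h6 := le_abs_self b
    rcases hs with rfl | rfl
    · nlinarith
    · nlinarith
  constructor
  · refine ⟨u, hu, ?_⟩
    have h5 := hsb u
    have h6 : Real.log x ≤ Real.log u := Real.log_le_log hx0 hu.1
    have h7 := Real.sqrt_nonneg u
    have h8 : |b| * Real.sqrt u ≤ c / 2 * (Real.sqrt u * Real.log u) := by
      calc |b| * Real.sqrt u ≤ (c / 2 * Real.log x) * Real.sqrt u := mul_le_mul_of_nonneg_right k2 h7
        _ ≤ (c / 2 * Real.log u) * Real.sqrt u := by gcongr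
        _ = _ := by ring
    nlinarith
  · have hxr : x ≤ rt C x := by
      unfold rt
      have : 1 ≤ (Real.log (Real.log x)) ^ 2 := by nlinarith
      have h6 : x ≤ C * x := le_mul_of_one_le_left hx0.le (by linarith)
      nlinarith
    have hpos : ∀ u ∈ uIcc x (rt C x), 0 < u := by
      intro u hu
      rw [uIcc_of_le hxr] at hu
      exact hx0.trans_le hu.1
    have hw : ContinuousOn (fun u : ℝ => (u ^ (3 / 2 : ℝ))⁻¹) (uIcc x (rt C x)) := by
      refine ContinuousOn.inv₀ ?_ ?_
      · intro u hu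
        exact (Real.continuousAt_rpow_const u _ (Or.inl (hpos u hu).ne')).continuousWithinAt
      · intro u hu
        exact (Real.rpow_pos_of_pos (hpos u hu) _).ne'
    have i1 : IntervalIntegrable (fun u => max (s * N u) 0 / u ^ (3 / 2 : ℝ)) volume x (rt C x) := by
      simp_rw [div_eq_mul_inv]
      exact (hN s x _ hs).mul_continuousOn hw
    have i2 : IntervalIntegrable (fun u => max (s * (N u + b * Real.sqrt u)) 0 / u ^ (3 / 2 : ℝ)) volume x (rt C x) := by
      simp_rw [div_eq_mul_inv]
      exact (hN' s x _ hs).mul_continuousOn hw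
    have i3 : IntervalIntegrable (fun u : ℝ => |b| * u⁻¹) volume x (rt C x) := by
      refine ContinuousOn.intervalIntegrable ?_
      refine continuousOn_const.mul (ContinuousOn.inv₀ continuousOn_id ?_)
      intro u hu
      exact (hpos u hu).ne'
    have h5 : ∫ u in x..rt C x, max (s * N u) 0 / u ^ (3 / 2 : ℝ) ≤
        ∫ u in x..rt C x, (max (s * (N u + b * Real.sqrt u)) 0 / u ^ (3 / 2 : ℝ) + |b| * u⁻¹) := by
      refine intervalIntegral.integral_mono_on hxr i1 (i2.add i3) fun u hu => ?_
      have hu0 : 0 < u := hx0.trans_le hu.1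
      have h6 : u ^ (3 / 2 : ℝ) = u * Real.sqrt u := by
        rw [Real.sqrt_eq_rpow, show (3 / 2 : ℝ) = 1 + 1 / 2 by norm_num, Real.rpow_add hu0, Real.rpow_one]
      have hsu := Real.sqrt_pos.2 hu0
      have h7 : |b| * u⁻¹ = (|b| * Real.sqrt u) / u ^ (3 / 2 : ℝ) := by
        rw [h6]
        field_simp
      rw [h7, ← add_div]
      refine div_le_div_of_nonneg_right ?_ (Real.rpow_nonneg hu0.le _)
      have h8 := hsb u
      refine max_le ?_ ?_
      · have h9 := le_max_left (s * (N u + b * Real.sqrt u)) 0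
        linarith
      · have h9 := le_max_right (s * (N u + b * Real.sqrt u)) 0
        positivity
    rw [intervalIntegral.integral_add i2 i3, intervalIntegral.integral_const_mul, integral_inv_of_pos hx0
      (hx0.trans_le hxr)] at h5
    have h6 : Real.log (rt C x / x) = Real.log C + 2 * Real.log (Real.log (Real.log x)) := by
      unfold rt
      have h7 : C * x * (Real.log (Real.log x)) ^ 2 / x = C * (Real.log (Real.log x)) ^ 2 := by field_simp
      rw [h7, Real.log_mul hCpos.ne' (by positivity), Real.log_pow]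
      norm_num
    rw [h6] at h5
    linarith

theorem LL_pos_int (s x y : ℝ) (hs : s = 1 ∨ s = -1) : IntervalIntegrable (fun u => max (s * LL u) 0) volume x y :=
  pos_int laR s x y hs

theorem Lb_pos_int (b s x y : ℝ) (hs : s = 1 ∨ s = -1) :
    IntervalIntegrable (fun u => max (s * (LL u + b * Real.sqrt u)) 0) volume x y := by
  have h1 : IntervalIntegrable (fun u => max (s * LL u) 0 + |b| * Real.sqrt u) volume x y :=
    (LL_pos_int s x y hs).add ((by fun_prop : Continuous fun u : ℝ => |b| * Real.sqrt u).intervalIntegrable _ _)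
  have hm := LL_meas
  rw [intervalIntegrable_iff] at h1 ⊢
  refine Integrable.mono h1 ?_ (ae_of_all _ fun u => ?_)
  · exact (by fun_prop : Measurable fun u : ℝ => max (s * (LL u + b * Real.sqrt u)) 0).aestronglyMeasurable
  · have hsq := Real.sqrt_nonneg u
    have h2 : 0 ≤ max (s * LL u) 0 := le_max_right _ _
    have h3 : s * LL u ≤ max (s * LL u) 0 := le_max_left _ _
    rw [Real.norm_eq_abs, Real.norm_eq_abs, abs_of_nonneg (le_max_right _ _), abs_of_nonneg (by positivity)]
    refine max_le ?_ (by positivity)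
    have h5 := neg_abs_le b
    have h6 := le_abs_self b
    rcases hs with rfl | rfl
    · nlinarith
    · nlinarith

theorem Lb_eq : Lb = fun u => LL u + (-bz) * Real.sqrt u := by
  funext u
  unfold Lb
  ring

theorem LL_eq' : LL = fun u => (LL u + (-bz) * Real.sqrt u) + bz * Real.sqrt u := by
  funext u
  ring

theorem L_one : Wn Lb (fun _ => 1) := by
  by_cases hRH : RHp
  · obtain ⟨ρ, hz, h1, h2⟩ := exists_zero
    have hre : ρ.re = 1 / 2 := hRH ρ ⟨hz, by linarith, h2⟩
    have h := win mL_MB (fun _ => 1) (Eventually.of_forall fun _ => le_rfl) (coreL_one hRH ρ hz hre)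
    simp only [← Lb_exp] at h
    exact Wn_of (Lf := fun _ => 1) h kap_one
  · obtain ⟨ρ, hz, h1⟩ := not_RHp hRH
    have h2 : Wn LL Real.log := Wn_false inp_la hz h1 (Eventually.of_forall fun _ => le_rfl)
    have h3 := Wn_bias (-bz) LL_pos_int (Lb_pos_int (-bz)) h2
    rw [Lb_eq]
    exact Wn_mono one_le_log_ev h3

theorem L_log (h : ¬ RHS) : Wn LL Real.log := by
  by_cases hRH : RHp
  · have h1 : ∃ ρ : ℂ, riemannZeta ρ = 0 ∧ 0 < ρ.re ∧ ρ.re < 1 ∧ deriv riemannZeta ρ = 0 := by
      by_contra hcon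
      push Not at hcon
      exact h ⟨rh_of_RHp hRH, fun ρ hz h0 h1 => hcon ρ hz h0 h1⟩
    obtain ⟨ρ, hz, h0, h1, hd⟩ := h1
    have hre : ρ.re = 1 / 2 := hRH ρ ⟨hz, h0, h1⟩
    have h := win mL_MB (fun t => t) (eventually_ge_atTop 1) (coreL_two hRH ρ hz hd hre)
    simp only [← Lb_exp] at h
    have h2 := Wn_of (Lf := fun t => t) h kap_log
    rw [Lb_eq] at h2
    rw [LL_eq']
    refine Wn_bias bz (fun s x y hs => Lb_pos_int (-bz) s x y hs) (fun s x y hs => ?_) h2
    have h3 := LL_pos_int s x y hs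
    have h4 : (fun u => max (s * (LL u + -bz * Real.sqrt u + bz * Real.sqrt u)) 0) = fun u => max (s * LL u) 0 := by
      funext u
      congr 2
      ring
    rw [h4]
    exact h3
  · obtain ⟨ρ, hz, h1⟩ := not_RHp hRH
    exact Wn_false inp_la hz h1 (Eventually.of_forall fun _ => le_rfl)

end

end Pool.Agent.V5helper60.MW
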