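import Pool.Agent.V5helper60.MW.ToX2
import Pool.Agent.V5helper60.MW.FinL

/-!
# One-sided bounds and means, VI: assembling
-/

set_option autoImplicit false
set_option maxHeartbeats 4000000

open MeasureTheory Filter Topology Set

namespace Pool.Agent.V5helper60.MW

open H313.TK
open Pool.Agent.W120.WM (RHp NT)
open Pool.Agent.W190 (SF)
open Pool.Agent.N739.OW
open Pool.Agent.R303.SW (laR)

noncomputable section

theorem mm_Bal (hRH : RHp) : BalI mm := by
  obtain ⟨ε0, h1, h2⟩ := small_mm (fun _ => 1) (Eventually.of_forall fun _ => le_rfl)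
  exact bal mm_MB (sm_bound hRH) ε0 h1 h2

theorem mL_Bal (hRH : RHp) : BalI mL := by
  obtain ⟨ε0, h1, h2⟩ := small_ml (fun _ => 1) (Eventually.of_forall fun _ => le_rfl)
  exact bal mL_MB (mL_sm hRH) ε0 h1 h2

theorem Bd_of_false {N : ℝ → ℝ} (h : ∀ C : ℝ, 1 ≤ C → ∀ᶠ x : ℝ in atTop, ∀ s : ℝ, s = 1 ∨ s = -1 → ∀ A : ℝ, 0 ≤ A →
      A ≤ Real.exp (Real.sqrt (Real.log x)) →
      ¬ ∀ u ∈ Icc (x / hq2 C x) (hq2 C x * x), s * N u ≤ A * Real.sqrt u) : Bd N := by
  refine ⟨1, 1, 1, 1, one_pos, le_rfl, one_pos, le_rfl, fun C hC => ?_⟩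
  filter_upwards [h C hC] with x hx s hs A hA hAx hyp
  exact absurd hyp (hx s hs A hA hAx)

theorem loc_SF (a : ℕ → ℝ) (x y : ℝ) : IntegrableOn (SF a) (Icc x y) := by
  have h1 := pos_int a 1 x y (Or.inl rfl)
  have h2 := pos_int a (-1) x y (Or.inr rfl)
  rcases le_or_gt x y with hxy | hxy
  · have h3 := h1.sub h2
    rw [intervalIntegrable_iff_integrableOn_Icc_of_le hxy] at h3
    refine h3.congr (ae_of_all _ fun u => ?_)
    simp only
    rcases le_total 0 (SF a u) with h | h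
    · rw [max_eq_left (by linarith), max_eq_right (by linarith)]
      ring
    · rw [max_eq_right (by linarith), max_eq_left (by linarith)]
      ring
  · rw [Icc_eq_empty (by linarith)]
    exact integrableOn_empty

theorem B_M : Bd MM := by
  by_cases hRH : RHp
  · obtain ⟨ρ, hz, h1, h2⟩ := exists_zero
    have hre : ρ.re = 1 / 2 := hRH ρ ⟨hz, by linarith, h2⟩
    exact Bd_of (by rw [M_eq]; exact loc_SF muR) (shortB mm_MB (core_one hRH ρ hz hre) (mm_Bal hRH))
  · obtain ⟨ρ, hz, h1⟩ := not_RHp hRH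
    have h := hyp_false inp_mu hz h1 0
    simp only [zero_mul, add_zero] at h
    exact Bd_of_false h

theorem B_L : Bd Lb := by
  by_cases hRH : RHp
  · obtain ⟨ρ, hz, h1, h2⟩ := exists_zero
    have hre : ρ.re = 1 / 2 := hRH ρ ⟨hz, by linarith, h2⟩
    have h := shortB mL_MB (coreL_one hRH ρ hz hre) (mL_Bal hRH)
    simp only [← Lb_exp] at h
    refine Bd_of (fun x y => ?_) h
    have h3 : IntegrableOn LL (Icc x y) := loc_SF laR x y
    exact h3.sub (by fun_prop : Continuous fun u : ℝ => bz * Real.sqrt u).continuousOn.integrableOn_Icc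
  · obtain ⟨ρ, hz, h1⟩ := not_RHp hRH
    have h := hyp_false inp_la hz h1 (-bz)
    refine Bd_of_false ?_
    rw [Lb_eq]
    exact h

/-- `F` -/
def FF (x : ℝ) : ℝ := x ^ (1 / 2 : ℝ) * Real.log (Real.log (Real.log x)) ^ (5 / 4 : ℝ)

/-- the ratio of the windows for `F` -/
def fr (C x : ℝ) : ℝ := C * Real.sqrt (Real.log (Real.log (Real.log (Real.log x))))

theorem hq2_le {C : ℝ} (hCpos : 0 < C) : ∀ᶠ x : ℝ in atTop, hq2 C x ≤ Real.sqrt x := by
  have t1 : Tendsto (fun x : ℝ => Real.log x) atTop atTop := Real.tendsto_log_atTop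
  have t2 : Tendsto (fun x : ℝ => Real.log (Real.log x)) atTop atTop := t1.comp t1
  have h2 := (isLittleO_log_rpow_atTop (show (0:ℝ) < 1 / 4 by norm_num)).def
    (show 0 < (Real.sqrt C)⁻¹ by positivity)
  filter_upwards [h2, t2.eventually_ge_atTop 1, t1.eventually_ge_atTop 1, eventually_ge_atTop 1] with x h3 h4 h5 h6
  have hx0 : 0 < x := by linarith
  rw [Real.norm_eq_abs, Real.norm_eq_abs, abs_of_nonneg (by linarith), abs_of_pos (Real.rpow_pos_of_pos hx0 _)] at h3
  have h7 : Real.log (Real.log x) ≤ Real.log x := (Real.log_le_sub_one_of_pos (by linarith)).trans (by linarith)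
  have h8 : Real.log (Real.log x) ≤ (Real.sqrt C)⁻¹ * x ^ (1 / 4 : ℝ) := h7.trans h3
  unfold hq2
  have h9 : (Real.log (Real.log x)) ^ 2 ≤ ((Real.sqrt C)⁻¹ * x ^ (1 / 4 : ℝ)) ^ 2 :=
    pow_le_pow_left₀ (by linarith) h8 2
  have h10 : ((Real.sqrt C)⁻¹ * x ^ (1 / 4 : ℝ)) ^ 2 = C⁻¹ * Real.sqrt x := by
    rw [mul_pow, inv_pow, Real.sq_sqrt hCpos.le, ← Real.rpow_natCast, ← Real.rpow_mul hx0.le, Real.sqrt_eq_rpow]
    norm_num
  rw [h10] at h9
  calc C * (Real.log (Real.log x)) ^ 2 ≤ C * (C⁻¹ * Real.sqrt x) := mul_le_mul_of_nonneg_left h9 hCpos.le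
    _ = Real.sqrt x := by field_simp

theorem Bd.F {N : ℝ → ℝ} (h : Bd N) (hN : ∀ s x y : ℝ, s = 1 ∨ s = -1 →
      IntervalIntegrable (fun u => max (s * N u) 0) volume x y) :
    ∃ c C0 C1 C3 : ℝ, 0 < c ∧ 1 ≤ C0 ∧ 0 < C1 ∧ 1 ≤ C3 ∧ ∀ C : ℝ, C0 ≤ C → ∀ K : ℝ, 0 < K → ∀ᶠ x : ℝ in atTop,
      ∀ s : ℝ, s = 1 ∨ s = -1 → (∀ u ∈ Icc (x / hq2 C x) (hq2 C x * x), s * N u ≤ K * FF u) →
      (∫ u in (x / 2)..(2 * x), |N u| ≤ C1 * K * (x * FF x)) ∧
      ∀ s' : ℝ, s' = 1 ∨ s' = -1 →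
        (∃ u ∈ Icc (x / fr C3 x) (fr C3 x * x), c * Real.sqrt u ≤ s' * N u) ∧
        c ≤ ∫ u in (x / fr C3 x)..(fr C3 x * x), max (s' * N u) 0 / u ^ (3 / 2 : ℝ) := by
  obtain ⟨c, C0, C1, C2, hc, hC0, hC1, hC2, hev⟩ := h
  refine ⟨c, C0, 4 * C1, C2 * Real.sqrt 2, hc, hC0, by positivity, ?_, fun C hC K hK => ?_⟩
  · have h1 : 1 ≤ Real.sqrt 2 := by rw [Real.one_le_sqrt]; norm_num
    nlinarith
  have hCpos : 0 < C := by linarith
  have t1 : Tendsto (fun x : ℝ => Real.log x) atTop atTop := Real.tendsto_log_atTop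
  have t2 : Tendsto (fun x : ℝ => Real.log (Real.log x)) atTop atTop := t1.comp t1
  have t3 : Tendsto (fun x : ℝ => Real.log (Real.log (Real.log x))) atTop atTop := t1.comp t2
  have t4 : Tendsto (fun x : ℝ => Real.log (Real.log (Real.log (Real.log x)))) atTop atTop := t1.comp t3
  have g1 : ∀ᶠ z : ℝ in atTop, 2 + 4 * K ≤ z ^ (3 / 4 : ℝ) :=
    (tendsto_rpow_atTop (by norm_num)).eventually_ge_atTop _
  have g2 := hq2_le hCpos
  filter_upwards [hev C hC, t3.eventually g1, g2, t1.eventually_ge_atTop (max 16 (192 * K)), t2.eventually_ge_atTop 4,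
    t3.eventually_ge_atTop 4, t4.eventually_ge_atTop 1, eventually_ge_atTop (256:ℝ)] with x k1 k2 k3 k4 k5 k6 k7 k8 s hs hyp
  have hx0 : 0 < x := by linarith
  set z := Real.log (Real.log (Real.log x)) with hz
  have hz0 : 0 < z := by linarith
  have hl16 : 16 ≤ Real.log x := le_trans (le_max_left _ _) k4
  have hlK : 192 * K ≤ Real.log x := le_trans (le_max_right _ _) k4
  set A : ℝ := 4 * K * z ^ (5 / 4 : ℝ) with hA
  have hz54 : 0 < z ^ (5 / 4 : ℝ) := Real.rpow_pos_of_pos hz0 _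
  have hA0 : 0 ≤ A := by positivity
  -- `A ≤ exp √(log x)`
  have hAx : A ≤ Real.exp (Real.sqrt (Real.log x)) := by
    set w := Real.log (Real.log x) with hw
    have h1 : z ≤ w := by
      have := Real.log_le_sub_one_of_pos (show 0 < w by linarith)
      linarith
    have h2 : z ^ (5 / 4 : ℝ) ≤ w ^ 2 := by
      calc z ^ (5 / 4 : ℝ) ≤ z ^ (2 : ℝ) := Real.rpow_le_rpow_of_exponent_le (by linarith) (by norm_num)
        _ = z ^ 2 := by norm_cast
        _ ≤ w ^ 2 := pow_le_pow_left₀ hz0.le h1 2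
    have h3 : w ^ 2 ≤ 2 * Real.log x := by
      have h4 := Real.quadratic_le_exp_of_nonneg (show 0 ≤ w by linarith)
      have h5 : Real.exp w = Real.log x := Real.exp_log (by linarith)
      rw [h5] at h4
      nlinarith
    have h4 : (Real.log x) ^ 2 ≤ 24 * Real.exp (Real.sqrt (Real.log x)) := by
      have h5 := Real.pow_div_factorial_le_exp (Real.sqrt (Real.log x)) (Real.sqrt_nonneg _) 4
      have h6 : Real.sqrt (Real.log x) ^ 4 = (Real.log x) ^ 2 := by
        rw [show (4:ℕ) = 2 * 2 by norm_num, pow_mul, Real.sq_sqrt (by linarith)]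
      rw [h6] at h5
      have h7 : (Nat.factorial 4 : ℝ) = 24 := by norm_num [Nat.factorial]
      rw [h7] at h5
      linarith
    have h5 : A ≤ 8 * K * Real.log x := by
      rw [hA]
      have := mul_le_mul_of_nonneg_left (h2.trans h3) (by positivity : 0 ≤ 4 * K)
      linarith
    nlinarith
  -- the bound for the ratio
  have hlog : Real.sqrt (Real.log (2 + A)) ≤ Real.sqrt 2 * Real.sqrt (Real.log z) := by
    rw [← Real.sqrt_mul (by norm_num)]
    refine Real.sqrt_le_sqrt ?_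
    have h1 : 2 + A ≤ z ^ 2 := by
      have h2 : 1 ≤ z ^ (5 / 4 : ℝ) := Real.one_le_rpow (by linarith) (by norm_num)
      calc 2 + A ≤ (2 + 4 * K) * z ^ (5 / 4 : ℝ) := by rw [hA]; nlinarith
        _ ≤ z ^ (3 / 4 : ℝ) * z ^ (5 / 4 : ℝ) := mul_le_mul_of_nonneg_right k2 hz54.le
        _ = z ^ 2 := by rw [← Real.rpow_add hz0]; norm_num
    have h2 := Real.log_le_log (by linarith) h1
    rw [Real.log_pow] at h2
    exact_mod_cast h2
  have hcq : cq C2 A ≤ fr (C2 * Real.sqrt 2) x := by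
    unfold cq fr
    rw [← hz]
    have := mul_le_mul_of_nonneg_left hlog (by linarith : 0 ≤ C2)
    linarith
  have hcq0 : 0 < cq C2 A := by
    unfold cq
    have : 0 < Real.log (2 + A) := Real.log_pos (by linarith)
    have := Real.sqrt_pos.2 this
    positivity
  -- the hypothesis
  have hh1 : 1 ≤ hq2 C x := by
    unfold hq2
    nlinarith
  have hyp' : ∀ u ∈ Icc (x / hq2 C x) (hq2 C x * x), s * N u ≤ A * Real.sqrt u := by
    intro u hu
    have hsx : Real.sqrt x * Real.sqrt x = x := Real.mul_self_sqrt hx0.le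
    have hsx0 : 0 < Real.sqrt x := Real.sqrt_pos.2 hx0
    have hs16 : 16 ≤ Real.sqrt x := by
      rw [Real.le_sqrt (by norm_num) hx0.le]
      norm_num
      linarith
    have hu1 : Real.sqrt x ≤ u := by
      refine le_trans ?_ hu.1
      rw [le_div_iff₀ (by linarith)]
      calc Real.sqrt x * hq2 C x ≤ Real.sqrt x * Real.sqrt x := mul_le_mul_of_nonneg_left k3 hsx0.le
        _ = x := hsx
    have hu2 : u ≤ x ^ 2 := by
      refine hu.2.trans ?_
      have h1 : hq2 C x ≤ x := k3.trans (by nlinarith)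
      nlinarith
    have hu0 : 0 < u := hsx0.trans_le hu1
    have hu16 : Real.exp (Real.exp 1) ≤ u := by
      have h1 : Real.exp 1 < 2.7182818286 := Real.exp_one_lt_d9
      have h2 : Real.exp (Real.exp 1) ≤ Real.exp 2.75 := Real.exp_le_exp.2 (by linarith)
      have h3 : Real.exp 2.75 ≤ 16 := by
        have h4 : Real.exp 2.75 = Real.exp (1 / 4) ^ 11 := by
          rw [← Real.exp_nat_mul]; norm_num
        have h5 : Real.exp (1 / 4) ≤ 1.2843 := by
          have h6 : Real.exp (1 / 4) ^ 4 = Real.exp 1 := by rw [← Real.exp_nat_mul]; norm_num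
          by_contra hcon
          push Not at hcon
          have h7 : (1.2843:ℝ) ^ 4 < Real.exp (1 / 4) ^ 4 := pow_lt_pow_left₀ hcon (by norm_num) (by norm_num)
          rw [h6] at h7
          norm_num at h7
          linarith
        rw [h4]
        calc Real.exp (1 / 4) ^ 11 ≤ 1.2843 ^ 11 := pow_le_pow_left₀ (Real.exp_pos _).le h5 11
          _ ≤ 16 := by norm_num
      linarith
    have l1 : Real.exp 1 ≤ Real.log u := by
      rw [Real.le_log_iff_exp_le hu0]; exact hu16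
    have hlu0 : 0 < Real.log u := (Real.exp_pos 1).trans_le l1
    have l2 : 1 ≤ Real.log (Real.log u) := by
      rw [Real.le_log_iff_exp_le hlu0]; exact l1
    have l3 : 0 ≤ Real.log (Real.log (Real.log u)) := Real.log_nonneg l2
    have m1 : Real.log u ≤ 2 * Real.log x := by
      have := Real.log_le_log hu0 hu2
      rw [Real.log_pow] at this
      exact_mod_cast this
    have hl2 : Real.log 2 ≤ 1 := by
      have := Real.log_two_lt_d9
      linarith
    have m2 : Real.log (Real.log u) ≤ 2 * Real.log (Real.log x) := by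
      have := Real.log_le_log hlu0 m1
      rw [Real.log_mul (by norm_num) (by linarith)] at this
      linarith
    have m3 : Real.log (Real.log (Real.log u)) ≤ 2 * z := by
      have := Real.log_le_log (by linarith) m2
      rw [Real.log_mul (by norm_num) (by linarith)] at this
      linarith
    have m4 : Real.log (Real.log (Real.log u)) ^ (5 / 4 : ℝ) ≤ 4 * z ^ (5 / 4 : ℝ) := by
      calc Real.log (Real.log (Real.log u)) ^ (5 / 4 : ℝ) ≤ (2 * z) ^ (5 / 4 : ℝ) :=
            Real.rpow_le_rpow l3 m3 (by norm_num)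
        _ = 2 ^ (5 / 4 : ℝ) * z ^ (5 / 4 : ℝ) := Real.mul_rpow (by norm_num) hz0.le
        _ ≤ 2 ^ (2 : ℝ) * z ^ (5 / 4 : ℝ) := by
            refine mul_le_mul_of_nonneg_right ?_ hz54.le
            exact Real.rpow_le_rpow_of_exponent_le (by norm_num) (by norm_num)
        _ = 4 * z ^ (5 / 4 : ℝ) := by norm_num
    refine (hyp u hu).trans ?_
    unfold FF
    rw [← Real.sqrt_eq_rpow, hA]
    have hsu := Real.sqrt_nonneg u
    calc K * (Real.sqrt u * Real.log (Real.log (Real.log u)) ^ (5 / 4 : ℝ)) ≤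
          K * (Real.sqrt u * (4 * z ^ (5 / 4 : ℝ))) := by gcongr
      _ = _ := by ring
  obtain ⟨m1, m2⟩ := k1 s hs A hA0 hAx hyp'
  constructor
  · refine m1.trans (le_of_eq ?_)
    unfold FF
    rw [← hz, hA, show (3 / 2 : ℝ) = 1 + 1 / 2 by norm_num, Real.rpow_add hx0, Real.rpow_one]
    ring
  intro s' hs'
  obtain ⟨⟨u, hu, hu2⟩, hI⟩ := m2 s' hs'
  set R := fr (C2 * Real.sqrt 2) x with hR
  have hR0 : 0 < R := hcq0.trans_le hcq
  have e1 : x / R ≤ x / cq C2 A := div_le_div_of_nonneg_left hx0.le hcq0 hcq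
  have e2 : cq C2 A * x ≤ R * x := mul_le_mul_of_nonneg_right hcq hx0.le
  have hmid : x / cq C2 A ≤ cq C2 A * x := le_trans hu.1 hu.2
  refine ⟨⟨u, ⟨e1.trans hu.1, hu.2.trans e2⟩, hu2⟩, hI.trans ?_⟩
  have hxR : 0 < x / R := by positivity
  have hInt : IntervalIntegrable (fun u => max (s' * N u) 0 / u ^ (3 / 2 : ℝ)) volume (x / R) (R * x) := by
    simp_rw [div_eq_mul_inv]
    refine (hN s' _ _ hs').mul_continuousOn ?_
    have hle : x * R⁻¹ ≤ R * x := by rw [← div_eq_mul_inv]; exact e1.trans (hmid.trans e2)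
    have hpos : 0 < x * R⁻¹ := by rw [← div_eq_mul_inv]; exact hxR
    refine ContinuousOn.inv₀ ?_ ?_
    · intro u hu
      have hu0 : 0 < u := by
        rw [uIcc_of_le hle] at hu
        exact hpos.trans_le hu.1
      exact (Real.continuousAt_rpow_const u _ (Or.inl hu0.ne')).continuousWithinAt
    · intro u hu
      have hu0 : 0 < u := by
        rw [uIcc_of_le hle] at hu
        exact hpos.trans_le hu.1
      exact (Real.rpow_pos_of_pos hu0 _).ne'
  refine intervalIntegral.integral_mono_interval e1 hmid e2 ?_ hInt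
  refine (ae_restrict_iff' measurableSet_Ioc).2 (ae_of_all _ fun u hu => ?_)
  have hu0 : 0 < u := hxR.trans hu.1
  exact div_nonneg (le_max_right _ _) (Real.rpow_nonneg hu0.le _)

/-- the version for `L` itself -/
theorem L_F : ∃ c C0 C1 C3 : ℝ, 0 < c ∧ 1 ≤ C0 ∧ 0 < C1 ∧ 1 ≤ C3 ∧ ∀ C : ℝ, C0 ≤ C → ∀ K : ℝ, 0 < K → ∀ᶠ x : ℝ in atTop,
      ∀ s : ℝ, s = 1 ∨ s = -1 → (∀ u ∈ Icc (x / hq2 C x) (hq2 C x * x), s * LL u ≤ K * FF u) →
      (∫ u in (x / 2)..(2 * x), |LL u| ≤ C1 * (K + 1) * (x * FF x)) ∧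
      ∀ s' : ℝ, s' = 1 ∨ s' = -1 →
        (∃ u ∈ Icc (x / fr C3 x) (fr C3 x * x), c * Real.sqrt u ≤ s' * Lb u) ∧
        c ≤ ∫ u in (x / fr C3 x)..(fr C3 x * x), max (s' * Lb u) 0 / u ^ (3 / 2 : ℝ) := by
  have hLbi : ∀ s x y : ℝ, s = 1 ∨ s = -1 → IntervalIntegrable (fun u => max (s * Lb u) 0) volume x y := by
    intro s x y hs
    rw [Lb_eq]
    exact Lb_pos_int (-bz) s x y hs
  obtain ⟨c, C0, C1, C3, hc, hC0, hC1, hC3, hev⟩ := B_L.F hLbi
  have hb0 := abs_nonneg bz
  refine ⟨c, C0, C1 * (1 + |bz|) + 4 * |bz|, C3, hc, hC0, by positivity, hC3, fun C hC K hK => ?_⟩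
  have hCpos : 0 < C := by linarith
  have t1 : Tendsto (fun x : ℝ => Real.log x) atTop atTop := Real.tendsto_log_atTop
  have t3 : Tendsto (fun x : ℝ => Real.log (Real.log (Real.log x))) atTop atTop := t1.comp (t1.comp t1)
  obtain ⟨u0, hu0⟩ := eventually_atTop.1 (t3.eventually_ge_atTop 1)
  have hF : ∀ u : ℝ, u0 ≤ u → Real.sqrt u ≤ FF u := by
    intro u hu
    unfold FF
    rw [← Real.sqrt_eq_rpow]
    have h1 : 1 ≤ Real.log (Real.log (Real.log u)) ^ (5 / 4 : ℝ) := Real.one_le_rpow (hu0 u hu) (by norm_num)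
    have h2 := Real.sqrt_nonneg u
    nlinarith
  filter_upwards [hev C hC (K + |bz|) (by positivity), hq2_le hCpos, Real.tendsto_sqrt_atTop.eventually_ge_atTop u0,
    eventually_ge_atTop (max u0 4), (t1.comp t1).eventually_ge_atTop 1] with x k1 k2 k3 k4 k5 s hs hyp
  simp only [Function.comp] at k5
  have hx4 : 4 ≤ x := le_trans (le_max_right _ _) k4
  have hx0 : 0 < x := by linarith
  have hsx : Real.sqrt x * Real.sqrt x = x := Real.mul_self_sqrt hx0.le
  have hsx0 : 0 < Real.sqrt x := Real.sqrt_pos.2 hx0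
  have hh0 : 0 < hq2 C x := by
    unfold hq2
    positivity
  have hFx := hF x (le_trans (le_max_left _ _) k4)
  obtain ⟨m1, m2⟩ := k1 s hs (fun u hu => by
    have hu1 : Real.sqrt x ≤ u := by
      refine le_trans ?_ hu.1
      rw [le_div_iff₀ hh0]
      calc Real.sqrt x * hq2 C x ≤ Real.sqrt x * Real.sqrt x := mul_le_mul_of_nonneg_left k2 hsx0.le
        _ = x := hsx
    have h1 := hyp u hu
    have h2 := hF u (k3.trans hu1)
    have h3 := Real.sqrt_nonneg u
    have h4 : -(s * (bz * Real.sqrt u)) ≤ |bz| * Real.sqrt u := by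
      have h5 := neg_abs_le bz
      have h6 := le_abs_self bz
      rcases hs with rfl | rfl <;> nlinarith
    have h5 : |bz| * Real.sqrt u ≤ |bz| * FF u := mul_le_mul_of_nonneg_left h2 hb0
    unfold Lb
    linarith)
  refine ⟨?_, m2⟩
  have i1 : IntervalIntegrable (fun u => |Lb u|) volume (x / 2) (2 * x) := by
    rw [intervalIntegrable_iff_integrableOn_Icc_of_le (by linarith)]
    have h3 : IntegrableOn LL (Icc (x / 2) (2 * x)) := loc_SF laR _ _
    exact (h3.sub (by fun_prop : Continuous fun u : ℝ => bz * Real.sqrt u).continuousOn.integrableOn_Icc).abs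
  have i2 : IntervalIntegrable (fun u => |LL u|) volume (x / 2) (2 * x) := by
    rw [intervalIntegrable_iff_integrableOn_Icc_of_le (by linarith)]
    have h3 : IntegrableOn LL (Icc (x / 2) (2 * x)) := loc_SF laR _ _
    exact h3.abs
  have h1 : ∫ u in (x / 2)..(2 * x), |LL u| ≤ ∫ u in (x / 2)..(2 * x), (|Lb u| + |bz| * (2 * Real.sqrt x)) := by
    refine intervalIntegral.integral_mono_on (by linarith) i2 (i1.add intervalIntegrable_const) fun u hu => ?_
    have h2 : LL u = Lb u + bz * Real.sqrt u := by unfold Lb; ring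
    have h3 : Real.sqrt u ≤ 2 * Real.sqrt x := by
      rw [Real.sqrt_le_left (by positivity)]
      nlinarith [hu.2]
    rw [h2]
    refine (abs_add_le _ _).trans ?_
    rw [abs_mul, abs_of_nonneg (Real.sqrt_nonneg u)]
    have := mul_le_mul_of_nonneg_left h3 hb0
    linarith
  rw [intervalIntegral.integral_add i1 intervalIntegrable_const, intervalIntegral.integral_const, smul_eq_mul] at h1
  have h2 : (2 * x - x / 2) * (|bz| * (2 * Real.sqrt x)) ≤ 4 * |bz| * (x * FF x) := by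
    have h3 : (2 * x - x / 2) * (|bz| * (2 * Real.sqrt x)) = 3 * |bz| * (x * Real.sqrt x) := by ring
    rw [h3]
    have h4 : x * Real.sqrt x ≤ x * FF x := mul_le_mul_of_nonneg_left hFx hx0.le
    have h5 : 0 ≤ x * Real.sqrt x := by positivity
    nlinarith
  have hxF : 0 ≤ x * FF x := mul_nonneg hx0.le (hsx0.le.trans hFx)
  have h3 : C1 * (K + |bz|) * (x * FF x) ≤ C1 * (1 + |bz|) * (K + 1) * (x * FF x) := by
    refine mul_le_mul_of_nonneg_right ?_ hxF
    have : K + |bz| ≤ (1 + |bz|) * (K + 1) := by nlinarith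
    calc C1 * (K + |bz|) ≤ C1 * ((1 + |bz|) * (K + 1)) := mul_le_mul_of_nonneg_left this hC1.le
      _ = _ := by ring
  have h4 : 4 * |bz| * (x * FF x) ≤ 4 * |bz| * (K + 1) * (x * FF x) := by
    refine mul_le_mul_of_nonneg_right ?_ hxF
    nlinarith
  calc ∫ u in (x / 2)..(2 * x), |LL u| ≤ (∫ u in (x / 2)..(2 * x), |Lb u|) + (2 * x - x / 2) * (|bz| * (2 * Real.sqrt x)) := h1
    _ ≤ C1 * (1 + |bz|) * (K + 1) * (x * FF x) + 4 * |bz| * (K + 1) * (x * FF x) := by linarith
    _ = _ := by ring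

end

end Pool.Agent.V5helper60.MW
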