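import Pool.Agent.W120.WM.Defs

/-!
# Gaussian estimates
-/

set_option autoImplicit false

open MeasureTheory Filter Topology Set

namespace Pool.Agent.V5helper60.MW

open Pool.Agent.W120.WM (gk)

/-- a wider Gaussian (not normalised) -/
noncomputable def gw (h w : ℝ) : ℝ :=
  (h * Real.sqrt (2 * Real.pi))⁻¹ * Real.exp (-(w ^ 2 / (8 * h ^ 2)))

theorem norm_pos {h : ℝ} (hh : 0 < h) : 0 < (h * Real.sqrt (2 * Real.pi))⁻¹ := by
  have := Real.pi_pos
  positivity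

theorem gk_pos {h : ℝ} (hh : 0 < h) (w : ℝ) : 0 < gk h w := mul_pos (norm_pos hh) (Real.exp_pos _)

theorem gw_pos {h : ℝ} (hh : 0 < h) (w : ℝ) : 0 < gw h w := mul_pos (norm_pos hh) (Real.exp_pos _)

theorem gk_cont (h : ℝ) : Continuous (gk h) := by
  unfold gk
  fun_prop

theorem gw_cont (h : ℝ) : Continuous (gw h) := by
  unfold gw
  fun_prop

theorem gk_int {h : ℝ} (hh : 0 < h) : Integrable (gk h) := by
  have h1 : Integrable (fun w : ℝ => Real.exp (-(1 / (2 * h ^ 2)) * w ^ 2)) :=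
    integrable_exp_neg_mul_sq (by positivity)
  refine (h1.const_mul (h * Real.sqrt (2 * Real.pi))⁻¹).congr (ae_of_all _ fun w => ?_)
  show _ = gk h w
  unfold gk
  ring_nf

theorem gk_mass {h : ℝ} (hh : 0 < h) : ∫ w, gk h w = 1 := by
  have h1 : ∫ w : ℝ, Real.exp (-(1 / (2 * h ^ 2)) * w ^ 2) = Real.sqrt (Real.pi / (1 / (2 * h ^ 2))) :=
    integral_gaussian _
  have h2 : ∀ w, gk h w = (h * Real.sqrt (2 * Real.pi))⁻¹ * Real.exp (-(1 / (2 * h ^ 2)) * w ^ 2) := by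
    intro w
    unfold gk
    congr 2
    ring
  simp_rw [h2]
  rw [integral_const_mul, h1]
  have h3 : Real.pi / (1 / (2 * h ^ 2)) = h ^ 2 * (2 * Real.pi) := by
    field_simp
  have h4 : 0 < Real.sqrt (2 * Real.pi) := Real.sqrt_pos.2 (by have := Real.pi_pos; positivity)
  rw [h3, Real.sqrt_mul (sq_nonneg h) (2 * Real.pi), Real.sqrt_sq hh.le]
  exact inv_mul_cancel₀ (by positivity)

theorem gw_int {h : ℝ} (hh : 0 < h) : Integrable (gw h) := by
  have h1 : Integrable (fun w : ℝ => Real.exp (-(1 / (8 * h ^ 2)) * w ^ 2)) :=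
    integrable_exp_neg_mul_sq (by positivity)
  refine (h1.const_mul (h * Real.sqrt (2 * Real.pi))⁻¹).congr (ae_of_all _ fun w => ?_)
  show _ = gw h w
  unfold gw
  ring_nf

theorem gw_mass {h : ℝ} (hh : 0 < h) : ∫ w, gw h w = 2 := by
  have h1 : ∫ w : ℝ, Real.exp (-(1 / (8 * h ^ 2)) * w ^ 2) = Real.sqrt (Real.pi / (1 / (8 * h ^ 2))) :=
    integral_gaussian _
  have h2 : ∀ w, gw h w = (h * Real.sqrt (2 * Real.pi))⁻¹ * Real.exp (-(1 / (8 * h ^ 2)) * w ^ 2) := by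
    intro w
    unfold gw
    congr 2
    ring
  simp_rw [h2]
  rw [integral_const_mul, h1]
  have h3 : Real.pi / (1 / (8 * h ^ 2)) = (2 * h) ^ 2 * (2 * Real.pi) := by
    field_simp
    ring
  have h4 : 0 < Real.sqrt (2 * Real.pi) := Real.sqrt_pos.2 (by have := Real.pi_pos; positivity)
  rw [h3, Real.sqrt_mul (sq_nonneg (2 * h)) (2 * Real.pi), Real.sqrt_sq (by positivity)]
  rw [show (2 * h) * Real.sqrt (2 * Real.pi) = 2 * (h * Real.sqrt (2 * Real.pi)) by ring, mul_left_comm,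
    inv_mul_cancel₀ (by positivity), mul_one]

/-- exponential moments -/
theorem gA {h : ℝ} (hh : 0 < h) (h1 : h ≤ 1) (w : ℝ) : Real.exp (2 * |w|) * gk h w ≤ 21 * gw h w := by
  unfold gk gw
  have hn := norm_pos hh
  have key : 2 * |w| + -(w ^ 2 / (2 * h ^ 2)) ≤ 3 + -(w ^ 2 / (8 * h ^ 2)) := by
    have e1 : w ^ 2 / (2 * h ^ 2) = 4 * (w ^ 2 / (8 * h ^ 2)) := by field_simp; ring
    rw [e1]
    have e2 : |w| = (|w| / h) * h := by field_simp
    have e3 : w ^ 2 / (8 * h ^ 2) = (|w| / h) ^ 2 / 8 := by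
      rw [div_pow, sq_abs]; field_simp
    rw [e2, e3]
    set x := |w| / h
    have hx2 : h ^ 2 ≤ 1 := by nlinarith
    nlinarith [sq_nonneg (3 * x - 8 * h), hh]
  have e3 : Real.exp 3 ≤ 21 := by
    have := Real.exp_one_lt_d9
    have h5 : Real.exp 3 = Real.exp 1 ^ 3 := by rw [← Real.exp_nat_mul]; norm_num
    rw [h5]
    calc Real.exp 1 ^ 3 ≤ (2.7182818286 : ℝ) ^ 3 := by
          exact pow_le_pow_left₀ (Real.exp_pos 1).le this.le 3
      _ ≤ 21 := by norm_num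
  calc Real.exp (2 * |w|) * ((h * Real.sqrt (2 * Real.pi))⁻¹ * Real.exp (-(w ^ 2 / (2 * h ^ 2))))
      = (h * Real.sqrt (2 * Real.pi))⁻¹ * Real.exp (2 * |w| + -(w ^ 2 / (2 * h ^ 2))) := by
        rw [Real.exp_add]; ring
    _ ≤ (h * Real.sqrt (2 * Real.pi))⁻¹ * Real.exp (3 + -(w ^ 2 / (8 * h ^ 2))) :=
        mul_le_mul_of_nonneg_left (Real.exp_le_exp.2 key) hn.le
    _ = Real.exp 3 * ((h * Real.sqrt (2 * Real.pi))⁻¹ * Real.exp (-(w ^ 2 / (8 * h ^ 2)))) := by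
        rw [Real.exp_add]; ring
    _ ≤ _ := mul_le_mul_of_nonneg_right e3 (by positivity)

/-- first moment with an exponential weight -/
theorem gB {h : ℝ} (hh : 0 < h) (h1 : h ≤ 1) (w : ℝ) :
    |w| * Real.exp (3 / 2 * |w|) * gk h w ≤ 42 * h * gw h w := by
  unfold gk gw
  have hn := norm_pos hh
  set x := |w| / h with hx
  have hx0 : 0 ≤ x := by positivity
  have ew : |w| = x * h := by rw [hx]; field_simp
  have key : x + 3 / 2 * |w| + -(w ^ 2 / (2 * h ^ 2)) ≤ 17 / 4 + -(w ^ 2 / (8 * h ^ 2)) := by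
    have e1 : w ^ 2 / (2 * h ^ 2) = 4 * (w ^ 2 / (8 * h ^ 2)) := by field_simp; ring
    rw [e1]
    have e3 : w ^ 2 / (8 * h ^ 2) = x ^ 2 / 8 := by
      rw [hx, div_pow, sq_abs]; field_simp
    rw [ew, e3]
    nlinarith [sq_nonneg (3 * x - 10), mul_nonneg hx0 (sub_nonneg.2 h1)]
  have e0 : x ≤ Real.exp x * Real.exp (-1) := by
    rw [← Real.exp_add]
    have := Real.add_one_le_exp (x + -1)
    linarith
  have e3 : Real.exp (13 / 4) ≤ 42 := by
    have := Real.exp_one_lt_d9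
    have h5 : Real.exp (13 / 4) ^ 4 = Real.exp 1 ^ 13 := by
      rw [← Real.exp_nat_mul, ← Real.exp_nat_mul]; norm_num
    have h6 : Real.exp 1 ^ 13 ≤ (2.7182818286 : ℝ) ^ 13 := pow_le_pow_left₀ (Real.exp_pos 1).le this.le 13
    have h7 : (2.7182818286 : ℝ) ^ 13 ≤ 42 ^ 4 := by norm_num
    have h8 : Real.exp (13 / 4) ^ 4 ≤ 42 ^ 4 := by rw [h5]; exact h6.trans h7
    exact le_of_pow_le_pow_left₀ (by norm_num) (by norm_num) h8
  calc |w| * Real.exp (3 / 2 * |w|) * ((h * Real.sqrt (2 * Real.pi))⁻¹ * Real.exp (-(w ^ 2 / (2 * h ^ 2))))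
      = h * (h * Real.sqrt (2 * Real.pi))⁻¹ * (x * Real.exp (3 / 2 * |w| + -(w ^ 2 / (2 * h ^ 2)))) := by
        rw [Real.exp_add]
        nth_rewrite 1 [ew]
        ring
    _ ≤ h * (h * Real.sqrt (2 * Real.pi))⁻¹ * ((Real.exp x * Real.exp (-1)) * Real.exp (3 / 2 * |w| + -(w ^ 2 / (2 * h ^ 2)))) := by
        refine mul_le_mul_of_nonneg_left ?_ (by positivity)
        exact mul_le_mul_of_nonneg_right e0 (Real.exp_pos _).le
    _ = h * (h * Real.sqrt (2 * Real.pi))⁻¹ * Real.exp (-1 + (x + 3 / 2 * |w| + -(w ^ 2 / (2 * h ^ 2)))) := by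
        rw [← Real.exp_add, ← Real.exp_add]
        congr 2
        ring
    _ ≤ h * (h * Real.sqrt (2 * Real.pi))⁻¹ * Real.exp (-1 + (17 / 4 + -(w ^ 2 / (8 * h ^ 2)))) := by
        refine mul_le_mul_of_nonneg_left (Real.exp_le_exp.2 ?_) (by positivity)
        linarith
    _ = h * Real.exp (13 / 4) * ((h * Real.sqrt (2 * Real.pi))⁻¹ * Real.exp (-(w ^ 2 / (8 * h ^ 2)))) := by
        have : (-1 + (17 / 4 + -(w ^ 2 / (8 * h ^ 2)))) = 13 / 4 + -(w ^ 2 / (8 * h ^ 2)) := by ring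
        rw [this, Real.exp_add]
        ring
    _ ≤ _ := by
        refine mul_le_mul_of_nonneg_right ?_ (by positivity)
        nlinarith

/-- tail -/
theorem gT {h : ℝ} (hh : 0 < h) (h1 : h ≤ 1) (w : ℝ) (hw : 1 ≤ |w|) :
    Real.exp |w| * gk h w ≤ 8 * Real.exp (-(1 / (4 * h ^ 2))) * gw h w := by
  unfold gk gw
  have hn := norm_pos hh
  have key : |w| + -(w ^ 2 / (2 * h ^ 2)) ≤ 2 + -(1 / (4 * h ^ 2)) + -(w ^ 2 / (8 * h ^ 2)) := by
    have hw2 : 1 ≤ w ^ 2 := by rw [← sq_abs]; nlinarith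
    set y := 1 / h ^ 2 with hy
    have hy0 : 0 < y := by positivity
    have e1 : w ^ 2 / (2 * h ^ 2) = w ^ 2 * y / 2 := by rw [hy]; field_simp
    have e2 : w ^ 2 / (8 * h ^ 2) = w ^ 2 * y / 8 := by rw [hy]; field_simp
    have e3 : 1 / (4 * h ^ 2) = y / 4 := by rw [hy]; field_simp
    rw [e1, e2, e3]
    have e4 : 1 ≤ y := by
      rw [hy, le_div_iff₀ (by positivity)]
      nlinarith
    have e5 : |w| ≤ w ^ 2 * y / 8 + 2 := by
      have : |w| ≤ w ^ 2 / 8 + 2 := by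
        rw [← sq_abs]
        nlinarith [sq_nonneg (|w| - 4)]
      nlinarith
    nlinarith
  have e3 : Real.exp 2 ≤ 8 := by
    have := Real.exp_one_lt_d9
    have h5 : Real.exp 2 = Real.exp 1 ^ 2 := by rw [← Real.exp_nat_mul]; norm_num
    rw [h5]
    calc Real.exp 1 ^ 2 ≤ (2.7182818286 : ℝ) ^ 2 := pow_le_pow_left₀ (Real.exp_pos 1).le this.le 2
      _ ≤ 8 := by norm_num
  calc Real.exp |w| * ((h * Real.sqrt (2 * Real.pi))⁻¹ * Real.exp (-(w ^ 2 / (2 * h ^ 2))))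
      = (h * Real.sqrt (2 * Real.pi))⁻¹ * Real.exp (|w| + -(w ^ 2 / (2 * h ^ 2))) := by
        rw [Real.exp_add]; ring
    _ ≤ (h * Real.sqrt (2 * Real.pi))⁻¹ * Real.exp (2 + -(1 / (4 * h ^ 2)) + -(w ^ 2 / (8 * h ^ 2))) :=
        mul_le_mul_of_nonneg_left (Real.exp_le_exp.2 key) hn.le
    _ = Real.exp 2 * Real.exp (-(1 / (4 * h ^ 2))) * ((h * Real.sqrt (2 * Real.pi))⁻¹ * Real.exp (-(w ^ 2 / (8 * h ^ 2)))) := by
        rw [Real.exp_add, Real.exp_add]; ring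
    _ ≤ _ := mul_le_mul_of_nonneg_right (mul_le_mul_of_nonneg_right e3 (Real.exp_pos _).le) (by positivity)

end Pool.Agent.V5helper60.MW
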