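import Pool.Agent.V5helper60.MW.Mert
import Pool.Agent.V5helper60.MW.Core3
import Pool.Agent.N739.OW.Lam

/-!
# The summatory function of the Liouville function: averages against the kernels
-/

set_option autoImplicit false
set_option maxHeartbeats 4000000

open MeasureTheory Filter Topology Set

namespace Pool.Agent.V5helper60.MW

open H313.TK
open Pool.Agent.W190 (SF)
open Pool.Agent.N739.OW (SF_meas)
open Pool.Agent.R303.SW (laR laR_eq laR_abs)

noncomputable section

/-- the summatory function of the Liouville function -/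
def LL (y : ℝ) : ℝ := SF laR y

/-- exponential scale -/
def ll (u : ℝ) : ℝ := LL (Real.exp u)

theorem LL_meas : Measurable LL := SF_meas laR

theorem ll_meas : Measurable ll := LL_meas.comp Real.measurable_exp

theorem abs_LL_le {y : ℝ} (h : 0 ≤ y) : |LL y| ≤ y := by
  unfold LL SF
  refine (Finset.abs_sum_le_sum_abs _ _).trans ?_
  refine (Finset.sum_le_sum fun n _ => laR_abs n).trans ?_
  rw [Finset.sum_const, Nat.card_Icc]
  simp
  exact Nat.floor_le h

theorem abs_ll_le (u : ℝ) : |ll u| ≤ Real.exp u := abs_LL_le (Real.exp_pos u).le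

theorem LL_hasSum (w : ℝ) (hw : 0 ≤ w) : HasSum (fun k : ℕ => MM (w / ((k : ℝ) + 1) ^ 2)) (LL w) := by
  set N := ⌊w⌋₊ with hN
  have hz : ∀ n ∉ Finset.range N, MM (w / ((n : ℝ) + 1) ^ 2) = 0 := by
    intro n hn
    rw [Finset.mem_range, not_lt] at hn
    apply MM_lt_one
    rw [div_lt_one (by positivity)]
    have h1 := Nat.lt_floor_add_one w
    have h2 : (⌊w⌋₊ : ℝ) ≤ n := by exact_mod_cast hn
    have h3 : (0:ℝ) ≤ n := Nat.cast_nonneg n
    nlinarith
  have h1 : HasSum (fun n : ℕ => MM (w / ((n : ℝ) + 1) ^ 2)) (∑ n ∈ Finset.range N, MM (w / ((n : ℝ) + 1) ^ 2)) :=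
    hasSum_sum_of_ne_finset_zero hz
  have h2 : ∑ n ∈ Finset.range N, MM (w / ((n : ℝ) + 1) ^ 2) = LL w := by
    have h3 := Pool.Agent.H534R2.BH.lam_sum N (fun _ => (1:ℂ))
    simp only [mul_one] at h3
    have h4 : ((LL w : ℝ) : ℂ) = ∑ n ∈ Finset.Icc 1 N, (-1 : ℂ) ^ ArithmeticFunction.cardFactors n := by
      unfold LL SF
      rw [← hN]
      push_cast
      refine Finset.sum_congr rfl fun n hn => ?_
      rw [laR_eq (by rw [Finset.mem_Icc] at hn; omega)]
      push_cast
      rfl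
    have h5 : ((∑ n ∈ Finset.range N, MM (w / ((n : ℝ) + 1) ^ 2) : ℝ) : ℂ) =
        ∑ m ∈ Finset.Icc 1 N, ∑ l ∈ Finset.Icc 1 (N / m ^ 2), ((ArithmeticFunction.moebius l : ℤ) : ℂ) := by
      have e1 : ∑ n ∈ Finset.range N, MM (w / ((n : ℝ) + 1) ^ 2) =
          ∑ m ∈ Finset.Icc 1 N, MM (w / (m : ℝ) ^ 2) := by
        have h6 := Finset.sum_Ico_add' (fun m : ℕ => MM (w / (m : ℝ) ^ 2)) 0 N 1
        push_cast at h6
        have h7 : Finset.Ico (0 + 1) (N + 1) = Finset.Icc 1 N := by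
          ext k
          simp only [Finset.mem_Ico, Finset.mem_Icc]
          omega
        rw [h7] at h6
        rw [Finset.range_eq_Ico, h6]
      rw [e1]
      push_cast
      refine Finset.sum_congr rfl fun m hm => ?_
      unfold MM
      have h4 : ⌊w / (m : ℝ) ^ 2⌋₊ = N / m ^ 2 := by
        have := Nat.floor_div_natCast w (m ^ 2)
        push_cast at this
        exact this
      rw [h4]
      push_cast
      rfl
    rw [← h3, ← h4] at h5
    exact Complex.ofReal_injective h5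
  rwa [h2] at h1

theorem mm_shift (u : ℝ) (k : ℕ) : mm (u - 2 * Real.log ((k : ℝ) + 1)) = MM (Real.exp u / ((k : ℝ) + 1) ^ 2) := by
  unfold mm
  have h1 : (0:ℝ) < (k : ℝ) + 1 := by positivity
  rw [Real.exp_sub, show 2 * Real.log ((k : ℝ) + 1) = ((2 : ℕ) : ℝ) * Real.log ((k : ℝ) + 1) by norm_num,
    Real.exp_nat_mul, Real.exp_log h1]

theorem ll_hasSum (u : ℝ) : HasSum (fun k : ℕ => mm (u - 2 * Real.log ((k : ℝ) + 1))) (ll u) := by
  simp_rw [mm_shift]
  exact LL_hasSum (Real.exp u) (Real.exp_pos u).le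

theorem sum_sq' : Summable (fun n : ℕ => 1 / ((n : ℝ) + 1) ^ 2) := sum_sq

theorem exp_shift3 (c : ℝ) (k : ℕ) : Real.exp (c - 2 * Real.log ((k : ℝ) + 1)) = Real.exp c * (1 / ((k : ℝ) + 1) ^ 2) := by
  have h1 : (0:ℝ) < (k : ℝ) + 1 := by positivity
  rw [Real.exp_sub, show 2 * Real.log ((k : ℝ) + 1) = ((2 : ℕ) : ℝ) * Real.log ((k : ℝ) + 1) by norm_num,
    Real.exp_nat_mul, Real.exp_log h1]
  ring

theorem DK.eint {K : ℝ → ℂ} (hK : DK K) : ∃ C : ℝ, 0 ≤ C ∧ (∀ v, Real.exp (-v) * ‖K v‖ ≤ C * Real.exp (-(1 * |v|))) := by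
  obtain ⟨C, hC, hb⟩ := hK.bd
  refine ⟨C * 4, by positivity, fun v => ?_⟩
  have h1 := W_decay v
  have h2 : Real.exp (-v) ≤ Real.exp (2 * |v|) := by
    refine Real.exp_le_exp.2 ?_
    have := neg_abs_le v
    have := abs_nonneg v
    linarith
  have h3 := W_pos v
  calc Real.exp (-v) * ‖K v‖ ≤ Real.exp (2 * |v|) * (C * W v) :=
        mul_le_mul h2 (hb v) (norm_nonneg _) (Real.exp_pos _).le
    _ = C * (W v * Real.exp (2 * |v|)) := by ring
    _ ≤ C * (4 * Real.exp (-|v|)) := mul_le_mul_of_nonneg_left h1 hC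
    _ = _ := by rw [one_mul]; ring

/-- the Liouville average as a sum of Mertens averages -/
theorem ll_avg {K : ℝ → ℂ} (hK : DK K) (t : ℝ) :
    HasSum (fun k : ℕ => ∫ v : ℝ, (mm (t - 2 * Real.log ((k : ℝ) + 1) - v) : ℂ) * K v)
      (∫ v : ℝ, (ll (t - v) : ℂ) * K v) := by
  obtain ⟨C, hC, hb⟩ := DK.eint hK
  have hmm := mm_meas
  have hKc := hK.cont.measurable
  set F : ℕ → ℝ → ℂ := fun k v => (mm (t - 2 * Real.log ((k : ℝ) + 1) - v) : ℂ) * K v with hF
  have hFb : ∀ k : ℕ, ∀ v : ℝ, ‖F k v‖ ≤ C * Real.exp t * (1 / ((k : ℝ) + 1) ^ 2) * Real.exp (-(1 * |v|)) := by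
    intro k v
    simp only [hF]
    rw [norm_mul, Complex.norm_real, Real.norm_eq_abs]
    have h1 := abs_mm_le (t - 2 * Real.log ((k : ℝ) + 1) - v)
    have h2 : Real.exp (t - 2 * Real.log ((k : ℝ) + 1) - v) = Real.exp t * (1 / ((k : ℝ) + 1) ^ 2) * Real.exp (-v) := by
      rw [← exp_shift3, ← Real.exp_add]
      congr 1
    rw [h2] at h1
    calc |mm (t - 2 * Real.log ((k : ℝ) + 1) - v)| * ‖K v‖ ≤
          (Real.exp t * (1 / ((k : ℝ) + 1) ^ 2) * Real.exp (-v)) * ‖K v‖ :=
          mul_le_mul_of_nonneg_right h1 (norm_nonneg _)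
      _ = Real.exp t * (1 / ((k : ℝ) + 1) ^ 2) * (Real.exp (-v) * ‖K v‖) := by ring
      _ ≤ Real.exp t * (1 / ((k : ℝ) + 1) ^ 2) * (C * Real.exp (-(1 * |v|))) :=
          mul_le_mul_of_nonneg_left (hb v) (by positivity)
      _ = _ := by ring
  have hdom : ∀ k : ℕ, Integrable (fun v : ℝ => C * Real.exp t * (1 / ((k : ℝ) + 1) ^ 2) * Real.exp (-(1 * |v|))) :=
    fun k => (int_exp_abs 1 one_pos).const_mul _
  have hFi : ∀ k, Integrable (F k) := fun k => (hdom k).mono'
    (by simp only [hF]; exact (by fun_prop : Measurable fun v : ℝ => (mm (t - 2 * Real.log ((k : ℝ) + 1) - v) : ℂ) * K v).aestronglyMeasurable)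
    (ae_of_all _ (hFb k))
  have hFs : Summable (fun k => ∫ v, ‖F k v‖) := by
    refine Summable.of_nonneg_of_le (fun k => integral_nonneg fun z => norm_nonneg _) (fun k => ?_)
      (sum_sq.mul_left (C * Real.exp t * D1))
    have h1 := integral_mono (hFi k).norm (hdom k) (hFb k)
    rw [integral_const_mul] at h1
    refine h1.trans (le_of_eq ?_)
    unfold D1
    ring
  have key := hasSum_integral_of_summable_integral_norm hFi hFs
  have e1 : ∫ v, ∑' k, F k v = ∫ v : ℝ, (ll (t - v) : ℂ) * K v := by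
    refine integral_congr_ae (ae_of_all _ fun v => ?_)
    simp only [hF]
    rw [tsum_mul_right]
    congr 1
    have h2 := (ll_hasSum (t - v)).tsum_eq
    rw [← h2, Complex.ofReal_tsum]
    refine tsum_congr fun k => ?_
    congr 2
    ring
  rw [e1] at key
  exact key

/-- **The identity for the Liouville function.** -/
theorem moebL {g : ℝ → ℂ} (hg : QQ g) (hK : DK (Sg g)) (t : ℝ) :
    ∫ v : ℝ, (ll (t - v) : ℂ) * Sg g v = ∫ z in Iic t, g z * ((⌊Real.exp ((t - z) / 2)⌋₊ : ℝ) : ℂ) := by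
  have h1 := ll_avg hK t
  obtain ⟨C, hC, hb⟩ := hg.bd t
  have hgc := hg.cont
  set G : ℕ → ℝ → ℂ := fun k z => (Iic (t - 2 * Real.log ((k : ℝ) + 1))).indicator g z with hG
  have hlog : ∀ k : ℕ, 0 ≤ Real.log ((k : ℝ) + 1) := log_n
  have hGi : ∀ k, Integrable (G k) := by
    intro k
    simp only [hG]
    rw [integrable_indicator_iff measurableSet_Iic]
    exact hg.int0 _
  have hGn : ∀ k : ℕ, ∫ z, ‖G k z‖ ≤ C * (Real.exp (2 * t) / 2) * (1 / ((k : ℝ) + 1) ^ 2) := by
    intro k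
    have e1 : ∀ z, ‖G k z‖ = (Iic (t - 2 * Real.log ((k : ℝ) + 1))).indicator (fun z => ‖g z‖) z := by
      intro z
      simp only [hG]
      rw [norm_indicator_eq_indicator_norm]
    simp_rw [e1]
    rw [integral_indicator measurableSet_Iic]
    have h2 : ∫ z in Iic (t - 2 * Real.log ((k : ℝ) + 1)), ‖g z‖ ≤
        ∫ z in Iic (t - 2 * Real.log ((k : ℝ) + 1)), C * Real.exp (2 * z) := by
      refine setIntegral_mono_on (hg.int0 _).norm ((integrableOn_exp_mul_Iic two_pos _).const_mul C) measurableSet_Iic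
        fun z hz => hb z ?_
      have := hlog k
      have hz2 : z ≤ t - 2 * Real.log ((k : ℝ) + 1) := hz
      linarith
    rw [integral_const_mul, integral_exp_mul_Iic two_pos] at h2
    refine h2.trans ?_
    have h3 : Real.exp (2 * (t - 2 * Real.log ((k : ℝ) + 1))) ≤ Real.exp (2 * t) * (1 / ((k : ℝ) + 1) ^ 2) := by
      rw [← exp_shift3]
      refine Real.exp_le_exp.2 ?_
      have := hlog k
      linarith
    calc C * (Real.exp (2 * (t - 2 * Real.log ((k : ℝ) + 1))) / 2) ≤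
          C * (Real.exp (2 * t) * (1 / ((k : ℝ) + 1) ^ 2) / 2) := by gcongr
      _ = _ := by ring
  have hGs : Summable (fun k => ∫ z, ‖G k z‖) :=
    Summable.of_nonneg_of_le (fun k => integral_nonneg fun z => norm_nonneg _) hGn (sum_sq.mul_left _)
  have key := hasSum_integral_of_summable_integral_norm hGi hGs
  have e2 : ∀ k : ℕ, ∫ z, G k z = ∫ v : ℝ, (mm (t - 2 * Real.log ((k : ℝ) + 1) - v) : ℂ) * Sg g v := by
    intro k
    rw [moeb hg]
    simp only [hG]
    rw [integral_indicator measurableSet_Iic]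
  simp only [e2] at key
  rw [h1.unique key, ← integral_indicator measurableSet_Iic]
  refine integral_congr_ae (ae_of_all _ fun z => ?_)
  simp only [hG]
  set N := ⌊Real.exp ((t - z) / 2)⌋₊ with hN
  have hiff : ∀ k : ℕ, z ∈ Iic (t - 2 * Real.log ((k : ℝ) + 1)) ↔ k < N := by
    intro k
    have hk : (0:ℝ) < (k : ℝ) + 1 := by positivity
    rw [mem_Iic, hN]
    have h3 : k < ⌊Real.exp ((t - z) / 2)⌋₊ ↔ k + 1 ≤ ⌊Real.exp ((t - z) / 2)⌋₊ := Iff.rfl
    rw [h3, Nat.le_floor_iff (Real.exp_pos _).le]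
    push_cast
    rw [← Real.log_le_iff_le_exp hk]
    constructor <;> intro h <;> linarith
  have hsum : ∑' k : ℕ, (Iic (t - 2 * Real.log ((k : ℝ) + 1))).indicator g z = (N : ℂ) * g z := by
    rw [tsum_eq_sum (s := Finset.range N)]
    · rw [Finset.sum_congr rfl (fun k hk => indicator_of_mem ((hiff k).2 (Finset.mem_range.1 hk)) g),
        Finset.sum_const, Finset.card_range, nsmul_eq_mul]
    · intro k hk
      rw [Finset.mem_range] at hk
      exact indicator_of_notMem (fun h => hk ((hiff k).1 h)) g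
  rw [hsum]
  by_cases hz : z ≤ t
  · rw [indicator_of_mem (show z ∈ Iic t from hz)]
    push_cast
    ring
  · rw [indicator_of_notMem (show z ∉ Iic t from hz)]
    have : N = 0 := by
      rw [hN]
      refine Nat.floor_eq_zero.2 ?_
      rw [Real.exp_lt_one_iff]
      push Not at hz
      linarith
    rw [this]
    simp

end

end Pool.Agent.V5helper60.MW
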