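import Pool.Agent.V5helper60.MW.LLa

/-!
# The smoothed summatory function of the Liouville function
-/

set_option autoImplicit false
set_option maxHeartbeats 4000000

open MeasureTheory Filter Topology Set

namespace Pool.Agent.V5helper60.MW

open H313.TK
open Pool.Agent.W120.WM (RHp gk)

noncomputable section

theorem sm_aux {C : ℝ} (hC : 1 ≤ C) : ∀ᶠ t in atTop, ∀ v : ℝ,
    2 / hw t * Real.exp ((1 / 2 + 1 / t) * (t - v)) *
        Real.exp (C * (1 + Real.log t) * Real.log (3 / hw t) + 2 * (C * (1 + Real.log t)) ^ 2) ≤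
      Real.exp (t / 2) * Real.exp |v| * Real.exp ((5 + 8 * C + 8 * C ^ 2) * (Real.log t) ^ 2) := by
  filter_upwards [eventually_ge_atTop (3:ℝ)] with t ht v
  have ht0 : 0 < t := by linarith
  have hδ : 1 / t < 1 / 2 := one_div_lt_one_div_of_lt (by norm_num) (by linarith)
  set l := Real.log t with hl
  have hl1 : 1 ≤ l := by
    rw [hl, Real.le_log_iff_exp_le ht0]
    have := Real.exp_one_lt_d9
    linarith
  have hs1 : Real.sqrt t ≤ t := by
    rw [Real.sqrt_le_left ht0.le]
    nlinarith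
  have e1 : 2 / hw t ≤ Real.exp (4 * l ^ 2) := by
    unfold hw
    rw [div_inv_eq_mul]
    have h3 : (8:ℝ) ≤ Real.exp 3 := by
      have h6 := Real.exp_one_gt_d9
      have h5 : Real.exp 3 = Real.exp 1 ^ 3 := by rw [← Real.exp_nat_mul]; norm_num
      rw [h5]
      calc (8:ℝ) ≤ 2.7182818283 ^ 3 := by norm_num
        _ ≤ _ := pow_le_pow_left₀ (by norm_num) h6.le 3
    calc 2 * (4 * Real.sqrt t) ≤ Real.exp 3 * t := by nlinarith [Real.sqrt_nonneg t]
      _ = Real.exp (3 + l) := by rw [Real.exp_add, hl, Real.exp_log ht0]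
      _ ≤ _ := Real.exp_le_exp.2 (by nlinarith)
  have e2 : Real.log (3 / hw t) ≤ 4 * l := by
    unfold hw
    rw [div_inv_eq_mul]
    have h3 : (12:ℝ) ≤ Real.exp 3 := by
      have h6 := Real.exp_one_gt_d9
      have h5 : Real.exp 3 = Real.exp 1 ^ 3 := by rw [← Real.exp_nat_mul]; norm_num
      rw [h5]
      calc (12:ℝ) ≤ 2.7182818283 ^ 3 := by norm_num
        _ ≤ _ := pow_le_pow_left₀ (by norm_num) h6.le 3
    have h4 : 3 * (4 * Real.sqrt t) ≤ Real.exp (3 + l) := by
      calc 3 * (4 * Real.sqrt t) ≤ Real.exp 3 * t := by nlinarith [Real.sqrt_nonneg t]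
        _ = Real.exp (3 + l) := by rw [Real.exp_add, hl, Real.exp_log ht0]
    have hs0 : 0 < Real.sqrt t := Real.sqrt_pos.2 ht0
    have h5 := Real.log_le_log (by positivity) h4
    rw [Real.log_exp] at h5
    linarith
  have e3 : Real.exp ((1 / 2 + 1 / t) * (t - v)) ≤ Real.exp (l ^ 2) * (Real.exp (t / 2) * Real.exp |v|) := by
    rw [← Real.exp_add, ← Real.exp_add]
    refine Real.exp_le_exp.2 ?_
    have h3 : (1 / 2 + 1 / t) * (t - v) = t / 2 + 1 - (1 / 2 + 1 / t) * v := by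
      have : 1 / t * t = 1 := by field_simp
      linear_combination this
    rw [h3]
    have h4 : -((1 / 2 + 1 / t) * v) ≤ |v| := by
      have h5 : |(1 / 2 + 1 / t) * v| ≤ 1 * |v| := by
        rw [abs_mul, abs_of_pos (by positivity)]
        exact mul_le_mul_of_nonneg_right (by linarith) (abs_nonneg _)
      have := neg_abs_le ((1 / 2 + 1 / t) * v)
      linarith
    nlinarith
  have e4 : C * (1 + l) * Real.log (3 / hw t) + 2 * (C * (1 + l)) ^ 2 ≤ (8 * C + 8 * C ^ 2) * l ^ 2 := by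
    have h3 : C * (1 + l) ≤ 2 * C * l := by nlinarith
    have h4 : 0 ≤ C * (1 + l) := by positivity
    have h5 : C * (1 + l) * Real.log (3 / hw t) ≤ 2 * C * l * (4 * l) := by
      calc C * (1 + l) * Real.log (3 / hw t) ≤ C * (1 + l) * (4 * l) := mul_le_mul_of_nonneg_left e2 h4
        _ ≤ _ := mul_le_mul_of_nonneg_right h3 (by linarith)
    have h6 : (C * (1 + l)) ^ 2 ≤ (2 * C * l) ^ 2 := pow_le_pow_left₀ h4 h3 2
    nlinarith
  calc 2 / hw t * Real.exp ((1 / 2 + 1 / t) * (t - v)) *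
        Real.exp (C * (1 + l) * Real.log (3 / hw t) + 2 * (C * (1 + l)) ^ 2)
      ≤ Real.exp (4 * l ^ 2) * (Real.exp (l ^ 2) * (Real.exp (t / 2) * Real.exp |v|)) *
        Real.exp ((8 * C + 8 * C ^ 2) * l ^ 2) := by
        refine mul_le_mul ?_ (Real.exp_le_exp.2 e4) (Real.exp_pos _).le (by positivity)
        exact mul_le_mul e1 e3 (Real.exp_pos _).le (Real.exp_pos _).le
    _ = Real.exp (t / 2) * Real.exp |v| * (Real.exp (4 * l ^ 2) * Real.exp (l ^ 2) *
        Real.exp ((8 * C + 8 * C ^ 2) * l ^ 2)) := by ring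
    _ = _ := by
        congr 1
        rw [← Real.exp_add, ← Real.exp_add]
        congr 1
        ring



/-- the sum over the squares -/
theorem zsum {ε : ℝ} (hε : 0 < ε) : Summable (fun k : ℕ => Real.exp (-((1 + ε) * Real.log ((k : ℝ) + 1)))) ∧
    ∑' k : ℕ, Real.exp (-((1 + ε) * Real.log ((k : ℝ) + 1))) ≤ 1 + 1 / ε := by
  have key : ∀ n : ℕ, ∑ k ∈ Finset.range (n + 1), Real.exp (-((1 + ε) * Real.log ((k : ℝ) + 1))) ≤
      1 + 1 / ε * (1 - Real.exp (-(ε * Real.log ((n : ℝ) + 1)))) := by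
    intro n
    induction n with
    | zero => simp
    | succ n ih =>
      rw [Finset.sum_range_succ]
      have hn1 : (0:ℝ) < (n : ℝ) + 1 := by positivity
      have hn2 : (0:ℝ) < (n : ℝ) + 1 + 1 := by positivity
      have h1 : 1 / ((n : ℝ) + 1 + 1) ≤ Real.log ((n : ℝ) + 1 + 1) - Real.log ((n : ℝ) + 1) := by
        rw [← Real.log_div hn2.ne' hn1.ne']
        have := Real.one_sub_inv_le_log_of_pos (show 0 < ((n : ℝ) + 1 + 1) / ((n : ℝ) + 1) by positivity)
        refine le_trans (le_of_eq ?_) this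
        field_simp
        ring
      have h2 : Real.exp (-(ε * Real.log ((n : ℝ) + 1))) =
          Real.exp (-(ε * Real.log ((n : ℝ) + 1 + 1))) *
            Real.exp (ε * (Real.log ((n : ℝ) + 1 + 1) - Real.log ((n : ℝ) + 1))) := by
        rw [← Real.exp_add]
        congr 1
        ring
      have h3 : 1 + ε * (1 / ((n : ℝ) + 1 + 1)) ≤
          Real.exp (ε * (Real.log ((n : ℝ) + 1 + 1) - Real.log ((n : ℝ) + 1))) := by
        have h4 := Real.add_one_le_exp (ε * (Real.log ((n : ℝ) + 1 + 1) - Real.log ((n : ℝ) + 1)))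
        have h5 := mul_le_mul_of_nonneg_left h1 hε.le
        linarith
      have h4 : Real.exp (-((1 + ε) * Real.log ((n : ℝ) + 1 + 1))) =
          Real.exp (-(ε * Real.log ((n : ℝ) + 1 + 1))) * (1 / ((n : ℝ) + 1 + 1)) := by
        have h5 : (1 / ((n : ℝ) + 1 + 1)) = Real.exp (-Real.log ((n : ℝ) + 1 + 1)) := by
          rw [Real.exp_neg, Real.exp_log hn2, one_div]
        rw [h5, ← Real.exp_add]
        congr 1
        ring
      have h6 := Real.exp_pos (-(ε * Real.log ((n : ℝ) + 1 + 1)))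
      have h7 : Real.exp (-((1 + ε) * Real.log ((n : ℝ) + 1 + 1))) ≤
          1 / ε * (Real.exp (-(ε * Real.log ((n : ℝ) + 1))) - Real.exp (-(ε * Real.log ((n : ℝ) + 1 + 1)))) := by
        rw [h4, one_div_mul_eq_div, le_div_iff₀ hε, h2]
        nlinarith [mul_le_mul_of_nonneg_left h3 h6.le]
      push_cast
      calc _ ≤ (1 + 1 / ε * (1 - Real.exp (-(ε * Real.log ((n : ℝ) + 1))))) +
            1 / ε * (Real.exp (-(ε * Real.log ((n : ℝ) + 1))) - Real.exp (-(ε * Real.log ((n : ℝ) + 1 + 1)))) :=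
            add_le_add ih h7
        _ = _ := by ring
  have key2 : ∀ n : ℕ, ∑ k ∈ Finset.range n, Real.exp (-((1 + ε) * Real.log ((k : ℝ) + 1))) ≤ 1 + 1 / ε := by
    intro n
    rcases n with _ | n
    · simp
      positivity
    · refine (key n).trans ?_
      have h1 := Real.exp_pos (-(ε * Real.log ((n : ℝ) + 1)))
      have h2 : 1 / ε * (1 - Real.exp (-(ε * Real.log ((n : ℝ) + 1)))) ≤ 1 / ε * 1 :=
        mul_le_mul_of_nonneg_left (by linarith) (by positivity)
      linarith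
  have hs := summable_of_sum_range_le (fun k => (Real.exp_pos _).le) key2
  exact ⟨hs, hs.tsum_le_of_sum_range_le key2⟩

theorem Sf_ll {h : ℝ} (hh : 0 < h) (h1 : h ≤ 1) (u : ℝ) :
    HasSum (fun k : ℕ => Sf mm h (u - 2 * Real.log ((k : ℝ) + 1))) (Sf ll h u) := by
  have hmm := mm_meas
  have hgk := (gk_cont h).measurable
  set F : ℕ → ℝ → ℝ := fun k w => mm (u - 2 * Real.log ((k : ℝ) + 1) - w) * gk h w with hF
  have hFb : ∀ k : ℕ, ∀ w : ℝ, ‖F k w‖ ≤ Real.exp u * (1 / ((k : ℝ) + 1) ^ 2) * (Real.exp |w| * gk h w) := by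
    intro k w
    simp only [hF]
    have hg := gk_pos hh w
    rw [norm_mul, Real.norm_eq_abs, Real.norm_eq_abs, abs_of_pos hg]
    have h2 := abs_mm_le (u - 2 * Real.log ((k : ℝ) + 1) - w)
    have h3 : Real.exp (u - 2 * Real.log ((k : ℝ) + 1) - w) ≤ Real.exp u * (1 / ((k : ℝ) + 1) ^ 2) * Real.exp |w| := by
      rw [← exp_shift3, ← Real.exp_add]
      refine Real.exp_le_exp.2 ?_
      have := neg_abs_le w
      linarith
    calc |mm (u - 2 * Real.log ((k : ℝ) + 1) - w)| * gk h w ≤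
          (Real.exp u * (1 / ((k : ℝ) + 1) ^ 2) * Real.exp |w|) * gk h w :=
          mul_le_mul_of_nonneg_right (h2.trans h3) hg.le
      _ = _ := by ring
  have hdom : ∀ k : ℕ, Integrable (fun w : ℝ => Real.exp u * (1 / ((k : ℝ) + 1) ^ 2) * (Real.exp |w| * gk h w)) :=
    fun k => (ea_gk_int hh h1).const_mul _
  have hFi : ∀ k, Integrable (F k) := fun k => (hdom k).mono'
    (by simp only [hF]; exact (by fun_prop : Measurable fun w : ℝ => mm (u - 2 * Real.log ((k : ℝ) + 1) - w) * gk h w).aestronglyMeasurable)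
    (ae_of_all _ (hFb k))
  have hFs : Summable (fun k => ∫ w, ‖F k w‖) := by
    refine Summable.of_nonneg_of_le (fun k => integral_nonneg fun z => norm_nonneg _) (fun k => ?_)
      (sum_sq.mul_left (Real.exp u * 42))
    have h2 := integral_mono (hFi k).norm (hdom k) (hFb k)
    rw [integral_const_mul] at h2
    refine h2.trans ?_
    have h3 := mul_le_mul_of_nonneg_left (ea_gk_mass hh h1) (by positivity : 0 ≤ Real.exp u * (1 / ((k : ℝ) + 1) ^ 2))
    refine h3.trans (le_of_eq ?_)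
    ring
  have key := hasSum_integral_of_summable_integral_norm hFi hFs
  have e1 : ∫ w, ∑' k, F k w = Sf ll h u := by
    unfold Sf
    refine integral_congr_ae (ae_of_all _ fun w => ?_)
    simp only [hF]
    rw [tsum_mul_right]
    congr 1
    rw [← (ll_hasSum (u - w)).tsum_eq]
    refine tsum_congr fun k => ?_
    congr 1
    ring
  rw [e1] at key
  exact key

theorem ll_sm (hRH : RHp) : ∃ C : ℝ, ∀ᶠ t in atTop, ∀ v : ℝ,
    |Sf ll (hw t) (t - v)| ≤ Real.exp (t / 2) * Real.exp |v| * Real.exp (C * (Real.log t) ^ 2) := by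
  obtain ⟨C, hC, hb⟩ := sm_bound0 hRH
  refine ⟨5 + 8 * C + 8 * C ^ 2 + 1, ?_⟩
  filter_upwards [sm_aux hC, eventually_ge_atTop (3:ℝ)] with t haux ht v
  have ht0 : 0 < t := by linarith
  have hδ : 1 / t < 1 / 2 := one_div_lt_one_div_of_lt (by norm_num) (by linarith)
  have hh0 := hw_pos ht0
  have hh1 := hw_le (show 1 ≤ t by linarith)
  have hinv : 1 / (1 / t) = t := by field_simp
  set X : ℝ := Real.exp (C * (1 + Real.log t) * Real.log (3 / hw t) + 2 * (C * (1 + Real.log t)) ^ 2) with hX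
  have hX0 : 0 < X := Real.exp_pos _
  have hpt : ∀ k : ℕ, |Sf mm (hw t) (t - v - 2 * Real.log ((k : ℝ) + 1))| ≤
      2 / hw t * Real.exp ((1 / 2 + 1 / t) * (t - v)) * X * Real.exp (-((1 + 2 / t) * Real.log ((k : ℝ) + 1))) := by
    intro k
    have h1 := hb (1 / t) (hw t) (t - v - 2 * Real.log ((k : ℝ) + 1)) (by positivity) hδ hh0 hh1
    rw [hinv] at h1
    rw [Sf_mm]
    refine h1.trans (le_of_eq ?_)
    have e1 : Real.exp ((1 / 2 + 1 / t) * (t - v - 2 * Real.log ((k : ℝ) + 1))) =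
        Real.exp ((1 / 2 + 1 / t) * (t - v)) * Real.exp (-((1 + 2 / t) * Real.log ((k : ℝ) + 1))) := by
      rw [← Real.exp_add]
      congr 1
      ring
    rw [e1]
    ring
  obtain ⟨hs, hs2⟩ := zsum (show 0 < 2 / t by positivity)
  have hsum := Sf_ll hh0 hh1 (t - v)
  have hsn : Summable (fun k : ℕ => |Sf mm (hw t) (t - v - 2 * Real.log ((k : ℝ) + 1))|) :=
    Summable.of_nonneg_of_le (fun k => abs_nonneg _) hpt (hs.mul_left _)
  have h1 : |Sf ll (hw t) (t - v)| ≤ ∑' k : ℕ, |Sf mm (hw t) (t - v - 2 * Real.log ((k : ℝ) + 1))| := by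
    rw [← hsum.tsum_eq]
    have := norm_tsum_le_tsum_norm (f := fun k : ℕ => Sf mm (hw t) (t - v - 2 * Real.log ((k : ℝ) + 1)))
      (by simpa only [Real.norm_eq_abs] using hsn)
    simpa only [Real.norm_eq_abs] using this
  have h2 := hsn.tsum_le_tsum hpt (hs.mul_left _)
  rw [tsum_mul_left] at h2
  have h3 : ∑' k : ℕ, Real.exp (-((1 + 2 / t) * Real.log ((k : ℝ) + 1))) ≤ Real.exp (1 * (Real.log t) ^ 2) := by
    refine hs2.trans ?_
    have e1 : 1 + 1 / (2 / t) ≤ t := by
      have : 1 / (2 / t) = t / 2 := by field_simp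
      rw [this]
      linarith
    have hl1 : 1 ≤ Real.log t := by
      rw [Real.le_log_iff_exp_le ht0]
      have := Real.exp_one_lt_d9
      linarith
    calc 1 + 1 / (2 / t) ≤ t := e1
      _ = Real.exp (Real.log t) := (Real.exp_log ht0).symm
      _ ≤ _ := Real.exp_le_exp.2 (by nlinarith)
  calc |Sf ll (hw t) (t - v)| ≤ _ := h1
    _ ≤ _ := h2
    _ ≤ (2 / hw t * Real.exp ((1 / 2 + 1 / t) * (t - v)) * X) * Real.exp (1 * (Real.log t) ^ 2) :=
        mul_le_mul_of_nonneg_left h3 (by positivity)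
    _ ≤ (Real.exp (t / 2) * Real.exp |v| * Real.exp ((5 + 8 * C + 8 * C ^ 2) * (Real.log t) ^ 2)) *
        Real.exp (1 * (Real.log t) ^ 2) := mul_le_mul_of_nonneg_right (haux v) (Real.exp_pos _).le
    _ = Real.exp (t / 2) * Real.exp |v| * (Real.exp ((5 + 8 * C + 8 * C ^ 2) * (Real.log t) ^ 2) *
        Real.exp (1 * (Real.log t) ^ 2)) := by ring
    _ = _ := by
        congr 1
        rw [← Real.exp_add]
        congr 1
        ring

end

end Pool.Agent.V5helper60.MW
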