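import Pool.Agent.V5helper60.MW.LLb
import Pool.Agent.H437R2.A1

/-!
# Asymptotics of the averages of the summatory function of the Liouville function
-/

set_option autoImplicit false
set_option maxHeartbeats 4000000

open MeasureTheory Filter Topology Set Complex

namespace Pool.Agent.V5helper60.MW

open H313.TK
open Pool.Agent.W120.WM (RHp gk)
open Pool.Agent.H437R2 (Hf Hf_eq Zt z1_eq z1_of_ne)

noncomputable section

/-- the bias `1/ζ(1/2)` -/
def bz : ℝ := ((riemannZeta (1 / 2))⁻¹).re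

theorem Kh_half : Kh (1 / 2) = ((∫ v : ℝ, Real.exp (-(v / 2)) * kp v : ℝ) : ℂ) := by
  unfold Kh
  rw [← integral_complex_ofReal]
  refine integral_congr_ae (ae_of_all _ fun v => ?_)
  simp only
  push_cast
  congr 2
  ring

theorem qh_half : qh (1 / 2) = ((∫ v : ℝ, Real.exp (-(v / 2)) * qq v : ℝ) : ℂ) := by
  unfold qh
  rw [← integral_complex_ofReal]
  refine integral_congr_ae (ae_of_all _ fun v => ?_)
  simp only
  push_cast
  congr 2
  ring

theorem zeta_half_ne : riemannZeta (1 / 2) ≠ 0 := by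
  intro h
  have h1 : Pool.Agent.H437R2.z1_zero_im (s := 1 / 2) (by norm_num) (by
    rw [z1_of_ne (by norm_num), h, mul_zero]) = Pool.Agent.H437R2.z1_zero_im (s := 1 / 2) (by norm_num) (by
    rw [z1_of_ne (by norm_num), h, mul_zero]) := rfl
  have h2 := Pool.Agent.H437R2.z1_zero_im (s := 1 / 2) (by norm_num) (by
    rw [z1_of_ne (by norm_num), h, mul_zero])
  exact h2 (by simp)

theorem bz_eq : ((bz : ℝ) : ℂ) = (riemannZeta (1 / 2))⁻¹ ∧ ((bz : ℝ) : ℂ) * Kh (1 / 2) = qh (1 / 2) := by
  have hz := zeta_half_ne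
  have h1 : Kh (1 / 2) = riemannZeta (1 / 2) * qh (1 / 2) := Kh_eq (1 / 2) (by norm_num) (by norm_num) (by norm_num)
  have hq : qh (1 / 2) ≠ 0 := qh_ne (1 / 2) (by norm_num) (by norm_num)
  have hK : Kh (1 / 2) ≠ 0 := by rw [h1]; exact mul_ne_zero hz hq
  have h2 : (riemannZeta (1 / 2))⁻¹ = qh (1 / 2) / Kh (1 / 2) := by
    rw [h1]
    field_simp
  have h3 : (riemannZeta (1 / 2))⁻¹ = (((∫ v : ℝ, Real.exp (-(v / 2)) * qq v) /
      (∫ v : ℝ, Real.exp (-(v / 2)) * kp v) : ℝ) : ℂ) := by
    rw [h2, Kh_half, qh_half]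
    push_cast
    rfl
  have h4 : ((bz : ℝ) : ℂ) = (riemannZeta (1 / 2))⁻¹ := by
    unfold bz
    rw [h3, Complex.ofReal_re]
  refine ⟨h4, ?_⟩
  rw [h4, h2]
  field_simp

/-- `L(e^u)` without its bias -/
def mL (u : ℝ) : ℝ := ll u - bz * Real.exp (u / 2)

theorem mL_MB : MB mL (1 + |bz|) := by
  have h := ll_meas
  refine ⟨by unfold mL; fun_prop, by positivity, fun u => ?_⟩
  unfold mL
  have h1 := abs_ll_le u
  have h2 := Real.exp_pos (u / 2)
  have h3 := Real.exp_pos u
  refine (abs_sub _ _).trans ?_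
  rw [abs_mul, abs_of_pos h2]
  have h4 := abs_nonneg bz
  nlinarith

/-- the smoothed function -/
theorem mL_sm (hRH : RHp) : ∃ C : ℝ, ∀ᶠ t in atTop, ∀ v : ℝ,
    |Sf mL (hw t) (t - v)| ≤ Real.exp (t / 2) * Real.exp |v| * Real.exp (C * (Real.log t) ^ 2) := by
  obtain ⟨C, hC⟩ := ll_sm hRH
  refine ⟨|C| + Real.log (1 + 42 * |bz|), ?_⟩
  filter_upwards [hC, eventually_ge_atTop (3:ℝ)] with t h1 ht v
  have ht0 : 0 < t := by linarith
  have hh0 := hw_pos ht0
  have hh1 := hw_le (show 1 ≤ t by linarith)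
  set h := hw t with hh
  have hl1 : 1 ≤ Real.log t := by
    rw [Real.le_log_iff_exp_le ht0]
    have := Real.exp_one_lt_d9
    linarith
  have hll := ll_meas
  have hgm := (gk_cont h).measurable
  have i1 : Integrable (fun w => ll (t - v - w) * gk h w) := by
    refine ((ea_gk_int hh0 hh1).const_mul (Real.exp (t - v))).mono' ?_ (ae_of_all _ fun w => ?_)
    · exact (by fun_prop : Measurable fun w => ll (t - v - w) * gk h w).aestronglyMeasurable
    · have hg := gk_pos hh0 w
      rw [Real.norm_eq_abs, abs_mul, abs_of_pos hg]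
      have h2 := abs_ll_le (t - v - w)
      have h3 : Real.exp (t - v - w) ≤ Real.exp (t - v) * Real.exp |w| := by
        rw [← Real.exp_add]
        refine Real.exp_le_exp.2 ?_
        have := neg_abs_le w
        linarith
      calc |ll (t - v - w)| * gk h w ≤ (Real.exp (t - v) * Real.exp |w|) * gk h w :=
            mul_le_mul_of_nonneg_right (h2.trans h3) hg.le
        _ = _ := by ring
  have i2 : Integrable (fun w => bz * Real.exp ((t - v - w) / 2) * gk h w) := by
    refine ((ea_gk_int hh0 hh1).const_mul (|bz| * Real.exp ((t - v) / 2))).mono' ?_ (ae_of_all _ fun w => ?_)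
    · exact (by fun_prop : Measurable fun w => bz * Real.exp ((t - v - w) / 2) * gk h w).aestronglyMeasurable
    · have hg := gk_pos hh0 w
      rw [Real.norm_eq_abs, abs_mul, abs_mul, abs_of_pos hg, abs_of_pos (Real.exp_pos _)]
      have h3 : Real.exp ((t - v - w) / 2) ≤ Real.exp ((t - v) / 2) * Real.exp |w| := by
        rw [← Real.exp_add]
        refine Real.exp_le_exp.2 ?_
        have := neg_abs_le w
        have := abs_nonneg w
        linarith
      calc |bz| * Real.exp ((t - v - w) / 2) * gk h w ≤ |bz| * (Real.exp ((t - v) / 2) * Real.exp |w|) * gk h w := by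
            gcongr
        _ = _ := by ring
  have e1 : Sf mL h (t - v) = Sf ll h (t - v) - ∫ w, bz * Real.exp ((t - v - w) / 2) * gk h w := by
    unfold Sf
    rw [← integral_sub i1 i2]
    refine integral_congr_ae (ae_of_all _ fun w => ?_)
    simp only [mL]
    ring
  have e2 : |∫ w, bz * Real.exp ((t - v - w) / 2) * gk h w| ≤ 42 * |bz| * (Real.exp (t / 2) * Real.exp |v|) := by
    rw [← Real.norm_eq_abs]
    have h4 : ‖∫ w, bz * Real.exp ((t - v - w) / 2) * gk h w‖ ≤
        ∫ w, (|bz| * (Real.exp (t / 2) * Real.exp |v|)) * (Real.exp |w| * gk h w) := by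
      refine norm_integral_le_of_norm_le ((ea_gk_int hh0 hh1).const_mul _) (ae_of_all _ fun w => ?_)
      have hg := gk_pos hh0 w
      rw [Real.norm_eq_abs, abs_mul, abs_mul, abs_of_pos hg, abs_of_pos (Real.exp_pos _)]
      have h3 : Real.exp ((t - v - w) / 2) ≤ Real.exp (t / 2) * Real.exp |v| * Real.exp |w| := by
        rw [← Real.exp_add, ← Real.exp_add]
        refine Real.exp_le_exp.2 ?_
        have := neg_abs_le w
        have := abs_nonneg w
        have := neg_abs_le v
        have := abs_nonneg v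
        linarith
      calc |bz| * Real.exp ((t - v - w) / 2) * gk h w ≤
            |bz| * (Real.exp (t / 2) * Real.exp |v| * Real.exp |w|) * gk h w := by gcongr
        _ = _ := by ring
    rw [integral_const_mul] at h4
    have h5 := mul_le_mul_of_nonneg_left (ea_gk_mass hh0 hh1)
      (by positivity : 0 ≤ |bz| * (Real.exp (t / 2) * Real.exp |v|))
    linarith
  have h6 := h1 v
  have hP : 0 < Real.exp (t / 2) * Real.exp |v| := by positivity
  have h7 : Real.exp (C * (Real.log t) ^ 2) ≤ Real.exp (|C| * (Real.log t) ^ 2) :=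
    Real.exp_le_exp.2 (mul_le_mul_of_nonneg_right (le_abs_self _) (sq_nonneg _))
  have h8 : 1 ≤ Real.exp (|C| * (Real.log t) ^ 2) := Real.one_le_exp (by positivity)
  have hb := abs_nonneg bz
  have h9 : 1 + 42 * |bz| ≤ Real.exp (Real.log (1 + 42 * |bz|) * (Real.log t) ^ 2) := by
    have h10 : 0 ≤ Real.log (1 + 42 * |bz|) := Real.log_nonneg (by linarith)
    calc 1 + 42 * |bz| = Real.exp (Real.log (1 + 42 * |bz|)) := (Real.exp_log (by positivity)).symm
      _ ≤ _ := Real.exp_le_exp.2 (by nlinarith [sq_nonneg (Real.log t - 1)])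
  rw [e1]
  refine (abs_sub _ _).trans ?_
  calc |Sf ll h (t - v)| + |∫ w, bz * Real.exp ((t - v - w) / 2) * gk h w| ≤
        Real.exp (t / 2) * Real.exp |v| * Real.exp (|C| * (Real.log t) ^ 2) +
        42 * |bz| * (Real.exp (t / 2) * Real.exp |v|) * Real.exp (|C| * (Real.log t) ^ 2) := by
        refine add_le_add (h6.trans (mul_le_mul_of_nonneg_left h7 hP.le)) (e2.trans ?_)
        exact le_mul_of_one_le_right (by positivity) h8
    _ = Real.exp (t / 2) * Real.exp |v| * (Real.exp (|C| * (Real.log t) ^ 2) * (1 + 42 * |bz|)) := by ring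
    _ ≤ Real.exp (t / 2) * Real.exp |v| * (Real.exp (|C| * (Real.log t) ^ 2) *
        Real.exp (Real.log (1 + 42 * |bz|) * (Real.log t) ^ 2)) := by gcongr
    _ = _ := by
        rw [← Real.exp_add (|C| * _)]
        congr 2
        ring

/-! ### integrals with the fractional part -/

/-- the fractional part -/
def fp (y : ℝ) : ℂ := ((Int.fract (Real.exp (y / 2)) : ℝ) : ℂ)

theorem fp_meas : Measurable fp := by
  unfold fp
  exact Complex.measurable_ofReal.comp (measurable_fract.comp (by fun_prop))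

theorem fp_le (y : ℝ) : ‖fp y‖ ≤ 1 := by
  unfold fp
  rw [Complex.norm_real, Real.norm_of_nonneg (Int.fract_nonneg _)]
  exact (Int.fract_lt_one _).le

theorem floor_eq (y : ℝ) : ((⌊Real.exp (y / 2)⌋₊ : ℝ) : ℂ) = Complex.exp (y / 2) - fp y := by
  unfold fp
  have h1 := natCast_floor_eq_intCast_floor (R := ℝ) (Real.exp_pos (y / 2)).le
  have h2 := Int.self_sub_fract (Real.exp (y / 2))
  rw [h1, ← h2]
  push_cast
  rfl

/-- the integrability of `g(z) exp(-z/2)` on half lines -/
theorem QQ.half {g : ℝ → ℂ} (hg : QQ g) (x : ℝ) : IntegrableOn (fun z : ℝ => Complex.exp (-(z / 2)) * g z) (Iic x) := by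
  have := hg.int (1 / 2) (by norm_num) x
  refine this.congr_fun (fun z _ => ?_) measurableSet_Iic
  simp only
  congr 2
  ring

theorem QQ.fr {g : ℝ → ℂ} (hg : QQ g) (x : ℝ) (S : Set ℝ) (hS : S ⊆ Iic x) :
    IntegrableOn (fun z : ℝ => g z * fp (x - z)) S := by
  have h := (hg.int0 x).mono_set hS
  refine Integrable.mono h ?_ (ae_of_all _ fun z => ?_)
  · refine AEStronglyMeasurable.mul h.aestronglyMeasurable ?_
    have := fp_meas
    exact (by fun_prop : Measurable fun z : ℝ => fp (x - z)).aestronglyMeasurable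
  · rw [norm_mul]
    exact mul_le_of_le_one_right (norm_nonneg _) (fp_le _)

theorem fl_split {g : ℝ → ℂ} (hg : QQ g) (x : ℝ) :
    ∫ z in Iic x, g z * ((⌊Real.exp ((x - z) / 2)⌋₊ : ℝ) : ℂ) =
      Complex.exp (x / 2) * (∫ z in Iic x, Complex.exp (-(z / 2)) * g z) - ∫ z in Iic x, g z * fp (x - z) := by
  rw [← integral_const_mul, ← integral_sub ((QQ.half hg x).const_mul _) (QQ.fr hg x _ subset_rfl)]
  refine integral_congr_ae (ae_of_all _ fun z => ?_)
  simp only
  rw [floor_eq]
  have : Complex.exp (((x - z : ℝ) : ℂ) / 2) = Complex.exp (x / 2) * Complex.exp (-(z / 2)) := by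
    rw [← Complex.exp_add]
    congr 1
    push_cast
    ring
  rw [this]
  ring

/-- integration by parts for `Ist` -/
theorem parts_Iic {g : ℝ → ℂ} (hg : QQ g) (ρ : ℂ) (hρ : ρ.re < 3 / 2) (hρ0 : 0 < ρ.re) (x : ℝ) :
    (ρ - 1 / 2) * ∫ z in Iic x, Complex.exp (-(z / 2)) * Ist ρ g z =
      Complex.exp (-(x / 2)) * Ist ρ g x - ∫ z in Iic x, Complex.exp (-(z / 2)) * g z := by
  have hQ := Ist_QQ hg ρ (by linarith)
  have hi := hg.int ρ (by linarith)
  have hgc := hg.cont
  have hd : ∀ z : ℝ, HasDerivAt (fun z : ℝ => Complex.exp (-(z / 2)) * Ist ρ g z)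
      ((ρ - 1 / 2) * (Complex.exp (-(z / 2)) * Ist ρ g z) + Complex.exp (-(z / 2)) * g z) z := by
    intro z
    have h1 := prim_cont (by fun_prop : Continuous fun z : ℝ => cexp (-ρ * z) * g z) hi z
    have h2 : HasDerivAt (fun z : ℝ => cexp (ρ * z)) (cexp (ρ * z) * (ρ * 1)) z :=
      (((hasDerivAt_id z).ofReal_comp).const_mul ρ).cexp
    have h3 : HasDerivAt (fun z : ℝ => Complex.exp (-((z : ℂ) / 2))) (Complex.exp (-((z : ℂ) / 2)) * -(1 / 2)) z :=
      (((hasDerivAt_id z).ofReal_comp).div_const 2).neg.cexp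
    have h4 := h3.mul (h2.mul h1)
    refine h4.congr_deriv ?_
    unfold Ist
    have h5 : cexp (ρ * z) * (cexp (-ρ * z) * g z) = g z := tw_cancel ρ z _
    simp only [Pi.mul_apply, mul_one]
    linear_combination (Complex.exp (-((z : ℂ) / 2))) * h5
  have hsum : IntegrableOn (fun z : ℝ => (ρ - 1 / 2) * (Complex.exp (-(z / 2)) * Ist ρ g z) +
      Complex.exp (-(z / 2)) * g z) (Iic x) := ((QQ.half hQ x).const_mul _).add (QQ.half hg x)
  have hlim : Tendsto (fun z : ℝ => Complex.exp (-(z / 2)) * Ist ρ g z) atBot (𝓝 0) := by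
    obtain ⟨C, hC, hb⟩ := hQ.bd 0
    rw [tendsto_zero_iff_norm_tendsto_zero]
    have h1 : Tendsto (fun z : ℝ => C * Real.exp (3 / 2 * z)) atBot (𝓝 0) := by
      have h2 : Tendsto (fun z : ℝ => 3 / 2 * z) atBot atBot := tendsto_id.const_mul_atBot (by norm_num)
      simpa using (Real.tendsto_exp_atBot.comp h2).const_mul C
    refine squeeze_zero' (Eventually.of_forall fun z => norm_nonneg _) ?_ h1
    filter_upwards [eventually_le_atBot (0:ℝ)] with z hz
    rw [norm_mul, Complex.norm_exp]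
    have h3 : (-((z : ℂ) / 2)).re = -(z / 2) := by simp
    rw [h3]
    calc Real.exp (-(z / 2)) * ‖Ist ρ g z‖ ≤ Real.exp (-(z / 2)) * (C * Real.exp (2 * z)) :=
          mul_le_mul_of_nonneg_left (hb z hz) (Real.exp_pos _).le
      _ = C * (Real.exp (-(z / 2)) * Real.exp (2 * z)) := by ring
      _ = _ := by
          rw [← Real.exp_add]
          congr 2
          ring
  have key := integral_Iic_of_hasDerivAt_of_tendsto (a := x) (f := fun z : ℝ => Complex.exp (-(z / 2)) * Ist ρ g z)
    (f' := fun z : ℝ => (ρ - 1 / 2) * (Complex.exp (-(z / 2)) * Ist ρ g z) + Complex.exp (-(z / 2)) * g z)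
    (m := 0) (hd x).continuousAt.continuousWithinAt (fun z _ => hd z) hsum hlim
  rw [integral_add ((QQ.half hQ x).const_mul _) (QQ.half hg x), integral_const_mul] at key
  linear_combination key

/-- whole line version -/
theorem parts_line {g : ℝ → ℂ} (hg : DK g) (ρ : ℂ) (hρ : |ρ.re| ≤ 2) (h0 : ∫ z : ℝ, cexp (-ρ * z) * g z = 0) :
    (ρ - 1 / 2) * ∫ z : ℝ, Complex.exp (-(z / 2)) * Ist ρ g z = - ∫ z : ℝ, Complex.exp (-(z / 2)) * g z := by
  have hD := Ist_DK hg ρ hρ h0
  have hi := tw_int hg ρ hρ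
  have hgc := hg.cont
  have hhalf : ∀ f : ℝ → ℂ, DK f → Integrable (fun z : ℝ => Complex.exp (-(z / 2)) * f z) := by
    intro f hf
    have := tw_int hf (1 / 2) (by norm_num)
    refine this.congr (ae_of_all _ fun z => ?_)
    simp only
    congr 2
    ring
  have hd : ∀ z : ℝ, HasDerivAt (fun z : ℝ => Complex.exp (-(z / 2)) * Ist ρ g z)
      ((ρ - 1 / 2) * (Complex.exp (-(z / 2)) * Ist ρ g z) + Complex.exp (-(z / 2)) * g z) z := by
    intro z
    have h1 := prim_cont (by fun_prop : Continuous fun z : ℝ => cexp (-ρ * z) * g z) (fun v => hi.integrableOn) z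
    have h2 : HasDerivAt (fun z : ℝ => cexp (ρ * z)) (cexp (ρ * z) * (ρ * 1)) z :=
      (((hasDerivAt_id z).ofReal_comp).const_mul ρ).cexp
    have h3 : HasDerivAt (fun z : ℝ => Complex.exp (-((z : ℂ) / 2))) (Complex.exp (-((z : ℂ) / 2)) * -(1 / 2)) z :=
      (((hasDerivAt_id z).ofReal_comp).div_const 2).neg.cexp
    have h4 := h3.mul (h2.mul h1)
    refine h4.congr_deriv ?_
    unfold Ist
    have h5 : cexp (ρ * z) * (cexp (-ρ * z) * g z) = g z := tw_cancel ρ z _
    simp only [Pi.mul_apply, mul_one]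
    linear_combination (Complex.exp (-((z : ℂ) / 2))) * h5
  obtain ⟨C, hC, hb⟩ := hD.bd
  have hbound : ∀ z : ℝ, ‖Complex.exp (-(z / 2)) * Ist ρ g z‖ ≤ C * 4 * Real.exp (-|z|) := by
    intro z
    rw [norm_mul, Complex.norm_exp]
    have h3 : (-((z : ℂ) / 2)).re = -(z / 2) := by simp
    rw [h3]
    have h4 : Real.exp (-(z / 2)) ≤ Real.exp (2 * |z|) := by
      refine Real.exp_le_exp.2 ?_
      have := neg_abs_le z
      have := abs_nonneg z
      linarith
    have h5 := W_decay z
    have h6 := W_pos z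
    calc Real.exp (-(z / 2)) * ‖Ist ρ g z‖ ≤ Real.exp (2 * |z|) * (C * W z) :=
          mul_le_mul h4 (hb z) (norm_nonneg _) (Real.exp_pos _).le
      _ = C * (W z * Real.exp (2 * |z|)) := by ring
      _ ≤ C * (4 * Real.exp (-|z|)) := mul_le_mul_of_nonneg_left h5 hC
      _ = _ := by ring
  have hsum : Integrable (fun z : ℝ => (ρ - 1 / 2) * (Complex.exp (-(z / 2)) * Ist ρ g z) +
      Complex.exp (-(z / 2)) * g z) := ((hhalf _ hD).const_mul _).add (hhalf _ hg)
  have hexp : Tendsto (fun y : ℝ => C * 4 * Real.exp (-y)) atTop (𝓝 0) := by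
    simpa using (Real.tendsto_exp_neg_atTop_nhds_zero).const_mul (C * 4)
  have hbot : Tendsto (fun z : ℝ => Complex.exp (-(z / 2)) * Ist ρ g z) atBot (𝓝 0) := by
    rw [tendsto_zero_iff_norm_tendsto_zero]
    have h1 := hexp.comp tendsto_neg_atBot_atTop
    refine squeeze_zero' (Eventually.of_forall fun z => norm_nonneg _) ?_ h1
    filter_upwards [eventually_le_atBot (0:ℝ)] with z hz
    have := hbound z
    rw [abs_of_nonpos hz] at this
    exact this
  have htop : Tendsto (fun z : ℝ => Complex.exp (-(z / 2)) * Ist ρ g z) atTop (𝓝 0) := by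
    rw [tendsto_zero_iff_norm_tendsto_zero]
    refine squeeze_zero' (Eventually.of_forall fun z => norm_nonneg _) ?_ hexp
    filter_upwards [eventually_ge_atTop (0:ℝ)] with z hz
    have := hbound z
    rw [abs_of_nonneg hz] at this
    exact this
  have key := integral_of_hasDerivAt_of_tendsto (f := fun z : ℝ => Complex.exp (-(z / 2)) * Ist ρ g z)
    (f' := fun z : ℝ => (ρ - 1 / 2) * (Complex.exp (-(z / 2)) * Ist ρ g z) + Complex.exp (-(z / 2)) * g z)
    (fun z => hd z) hsum hbot htop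
  rw [integral_add ((hhalf _ hD).const_mul _) (hhalf _ hg), integral_const_mul] at key
  linear_combination key

end

end Pool.Agent.V5helper60.MW
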