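import Pool.Agent.V5helper60.MW.LLc

/-!
# Asymptotics of the averages of the summatory function of the Liouville function, II
-/

set_option autoImplicit false
set_option maxHeartbeats 4000000

open MeasureTheory Filter Topology Set Complex

namespace Pool.Agent.V5helper60.MW

open H313.TK
open Pool.Agent.W120.WM (RHp gk)
open Pool.Agent.H437R2 (Hf Hf_eq Zt z1_eq z1_of_ne)

noncomputable section

/-! ### generalities -/

theorem MB.intK {m : ℝ → ℝ} {B : ℝ} (hm : MB m B) {K : ℝ → ℂ} (hK : DK K) (x : ℝ) :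
    Integrable (fun v => (m (x - v) : ℂ) * K v) ∧
    ∃ C : ℝ, 0 ≤ C ∧ ‖∫ v, (m (x - v) : ℂ) * K v‖ ≤ B * (Real.exp (x / 2) + Real.exp x) * C := by
  obtain ⟨C, hC, hb⟩ := hK.bd
  have hB := hm.nonneg
  have hmm := hm.meas
  have hKc := hK.cont.measurable
  have hpt : ∀ v, ‖(m (x - v) : ℂ) * K v‖ ≤ B * (Real.exp (x / 2) + Real.exp x) * (Real.exp |v| * (C * W v)) := by
    intro v
    rw [norm_mul, Complex.norm_real, Real.norm_eq_abs]
    have h1 := hm.bd2 x v 0
    rw [sub_zero, abs_zero, Real.exp_zero, mul_one] at h1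
    have h2 := W_pos v
    calc |m (x - v)| * ‖K v‖ ≤ (B * (Real.exp (x / 2) + Real.exp x) * Real.exp |v|) * (C * W v) :=
          mul_le_mul h1 (hb v) (norm_nonneg _) (by positivity)
      _ = _ := by ring
  have hi := (eW_int C).const_mul (B * (Real.exp (x / 2) + Real.exp x))
  refine ⟨hi.mono' (by fun_prop : Measurable fun v => (m (x - v) : ℂ) * K v).aestronglyMeasurable
    (ae_of_all _ hpt), ∫ v, Real.exp |v| * (C * W v), ?_, ?_⟩
  · refine integral_nonneg fun v => ?_
    have := W_pos v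
    show 0 ≤ Real.exp |v| * (C * W v)
    positivity
  · have := norm_integral_le_of_norm_le hi (ae_of_all _ hpt)
    rwa [integral_const_mul] at this

/-- the constant may be chosen independent of `x` -/
theorem MB.avg_le {m : ℝ → ℝ} {B : ℝ} (hm : MB m B) {K : ℝ → ℂ} (hK : DK K) :
    ∃ C : ℝ, 0 ≤ C ∧ ∀ x : ℝ, ‖∫ v, (m (x - v) : ℂ) * K v‖ ≤ C * (Real.exp (x / 2) + Real.exp x) := by
  obtain ⟨C, hC, hb⟩ := hK.bd
  have hB := hm.nonneg
  refine ⟨B * ∫ v, Real.exp |v| * (C * W v), ?_, fun x => ?_⟩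
  · refine mul_nonneg hB (integral_nonneg fun v => ?_)
    have := W_pos v
    show 0 ≤ Real.exp |v| * (C * W v)
    positivity
  have hpt : ∀ v, ‖(m (x - v) : ℂ) * K v‖ ≤ B * (Real.exp (x / 2) + Real.exp x) * (Real.exp |v| * (C * W v)) := by
    intro v
    rw [norm_mul, Complex.norm_real, Real.norm_eq_abs]
    have h1 := hm.bd2 x v 0
    rw [sub_zero, abs_zero, Real.exp_zero, mul_one] at h1
    have h2 := W_pos v
    calc |m (x - v)| * ‖K v‖ ≤ (B * (Real.exp (x / 2) + Real.exp x) * Real.exp |v|) * (C * W v) :=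
          mul_le_mul h1 (hb v) (norm_nonneg _) (by positivity)
      _ = _ := by ring
  have hi := (eW_int C).const_mul (B * (Real.exp (x / 2) + Real.exp x))
  have := norm_integral_le_of_norm_le hi (ae_of_all _ hpt)
  rw [integral_const_mul] at this
  refine this.trans (le_of_eq ?_)
  ring

theorem ll_MB : MB ll 1 := by
  refine ⟨ll_meas, by norm_num, fun u => ?_⟩
  have h1 := abs_ll_le u
  have h2 := Real.exp_pos (u / 2)
  linarith

theorem ex_MB : MB (fun u => Real.exp (u / 2)) 1 := by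
  refine ⟨by fun_prop, by norm_num, fun u => ?_⟩
  rw [abs_of_pos (Real.exp_pos _)]
  have h2 := Real.exp_pos u
  linarith

theorem half_tw (z : ℝ) : ‖Complex.exp (-((z : ℂ) / 2))‖ = Real.exp (-(z / 2)) := by
  rw [Complex.norm_exp]
  have h3 : (-((z : ℂ) / 2)).re = -(z / 2) := by simp
  rw [h3]

theorem half_tw' (z : ℝ) : ‖Complex.exp ((z : ℂ) / 2)‖ = Real.exp (z / 2) := by
  rw [Complex.norm_exp]
  have h3 : ((z : ℂ) / 2).re = z / 2 := by simp
  rw [h3]

/-- splitting the average of `mL` -/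
theorem mL_split {K : ℝ → ℂ} (hK : DK K) (x : ℝ) :
    ∫ v, (mL (x - v) : ℂ) * K v = (∫ v, (ll (x - v) : ℂ) * K v) -
      bz * Complex.exp (x / 2) * ∫ v : ℝ, Complex.exp (-(v / 2)) * K v := by
  have i1 := (ll_MB.intK hK x).1
  have i2 := (ex_MB.intK hK x).1
  have e1 : ∫ v : ℝ, ((Real.exp ((x - v) / 2) : ℝ) : ℂ) * K v =
      Complex.exp (x / 2) * ∫ v : ℝ, Complex.exp (-(v / 2)) * K v := by
    rw [← integral_const_mul]
    refine integral_congr_ae (ae_of_all _ fun v => ?_)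
    simp only
    rw [← mul_assoc, ← Complex.exp_add]
    push_cast
    congr 2
    ring
  rw [mul_assoc, ← e1, ← integral_const_mul, ← integral_sub i1 (i2.const_mul _)]
  refine integral_congr_ae (ae_of_all _ fun v => ?_)
  simp only [mL]
  push_cast
  ring

/-! ### the kernel itself -/

/-- the mass of the building block -/
def E48 : ℝ := 48 * ∫ x : ℝ, Real.exp (-(2 * |x|))

theorem E48_nonneg : 0 ≤ E48 := by
  unfold E48
  have : 0 ≤ ∫ x : ℝ, Real.exp (-(2 * |x|)) := integral_nonneg fun x => (Real.exp_pos _).le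
  positivity

theorem Q_tail (x : ℝ) : ‖Complex.exp (x / 2) * (qh (1 / 2) - ∫ z in Iic x, Complex.exp (-(z / 2)) * qc z)‖ ≤ E48 := by
  have hint : Integrable (fun z : ℝ => Complex.exp (-(z / 2)) * qc z) := by
    refine ((int_exp_abs 1 one_pos).const_mul 48).mono' ?_ (ae_of_all _ fun z => ?_)
    · have := qq_cont
      unfold qc
      exact (by fun_prop : Continuous fun z : ℝ => Complex.exp (-(z / 2)) * (qq z : ℂ)).aestronglyMeasurable
    · rw [norm_mul, half_tw]
      have h3 : Real.exp (-(z / 2)) ≤ Real.exp |z| := by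
        refine Real.exp_le_exp.2 ?_
        have := neg_abs_le z
        have := abs_nonneg z
        linarith
      calc Real.exp (-(z / 2)) * ‖qc z‖ ≤ Real.exp |z| * (48 * Real.exp (-(2 * |z|))) :=
            mul_le_mul h3 (qq_bd z) (norm_nonneg _) (Real.exp_pos _).le
        _ = 48 * (Real.exp |z| * Real.exp (-(2 * |z|))) := by ring
        _ = _ := by rw [← Real.exp_add]; congr 2; ring
  have e1 : qh (1 / 2) = ∫ z : ℝ, Complex.exp (-(z / 2)) * qc z := by
    unfold qh
    refine integral_congr_ae (ae_of_all _ fun z => ?_)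
    simp only [qc]
    congr 2
    ring
  have e2 := intervalIntegral.integral_Iic_add_Ioi (b := x) hint.integrableOn hint.integrableOn
  have e3 : qh (1 / 2) - ∫ z in Iic x, Complex.exp (-(z / 2)) * qc z = ∫ z in Ioi x, Complex.exp (-(z / 2)) * qc z := by
    rw [e1, ← e2]
    ring
  rw [e3, ← integral_const_mul]
  have hi : Integrable (fun x : ℝ => 48 * Real.exp (-(2 * |x|))) := (int_exp_abs 2 (by norm_num)).const_mul 48
  have h5 : ‖∫ z in Ioi x, Complex.exp (x / 2) * (Complex.exp (-(z / 2)) * qc z)‖ ≤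
      ∫ z in Ioi x, 48 * Real.exp (-(2 * |z|)) := by
    refine norm_integral_le_of_norm_le hi.integrableOn ?_
    refine (ae_restrict_iff' measurableSet_Ioi).2 (ae_of_all _ fun z hz => ?_)
    rw [norm_mul, norm_mul, half_tw, half_tw']
    have hz1 : x < z := hz
    have h6 : Real.exp (x / 2) * Real.exp (-(z / 2)) ≤ 1 := by
      rw [← Real.exp_add, Real.exp_le_one_iff]
      linarith
    have h7 := qq_bd z
    have h8 : ‖qc z‖ ≤ 48 * Real.exp (-(2 * |z|)) := h7
    calc Real.exp (x / 2) * (Real.exp (-(z / 2)) * ‖qc z‖) = (Real.exp (x / 2) * Real.exp (-(z / 2))) * ‖qc z‖ := by ring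
      _ ≤ 1 * (48 * Real.exp (-(2 * |z|))) := mul_le_mul h6 h8 (norm_nonneg _) zero_le_one
      _ = _ := one_mul _
  refine h5.trans ?_
  refine (setIntegral_le_integral hi (ae_of_all _ fun z => ?_)).trans (le_of_eq ?_)
  · show 0 ≤ 48 * Real.exp (-(2 * |z|))
    positivity
  · rw [integral_const_mul]
    rfl

theorem qfp_le (x : ℝ) : ‖∫ z in Iic x, qc z * fp (x - z)‖ ≤ E48 := by
  have hi : Integrable (fun x : ℝ => 48 * Real.exp (-(2 * |x|))) := (int_exp_abs 2 (by norm_num)).const_mul 48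
  have h5 : ‖∫ z in Iic x, qc z * fp (x - z)‖ ≤ ∫ z in Iic x, 48 * Real.exp (-(2 * |z|)) := by
    refine norm_integral_le_of_norm_le hi.integrableOn (ae_of_all _ fun z => ?_)
    rw [norm_mul]
    calc ‖qc z‖ * ‖fp (x - z)‖ ≤ (48 * Real.exp (-(2 * |z|))) * 1 :=
          mul_le_mul (qq_bd z) (fp_le _) (norm_nonneg _) (by positivity)
      _ = _ := mul_one _
  refine h5.trans ((setIntegral_le_integral hi (ae_of_all _ fun z => ?_)).trans (le_of_eq ?_))
  · show 0 ≤ 48 * Real.exp (-(2 * |z|))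
    positivity
  · rw [integral_const_mul]
    rfl

/-- the averages of `mL` against the positive kernel are bounded -/
theorem mL_kp (x : ℝ) : |∫ v, mL (x - v) * kp v| ≤ 2 * E48 := by
  have h1 := mL_split kc_DK x
  have h2 : ∫ v, (mL (x - v) : ℂ) * kc v = ((∫ v, mL (x - v) * kp v : ℝ) : ℂ) := by
    rw [← integral_complex_ofReal]
    refine integral_congr_ae (ae_of_all _ fun v => ?_)
    simp [kc]
  have h3 : |∫ v, mL (x - v) * kp v| = ‖∫ v, (mL (x - v) : ℂ) * kc v‖ := by
    rw [h2, Complex.norm_real, Real.norm_eq_abs]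
  have hD : DK (Sg qc) := by rw [← kc_eq]; exact kc_DK
  have h4 := moebL qc_QQ hD x
  rw [← kc_eq, fl_split qc_QQ] at h4
  have h5 : ∫ v : ℝ, Complex.exp (-(v / 2)) * kc v = Kh (1 / 2) := by
    unfold Kh
    refine integral_congr_ae (ae_of_all _ fun z => ?_)
    simp only [kc]
    congr 2
    ring
  rw [h3, h1, h4, h5]
  have h6 := bz_eq.2
  have h7 : Complex.exp (x / 2) * (∫ z in Iic x, Complex.exp (-(z / 2)) * qc z) - (∫ z in Iic x, qc z * fp (x - z)) -
      bz * Complex.exp (x / 2) * Kh (1 / 2) =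
      -(Complex.exp (x / 2) * (qh (1 / 2) - ∫ z in Iic x, Complex.exp (-(z / 2)) * qc z)) -
        ∫ z in Iic x, qc z * fp (x - z) := by
    rw [← h6]
    ring
  rw [h7]
  refine (norm_sub_le _ _).trans ?_
  rw [norm_neg]
  have := Q_tail x
  have := qfp_le x
  linarith

/-! ### the constant `H` -/

/-- `∫_0^∞ exp(-ρ y) {exp(y/2)} dy` -/
def HH (ρ : ℂ) : ℂ := ∫ y in Ioi (0:ℝ), cexp (-ρ * y) * fp y

theorem HH_int (ρ : ℂ) (hρ : ρ.re = 1 / 2) (x : ℝ) : IntegrableOn (fun y : ℝ => cexp (-ρ * y) * fp y) (Ioi x) := by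
  refine Integrable.mono' (integrableOn_exp_mul_Ioi (show -(1 / 2 : ℝ) < 0 by norm_num) x) ?_ (ae_of_all _ fun y => ?_)
  · have := fp_meas
    exact (by fun_prop : Measurable fun y : ℝ => cexp (-ρ * y) * fp y).aestronglyMeasurable
  · rw [norm_mul, norm_tw, hρ]
    exact mul_le_of_le_one_right (Real.exp_pos _).le (fp_le _)

theorem HH_tail (ρ : ℂ) (hρ : ρ.re = 1 / 2) (x : ℝ) : ‖∫ y in Ioi x, cexp (-ρ * y) * fp y‖ ≤ 2 * Real.exp (-(x / 2)) := by
  have h1 : ‖∫ y in Ioi x, cexp (-ρ * y) * fp y‖ ≤ ∫ y in Ioi x, Real.exp (-(1 / 2) * y) := by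
    refine norm_integral_le_of_norm_le (integrableOn_exp_mul_Ioi (show -(1 / 2 : ℝ) < 0 by norm_num) x)
      (ae_of_all _ fun y => ?_)
    rw [norm_mul, norm_tw, hρ]
    exact mul_le_of_le_one_right (Real.exp_pos _).le (fp_le _)
  rw [integral_exp_mul_Ioi (show -(1 / 2 : ℝ) < 0 by norm_num)] at h1
  refine h1.trans (le_of_eq ?_)
  have : -(1 / 2) * x = -(x / 2) := by ring
  rw [this]
  field_simp

theorem HH_eq (ρ : ℂ) (hρ : ρ.re = 1 / 2) (hρ1 : ρ ≠ 1 / 2) :
    1 / (ρ - 1 / 2) - HH ρ = riemannZeta (2 * ρ) / ρ := by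
  have hρ0 : ρ ≠ 0 := by rintro rfl; simp at hρ
  have h2 : (2 * ρ) ≠ 1 := by
    intro h
    apply hρ1
    rw [← h]
    ring
  have h3 : HH ρ = 2 * Hf (2 * ρ) := by
    rw [Hf_eq]
    have himg : (fun y : ℝ => Real.exp (y / 2)) '' Ioi (0 : ℝ) = Ioi 1 := by
      ext t
      constructor
      · rintro ⟨y, hy, rfl⟩
        have hy0 : (0:ℝ) < y := hy
        exact Real.one_lt_exp_iff.2 (by positivity)
      · intro ht
        have ht' : (1 : ℝ) < t := ht
        refine ⟨2 * Real.log t, ?_, ?_⟩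
        · have := Real.log_pos ht'
          show 0 < 2 * Real.log t
          positivity
        · simp only
          rw [mul_div_cancel_left₀ _ (two_ne_zero), Real.exp_log (by linarith)]
    have hinj : InjOn (fun y : ℝ => Real.exp (y / 2)) (Ioi 0) := by
      intro a _ b _ h
      have := Real.exp_injective h
      linarith
    rw [← himg, integral_image_eq_integral_abs_deriv_smul (f' := fun y : ℝ => Real.exp (y / 2) * (1 / 2))
      measurableSet_Ioi (fun y _ => by
        have : HasDerivAt (fun y : ℝ => Real.exp (y / 2)) (Real.exp (y / 2) * (1 / 2)) y :=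
          ((hasDerivAt_id y).div_const 2).exp
        exact this.hasDerivWithinAt) hinj, ← integral_const_mul]
    unfold HH
    refine setIntegral_congr_fun measurableSet_Ioi fun y _ => ?_
    rw [abs_of_pos (by positivity)]
    have hpow : ((Real.exp (y / 2) : ℝ) : ℂ) ^ (-(2 * ρ + 1)) = Complex.exp (((y / 2 : ℝ) : ℂ) * (-(2 * ρ + 1))) := by
      rw [Complex.cpow_def_of_ne_zero (by exact_mod_cast (Real.exp_pos (y / 2)).ne'),
        ← Complex.ofReal_log (Real.exp_pos _).le, Real.log_exp]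
    rw [hpow, Complex.real_smul]
    unfold fp
    have h4 : ((Real.exp (y / 2) : ℝ) : ℂ) * Complex.exp (((y / 2 : ℝ) : ℂ) * (-(2 * ρ + 1))) = Complex.exp (-ρ * y) := by
      rw [Complex.ofReal_exp, ← Complex.exp_add]
      congr 1
      push_cast
      ring
    push_cast at h4 ⊢
    rw [← h4]
    ring
  have hre2 : 0 < (2 * ρ).re := by
    rw [Complex.mul_re]
    simp [hρ]
  have h4 := z1_eq hre2
  rw [z1_of_ne h2] at h4
  unfold Zt at h4
  rw [h3]
  have h5 : ρ - 1 / 2 ≠ 0 := sub_ne_zero.2 hρ1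
  have h6 : 2 * ρ - 1 ≠ 0 := sub_ne_zero.2 h2
  rw [div_sub' h5, div_eq_div_iff h5 hρ0]
  linear_combination (-1 / 2 : ℂ) * h4

theorem HH_ne (ρ : ℂ) (hρ : ρ.re = 1 / 2) (hρ1 : ρ ≠ 1 / 2) : 1 / (ρ - 1 / 2) - HH ρ ≠ 0 := by
  rw [HH_eq ρ hρ hρ1]
  have hρ0 : ρ ≠ 0 := by rintro rfl; simp at hρ
  refine div_ne_zero (riemannZeta_ne_zero_of_one_le_re ?_) hρ0
  rw [Complex.mul_re]
  simp [hρ]

end

end Pool.Agent.V5helper60.MW
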