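import Pool.Agent.V5helper60.MW.LLd

/-!
# Asymptotics of the averages of the summatory function of the Liouville function, III
-/

set_option autoImplicit false
set_option maxHeartbeats 4000000

open MeasureTheory Filter Topology Set Complex

namespace Pool.Agent.V5helper60.MW

open H313.TK
open Pool.Agent.W120.WM (RHp gk)

noncomputable section

theorem fp_ii {f : ℝ → ℂ} (hf : Continuous f) (x a b : ℝ) : IntervalIntegrable (fun z => f z * fp (x - z)) volume a b := by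
  have h := (hf.intervalIntegrable (μ := volume) a b)
  have hm := fp_meas
  rw [intervalIntegrable_iff] at h ⊢
  refine Integrable.mono h ?_ (ae_of_all _ fun z => ?_)
  · refine AEStronglyMeasurable.mul h.aestronglyMeasurable ?_
    exact (by fun_prop : Measurable fun z : ℝ => fp (x - z)).aestronglyMeasurable
  · rw [norm_mul]
    exact mul_le_of_le_one_right (norm_nonneg _) (fp_le _)

theorem fp_ii' {f : ℝ → ℂ} (hf : Continuous f) (a b : ℝ) : IntervalIntegrable (fun z => f z * fp z) volume a b := by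
  have h := (hf.intervalIntegrable (μ := volume) a b)
  have hm := fp_meas
  rw [intervalIntegrable_iff] at h ⊢
  refine Integrable.mono h ?_ (ae_of_all _ fun z => ?_)
  · refine AEStronglyMeasurable.mul h.aestronglyMeasurable hm.aestronglyMeasurable
  · rw [norm_mul]
    exact mul_le_of_le_one_right (norm_nonneg _) (fp_le _)

/-- the initial segment of the integral for `H` -/
theorem HH_init (ρ : ℂ) (hρ : ρ.re = 1 / 2) (x : ℝ) :
    ∫ y in (0:ℝ)..x, cexp (-ρ * y) * fp y = HH ρ - ∫ y in Ioi x, cexp (-ρ * y) * fp y := by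
  have h := intervalIntegral.integral_Ioi_sub_Ioi' (HH_int ρ hρ 0) (HH_int ρ hρ x)
  rw [← h]
  rfl

theorem fp_int1 (ρ : ℂ) (hρ : ρ.re = 1 / 2) (x : ℝ) (_hx : 0 ≤ x) :
    ‖(∫ z in (0:ℝ)..x, cexp (ρ * z) * fp (x - z)) - HH ρ * cexp (ρ * x)‖ ≤ 2 := by
  have e1 : ∫ z in (0:ℝ)..x, cexp (ρ * z) * fp (x - z) = cexp (ρ * x) * ∫ y in (0:ℝ)..x, cexp (-ρ * y) * fp y := by
    have h1 := intervalIntegral.integral_comp_sub_left (a := 0) (b := x) (fun y : ℝ => cexp (ρ * ((x - y : ℝ) : ℂ)) * fp y) x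
    simp only [sub_self, sub_zero] at h1
    have h2 : ∫ z in (0:ℝ)..x, cexp (ρ * z) * fp (x - z) =
        ∫ z in (0:ℝ)..x, cexp (ρ * ((x - (x - z) : ℝ) : ℂ)) * fp (x - z) := by
      refine intervalIntegral.integral_congr fun z _ => ?_
      rw [sub_sub_cancel]
    rw [h2, h1, ← intervalIntegral.integral_const_mul]
    refine intervalIntegral.integral_congr fun y _ => ?_
    rw [← mul_assoc, ← Complex.exp_add]
    congr 2
    push_cast
    ring
  rw [e1, HH_init ρ hρ x]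
  have e2 : cexp (ρ * x) * (HH ρ - ∫ y in Ioi x, cexp (-ρ * y) * fp y) - HH ρ * cexp (ρ * x) =
      -(cexp (ρ * x) * ∫ y in Ioi x, cexp (-ρ * y) * fp y) := by ring
  rw [e2, norm_neg, norm_mul, norm_tw', hρ]
  have h3 := HH_tail ρ hρ x
  calc Real.exp (1 / 2 * x) * ‖∫ y in Ioi x, cexp (-ρ * y) * fp y‖ ≤ Real.exp (1 / 2 * x) * (2 * Real.exp (-(x / 2))) :=
        mul_le_mul_of_nonneg_left h3 (Real.exp_pos _).le
    _ = 2 * (Real.exp (1 / 2 * x) * Real.exp (-(x / 2))) := by ring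
    _ = 2 := by
        rw [← Real.exp_add]
        have : 1 / 2 * x + -(x / 2) = 0 := by ring
        rw [this, Real.exp_zero, mul_one]

theorem fp_int2 (ρ : ℂ) (hρ : ρ.re = 1 / 2) (x : ℝ) (hx : 0 ≤ x) :
    ‖(∫ z in (0:ℝ)..x, ((z : ℂ) * cexp (ρ * z)) * fp (x - z)) - x * (HH ρ * cexp (ρ * x))‖ ≤ 20 * Real.exp (x / 2) := by
  have e1 : ∫ z in (0:ℝ)..x, ((z : ℂ) * cexp (ρ * z)) * fp (x - z) =
      cexp (ρ * x) * (x * ∫ y in (0:ℝ)..x, cexp (-ρ * y) * fp y) -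
        cexp (ρ * x) * ∫ y in (0:ℝ)..x, ((y : ℂ) * cexp (-ρ * y)) * fp y := by
    have h1 := intervalIntegral.integral_comp_sub_left (a := 0) (b := x)
      (fun y : ℝ => (((x - y : ℝ) : ℂ) * cexp (ρ * ((x - y : ℝ) : ℂ))) * fp y) x
    simp only [sub_self, sub_zero] at h1
    have h2 : ∫ z in (0:ℝ)..x, ((z : ℂ) * cexp (ρ * z)) * fp (x - z) =
        ∫ z in (0:ℝ)..x, (((x - (x - z) : ℝ) : ℂ) * cexp (ρ * ((x - (x - z) : ℝ) : ℂ))) * fp (x - z) := by
      refine intervalIntegral.integral_congr fun z _ => ?_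
      rw [sub_sub_cancel]
    have c1 : Continuous fun y : ℝ => cexp (-ρ * y) := by fun_prop
    have c2 : Continuous fun y : ℝ => (y : ℂ) * cexp (-ρ * y) := by fun_prop
    rw [h2, h1, ← intervalIntegral.integral_const_mul, ← intervalIntegral.integral_const_mul,
      ← intervalIntegral.integral_const_mul, ← intervalIntegral.integral_sub
      (((fp_ii' c1 0 x).const_mul _).const_mul _) ((fp_ii' c2 0 x).const_mul _)]
    refine intervalIntegral.integral_congr fun y _ => ?_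
    have h3 : cexp (ρ * ((x - y : ℝ) : ℂ)) = cexp (ρ * x) * cexp (-ρ * y) := by
      rw [← Complex.exp_add]
      congr 1
      push_cast
      ring
    rw [h3]
    push_cast
    ring
  rw [e1, HH_init ρ hρ x]
  have e2 : cexp (ρ * x) * (x * (HH ρ - ∫ y in Ioi x, cexp (-ρ * y) * fp y)) -
      cexp (ρ * x) * (∫ y in (0:ℝ)..x, ((y : ℂ) * cexp (-ρ * y)) * fp y) - x * (HH ρ * cexp (ρ * x)) =
      -(cexp (ρ * x) * (x * (∫ y in Ioi x, cexp (-ρ * y) * fp y) +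
        ∫ y in (0:ℝ)..x, ((y : ℂ) * cexp (-ρ * y)) * fp y)) := by ring
  rw [e2, norm_neg, norm_mul, norm_tw', hρ]
  have h3 := HH_tail ρ hρ x
  have h4 : ‖∫ y in (0:ℝ)..x, ((y : ℂ) * cexp (-ρ * y)) * fp y‖ ≤ 16 := by
    have h5 : ‖∫ y in (0:ℝ)..x, ((y : ℂ) * cexp (-ρ * y)) * fp y‖ ≤ ∫ y in (0:ℝ)..x, 4 * Real.exp (-(1 / 4) * y) := by
      refine intervalIntegral.norm_integral_le_of_norm_le hx (ae_of_all _ fun y hy => ?_)
        ((by fun_prop : Continuous fun y : ℝ => 4 * Real.exp (-(1 / 4) * y)).intervalIntegrable _ _)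
      rw [norm_mul, norm_mul, Complex.norm_real, Real.norm_eq_abs, abs_of_pos hy.1, norm_tw, hρ]
      have h6 : y ≤ 4 * Real.exp (y / 4) := by
        have := Real.add_one_le_exp (y / 4)
        linarith
      calc y * Real.exp (-(1 / 2) * y) * ‖fp y‖ ≤ y * Real.exp (-(1 / 2) * y) * 1 :=
            mul_le_mul_of_nonneg_left (fp_le _) (by have := hy.1; positivity)
        _ = y * Real.exp (-(1 / 2) * y) := mul_one _
        _ ≤ (4 * Real.exp (y / 4)) * Real.exp (-(1 / 2) * y) := mul_le_mul_of_nonneg_right h6 (Real.exp_pos _).le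
        _ = 4 * (Real.exp (y / 4) * Real.exp (-(1 / 2) * y)) := by ring
        _ = _ := by
            rw [← Real.exp_add]
            congr 2
            ring
    refine h5.trans ?_
    have h : ∀ z : ℝ, HasDerivAt (fun z : ℝ => -16 * Real.exp (-(1 / 4) * z)) (4 * Real.exp (-(1 / 4) * z)) z := by
      intro z
      have h1 : HasDerivAt (fun z : ℝ => -(1 / 4) * z) (-(1 / 4) * 1) z := (hasDerivAt_id z).const_mul _
      refine (h1.exp.const_mul (-16)).congr_deriv ?_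
      ring
    rw [intervalIntegral.integral_eq_sub_of_hasDerivAt (fun z _ => h z)
      ((by fun_prop : Continuous fun y : ℝ => 4 * Real.exp (-(1 / 4) * y)).intervalIntegrable _ _)]
    have := Real.exp_pos (-(4⁻¹ * x))
    simp
    linarith
  have hxe : x ≤ 2 * Real.exp (x / 2) := by
    have := Real.add_one_le_exp (x / 2)
    linarith
  have h5 : ‖(x : ℂ) * (∫ y in Ioi x, cexp (-ρ * y) * fp y) + ∫ y in (0:ℝ)..x, ((y : ℂ) * cexp (-ρ * y)) * fp y‖ ≤
      x * (2 * Real.exp (-(x / 2))) + 16 := by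
    refine (norm_add_le _ _).trans (add_le_add ?_ h4)
    rw [norm_mul, Complex.norm_real, Real.norm_eq_abs, abs_of_nonneg hx]
    exact mul_le_mul_of_nonneg_left h3 hx
  have hE : Real.exp (1 / 2 * x) = Real.exp (x / 2) := by congr 1; ring
  rw [hE]
  have h6 : Real.exp (x / 2) * Real.exp (-(x / 2)) = 1 := by rw [← Real.exp_add]; simp
  calc Real.exp (x / 2) * ‖(x : ℂ) * (∫ y in Ioi x, cexp (-ρ * y) * fp y) + ∫ y in (0:ℝ)..x, ((y : ℂ) * cexp (-ρ * y)) * fp y‖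
      ≤ Real.exp (x / 2) * (x * (2 * Real.exp (-(x / 2))) + 16) := mul_le_mul_of_nonneg_left h5 (Real.exp_pos _).le
    _ = 2 * x * (Real.exp (x / 2) * Real.exp (-(x / 2))) + 16 * Real.exp (x / 2) := by ring
    _ ≤ _ := by rw [h6]; linarith

/-- the integral with the fractional part up to a main term -/
theorem V_bound {g : ℝ → ℂ} (hg : QQ g) {Mn : ℝ → ℂ} (hM : Continuous Mn) {err : ℝ → ℝ} (he : Continuous err)
    (hb : ∀ z : ℝ, 0 ≤ z → ‖g z - Mn z‖ ≤ err z) : ∃ c0 : ℝ, 0 ≤ c0 ∧ ∀ x : ℝ, 0 ≤ x →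
      ‖(∫ z in Iic x, g z * fp (x - z)) - ∫ z in (0:ℝ)..x, Mn z * fp (x - z)‖ ≤ c0 + ∫ z in (0:ℝ)..x, err z := by
  refine ⟨∫ z in Iic (0:ℝ), ‖g z‖, integral_nonneg fun z => norm_nonneg _, fun x hx => ?_⟩
  have h1 := intervalIntegral.integral_Iic_sub_Iic (QQ.fr hg x (Iic 0) (Iic_subset_Iic.2 hx)) (QQ.fr hg x (Iic x) subset_rfl)
  have e1 : (∫ z in Iic x, g z * fp (x - z)) - ∫ z in (0:ℝ)..x, Mn z * fp (x - z) =
      (∫ z in Iic (0:ℝ), g z * fp (x - z)) + ∫ z in (0:ℝ)..x, (g z - Mn z) * fp (x - z) := by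
    have h2 : ∫ z in (0:ℝ)..x, (g z - Mn z) * fp (x - z) = (∫ z in (0:ℝ)..x, g z * fp (x - z)) -
        ∫ z in (0:ℝ)..x, Mn z * fp (x - z) := by
      rw [← intervalIntegral.integral_sub (fp_ii hg.cont x 0 x) (fp_ii hM x 0 x)]
      refine intervalIntegral.integral_congr fun z _ => ?_
      ring
    rw [h2, ← h1]
    ring
  rw [e1]
  refine (norm_add_le _ _).trans (add_le_add ?_ ?_)
  · refine norm_integral_le_of_norm_le (hg.int0 0).norm (ae_of_all _ fun z => ?_)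
    rw [norm_mul]
    exact mul_le_of_le_one_right (norm_nonneg _) (fp_le _)
  · refine intervalIntegral.norm_integral_le_of_norm_le hx (ae_of_all _ fun z hz => ?_) (he.intervalIntegrable _ _)
    rw [norm_mul]
    calc ‖g z - Mn z‖ * ‖fp (x - z)‖ ≤ err z * 1 :=
          mul_le_mul (hb z hz.1.le) (fp_le _) (norm_nonneg _) ((norm_nonneg _).trans (hb z hz.1.le))
      _ = _ := mul_one _

theorem SgK1 (ρ : ℂ) (hρ : ρ.re = 1 / 2) : Sg (Ist ρ qc) = Ist ρ kc := by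
  funext v
  rw [kc_eq]
  exact (Sg_Ist qc_QQ ρ (by rw [hρ]; norm_num) v).symm

theorem SgK2 (ρ : ℂ) (hρ : ρ.re = 1 / 2) : Sg (Ist ρ (Ist ρ qc)) = Ist ρ (Ist ρ kc) := by
  funext v
  rw [← SgK1 ρ hρ]
  exact (Sg_Ist (Ist_QQ qc_QQ ρ (by rw [hρ]; norm_num)) ρ (by rw [hρ]; norm_num) v).symm

/-- **First asymptotics.** -/
theorem A1 (ρ : ℂ) (hz : riemannZeta ρ = 0) (hρ : ρ.re = 1 / 2) (hρ1 : ρ ≠ 1 / 2) : ∃ C : ℝ, 0 ≤ C ∧ ∀ x : ℝ,
    ‖(∫ v, (mL (x - v) : ℂ) * Sg (Ist ρ qc) v) - qh ρ * (1 / (ρ - 1 / 2) - HH ρ) * cexp (ρ * x)‖ ≤ C := by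
  have h0 : 0 < ρ.re := by rw [hρ]; norm_num
  have h1 : ρ.re < 1 := by rw [hρ]; norm_num
  have hne : ρ - 1 / 2 ≠ 0 := sub_ne_zero.2 hρ1
  have hQ := Ist_QQ qc_QQ ρ (by linarith)
  have hre2 : |ρ.re| ≤ 2 := by rw [abs_of_pos h0]; linarith
  have hK0 := Kh_zero ρ hz h0 h1
  have hD : DK (Sg (Ist ρ qc)) := by
    rw [SgK1 ρ hρ]
    exact Ist_DK kc_DK ρ hre2 hK0
  obtain ⟨CA, hCA, hA⟩ := mL_MB.avg_le hD
  -- the fractional part integral
  obtain ⟨c0, hc0, hV⟩ := V_bound hQ (Mn := fun z : ℝ => qh ρ * cexp (ρ * z)) (by fun_prop)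
    (err := fun z : ℝ => 24 * Real.exp (-2 * z)) (by fun_prop) (by
      intro z hz0
      have h5 := q1_asy ρ h0 h1 z hz0
      have h6 : Ist ρ qc z - qh ρ * cexp (ρ * z) = cexp (ρ * z) * (cexp (-ρ * z) * Ist ρ qc z - qh ρ) := by
        rw [mul_sub, tw_cancel]
        ring
      rw [h6, norm_mul, norm_tw']
      calc Real.exp (ρ.re * z) * ‖cexp (-ρ * z) * Ist ρ qc z - qh ρ‖ ≤
            Real.exp (ρ.re * z) * (24 * Real.exp (-((ρ.re + 2) * z))) := mul_le_mul_of_nonneg_left h5 (Real.exp_pos _).le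
        _ = 24 * (Real.exp (ρ.re * z) * Real.exp (-((ρ.re + 2) * z))) := by ring
        _ = _ := by rw [← Real.exp_add]; congr 2; ring)
  have herr : ∀ x : ℝ, 0 ≤ x → ∫ z in (0:ℝ)..x, 24 * Real.exp (-2 * z) ≤ 12 := by
    intro x hx
    have h : ∀ z : ℝ, HasDerivAt (fun z : ℝ => -12 * Real.exp (-2 * z)) (24 * Real.exp (-2 * z)) z := by
      intro z
      have h1 : HasDerivAt (fun z : ℝ => -2 * z) (-2 * 1) z := (hasDerivAt_id z).const_mul _
      refine (h1.exp.const_mul (-12)).congr_deriv ?_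
      ring
    rw [intervalIntegral.integral_eq_sub_of_hasDerivAt (fun z _ => h z)
      ((by fun_prop : Continuous fun y : ℝ => 24 * Real.exp (-2 * y)).intervalIntegrable _ _)]
    have := Real.exp_pos (-(2 * x))
    simp
    linarith
  set κ : ℂ := qh ρ * (1 / (ρ - 1 / 2) - HH ρ) with hκ
  have hE := E48_nonneg
  refine ⟨(CA * 2 + ‖κ‖) + ((24 + E48) * ‖1 / (ρ - 1 / 2)‖ + (c0 + 12 + ‖qh ρ‖ * 2)), by positivity, fun x => ?_⟩
  rcases le_total x 0 with hx | hx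
  · have k1 := hA x
    have k2 : Real.exp (x / 2) ≤ 1 := Real.exp_le_one_iff.2 (by linarith)
    have k3 : Real.exp x ≤ 1 := Real.exp_le_one_iff.2 hx
    have k4 : ‖κ * cexp (ρ * x)‖ ≤ ‖κ‖ := by
      rw [norm_mul, norm_tw']
      refine mul_le_of_le_one_right (norm_nonneg _) (Real.exp_le_one_iff.2 ?_)
      rw [hρ]; linarith
    have k5 : CA * (Real.exp (x / 2) + Real.exp x) ≤ CA * 2 := mul_le_mul_of_nonneg_left (by linarith) hCA
    have k6 := norm_sub_le (∫ v, (mL (x - v) : ℂ) * Sg (Ist ρ qc) v) (κ * cexp (ρ * x))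
    have k7 : 0 ≤ (24 + E48) * ‖1 / (ρ - 1 / 2)‖ + (c0 + 12 + ‖qh ρ‖ * 2) := by positivity
    linarith
  · have s1 := mL_split hD x
    have s2 := moebL hQ hD x
    rw [fl_split hQ] at s2
    have s3 := parts_Iic qc_QQ ρ (by linarith) h0 x
    have s4 := parts_line kc_DK ρ hre2 hK0
    have s5 : ∫ v : ℝ, Complex.exp (-(v / 2)) * kc v = Kh (1 / 2) := by
      unfold Kh
      refine integral_congr_ae (ae_of_all _ fun z => ?_)
      simp only [kc]
      congr 2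
      ring
    rw [s5, ← SgK1 ρ hρ] at s4
    have s6 := bz_eq.2
    have s7 := Q_tail x
    have s8 := hV x hx
    have s9 := herr x hx
    set P1 := ∫ z in Iic x, Complex.exp (-(z / 2)) * Ist ρ qc z with hP1
    set V1 := ∫ z in Iic x, Ist ρ qc z * fp (x - z) with hV1
    set Q := ∫ z in Iic x, Complex.exp (-(z / 2)) * qc z with hQd
    set β := ∫ v : ℝ, Complex.exp (-(v / 2)) * Sg (Ist ρ qc) v with hβ
    have hee : Complex.exp (x / 2) * Complex.exp (-(x / 2)) = 1 := by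
      rw [← Complex.exp_add, add_neg_cancel, Complex.exp_zero]
    have m1 : ∫ v, (mL (x - v) : ℂ) * Sg (Ist ρ qc) v =
        1 / (ρ - 1 / 2) * (Ist ρ qc x + Complex.exp (x / 2) * (qh (1 / 2) - Q)) - V1 := by
      rw [s1, s2]
      have e1 : P1 = 1 / (ρ - 1 / 2) * (Complex.exp (-(x / 2)) * Ist ρ qc x - Q) := by
        rw [← s3, one_div, inv_mul_cancel_left₀ hne]
      have e2 : β = 1 / (ρ - 1 / 2) * (-Kh (1 / 2)) := by
        rw [← s4, one_div, inv_mul_cancel_left₀ hne]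
      rw [e1, e2, ← s6]
      linear_combination (1 / (ρ - 1 / 2) * Ist ρ qc x) * hee
    have m2 : ∫ z in (0:ℝ)..x, qh ρ * cexp (ρ * z) * fp (x - z) = qh ρ * ∫ z in (0:ℝ)..x, cexp (ρ * z) * fp (x - z) := by
      rw [← intervalIntegral.integral_const_mul]
      refine intervalIntegral.integral_congr fun z _ => ?_
      ring
    rw [m2] at s8
    have m3 := fp_int1 ρ hρ x hx
    have m4 : ‖Ist ρ qc x - qh ρ * cexp (ρ * x)‖ ≤ 24 := by
      have h5 := q1_asy ρ h0 h1 x hx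
      have h6 : Ist ρ qc x - qh ρ * cexp (ρ * x) = cexp (ρ * x) * (cexp (-ρ * x) * Ist ρ qc x - qh ρ) := by
        rw [mul_sub, tw_cancel]
        ring
      rw [h6, norm_mul, norm_tw']
      calc Real.exp (ρ.re * x) * ‖cexp (-ρ * x) * Ist ρ qc x - qh ρ‖ ≤
            Real.exp (ρ.re * x) * (24 * Real.exp (-((ρ.re + 2) * x))) := mul_le_mul_of_nonneg_left h5 (Real.exp_pos _).le
        _ = 24 * (Real.exp (ρ.re * x) * Real.exp (-((ρ.re + 2) * x))) := by ring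
        _ = 24 * Real.exp (-(2 * x)) := by rw [← Real.exp_add]; congr 2; ring
        _ ≤ 24 * 1 := mul_le_mul_of_nonneg_left (Real.exp_le_one_iff.2 (by linarith)) (by norm_num)
        _ = 24 := by norm_num
    set T := ∫ z in (0:ℝ)..x, cexp (ρ * z) * fp (x - z) with hT
    have m5 : (∫ v, (mL (x - v) : ℂ) * Sg (Ist ρ qc) v) - κ * cexp (ρ * x) =
        1 / (ρ - 1 / 2) * ((Ist ρ qc x - qh ρ * cexp (ρ * x)) + Complex.exp (x / 2) * (qh (1 / 2) - Q)) -
          ((V1 - qh ρ * T) + qh ρ * (T - HH ρ * cexp (ρ * x))) := by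
      rw [m1, hκ]
      ring
    rw [m5]
    refine (norm_sub_le _ _).trans ?_
    have n1 : ‖1 / (ρ - 1 / 2) * ((Ist ρ qc x - qh ρ * cexp (ρ * x)) + Complex.exp (x / 2) * (qh (1 / 2) - Q))‖ ≤
        (24 + E48) * ‖1 / (ρ - 1 / 2)‖ := by
      rw [norm_mul, mul_comm]
      refine mul_le_mul_of_nonneg_right ?_ (norm_nonneg _)
      exact (norm_add_le _ _).trans (add_le_add m4 s7)
    have n2 : ‖(V1 - qh ρ * T) + qh ρ * (T - HH ρ * cexp (ρ * x))‖ ≤ c0 + 12 + ‖qh ρ‖ * 2 := by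
      refine (norm_add_le _ _).trans (add_le_add (s8.trans (by linarith)) ?_)
      rw [norm_mul]
      exact mul_le_mul_of_nonneg_left m3 (norm_nonneg _)
    have n3 : 0 ≤ CA * 2 + ‖κ‖ := by positivity
    linarith

/-- **Second asymptotics.** -/
theorem A2 (ρ : ℂ) (hz : riemannZeta ρ = 0) (hz' : deriv riemannZeta ρ = 0) (hρ : ρ.re = 1 / 2) (hρ1 : ρ ≠ 1 / 2) :
    ∃ C : ℝ, 0 ≤ C ∧ ∀ x : ℝ,
    ‖(∫ v, (mL (x - v) : ℂ) * Sg (Ist ρ (Ist ρ qc)) v) - qh ρ * (1 / (ρ - 1 / 2) - HH ρ) * (x * cexp (ρ * x))‖ ≤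
      C * (1 + Real.exp (x / 2)) := by
  have h0 : 0 < ρ.re := by rw [hρ]; norm_num
  have h1 : ρ.re < 1 := by rw [hρ]; norm_num
  have hne : ρ - 1 / 2 ≠ 0 := sub_ne_zero.2 hρ1
  have hQ := Ist_QQ qc_QQ ρ (by linarith)
  have hQ2 := Ist_QQ hQ ρ (by linarith)
  have hre2 : |ρ.re| ≤ 2 := by rw [abs_of_pos h0]; linarith
  have hre1 : |ρ.re| ≤ 1 := by rw [abs_of_pos h0]; linarith
  have hK0 := Kh_zero ρ hz h0 h1
  have hD1 : DK (Ist ρ kc) := Ist_DK kc_DK ρ hre2 hK0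
  have hm := Ist_moment kc_DK ρ hre1 hK0 (Kh_double ρ hz hz' h0 h1)
  have hD : DK (Sg (Ist ρ (Ist ρ qc))) := by
    rw [SgK2 ρ hρ]
    exact Ist_DK hD1 ρ hre2 hm
  obtain ⟨CA, hCA, hA⟩ := mL_MB.avg_le hD
  obtain ⟨C2, hC2, hb2⟩ := q2_asy ρ h0 h1
  obtain ⟨Cg, hCg, hg1⟩ := g1_bd ρ hρ
  have hd2 : ∀ z : ℝ, 0 ≤ z → ‖Ist ρ (Ist ρ qc) z - qh ρ * ((z : ℂ) * cexp (ρ * z))‖ ≤ C2 * Real.exp (z / 2) := by
    intro z hz0
    have h5 := hb2 z hz0
    have h6 : Ist ρ (Ist ρ qc) z - qh ρ * ((z : ℂ) * cexp (ρ * z)) =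
        cexp (ρ * z) * (cexp (-ρ * z) * Ist ρ (Ist ρ qc) z - qh ρ * z) := by
      rw [mul_sub, tw_cancel]
      ring
    rw [h6, norm_mul, norm_tw', hρ, mul_comm]
    have h7 : Real.exp (1 / 2 * z) = Real.exp (z / 2) := by congr 1; ring
    rw [h7]
    exact mul_le_mul_of_nonneg_right h5 (Real.exp_pos _).le
  obtain ⟨c0, hc0, hV⟩ := V_bound hQ2 (Mn := fun z : ℝ => qh ρ * ((z : ℂ) * cexp (ρ * z))) (by fun_prop)
    (err := fun z : ℝ => C2 * Real.exp (z / 2)) (by fun_prop) hd2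
  have herr : ∀ x : ℝ, 0 ≤ x → ∫ z in (0:ℝ)..x, C2 * Real.exp (z / 2) ≤ 2 * C2 * Real.exp (x / 2) := by
    intro x hx
    have h : ∀ z : ℝ, HasDerivAt (fun z : ℝ => 2 * C2 * Real.exp (z / 2)) (C2 * Real.exp (z / 2)) z := by
      intro z
      have h1 : HasDerivAt (fun z : ℝ => z / 2) (1 / 2) z := (hasDerivAt_id z).div_const _
      refine (h1.exp.const_mul (2 * C2)).congr_deriv ?_
      ring
    rw [intervalIntegral.integral_eq_sub_of_hasDerivAt (fun z _ => h z)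
      ((by fun_prop : Continuous fun y : ℝ => C2 * Real.exp (y / 2)).intervalIntegrable _ _)]
    simp
    positivity
  -- boundedness of P1
  have hQb : ∀ x : ℝ, 0 ≤ x → ‖∫ z in Iic x, Complex.exp (-(z / 2)) * qc z‖ ≤ ‖qh (1 / 2)‖ + E48 := by
    intro x hx
    have h5 := Q_tail x
    rw [norm_mul, half_tw'] at h5
    have h6 : 1 ≤ Real.exp (x / 2) := Real.one_le_exp (by linarith)
    set D := ‖qh (1 / 2) - ∫ z in Iic x, Complex.exp (-(z / 2)) * qc z‖ with hD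
    have h7 : D ≤ E48 := by
      have : D ≤ Real.exp (x / 2) * D := le_mul_of_one_le_left (norm_nonneg _) h6
      linarith
    have h8 : ‖∫ z in Iic x, Complex.exp (-(z / 2)) * qc z‖ ≤ ‖qh (1 / 2)‖ + D := by
      have := norm_sub_le (qh (1 / 2)) (qh (1 / 2) - ∫ z in Iic x, Complex.exp (-(z / 2)) * qc z)
      rwa [sub_sub_cancel] at this
    linarith
  set κ : ℂ := qh ρ * (1 / (ρ - 1 / 2) - HH ρ) with hκ
  set β := ∫ v : ℝ, Complex.exp (-(v / 2)) * Sg (Ist ρ (Ist ρ qc)) v with hβ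
  have hE := E48_nonneg
  set n := ‖1 / (ρ - 1 / 2)‖ with hn
  set CP : ℝ := n * (Cg + (‖qh (1 / 2)‖ + E48)) with hCP
  have hCP0 : 0 ≤ CP := by positivity
  refine ⟨(CA * 2 + 2 * ‖κ‖) + (n * (C2 + CP) + (c0 + 2 * C2 + ‖qh ρ‖ * 20) + ‖(bz : ℂ)‖ * ‖β‖), by positivity,
    fun x => ?_⟩
  have hex0 := Real.exp_pos (x / 2)
  rcases le_total x 0 with hx | hx
  · have k1 := hA x
    have k2 : Real.exp (x / 2) ≤ 1 := Real.exp_le_one_iff.2 (by linarith)
    have k3 : Real.exp x ≤ 1 := Real.exp_le_one_iff.2 hx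
    have k4 : ‖κ * (x * cexp (ρ * x))‖ ≤ 2 * ‖κ‖ := by
      rw [norm_mul κ, norm_mul (x : ℂ), norm_tw', hρ, Complex.norm_real, Real.norm_eq_abs, abs_of_nonpos hx,
        mul_comm ‖κ‖]
      refine mul_le_mul_of_nonneg_right ?_ (norm_nonneg _)
      have h7 : Real.exp (1 / 2 * x) * Real.exp (-(1 / 2 * x)) = 1 := by rw [← Real.exp_add]; simp
      have h8 : -x ≤ 2 * Real.exp (-(1 / 2 * x)) := by
        have := Real.add_one_le_exp (-(1 / 2 * x))
        linarith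
      calc -x * Real.exp (1 / 2 * x) ≤ (2 * Real.exp (-(1 / 2 * x))) * Real.exp (1 / 2 * x) :=
            mul_le_mul_of_nonneg_right h8 (Real.exp_pos _).le
        _ = 2 * (Real.exp (1 / 2 * x) * Real.exp (-(1 / 2 * x))) := by ring
        _ = 2 := by rw [h7, mul_one]
    have k5 : CA * (Real.exp (x / 2) + Real.exp x) ≤ CA * 2 := mul_le_mul_of_nonneg_left (by linarith) hCA
    have k6 := norm_sub_le (∫ v, (mL (x - v) : ℂ) * Sg (Ist ρ (Ist ρ qc)) v) (κ * (x * cexp (ρ * x)))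
    have k7 : 0 ≤ n * (C2 + CP) + (c0 + 2 * C2 + ‖qh ρ‖ * 20) + ‖(bz : ℂ)‖ * ‖β‖ := by positivity
    have k8 : CA * 2 + 2 * ‖κ‖ ≤ ((CA * 2 + 2 * ‖κ‖) + (n * (C2 + CP) + (c0 + 2 * C2 + ‖qh ρ‖ * 20) + ‖(bz : ℂ)‖ * ‖β‖)) *
        (1 + Real.exp (x / 2)) := by
      have : 0 ≤ CA * 2 + 2 * ‖κ‖ := by positivity
      nlinarith [mul_nonneg this hex0.le, mul_nonneg k7 hex0.le]
    linarith
  · have s1 := mL_split hD x
    have s2 := moebL hQ2 hD x
    rw [fl_split hQ2] at s2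
    have s3 := parts_Iic hQ ρ (by linarith) h0 x
    have s3' := parts_Iic qc_QQ ρ (by linarith) h0 x
    have s8 := hV x hx
    have s9 := herr x hx
    have s10 := hQb x hx
    set P1 := ∫ z in Iic x, Complex.exp (-(z / 2)) * Ist ρ qc z with hP1
    set P2 := ∫ z in Iic x, Complex.exp (-(z / 2)) * Ist ρ (Ist ρ qc) z with hP2
    set V2 := ∫ z in Iic x, Ist ρ (Ist ρ qc) z * fp (x - z) with hV2
    set Q := ∫ z in Iic x, Complex.exp (-(z / 2)) * qc z with hQd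
    have hee : Complex.exp (x / 2) * Complex.exp (-(x / 2)) = 1 := by
      rw [← Complex.exp_add, add_neg_cancel, Complex.exp_zero]
    have hP1b : ‖P1‖ ≤ CP := by
      have e1 : P1 = 1 / (ρ - 1 / 2) * (Complex.exp (-(x / 2)) * Ist ρ qc x - Q) := by
        rw [← s3', one_div, inv_mul_cancel_left₀ hne]
      rw [e1, norm_mul]
      refine mul_le_mul_of_nonneg_left ((norm_sub_le _ _).trans (add_le_add ?_ s10)) (norm_nonneg _)
      rw [norm_mul, half_tw]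
      calc Real.exp (-(x / 2)) * ‖Ist ρ qc x‖ ≤ Real.exp (-(x / 2)) * (Cg * Real.exp (x / 2)) :=
            mul_le_mul_of_nonneg_left (hg1 x) (Real.exp_pos _).le
        _ = Cg * (Real.exp (-(x / 2)) * Real.exp (x / 2)) := by ring
        _ = Cg := by rw [← Real.exp_add]; simp
    have m1 : ∫ v, (mL (x - v) : ℂ) * Sg (Ist ρ (Ist ρ qc)) v =
        1 / (ρ - 1 / 2) * (Ist ρ (Ist ρ qc) x - Complex.exp (x / 2) * P1) - V2 - bz * Complex.exp (x / 2) * β := by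
      rw [s1, s2]
      have e1 : P2 = 1 / (ρ - 1 / 2) * (Complex.exp (-(x / 2)) * Ist ρ (Ist ρ qc) x - P1) := by
        rw [← s3, one_div, inv_mul_cancel_left₀ hne]
      rw [e1]
      linear_combination (1 / (ρ - 1 / 2) * Ist ρ (Ist ρ qc) x) * hee
    have m2 : ∫ z in (0:ℝ)..x, qh ρ * ((z : ℂ) * cexp (ρ * z)) * fp (x - z) =
        qh ρ * ∫ z in (0:ℝ)..x, ((z : ℂ) * cexp (ρ * z)) * fp (x - z) := by
      rw [← intervalIntegral.integral_const_mul]
      refine intervalIntegral.integral_congr fun z _ => ?_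
      ring
    rw [m2] at s8
    have m3 := fp_int2 ρ hρ x hx
    have m4 := hd2 x hx
    set T := ∫ z in (0:ℝ)..x, ((z : ℂ) * cexp (ρ * z)) * fp (x - z) with hT
    have m5 : (∫ v, (mL (x - v) : ℂ) * Sg (Ist ρ (Ist ρ qc)) v) - κ * (x * cexp (ρ * x)) =
        1 / (ρ - 1 / 2) * ((Ist ρ (Ist ρ qc) x - qh ρ * (x * cexp (ρ * x))) - Complex.exp (x / 2) * P1) -
          ((V2 - qh ρ * T) + qh ρ * (T - x * (HH ρ * cexp (ρ * x)))) - bz * Complex.exp (x / 2) * β := by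
      rw [m1, hκ]
      ring
    rw [m5]
    have n1 : ‖1 / (ρ - 1 / 2) * ((Ist ρ (Ist ρ qc) x - qh ρ * (x * cexp (ρ * x))) - Complex.exp (x / 2) * P1)‖ ≤
        n * (C2 + CP) * Real.exp (x / 2) := by
      rw [norm_mul, mul_assoc]
      refine mul_le_mul_of_nonneg_left ((norm_sub_le _ _).trans ?_) (norm_nonneg _)
      rw [norm_mul, half_tw', add_mul]
      refine add_le_add m4 ?_
      rw [mul_comm]
      exact mul_le_mul_of_nonneg_right hP1b hex0.le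
    have hex1 : 1 ≤ Real.exp (x / 2) := Real.one_le_exp (by linarith)
    have n2 : ‖(V2 - qh ρ * T) + qh ρ * (T - x * (HH ρ * cexp (ρ * x)))‖ ≤
        (c0 + 2 * C2 + ‖qh ρ‖ * 20) * Real.exp (x / 2) := by
      refine (norm_add_le _ _).trans ?_
      have q1 : ‖V2 - qh ρ * T‖ ≤ c0 + 2 * C2 * Real.exp (x / 2) := s8.trans (by linarith)
      have q2 : ‖qh ρ * (T - x * (HH ρ * cexp (ρ * x)))‖ ≤ ‖qh ρ‖ * (20 * Real.exp (x / 2)) := by
        rw [norm_mul]
        exact mul_le_mul_of_nonneg_left m3 (norm_nonneg _)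
      have q3 : c0 ≤ c0 * Real.exp (x / 2) := le_mul_of_one_le_right hc0 hex1
      linarith
    have n3 : ‖(bz : ℂ) * Complex.exp (x / 2) * β‖ ≤ ‖(bz : ℂ)‖ * ‖β‖ * Real.exp (x / 2) := by
      rw [norm_mul, norm_mul, half_tw']
      exact le_of_eq (by ring)
    have n4 := norm_sub_le (1 / (ρ - 1 / 2) * ((Ist ρ (Ist ρ qc) x - qh ρ * (x * cexp (ρ * x))) - Complex.exp (x / 2) * P1) -
          ((V2 - qh ρ * T) + qh ρ * (T - x * (HH ρ * cexp (ρ * x))))) (bz * Complex.exp (x / 2) * β)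
    have n5 := norm_sub_le (1 / (ρ - 1 / 2) * ((Ist ρ (Ist ρ qc) x - qh ρ * (x * cexp (ρ * x))) - Complex.exp (x / 2) * P1))
          ((V2 - qh ρ * T) + qh ρ * (T - x * (HH ρ * cexp (ρ * x))))
    have n6 : 0 ≤ CA * 2 + 2 * ‖κ‖ := by positivity
    have n7 : 0 ≤ n * (C2 + CP) + (c0 + 2 * C2 + ‖qh ρ‖ * 20) + ‖(bz : ℂ)‖ * ‖β‖ := by positivity
    nlinarith [mul_nonneg n6 hex0.le]

end

end Pool.Agent.V5helper60.MW
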