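import Pool.Agent.V5helper60.MW.LLe
import Pool.Agent.V5helper60.MW.Core3

/-!
# The core inequality for the summatory function of the Liouville function
-/

set_option autoImplicit false
set_option maxHeartbeats 4000000

open MeasureTheory Filter Topology Set Complex

namespace Pool.Agent.V5helper60.MW

open H313.TK
open Pool.Agent.W120.WM (RHp gk)

noncomputable section

theorem tw_lip (ρ : ℂ) (hρ : ρ.re = 1 / 2) (w : ℝ) : ‖cexp (-ρ * w) - 1‖ ≤ ‖ρ‖ * (|w| * Real.exp (1 / 2 * |w|)) := by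
  have hd : ∀ z : ℝ, HasDerivAt (fun z : ℝ => cexp (-ρ * z)) (cexp (-ρ * z) * (-ρ * 1)) z := fun z =>
    (((hasDerivAt_id z).ofReal_comp).const_mul (-ρ)).cexp
  have h1 := intervalIntegral.integral_eq_sub_of_hasDerivAt (a := 0) (b := w) (fun z _ => hd z)
    ((by fun_prop : Continuous fun z : ℝ => cexp (-ρ * z) * (-ρ * 1)).intervalIntegrable _ _)
  have h2 : cexp (-ρ * w) - 1 = ∫ z in (0:ℝ)..w, cexp (-ρ * z) * (-ρ * 1) := by
    rw [h1]
    simp
  rw [h2]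
  have h3 := intervalIntegral.norm_integral_le_of_norm_le_const (a := 0) (b := w)
    (f := fun z : ℝ => cexp (-ρ * z) * (-ρ * 1)) (C := ‖ρ‖ * Real.exp (1 / 2 * |w|)) (by
      intro z hz
      rw [norm_mul, norm_tw, hρ, mul_one, norm_neg, mul_comm]
      refine mul_le_mul_of_nonneg_left (Real.exp_le_exp.2 ?_) (norm_nonneg _)
      have h4 : |z| ≤ |w| := by
        rcases le_total 0 w with h | h
        · rw [uIoc_of_le h] at hz
          rw [abs_of_pos hz.1, abs_of_nonneg h]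
          exact hz.2
        · rw [uIoc_of_ge h] at hz
          rw [abs_of_nonpos hz.2, abs_of_nonpos h]
          linarith [hz.1]
      have := neg_abs_le z
      linarith)
  refine h3.trans (le_of_eq ?_)
  rw [sub_zero]
  ring

theorem tw_sub (ρ : ℂ) (hρ : ρ.re = 1 / 2) (t w : ℝ) :
    ‖cexp (ρ * ((t - w : ℝ) : ℂ)) - cexp (ρ * t)‖ ≤ ‖ρ‖ * (Real.exp (t / 2) * (|w| * Real.exp (1 / 2 * |w|))) := by
  have h1 : cexp (ρ * ((t - w : ℝ) : ℂ)) - cexp (ρ * t) = cexp (ρ * t) * (cexp (-ρ * w) - 1) := by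
    rw [mul_sub, ← Complex.exp_add, mul_one]
    congr 2
    push_cast
    ring
  rw [h1, norm_mul, norm_tw', hρ]
  have h2 := tw_lip ρ hρ w
  have h3 : Real.exp (1 / 2 * t) = Real.exp (t / 2) := by congr 1; ring
  rw [h3]
  calc Real.exp (t / 2) * ‖cexp (-ρ * w) - 1‖ ≤ Real.exp (t / 2) * (‖ρ‖ * (|w| * Real.exp (1 / 2 * |w|))) :=
        mul_le_mul_of_nonneg_left h2 (Real.exp_pos _).le
    _ = _ := by ring

/-- the averages against `kp` are small -/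
theorem small_ml (Lf : ℝ → ℝ) (hL : ∀ᶠ t in atTop, 1 ≤ Lf t) : ∃ ε0 : ℝ → ℝ, Tendsto ε0 atTop (𝓝 0) ∧
    ∀ᶠ t in atTop, ∀ w : ℝ, |∫ v, mL (t - w - v) * kp v| ≤ ε0 t * (Lf t * Real.exp (t / 2)) * Real.exp (2 * |w|) := by
  have hE := E48_nonneg
  set E : ℝ := 2 * E48 with hEd
  have hE0 : 0 ≤ E := by positivity
  refine ⟨fun t => E * Real.exp (-(t / 2)), ?_, ?_⟩
  · have h4 : Tendsto (fun t : ℝ => t / 2) atTop atTop := tendsto_id.atTop_div_const (by norm_num)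
    have h5 : Tendsto (fun t : ℝ => Real.exp (-(t / 2))) atTop (𝓝 0) :=
      Real.tendsto_exp_atBot.comp (tendsto_neg_atTop_atBot.comp h4)
    simpa using h5.const_mul E
  · filter_upwards [hL] with t ht w
    refine (mL_kp (t - w)).trans ?_
    have h1 : Real.exp (-(t / 2)) * Real.exp (t / 2) = 1 := by rw [← Real.exp_add]; simp
    have h2 : 1 ≤ Real.exp (2 * |w|) := Real.one_le_exp (by positivity)
    calc E = E * 1 * 1 := by ring
      _ ≤ E * Lf t * Real.exp (2 * |w|) := by gcongr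
      _ = E * Lf t * (Real.exp (-(t / 2)) * Real.exp (t / 2)) * Real.exp (2 * |w|) := by rw [h1, mul_one]
      _ = _ := by ring

theorem half_ne {ρ : ℂ} (hz : riemannZeta ρ = 0) : ρ ≠ 1 / 2 := by
  rintro rfl
  exact zeta_half_ne hz

theorem coreL_one (hRH : RHp) (ρ : ℂ) (hz : riemannZeta ρ = 0) (hre : ρ.re = 1 / 2) : CoreI mL (fun _ => 1) := by
  have h0 : 0 < ρ.re := by rw [hre]; norm_num
  have h1 : ρ.re < 1 := by rw [hre]; norm_num
  have hρ1 := half_ne hz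
  have hre2 : |ρ.re| ≤ 2 := by rw [abs_of_pos h0]; linarith
  have hD : DK (Sg (Ist ρ qc)) := by
    rw [SgK1 ρ hre]
    exact Ist_DK kc_DK ρ hre2 (Kh_zero ρ hz h0 h1)
  obtain ⟨ε0, hε0, h2⟩ := small_ml (fun _ => 1) (Eventually.of_forall fun _ => le_rfl)
  obtain ⟨C, hC, hA⟩ := A1 ρ hz hre hρ1
  set κ : ℂ := qh ρ * (1 / (ρ - 1 / 2) - HH ρ) with hκ
  have hκ0 : 0 < ‖κ‖ := norm_pos_iff.2 (mul_ne_zero (qh_ne ρ h0 h1) (HH_ne ρ hre hρ1))
  have hlim : Tendsto (fun t : ℝ => Real.exp (-(t / 2))) atTop (𝓝 0) :=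
    Real.tendsto_exp_atBot.comp (tendsto_neg_atTop_atBot.comp (tendsto_id.atTop_div_const (by norm_num)))
  refine core' mL_MB hD (fun _ => 1) (Eventually.of_forall fun _ => le_rfl) (mL_sm hRH) ε0 hε0 h2
    (fun t => 2 * C * Real.exp (-(t / 2))) (by simpa using hlim.const_mul (2 * C)) (fun t => by positivity)
    ⟨‖κ‖ / 2, ‖κ‖ * ‖ρ‖, by positivity, ?_⟩
  have hev : ∀ᶠ t : ℝ in atTop, C * Real.exp (-(t / 2)) ≤ ‖κ‖ / 2 := by
    have : Tendsto (fun t : ℝ => C * Real.exp (-(t / 2))) atTop (𝓝 0) := by simpa using hlim.const_mul C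
    exact this.eventually (eventually_le_nhds (by positivity))
  filter_upwards [hev] with t k1
  have hE := Real.exp_pos (t / 2)
  have hee : Real.exp (-(t / 2)) * Real.exp (t / 2) = 1 := by rw [← Real.exp_add]; simp
  constructor
  · have h6 := hA t
    have k4 : ‖κ * Complex.exp (ρ * t)‖ = ‖κ‖ * Real.exp (t / 2) := by
      rw [norm_mul, norm_tw', hre]
      congr 2
      ring
    have k5 : ‖κ * Complex.exp (ρ * t)‖ ≤ ‖∫ v, (mL (t - v) : ℂ) * Sg (Ist ρ qc) v‖ +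
        ‖(∫ v, (mL (t - v) : ℂ) * Sg (Ist ρ qc) v) - κ * Complex.exp (ρ * t)‖ := by
      rw [← norm_neg ((∫ v, (mL (t - v) : ℂ) * Sg (Ist ρ qc) v) - κ * Complex.exp (ρ * t))]
      refine le_trans (le_of_eq ?_) (norm_add_le _ _)
      congr 1
      ring
    rw [k4] at k5
    rw [one_mul]
    have k6 : C ≤ ‖κ‖ / 2 * Real.exp (t / 2) := by
      calc C = (C * Real.exp (-(t / 2))) * Real.exp (t / 2) := by rw [mul_assoc, hee, mul_one]
        _ ≤ _ := mul_le_mul_of_nonneg_right k1 hE.le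
    linarith
  · intro w
    have e1 : (∫ v, (mL (t - w - v) : ℂ) * Sg (Ist ρ qc) v) - ∫ v, (mL (t - v) : ℂ) * Sg (Ist ρ qc) v =
        ((∫ v, (mL (t - w - v) : ℂ) * Sg (Ist ρ qc) v) - κ * cexp (ρ * ((t - w : ℝ) : ℂ))) -
        ((∫ v, (mL (t - v) : ℂ) * Sg (Ist ρ qc) v) - κ * cexp (ρ * t)) +
        κ * (cexp (ρ * ((t - w : ℝ) : ℂ)) - cexp (ρ * t)) := by ring
    rw [e1]
    have h7 := hA (t - w)
    have h8 := hA t
    have h9 := tw_sub ρ hre t w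
    have h10 : ‖κ * (cexp (ρ * ((t - w : ℝ) : ℂ)) - cexp (ρ * t))‖ ≤
        ‖κ‖ * (‖ρ‖ * (Real.exp (t / 2) * (|w| * Real.exp (1 / 2 * |w|)))) := by
      rw [norm_mul]
      exact mul_le_mul_of_nonneg_left h9 (norm_nonneg _)
    have h11 : Real.exp (1 / 2 * |w|) ≤ Real.exp (3 / 2 * |w|) := Real.exp_le_exp.2 (by
      have := abs_nonneg w
      linarith)
    have h12 : (1:ℝ) ≤ Real.exp (2 * |w|) := Real.one_le_exp (by positivity)
    have h13 : 2 * C ≤ 2 * C * Real.exp (-(t / 2)) * (1 * Real.exp (t / 2)) * Real.exp (2 * |w|) := by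
      have : 2 * C * Real.exp (-(t / 2)) * (1 * Real.exp (t / 2)) * Real.exp (2 * |w|) =
        2 * C * (Real.exp (-(t / 2)) * Real.exp (t / 2)) * Real.exp (2 * |w|) := by ring
      rw [this, hee]
      nlinarith
    have h14 : ‖κ‖ * (‖ρ‖ * (Real.exp (t / 2) * (|w| * Real.exp (1 / 2 * |w|)))) ≤
        ‖κ‖ * ‖ρ‖ * (1 * Real.exp (t / 2)) * (|w| * Real.exp (3 / 2 * |w|)) := by
      have : ‖κ‖ * (‖ρ‖ * (Real.exp (t / 2) * (|w| * Real.exp (1 / 2 * |w|)))) =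
        ‖κ‖ * ‖ρ‖ * (1 * Real.exp (t / 2)) * (|w| * Real.exp (1 / 2 * |w|)) := by ring
      rw [this]
      gcongr
    refine (norm_add_le _ _).trans ?_
    have h15 := norm_sub_le ((∫ v, (mL (t - w - v) : ℂ) * Sg (Ist ρ qc) v) - κ * cexp (ρ * ((t - w : ℝ) : ℂ)))
      ((∫ v, (mL (t - v) : ℂ) * Sg (Ist ρ qc) v) - κ * cexp (ρ * t))
    linarith

theorem coreL_two (hRH : RHp) (ρ : ℂ) (hz : riemannZeta ρ = 0) (hz' : deriv riemannZeta ρ = 0) (hre : ρ.re = 1 / 2) :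
    CoreI mL (fun t => t) := by
  have h0 : 0 < ρ.re := by rw [hre]; norm_num
  have h1 : ρ.re < 1 := by rw [hre]; norm_num
  have hρ1 := half_ne hz
  have hre2 : |ρ.re| ≤ 2 := by rw [abs_of_pos h0]; linarith
  have hre1 : |ρ.re| ≤ 1 := by rw [abs_of_pos h0]; linarith
  have hK0 := Kh_zero ρ hz h0 h1
  have hD1 : DK (Ist ρ kc) := Ist_DK kc_DK ρ hre2 hK0
  have hm := Ist_moment kc_DK ρ hre1 hK0 (Kh_double ρ hz hz' h0 h1)
  have hD : DK (Sg (Ist ρ (Ist ρ qc))) := by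
    rw [SgK2 ρ hre]
    exact Ist_DK hD1 ρ hre2 hm
  obtain ⟨ε0, hε0, h2⟩ := small_ml (fun t => t) (eventually_ge_atTop 1)
  obtain ⟨C, hC, hA⟩ := A2 ρ hz hz' hre hρ1
  set κ : ℂ := qh ρ * (1 / (ρ - 1 / 2) - HH ρ) with hκ
  have hκ0 : 0 < ‖κ‖ := norm_pos_iff.2 (mul_ne_zero (qh_ne ρ h0 h1) (HH_ne ρ hre hρ1))
  have hlim : Tendsto (fun t : ℝ => 4 * C * |t⁻¹|) atTop (𝓝 0) := by
    simpa using (tendsto_inv_atTop_zero (𝕜 := ℝ)).abs.const_mul (4 * C)
  refine core' mL_MB hD (fun t => t) (eventually_ge_atTop 1) (mL_sm hRH) ε0 hε0 h2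
    (fun t => 4 * C * |t⁻¹|) hlim (fun t => by positivity)
    ⟨‖κ‖ / 2, ‖κ‖ * (‖ρ‖ + 1), by positivity, ?_⟩
  filter_upwards [eventually_ge_atTop (2 * C / (‖κ‖ / 2)), eventually_ge_atTop (1:ℝ)] with t k1 k2
  rw [div_le_iff₀ (by positivity)] at k1
  have ht0 : 0 < t := by linarith
  have hE := Real.exp_pos (t / 2)
  have hE1 : 1 ≤ Real.exp (t / 2) := Real.one_le_exp (by linarith)
  constructor
  · have h6 := hA t
    have k4 : ‖κ * (t * Complex.exp (ρ * t))‖ = ‖κ‖ * (t * Real.exp (t / 2)) := by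
      rw [norm_mul κ, norm_mul (t : ℂ), norm_tw', hre, Complex.norm_real, Real.norm_eq_abs, abs_of_pos ht0]
      congr 3
      ring
    have k5 : ‖κ * (t * Complex.exp (ρ * t))‖ ≤ ‖∫ v, (mL (t - v) : ℂ) * Sg (Ist ρ (Ist ρ qc)) v‖ +
        ‖(∫ v, (mL (t - v) : ℂ) * Sg (Ist ρ (Ist ρ qc)) v) - κ * (t * Complex.exp (ρ * t))‖ := by
      rw [← norm_neg ((∫ v, (mL (t - v) : ℂ) * Sg (Ist ρ (Ist ρ qc)) v) - κ * (t * Complex.exp (ρ * t)))]
      refine le_trans (le_of_eq ?_) (norm_add_le _ _)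
      congr 1
      ring
    rw [k4] at k5
    have k6 : C * (1 + Real.exp (t / 2)) ≤ 2 * C * Real.exp (t / 2) := by nlinarith
    have k7 : 2 * C * Real.exp (t / 2) ≤ ‖κ‖ / 2 * (t * Real.exp (t / 2)) := by
      have := mul_le_mul_of_nonneg_right k1 hE.le
      linarith
    linarith
  · intro w
    have hw0 := abs_nonneg w
    have e1 : (∫ v, (mL (t - w - v) : ℂ) * Sg (Ist ρ (Ist ρ qc)) v) - ∫ v, (mL (t - v) : ℂ) * Sg (Ist ρ (Ist ρ qc)) v =
        ((∫ v, (mL (t - w - v) : ℂ) * Sg (Ist ρ (Ist ρ qc)) v) -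
          κ * (((t - w : ℝ) : ℂ) * cexp (ρ * ((t - w : ℝ) : ℂ)))) -
        ((∫ v, (mL (t - v) : ℂ) * Sg (Ist ρ (Ist ρ qc)) v) - κ * (t * cexp (ρ * t))) +
        κ * (t * (cexp (ρ * ((t - w : ℝ) : ℂ)) - cexp (ρ * t)) - w * cexp (ρ * ((t - w : ℝ) : ℂ))) := by
      push_cast
      ring
    rw [e1]
    have h7 := hA (t - w)
    have h8 := hA t
    have h9 := tw_sub ρ hre t w
    have hexp : Real.exp ((t - w) / 2) ≤ Real.exp (t / 2) * Real.exp (1 / 2 * |w|) := by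
      rw [← Real.exp_add]
      refine Real.exp_le_exp.2 ?_
      have := neg_abs_le w
      linarith
    have h10 : ‖κ * (t * (cexp (ρ * ((t - w : ℝ) : ℂ)) - cexp (ρ * t)) - w * cexp (ρ * ((t - w : ℝ) : ℂ)))‖ ≤
        ‖κ‖ * (‖ρ‖ + 1) * (t * Real.exp (t / 2)) * (|w| * Real.exp (3 / 2 * |w|)) := by
      rw [norm_mul]
      have q1 : ‖(t : ℂ) * (cexp (ρ * ((t - w : ℝ) : ℂ)) - cexp (ρ * t))‖ ≤
          t * (‖ρ‖ * (Real.exp (t / 2) * (|w| * Real.exp (1 / 2 * |w|)))) := by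
        rw [norm_mul, Complex.norm_real, Real.norm_eq_abs, abs_of_pos ht0]
        exact mul_le_mul_of_nonneg_left h9 ht0.le
      have q2 : ‖(w : ℂ) * cexp (ρ * ((t - w : ℝ) : ℂ))‖ ≤ |w| * (t * (Real.exp (t / 2) * Real.exp (1 / 2 * |w|))) := by
        rw [norm_mul, Complex.norm_real, Real.norm_eq_abs, norm_tw', hre]
        refine mul_le_mul_of_nonneg_left ?_ hw0
        have q3 : Real.exp (1 / 2 * (t - w)) = Real.exp ((t - w) / 2) := by congr 1; ring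
        rw [q3]
        refine hexp.trans (le_mul_of_one_le_left (by positivity) k2)
      have q4 := (norm_sub_le ((t : ℂ) * (cexp (ρ * ((t - w : ℝ) : ℂ)) - cexp (ρ * t)))
        ((w : ℂ) * cexp (ρ * ((t - w : ℝ) : ℂ)))).trans (add_le_add q1 q2)
      have q5 : t * (‖ρ‖ * (Real.exp (t / 2) * (|w| * Real.exp (1 / 2 * |w|)))) +
          |w| * (t * (Real.exp (t / 2) * Real.exp (1 / 2 * |w|))) =
          (‖ρ‖ + 1) * (t * Real.exp (t / 2)) * (|w| * Real.exp (1 / 2 * |w|)) := by ring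
      rw [q5] at q4
      have h11 : Real.exp (1 / 2 * |w|) ≤ Real.exp (3 / 2 * |w|) := Real.exp_le_exp.2 (by linarith)
      calc ‖κ‖ * ‖(t : ℂ) * (cexp (ρ * ((t - w : ℝ) : ℂ)) - cexp (ρ * t)) - w * cexp (ρ * ((t - w : ℝ) : ℂ))‖ ≤
            ‖κ‖ * ((‖ρ‖ + 1) * (t * Real.exp (t / 2)) * (|w| * Real.exp (1 / 2 * |w|))) :=
            mul_le_mul_of_nonneg_left q4 (norm_nonneg _)
        _ ≤ ‖κ‖ * ((‖ρ‖ + 1) * (t * Real.exp (t / 2)) * (|w| * Real.exp (3 / 2 * |w|))) := by gcongr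
        _ = _ := by ring
    have h12 : (1:ℝ) ≤ Real.exp (1 / 2 * |w|) := Real.one_le_exp (by positivity)
    have h12' : Real.exp (1 / 2 * |w|) ≤ Real.exp (2 * |w|) := Real.exp_le_exp.2 (by linarith)
    have h13 : C * (1 + Real.exp ((t - w) / 2)) + C * (1 + Real.exp (t / 2)) ≤
        4 * C * |t⁻¹| * (t * Real.exp (t / 2)) * Real.exp (2 * |w|) := by
      have q1 : 4 * C * |t⁻¹| * (t * Real.exp (t / 2)) * Real.exp (2 * |w|) =
          4 * C * (Real.exp (t / 2) * Real.exp (2 * |w|)) := by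
        rw [abs_of_pos (by positivity)]
        field_simp
      rw [q1]
      have q2 : Real.exp (t / 2) * Real.exp (1 / 2 * |w|) ≤ Real.exp (t / 2) * Real.exp (2 * |w|) :=
        mul_le_mul_of_nonneg_left h12' hE.le
      have q3 : Real.exp (t / 2) ≤ Real.exp (t / 2) * Real.exp (2 * |w|) :=
        le_mul_of_one_le_right hE.le (h12.trans h12')
      have q4 : (1 + Real.exp ((t - w) / 2)) + (1 + Real.exp (t / 2)) ≤ 4 * (Real.exp (t / 2) * Real.exp (2 * |w|)) := by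
        linarith
      calc C * (1 + Real.exp ((t - w) / 2)) + C * (1 + Real.exp (t / 2)) =
            C * ((1 + Real.exp ((t - w) / 2)) + (1 + Real.exp (t / 2))) := by ring
        _ ≤ C * (4 * (Real.exp (t / 2) * Real.exp (2 * |w|))) := mul_le_mul_of_nonneg_left q4 hC
        _ = _ := by ring
    refine (norm_add_le _ _).trans ?_
    have h15 := norm_sub_le ((∫ v, (mL (t - w - v) : ℂ) * Sg (Ist ρ (Ist ρ qc)) v) -
          κ * (((t - w : ℝ) : ℂ) * cexp (ρ * ((t - w : ℝ) : ℂ))))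
      ((∫ v, (mL (t - v) : ℂ) * Sg (Ist ρ (Ist ρ qc)) v) - κ * (t * cexp (ρ * t)))
    linarith

end

end Pool.Agent.V5helper60.MW
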