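import Pool.Agent.V5helper60.MW.Bal

/-!
# One-sided bounds and means, II: the bound for the mean
-/

set_option autoImplicit false
set_option maxHeartbeats 4000000

open MeasureTheory Filter Topology Set

namespace Pool.Agent.V5helper60.MW

open Pool.Agent.W120.WM (gk)
open H313.TK

noncomputable section

theorem sbox_abs {m : ℝ → ℝ} {B : ℝ} (hm : MB m B) {s : ℝ} (hs : s = 1 ∨ s = -1) {t : ℝ} (ht : 1 ≤ t) (a : ℝ) :
    sbox (fun u => |m u|) (hw t) t a = 2 * sbox (fun u => max (s * m u) 0) (hw t) t a - s * sbox m (hw t) t a := by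
  have ht0 : 0 < t := by linarith
  have hh0 := hw_pos ht0
  have hh1 := hw_le ht
  unfold sbox
  rw [← integral_const_mul, ← integral_const_mul, ← integral_sub (((hm.pos hs).intR hh0 hh1 t).integrableOn.const_mul 2)
    ((hm.intR hh0 hh1 t).integrableOn.const_mul s)]
  refine integral_congr_ae (ae_of_all _ fun v => ?_)
  simp only
  have i1 := hm.int1 hh0 hh1 (t - v) 0
  have i2 := (hm.pos hs).int1 hh0 hh1 (t - v) 0
  simp only [sub_zero] at i1 i2
  have e1 : Sf (fun u => |m u|) (hw t) (t - v) =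
      2 * Sf (fun u => max (s * m u) 0) (hw t) (t - v) - s * Sf m (hw t) (t - v) := by
    unfold Sf
    rw [← integral_const_mul, ← integral_const_mul, ← integral_sub (i2.const_mul 2) (i1.const_mul s)]
    refine integral_congr_ae (ae_of_all _ fun w => ?_)
    simp only
    rw [part_id s hs (m (t - v - w))]
    ring
  rw [e1]
  ring

theorem box_le_sbox {f : ℝ → ℝ} {B : ℝ} (hf : MB f B) (hf0 : ∀ u, 0 ≤ f u) {t : ℝ} (ht : 1 ≤ t) (a : ℝ) :
    box f (hw t) t a ≤ sbox f (hw t) t a := by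
  have ht0 : 0 < t := by linarith
  have hh0 := hw_pos ht0
  have hh1 := hw_le ht
  unfold box sbox
  refine setIntegral_mono_on (int_inner hf hh0 hh1 t _ _) (hf.intR hh0 hh1 t).integrableOn measurableSet_Icc
    fun v _ => ?_
  refine mul_le_mul_of_nonneg_right ?_ (kp_nonneg v)
  unfold Sf
  refine setIntegral_le_integral (hf.int1 hh0 hh1 t v) (ae_of_all _ fun w => ?_)
  exact mul_nonneg (hf0 _) (gk_pos hh0 w).le

theorem box_mono {f : ℝ → ℝ} {B : ℝ} (hf : MB f B) (hf0 : ∀ u, 0 ≤ f u) {t : ℝ} (ht : 1 ≤ t) {a b : ℝ} (hab : a ≤ b) :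
    box f (hw t) t a ≤ box f (hw t) t b := by
  have ht0 : 0 < t := by linarith
  have hh0 := hw_pos ht0
  have hh1 := hw_le ht
  unfold box
  refine setIntegral_mono_set (int_inner hf hh0 hh1 t _ _) (ae_of_all _ fun v => ?_)
    (Eventually.of_forall (Icc_subset_Icc (by linarith) hab))
  refine mul_nonneg (integral_nonneg fun w => ?_) (kp_nonneg v)
  exact mul_nonneg (hf0 _) (gk_pos hh0 w).le

theorem gk_half {t : ℝ} (ht : 1 ≤ t) : 1 / 2 ≤ ∫ w in Icc (-1:ℝ) 1, gk (hw t) w := by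
  have ht0 : 0 < t := by linarith
  have hh0 := hw_pos ht0
  have hh1 := hw_le ht
  set h := hw t with hh
  have q0 := integral_add_compl (measurableSet_Icc (a := (-1:ℝ)) (b := 1)) (gk_int hh0)
  rw [gk_mass hh0] at q0
  have q1 : ∫ w in (Icc (-1:ℝ) 1)ᶜ, gk h w ≤ ∫ w in (Icc (-1:ℝ) 1)ᶜ, (8 * Real.exp (-(4 * t))) * gw h w := by
    refine setIntegral_mono_on (gk_int hh0).integrableOn ((gw_int hh0).const_mul _).integrableOn
      measurableSet_Icc.compl fun w hw => ?_
    have hw1 : 1 ≤ |w| := by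
      by_contra h8
      push Not at h8
      rw [abs_lt] at h8
      exact hw ⟨h8.1.le, h8.2.le⟩
    have q2 := gT hh0 hh1 w hw1
    rw [hw_sq ht0] at q2
    have q4 := gk_pos hh0 w
    have q5 : 1 ≤ Real.exp |w| := Real.one_le_exp (abs_nonneg w)
    nlinarith
  have q2 : ∫ w in (Icc (-1:ℝ) 1)ᶜ, (8 * Real.exp (-(4 * t))) * gw h w ≤ ∫ w, (8 * Real.exp (-(4 * t))) * gw h w := by
    refine setIntegral_le_integral ((gw_int hh0).const_mul _) (ae_of_all _ fun w => ?_)
    have := gw_pos hh0 w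
    show 0 ≤ (8 * Real.exp (-(4 * t))) * gw h w
    positivity
  have q2' : ∫ w, (8 * Real.exp (-(4 * t))) * gw h w = (8 * Real.exp (-(4 * t))) * 2 := by
    rw [integral_const_mul, gw_mass hh0]
  rw [q2'] at q2
  have q3 : Real.exp (-(4 * t)) ≤ 1 / 32 := by
    have h1 : Real.exp (-(4 * t)) ≤ Real.exp (-4) := Real.exp_le_exp.2 (by linarith)
    have h2 : (32 : ℝ) ≤ Real.exp 4 := by
      have h3 : Real.exp 4 = Real.exp 1 ^ 4 := by rw [← Real.exp_nat_mul]; norm_num
      have h4 : (2.7 : ℝ) ≤ Real.exp 1 := by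
        have := Real.exp_one_gt_d9
        linarith
      rw [h3]
      have h5 : (2.7 : ℝ) ^ 4 ≤ Real.exp 1 ^ 4 := pow_le_pow_left₀ (by norm_num) h4 4
      have h6 : (32 : ℝ) ≤ 2.7 ^ 4 := by norm_num
      linarith
    have h3 : Real.exp (-4) = (Real.exp 4)⁻¹ := Real.exp_neg 4
    rw [h3] at h1
    refine h1.trans ?_
    rw [inv_le_comm₀ (Real.exp_pos 4) (by norm_num)]
    simpa using h2
  linarith

/-- a lower bound for the kernel near the origin -/
def κ0 : ℝ := 1 / 2 * Real.exp (-(Real.pi / 4 * Real.exp 4))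

theorem κ0_pos : 0 < κ0 := by unfold κ0; positivity

theorem kp_low {v : ℝ} (hv : v ∈ Icc (-2:ℝ) 2) : κ0 ≤ kp v := by
  refine le_trans ?_ (kp_bounds v).1
  unfold κ0 W
  refine mul_le_mul_of_nonneg_left (Real.exp_le_exp.2 ?_) (by norm_num)
  have h1 : |v| ≤ 2 := abs_le.2 ⟨hv.1, hv.2⟩
  have h2 : Real.exp (2 * |v|) ≤ Real.exp 4 := Real.exp_le_exp.2 (by linarith)
  have h3 := le_max_right v 0
  have h4 : Real.pi / 4 * Real.exp (2 * |v|) ≤ Real.pi / 4 * Real.exp 4 :=
    mul_le_mul_of_nonneg_left h2 (by positivity)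
  linarith

theorem MB.loc {m : ℝ → ℝ} {B : ℝ} (hm : MB m B) (x y : ℝ) : IntegrableOn m (Icc x y) := by
  refine Integrable.mono' (g := fun u => B * (Real.exp (u / 2) + Real.exp u)) ?_ ?_ (ae_of_all _ fun u => ?_)
  · exact (by fun_prop : Continuous fun u : ℝ => B * (Real.exp (u / 2) + Real.exp u)).continuousOn.integrableOn_compact isCompact_Icc
  · have := hm.meas
    exact this.aestronglyMeasurable
  · exact hm.bd u

theorem MB.loc' {m : ℝ → ℝ} {B : ℝ} (hm : MB m B) (x a b : ℝ) : IntegrableOn (fun v => m (x - v)) (Icc a b) := by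
  refine Integrable.mono' (g := fun v => B * (Real.exp ((x - v) / 2) + Real.exp (x - v))) ?_ ?_ (ae_of_all _ fun u => ?_)
  · exact (by fun_prop : Continuous fun v : ℝ => B * (Real.exp ((x - v) / 2) + Real.exp (x - v))).continuousOn.integrableOn_compact isCompact_Icc
  · have := hm.meas
    exact (by fun_prop : Measurable fun v => m (x - v)).aestronglyMeasurable
  · exact hm.bd _

theorem box_low {f : ℝ → ℝ} {B : ℝ} (hf : MB f B) (hf0 : ∀ u, 0 ≤ f u) {t : ℝ} (ht : 1 ≤ t) :
    κ0 / 2 * ∫ u in Icc (t - 1) (t + 1), f u ≤ box f (hw t) t 2 := by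
  have ht0 : 0 < t := by linarith
  have hh0 := hw_pos ht0
  have hh1 := hw_le ht
  have hκ := κ0_pos
  unfold box
  set h := hw t with hh
  set I := ∫ u in Icc (t - 1) (t + 1), f u with hI
  have hI0 : 0 ≤ I := integral_nonneg fun u => hf0 u
  have hbox := int_box hf hh0 hh1 t (Icc (-2) 2) (Icc (-1) 1)
  have key := integral_integral_swap (μ := volume.restrict (Icc (-2:ℝ) 2)) (ν := volume.restrict (Icc (-1:ℝ) 1))
    (f := fun (v w : ℝ) => f (t - v - w) * gk h w * kp v) hbox
  have e1 : ∫ v in Icc (-2:ℝ) 2, (∫ w in Icc (-1:ℝ) 1, f (t - v - w) * gk h w) * kp v =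
      ∫ w in Icc (-1:ℝ) 1, ∫ v in Icc (-2:ℝ) 2, f (t - v - w) * gk h w * kp v := by
    rw [← key]
    refine integral_congr_ae (ae_of_all _ fun v => ?_)
    simp only
    rw [integral_mul_const]
  rw [e1]
  have hin : ∀ w ∈ Icc (-1:ℝ) 1, κ0 * I * gk h w ≤ ∫ v in Icc (-2:ℝ) 2, f (t - v - w) * gk h w * kp v := by
    intro w hw
    have hgw := gk_pos hh0 w
    have j1 := hf.loc' (t - w) (-2) 2
    have q1 : ∫ v in Icc (-2:ℝ) 2, (κ0 * gk h w) * f (t - w - v) ≤ ∫ v in Icc (-2:ℝ) 2, f (t - v - w) * gk h w * kp v := by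
      have j2 : IntegrableOn (fun v => f (t - v - w) * gk h w * kp v) (Icc (-2:ℝ) 2) := by
        have k0 : IntegrableOn (fun v => gk h w * f (t - w - v)) (Icc (-2:ℝ) 2) := j1.const_mul _
        have k1 : IntegrableOn (fun v => (gk h w * f (t - w - v)) * kp v) (Icc (-2:ℝ) 2) :=
          k0.mul_continuousOn kp_cont.continuousOn isCompact_Icc
        refine k1.congr (ae_of_all _ fun v => ?_)
        simp only
        rw [show t - v - w = t - w - v by ring]
        ring
      refine setIntegral_mono_on (j1.const_mul _) j2 measurableSet_Icc fun v hv => ?_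
      have q2 := kp_low hv
      rw [show t - v - w = t - w - v by ring]
      have q3 := hf0 (t - w - v)
      calc κ0 * gk h w * f (t - w - v) = (f (t - w - v) * gk h w) * κ0 := by ring
        _ ≤ (f (t - w - v) * gk h w) * kp v := mul_le_mul_of_nonneg_left q2 (by positivity)
    rw [integral_const_mul] at q1
    have q2 := refl_Icc f (t - w) 2
    have q3 : I ≤ ∫ u in Icc (t - w - 2) (t - w + 2), f u := by
      refine setIntegral_mono_set (hf.loc _ _) (ae_of_all _ fun u => hf0 u) (Eventually.of_forall ?_)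
      exact Icc_subset_Icc (by linarith [hw.1]) (by linarith [hw.2])
    rw [q2] at q1
    refine le_trans ?_ q1
    calc κ0 * I * gk h w = (κ0 * gk h w) * I := by ring
      _ ≤ _ := mul_le_mul_of_nonneg_left q3 (by positivity)
  have e2 : ∫ w in Icc (-1:ℝ) 1, κ0 * I * gk h w ≤
      ∫ w in Icc (-1:ℝ) 1, ∫ v in Icc (-2:ℝ) 2, f (t - v - w) * gk h w * kp v :=
    setIntegral_mono_on ((gk_int hh0).const_mul _).integrableOn hbox.integral_prod_right measurableSet_Icc hin
  rw [integral_const_mul] at e2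
  refine le_trans ?_ e2
  have e3 := gk_half ht
  rw [← hh] at e3
  calc κ0 / 2 * I = κ0 * I * (1 / 2) := by ring
    _ ≤ _ := mul_le_mul_of_nonneg_left e3 (by positivity)

/-- **A one-sided bound implies a bound for the mean.** -/
theorem meanA {m : ℝ → ℝ} {B : ℝ} (hm : MB m B) (hcore : CoreI m (fun _ => 1)) (hbal : BalI m) :
    ∃ C D : ℝ, 0 < C ∧ 0 < D ∧ ∀ᶠ t in atTop, ∀ a : ℝ, 0 ≤ a → D * (Real.log t) ^ 2 ≤ Real.exp (2 * a) →
      ∀ s : ℝ, s = 1 ∨ s = -1 → ∀ A : ℝ, 0 ≤ A →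
      (∀ u ∈ Icc (t - a - 1) (t + a + 1), s * m u ≤ A * Real.exp (u / 2)) →
      ∫ u in Icc (t - 1) (t + 1), |m u| ≤ C * (A * Real.exp (t / 2)) := by
  obtain ⟨c, Dc, hc, hDc, hev⟩ := hcore
  obtain ⟨Db, hDb, hevb⟩ := hbal
  have hC0 := C0_nonneg
  have hD1 := D1_nonneg
  have hB := hm.nonneg
  have hκ := κ0_pos
  set P : ℝ := 168 * C0 * D1 with hP
  have hP0 : 0 ≤ P := by positivity
  set Q : ℝ := 256 * B * C0 * D1 + 1 with hQ
  have hQ0 : 0 < Q := by positivity
  refine ⟨(2 * P + Q * (P / c)) / (κ0 / 2) + 1, max Dc Db, by positivity, lt_max_of_lt_left hDc, ?_⟩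
  filter_upwards [hev, hevb, eventually_ge_atTop (1:ℝ), Real.tendsto_log_atTop.eventually_ge_atTop
    (Real.sqrt (Real.exp 4 / max Dc Db))] with t k1 k2 ht k3 a ha hDa s hs A hA hb
  have hlog2 : 0 ≤ (Real.log t) ^ 2 := sq_nonneg _
  have hDm : 0 < max Dc Db := lt_max_of_lt_left hDc
  have ha2 : 2 ≤ a := by
    have h1 : Real.exp 4 ≤ max Dc Db * (Real.log t) ^ 2 := by
      have h2 : Real.exp 4 / max Dc Db ≤ (Real.log t) ^ 2 := by
        have h3 := Real.sq_sqrt (by positivity : 0 ≤ Real.exp 4 / max Dc Db)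
        rw [← h3]
        exact pow_le_pow_left₀ (Real.sqrt_nonneg _) k3 2
      rwa [div_le_iff₀ hDm, mul_comm] at h2
    have h4 : Real.exp 4 ≤ Real.exp (2 * a) := h1.trans hDa
    have := Real.exp_le_exp.1 h4
    linarith
  have d1 : Dc * (Real.log t) ^ 2 ≤ Real.exp (2 * a) :=
    (mul_le_mul_of_nonneg_right (le_max_left _ _) hlog2).trans hDa
  have d2 : Db * (Real.log t) ^ 2 ≤ Real.exp (2 * a) :=
    (mul_le_mul_of_nonneg_right (le_max_right _ _) hlog2).trans hDa
  have j1 := k1 a ha d1 s hs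
  have j2 := k2 a ha d2
  set E := Real.exp (t / 2) with hE
  have hE1 : 1 ≤ E := Real.one_le_exp (by linarith)
  have hpm := hm.pos hs
  have hp0 : ∀ u, 0 ≤ max (s * m u) 0 := fun u => le_max_right _ _
  have j3 : box (fun u => max (s * m u) 0) (hw t) t a ≤ P * (A * E) := by
    refine box_le hpm ht hA fun u hu => ?_
    exact max_le (hb u hu) (by positivity)
  have j1' : c * E ≤ box (fun u => max (s * m u) 0) (hw t) t a := by
    have : c * (1 * E) = c * E := by ring
    rw [this] at j1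
    exact j1
  have j4 : E ≤ P / c * (A * E) := by
    rw [div_mul_eq_mul_div, le_div_iff₀ hc]
    linarith
  have j5 := sbox_le hpm hp0 ht (a := a)
  have j6 : Real.exp (-(3 * t)) ≤ E := (Real.exp_le_one_iff.2 (by linarith)).trans hE1
  have j7 := sbox_abs hm hs ht a
  have j8 : -(s * sbox m (hw t) t a) ≤ E := by
    have h9 : |s * sbox m (hw t) t a| ≤ E := by
      rw [abs_mul]
      have : |s| = 1 := by rcases hs with h | h <;> rw [h] <;> simp
      rw [this, one_mul]
      exact j2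
    have := neg_abs_le (s * sbox m (hw t) t a)
    linarith
  have j9 := box_le_sbox hm.abs (fun u => abs_nonneg (m u)) ht a
  have j10 := box_mono hm.abs (fun u => abs_nonneg (m u)) ht ha2
  have j11 := box_low hm.abs (fun u => abs_nonneg (m u)) ht
  set I := ∫ u in Icc (t - 1) (t + 1), |m u| with hI
  have hI0 : 0 ≤ I := integral_nonneg fun u => abs_nonneg _
  have j12 : κ0 / 2 * I ≤ 2 * P * (A * E) + Q * E := by
    have h10 : 2 * (128 * B * C0 * D1 * Real.exp (-(3 * t))) ≤ 256 * B * C0 * D1 * E := by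
      have := mul_le_mul_of_nonneg_left j6 (by positivity : 0 ≤ 256 * B * C0 * D1)
      linarith
    have h11 : Q * E = 256 * B * C0 * D1 * E + E := by rw [hQ]; ring
    linarith
  have j13 : Q * E ≤ Q * (P / c * (A * E)) := mul_le_mul_of_nonneg_left j4 hQ0.le
  have j14 : κ0 / 2 * I ≤ (2 * P + Q * (P / c)) * (A * E) := by
    calc κ0 / 2 * I ≤ 2 * P * (A * E) + Q * E := j12
      _ ≤ 2 * P * (A * E) + Q * (P / c * (A * E)) := by linarith
      _ = _ := by ring
  have hAE : 0 ≤ A * E := by positivity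
  have j15 : I ≤ (2 * P + Q * (P / c)) / (κ0 / 2) * (A * E) := by
    rw [div_mul_eq_mul_div, le_div_iff₀ (by positivity)]
    linarith
  linarith

end

end Pool.Agent.V5helper60.MW
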