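import Pool.Agent.V5helper60.MW.Cons

/-!
# Windows `[x, C x (log log x)²]`
-/

set_option autoImplicit false
set_option maxHeartbeats 4000000

open MeasureTheory Filter Topology Set

namespace Pool.Agent.V5helper60.MW

open H313.TK

noncomputable section

/-- the logarithmic length of the window -/
def wl (C l : ℝ) : ℝ := Real.log (C * (Real.log l) ^ 2)

theorem win {m : ℝ → ℝ} {B : ℝ} (hm : MB m B) (Lf : ℝ → ℝ) (hL : ∀ᶠ t in atTop, 1 ≤ Lf t)
    (hcore : CoreI m Lf) : ∃ c C0 : ℝ, 0 < c ∧ 1 ≤ C0 ∧ ∀ C : ℝ, C0 ≤ C → ∀ᶠ l in atTop,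
      ∃ t : ℝ, l ≤ t ∧ ∀ s : ℝ, s = 1 ∨ s = -1 →
        (∃ u ∈ Icc l (l + wl C l), c * Lf t * Real.exp (u / 2) ≤ s * m u) ∧
        c * Lf t ≤ ∫ u in Icc l (l + wl C l), max (s * m u) 0 * Real.exp (-(u / 2)) := by
  obtain ⟨c, D, hc, hD, hev⟩ := hcore
  have hC0 := C0_nonneg
  have hD1 := D1_nonneg
  set c1 : ℝ := c / (168 * C0 * D1 + 1) with hc1
  set c2 : ℝ := c / (168 * C0 + 1) with hc2
  have hc10 : 0 < c1 := by positivity
  have hc20 : 0 < c2 := by positivity
  refine ⟨min c1 c2, Real.exp 2 * (4 * (D + 1)), lt_min hc10 hc20, ?_, fun C hC => ?_⟩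
  · have h1 : 1 ≤ Real.exp 2 := Real.one_le_exp (by norm_num)
    nlinarith
  have hCpos : 0 < C := lt_of_lt_of_le (by positivity) hC
  -- the time
  set tt : ℝ → ℝ := fun l => l + wl C l / 2 with htt
  have g1 : ∀ᶠ l : ℝ in atTop, Real.log C ≤ l := eventually_ge_atTop _
  have g2 : ∀ᶠ l : ℝ in atTop, Real.log l ≤ l / 2 := by
    have := Real.isLittleO_log_id_atTop.def (show (0:ℝ) < 1 / 2 by norm_num)
    filter_upwards [this, eventually_ge_atTop (1:ℝ)] with l hl hl1
    rw [Real.norm_eq_abs, Real.norm_eq_abs, abs_of_nonneg (Real.log_nonneg hl1), id, abs_of_pos (by linarith)] at hl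
    linarith
  have hbase : ∀ᶠ l : ℝ in atTop, l ≤ tt l ∧ tt l ≤ 2 * l ∧ 2 ≤ wl C l ∧ 1 ≤ Real.log l ∧ 3 ≤ l := by
    filter_upwards [g1, g2, eventually_ge_atTop (3:ℝ)] with l h1 h2 h3
    have hl1 : 1 ≤ Real.log l := by
      rw [Real.le_log_iff_exp_le (by linarith)]
      have := Real.exp_one_lt_d9
      linarith
    have hw2 : 2 ≤ wl C l := by
      unfold wl
      rw [Real.le_log_iff_exp_le (by positivity)]
      have h4 : (1:ℝ) ≤ (Real.log l) ^ 2 := by nlinarith
      have h5 : Real.exp 2 ≤ C := by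
        have : 0 < Real.exp 2 := Real.exp_pos _
        nlinarith
      nlinarith
    have hw3 : wl C l ≤ 2 * l := by
      unfold wl
      rw [Real.log_mul hCpos.ne' (by positivity), Real.log_pow]
      have h4 : Real.log (Real.log l) ≤ Real.log l - 1 := Real.log_le_sub_one_of_pos (by linarith)
      push_cast
      linarith
    refine ⟨?_, ?_, hw2, hl1, h3⟩
    · simp only [htt]; linarith
    · simp only [htt]; linarith
  have httop : Tendsto tt atTop atTop := by
    refine tendsto_atTop_mono' atTop ?_ tendsto_id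
    filter_upwards [hbase] with l hl
    exact hl.1
  filter_upwards [httop.eventually hev, httop.eventually hL, hbase] with l k1 k2 k3
  obtain ⟨b1, b2, b3, b4, b5⟩ := k3
  refine ⟨tt l, b1, fun s hs => ?_⟩
  set a : ℝ := wl C l / 2 - 1 with ha
  have ha0 : 0 ≤ a := by rw [ha]; linarith
  have hX : Real.exp (2 * a) = C * (Real.log l) ^ 2 * Real.exp (-2) := by
    have : 2 * a = wl C l + -2 := by rw [ha]; ring
    rw [this, Real.exp_add]
    unfold wl
    rw [Real.exp_log (by positivity)]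
  have hlog : Real.log (tt l) ≤ 2 * Real.log l := by
    have h1 : tt l ≤ l ^ 2 := by nlinarith
    have h2 := Real.log_le_log (by linarith) h1
    rw [Real.log_pow] at h2
    exact_mod_cast h2
  have hlog0 : 0 ≤ Real.log (tt l) := Real.log_nonneg (by linarith)
  have hDa : D * (Real.log (tt l)) ^ 2 ≤ Real.exp (2 * a) := by
    rw [hX]
    have h1 : (Real.log (tt l)) ^ 2 ≤ (2 * Real.log l) ^ 2 := pow_le_pow_left₀ hlog0 hlog 2
    have h2 : Real.exp 2 * Real.exp (-2) = 1 := by rw [← Real.exp_add]; norm_num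
    have h3 : 4 * (D + 1) ≤ C * Real.exp (-2) := by
      calc 4 * (D + 1) = (Real.exp 2 * (4 * (D + 1))) * Real.exp (-2) := by
            linear_combination (-(4 * (D + 1))) * h2
        _ ≤ C * Real.exp (-2) := mul_le_mul_of_nonneg_right hC (Real.exp_pos _).le
    have h4 : 0 ≤ (Real.log l) ^ 2 := sq_nonneg _
    calc D * (Real.log (tt l)) ^ 2 ≤ D * (2 * Real.log l) ^ 2 := mul_le_mul_of_nonneg_left h1 hD.le
      _ ≤ (4 * (D + 1)) * (Real.log l) ^ 2 := by nlinarith
      _ ≤ (C * Real.exp (-2)) * (Real.log l) ^ 2 := mul_le_mul_of_nonneg_right h3 h4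
      _ = _ := by ring
  have hcore := k1 a ha0 hDa s hs
  have hwin : Icc (tt l - a - 1) (tt l + a + 1) = Icc l (l + wl C l) := by
    congr 1
    · simp only [htt, ha]; ring
    · simp only [htt, ha]; ring
  constructor
  · obtain ⟨u, hu, hu2⟩ := sup_of hm (by linarith : 1 ≤ tt l) s hs (by linarith : 0 < Lf (tt l)) hc hcore
    rw [hwin] at hu
    refine ⟨u, hu, le_trans ?_ hu2⟩
    refine mul_le_mul_of_nonneg_right ?_ (Real.exp_pos _).le
    exact mul_le_mul_of_nonneg_right (min_le_left _ _) (by linarith)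
  · have h1 := mean_of hm (by linarith : 1 ≤ tt l) s hs hcore
    rw [hwin] at h1
    set I := ∫ u in Icc l (l + wl C l), max (s * m u) 0 * Real.exp (-(u / 2)) with hI
    have hI0 : 0 ≤ I := integral_nonneg fun u => mul_nonneg (le_max_right _ _) (Real.exp_pos _).le
    have h2 : c2 * Lf (tt l) ≤ I := by
      rw [hc2, div_mul_eq_mul_div, div_le_iff₀ (by positivity)]
      nlinarith
    refine le_trans ?_ h2
    exact mul_le_mul_of_nonneg_right (min_le_right _ _) (by linarith)

end

end Pool.Agent.V5helper60.MW
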