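import Pool.Agent.V5helper60.MW.Sb
import Pool.Agent.V5helper60.MW.Win

/-!
# The Mertens function
-/

set_option autoImplicit false
set_option maxHeartbeats 4000000

open MeasureTheory Filter Topology Set

namespace Pool.Agent.V5helper60.MW

open H313.TK
open Pool.Agent.W120.WM (RHp)

noncomputable section

theorem mm_MB : MB mm 1 := by
  refine ⟨mm_meas, by norm_num, fun u => ?_⟩
  have h1 := abs_mm_le u
  have h2 := Real.exp_pos (u / 2)
  linarith

/-- Lipschitz bound for a primitive -/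
theorem prim_lip {g : ℝ → ℂ} (hg : QQ g) (t w β : ℝ)
    (hb : ∀ z : ℝ, t - |w| ≤ z → z ≤ t + |w| → ‖g z‖ ≤ β) :
    ‖(∫ z in Iic (t - w), g z) - ∫ z in Iic t, g z‖ ≤ β * |w| := by
  have e1 := intervalIntegral.integral_Iic_sub_Iic (hg.int0 t) (hg.int0 (t - w))
  rw [e1]
  have h2 := intervalIntegral.norm_integral_le_of_norm_le_const (a := t) (b := t - w) (f := g) (C := β) ?_
  · refine h2.trans (le_of_eq ?_)
    rw [show t - w - t = -w by ring, abs_neg]
  · intro z hz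
    have hw1 := neg_abs_le w
    have hw2 := le_abs_self w
    have hw3 := abs_nonneg w
    rcases le_total t (t - w) with h | h
    · rw [uIoc_of_le h] at hz
      exact hb z (by linarith [hz.1]) (by linarith [hz.2])
    · rw [uIoc_of_ge h] at hz
      exact hb z (by linarith [hz.1]) (by linarith [hz.2])

/-- the first building block -/
theorem g1_bd (ρ : ℂ) (hre : ρ.re = 1 / 2) : ∃ C : ℝ, 0 ≤ C ∧ ∀ z : ℝ, ‖Ist ρ qc z‖ ≤ C * Real.exp (z / 2) := by
  have hQ := Ist_QQ qc_QQ ρ (by rw [hre]; norm_num)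
  obtain ⟨C, hC, hb⟩ := hQ.bd 0
  refine ⟨C + (‖qh ρ‖ + 24), by positivity, fun z => ?_⟩
  have hE := Real.exp_pos (z / 2)
  rcases le_total z 0 with hz | hz
  · have h1 := hb z hz
    have h2 : Real.exp (2 * z) ≤ Real.exp (z / 2) := Real.exp_le_exp.2 (by linarith)
    have h3 : C * Real.exp (2 * z) ≤ C * Real.exp (z / 2) := mul_le_mul_of_nonneg_left h2 hC
    have h4 : 0 ≤ (‖qh ρ‖ + 24) * Real.exp (z / 2) := by positivity
    linarith
  · have h5 := q1_asy ρ (by rw [hre]; norm_num) (by rw [hre]; norm_num) z hz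
    have h6 : Ist ρ qc z = Complex.exp (ρ * z) * (Complex.exp (-ρ * z) * Ist ρ qc z) := (tw_cancel ρ z _).symm
    have h7 : ‖Complex.exp (-ρ * z) * Ist ρ qc z‖ ≤ ‖qh ρ‖ + 24 := by
      have h8 : ‖Complex.exp (-ρ * z) * Ist ρ qc z‖ ≤ ‖qh ρ‖ + ‖Complex.exp (-ρ * z) * Ist ρ qc z - qh ρ‖ := by
        have := norm_add_le (qh ρ) (Complex.exp (-ρ * z) * Ist ρ qc z - qh ρ)
        rwa [add_sub_cancel] at this
      have h9 : 24 * Real.exp (-((ρ.re + 2) * z)) ≤ 24 * 1 := by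
        refine mul_le_mul_of_nonneg_left ?_ (by norm_num)
        rw [Real.exp_le_one_iff, hre]
        nlinarith
      linarith
    rw [h6, norm_mul, norm_tw', hre]
    have h8 : Real.exp (1 / 2 * z) = Real.exp (z / 2) := by congr 1; ring
    rw [h8]
    nlinarith

/-- the second building block -/
theorem g2_bd (ρ : ℂ) (hre : ρ.re = 1 / 2) :
    ∃ C : ℝ, 0 ≤ C ∧ ∀ z : ℝ, ‖Ist ρ (Ist ρ qc) z‖ ≤ C * (1 + |z|) * Real.exp (z / 2) := by
  have hQ := Ist_QQ (Ist_QQ qc_QQ ρ (by rw [hre]; norm_num)) ρ (by rw [hre]; norm_num)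
  obtain ⟨C, hC, hb⟩ := hQ.bd 0
  obtain ⟨C2, hC2, hb2⟩ := q2_asy ρ (by rw [hre]; norm_num) (by rw [hre]; norm_num)
  refine ⟨C + (‖qh ρ‖ + C2), by positivity, fun z => ?_⟩
  have hE := Real.exp_pos (z / 2)
  have hz0 := abs_nonneg z
  rcases le_total z 0 with hz | hz
  · have h1 := hb z hz
    have h2 : Real.exp (2 * z) ≤ Real.exp (z / 2) := Real.exp_le_exp.2 (by linarith)
    have h3 : C * Real.exp (2 * z) ≤ C * Real.exp (z / 2) := mul_le_mul_of_nonneg_left h2 hC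
    have h4 : C * Real.exp (z / 2) ≤ (C + (‖qh ρ‖ + C2)) * (1 + |z|) * Real.exp (z / 2) := by
      refine mul_le_mul_of_nonneg_right ?_ hE.le
      have : 0 ≤ ‖qh ρ‖ + C2 := by positivity
      nlinarith [mul_nonneg hC hz0, mul_nonneg this hz0]
    linarith
  · have h5 := hb2 z hz
    have h6 : Ist ρ (Ist ρ qc) z = Complex.exp (ρ * z) * (Complex.exp (-ρ * z) * Ist ρ (Ist ρ qc) z) :=
      (tw_cancel ρ z _).symm
    have h7 : ‖Complex.exp (-ρ * z) * Ist ρ (Ist ρ qc) z‖ ≤ (C + (‖qh ρ‖ + C2)) * (1 + |z|) := by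
      have h8 : ‖Complex.exp (-ρ * z) * Ist ρ (Ist ρ qc) z‖ ≤ ‖qh ρ * z‖ +
          ‖Complex.exp (-ρ * z) * Ist ρ (Ist ρ qc) z - qh ρ * z‖ := by
        have := norm_add_le (qh ρ * z) (Complex.exp (-ρ * z) * Ist ρ (Ist ρ qc) z - qh ρ * z)
        rwa [add_sub_cancel] at this
      rw [norm_mul (qh ρ) _, Complex.norm_real, Real.norm_eq_abs] at h8
      have hq := norm_nonneg (qh ρ)
      nlinarith [mul_nonneg hC hz0, mul_nonneg hC2 hz0]
    rw [h6, norm_mul, norm_tw', hre]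
    have h8 : Real.exp (1 / 2 * z) = Real.exp (z / 2) := by congr 1; ring
    rw [h8, mul_comm]
    exact mul_le_mul_of_nonneg_right h7 hE.le

/-- the averages against `kp` are small -/
theorem small_mm (Lf : ℝ → ℝ) (hL : ∀ᶠ t in atTop, 1 ≤ Lf t) : ∃ ε0 : ℝ → ℝ, Tendsto ε0 atTop (𝓝 0) ∧
    ∀ᶠ t in atTop, ∀ w : ℝ, |∫ v, mm (t - w - v) * kp v| ≤ ε0 t * (Lf t * Real.exp (t / 2)) * Real.exp (2 * |w|) := by
  set E : ℝ := 48 * ∫ x : ℝ, Real.exp (-(2 * |x|)) with hE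
  have hE0 : 0 ≤ E := (abs_nonneg _).trans (avg_mm 0)
  refine ⟨fun t => E * Real.exp (-(t / 2)), ?_, ?_⟩
  · have h4 : Tendsto (fun t : ℝ => t / 2) atTop atTop := tendsto_id.atTop_div_const (by norm_num)
    have h5 : Tendsto (fun t : ℝ => Real.exp (-(t / 2))) atTop (𝓝 0) :=
      Real.tendsto_exp_atBot.comp (tendsto_neg_atTop_atBot.comp h4)
    simpa using h5.const_mul E
  · filter_upwards [hL] with t ht w
    refine (avg_mm (t - w)).trans ?_
    have h1 : Real.exp (-(t / 2)) * Real.exp (t / 2) = 1 := by rw [← Real.exp_add]; simp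
    have h2 : 1 ≤ Real.exp (2 * |w|) := Real.one_le_exp (by positivity)
    calc E = E * 1 * 1 := by ring
      _ ≤ E * Lf t * Real.exp (2 * |w|) := by gcongr
      _ = E * Lf t * (Real.exp (-(t / 2)) * Real.exp (t / 2)) * Real.exp (2 * |w|) := by rw [h1, mul_one]
      _ = _ := by ring

theorem core_one (hRH : RHp) (ρ : ℂ) (hz : riemannZeta ρ = 0) (hre : ρ.re = 1 / 2) : CoreI mm (fun _ => 1) := by
  have h0 : 0 < ρ.re := by rw [hre]; norm_num
  have h1 : ρ.re < 1 := by rw [hre]; norm_num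
  have hρ : ρ ≠ 0 := by rintro rfl; simp at h0
  have hQ := Ist_QQ qc_QQ ρ (by linarith)
  have hS : Sg (Ist ρ qc) = Ist ρ kc := by
    funext v
    rw [kc_eq]
    exact (Sg_Ist qc_QQ ρ (by linarith) v).symm
  have hre2 : |ρ.re| ≤ 2 := by rw [abs_of_pos h0]; linarith
  have hD : DK (Sg (Ist ρ qc)) := by
    rw [hS]
    exact Ist_DK kc_DK ρ hre2 (Kh_zero ρ hz h0 h1)
  obtain ⟨ε0, hε0, h2⟩ := small_mm (fun _ => 1) (Eventually.of_forall fun _ => le_rfl)
  obtain ⟨C1, hC1, hasy⟩ := G1_asy ρ h0 h1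
  obtain ⟨Cg, hCg, hg⟩ := g1_bd ρ hre
  set A : ℝ := ‖qh ρ / ρ‖ with hA
  have hA0 : 0 < A := norm_pos_iff.2 (div_ne_zero (qh_ne ρ h0 h1) hρ)
  refine core mm_MB hD (fun _ => 1) (Eventually.of_forall fun _ => le_rfl) (sm_bound hRH) ε0 hε0 h2
    ⟨A / 2, Cg, by positivity, ?_⟩
  have hlim : ∀ᶠ t : ℝ in atTop, C1 + 24 * t ≤ A / 2 * Real.exp (t / 2) := by
    have h4 : Tendsto (fun t : ℝ => t / 2) atTop atTop := tendsto_id.atTop_div_const (by norm_num)
    have h5 := (Real.tendsto_exp_div_pow_atTop 1).comp h4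
    filter_upwards [h5.eventually_ge_atTop ((C1 + 24) / (A / 4)), eventually_ge_atTop (1:ℝ)] with t k1 k2
    simp only [Function.comp_apply, pow_one] at k1
    rw [le_div_iff₀ (by linarith), div_mul_eq_mul_div, div_le_iff₀ (by positivity)] at k1
    nlinarith
  filter_upwards [hlim, eventually_ge_atTop (0:ℝ)] with t k1 k2
  rw [moeb hQ t]
  constructor
  · have h6 := hasy t k2
    have k4 : ‖qh ρ / ρ * Complex.exp (ρ * t)‖ = A * Real.exp (t / 2) := by
      rw [norm_mul, norm_tw', hre]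
      congr 2
      ring
    have k5 : ‖qh ρ / ρ * Complex.exp (ρ * t)‖ ≤ ‖∫ z in Iic t, Ist ρ qc z‖ +
        ‖(∫ z in Iic t, Ist ρ qc z) - qh ρ / ρ * Complex.exp (ρ * t)‖ := by
      rw [← norm_neg ((∫ z in Iic t, Ist ρ qc z) - qh ρ / ρ * Complex.exp (ρ * t))]
      refine le_trans (le_of_eq ?_) (norm_add_le _ _)
      congr 1
      ring
    rw [k4] at k5
    rw [one_mul]
    linarith
  · intro w
    rw [moeb hQ (t - w)]
    have h6 := prim_lip hQ t w (Cg * Real.exp ((t + |w|) / 2)) (fun z _ hz2 =>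
      (hg z).trans (mul_le_mul_of_nonneg_left (Real.exp_le_exp.2 (by linarith)) hCg))
    refine h6.trans ?_
    have h7 : Real.exp ((t + |w|) / 2) ≤ Real.exp (t / 2) * Real.exp (3 / 2 * |w|) := by
      rw [← Real.exp_add]
      refine Real.exp_le_exp.2 ?_
      have := abs_nonneg w
      linarith
    have hw0 := abs_nonneg w
    calc Cg * Real.exp ((t + |w|) / 2) * |w| ≤ Cg * (Real.exp (t / 2) * Real.exp (3 / 2 * |w|)) * |w| := by gcongr
      _ = _ := by ring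

theorem core_two (hRH : RHp) (ρ : ℂ) (hz : riemannZeta ρ = 0) (hz' : deriv riemannZeta ρ = 0) (hre : ρ.re = 1 / 2) :
    CoreI mm (fun t => t) := by
  have h0 : 0 < ρ.re := by rw [hre]; norm_num
  have h1 : ρ.re < 1 := by rw [hre]; norm_num
  have hρ : ρ ≠ 0 := by rintro rfl; simp at h0
  have hQ := Ist_QQ qc_QQ ρ (by linarith)
  have hQ2 := Ist_QQ hQ ρ (by linarith)
  have hre2 : |ρ.re| ≤ 2 := by rw [abs_of_pos h0]; linarith
  have hre1 : |ρ.re| ≤ 1 := by rw [abs_of_pos h0]; linarith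
  have hS : Sg (Ist ρ qc) = Ist ρ kc := by
    funext v
    rw [kc_eq]
    exact (Sg_Ist qc_QQ ρ (by linarith) v).symm
  have hS2 : Sg (Ist ρ (Ist ρ qc)) = Ist ρ (Ist ρ kc) := by
    funext v
    rw [← hS]
    exact (Sg_Ist hQ ρ (by linarith) v).symm
  have hK0 := Kh_zero ρ hz h0 h1
  have hD1 : DK (Ist ρ kc) := Ist_DK kc_DK ρ hre2 hK0
  have hm := Ist_moment kc_DK ρ hre1 hK0 (Kh_double ρ hz hz' h0 h1)
  have hD : DK (Sg (Ist ρ (Ist ρ qc))) := by
    rw [hS2]
    exact Ist_DK hD1 ρ hre2 hm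
  obtain ⟨ε0, hε0, h2⟩ := small_mm (fun t => t) (eventually_ge_atTop 1)
  obtain ⟨C1, hC1, hasy⟩ := G2_asy ρ h0 h1
  obtain ⟨Cg, hCg, hg⟩ := g2_bd ρ hre
  set A : ℝ := ‖qh ρ / ρ‖ with hA
  have hA0 : 0 < A := norm_pos_iff.2 (div_ne_zero (qh_ne ρ h0 h1) hρ)
  refine core mm_MB hD (fun t => t) (eventually_ge_atTop 1) (sm_bound hRH) ε0 hε0 h2
    ⟨A / 2, 2 * Cg, by positivity, ?_⟩
  filter_upwards [eventually_ge_atTop (C1 / (A / 2)), eventually_ge_atTop (1:ℝ)] with t k1 k2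
  rw [div_le_iff₀ (by positivity)] at k1
  rw [moeb hQ2 t]
  have hE := Real.exp_pos (t / 2)
  constructor
  · have h6 := hasy t (by linarith)
    have k4 : ‖qh ρ / ρ * (t * Complex.exp (ρ * t))‖ = A * (t * Real.exp (t / 2)) := by
      rw [norm_mul, norm_mul, norm_tw', hre, Complex.norm_real, Real.norm_eq_abs, abs_of_pos (by linarith)]
      congr 3
      ring
    have k5 : ‖qh ρ / ρ * (t * Complex.exp (ρ * t))‖ ≤ ‖∫ z in Iic t, Ist ρ (Ist ρ qc) z‖ +
        ‖(∫ z in Iic t, Ist ρ (Ist ρ qc) z) - qh ρ / ρ * (t * Complex.exp (ρ * t))‖ := by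
      rw [← norm_neg ((∫ z in Iic t, Ist ρ (Ist ρ qc) z) - qh ρ / ρ * (t * Complex.exp (ρ * t)))]
      refine le_trans (le_of_eq ?_) (norm_add_le _ _)
      congr 1
      ring
    rw [k4] at k5
    rw [hre, show 1 / 2 * t = t / 2 by ring] at h6
    nlinarith
  · intro w
    rw [moeb hQ2 (t - w)]
    have hw0 := abs_nonneg w
    have h6 := prim_lip hQ2 t w (Cg * (2 * t * Real.exp |w|) * Real.exp ((t + |w|) / 2)) (fun z hz1 hz2 => by
      refine (hg z).trans ?_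
      have h8 : 1 + |z| ≤ 2 * t * Real.exp |w| := by
        have h9 : |z| ≤ t + |w| := abs_le.2 ⟨by linarith, hz2⟩
        have h10 : 1 + |w| ≤ Real.exp |w| := by
          have := Real.add_one_le_exp |w|
          linarith
        nlinarith
      have h9 : Real.exp (z / 2) ≤ Real.exp ((t + |w|) / 2) := Real.exp_le_exp.2 (by linarith)
      gcongr)
    refine h6.trans ?_
    have h7 : Real.exp |w| * Real.exp ((t + |w|) / 2) = Real.exp (t / 2) * Real.exp (3 / 2 * |w|) := by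
      rw [← Real.exp_add, ← Real.exp_add]
      congr 1
      ring
    calc Cg * (2 * t * Real.exp |w|) * Real.exp ((t + |w|) / 2) * |w| =
          Cg * 2 * t * (Real.exp |w| * Real.exp ((t + |w|) / 2)) * |w| := by ring
      _ = Cg * 2 * t * (Real.exp (t / 2) * Real.exp (3 / 2 * |w|)) * |w| := by rw [h7]
      _ ≤ _ := le_of_eq (by ring)

end

end Pool.Agent.V5helper60.MW
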