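import Pool.Agent.V5helper60.MW.Zlow
import Pool.Agent.V5helper60.MW.Core2
import Pool.Agent.W897.WM.Inv2
import Pool.Agent.W150.WM.Inv
import Pool.Agent.W565.WM.Res

/-!
# The bound for the smoothed Mertens function
-/

set_option autoImplicit false
set_option maxHeartbeats 4000000

open MeasureTheory Filter Topology Set

namespace Pool.Agent.V5helper60.MW

open Pool.Agent.W120.WM
open Pool.Agent.H437R2 (ell one_le_ell)
open H313.TK (mm MM)

theorem u_inv : U_INV := Pool.Agent.W897.WM.inv2 Pool.Agent.W150.WM.inv Pool.Agent.W565.WM.t_res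

theorem Sf_mm (h u : ℝ) : Sf mm h u = Sm h u := rfl

theorem ell_le {h : ℝ} (hh : 0 < h) (h1 : h ≤ 1) (y : ℝ) : ell y ≤ Real.log (3 / h) + h * |y| := by
  unfold ell
  have hy := abs_nonneg y
  have e1 : |y| + 3 ≤ 3 / h * (1 + h * |y|) := by
    have : 3 / h * (1 + h * |y|) = 3 / h + 3 * |y| := by field_simp
    rw [this]
    have h3 : 3 ≤ 3 / h := by
      rw [le_div_iff₀ hh]; linarith
    linarith
  calc Real.log (|y| + 3) ≤ Real.log (3 / h * (1 + h * |y|)) := Real.log_le_log (by positivity) e1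
    _ = Real.log (3 / h) + Real.log (1 + h * |y|) := Real.log_mul (by positivity) (by positivity)
    _ ≤ _ := by
        have := Real.log_le_sub_one_of_pos (show 0 < 1 + h * |y| by positivity)
        linarith

theorem sm_bound0 (hRH : RHp) : ∃ C : ℝ, 1 ≤ C ∧ ∀ δ h u : ℝ, 0 < δ → δ < 1 / 2 → 0 < h → h ≤ 1 →
    |Sm h u| ≤ 2 / h * Real.exp ((1 / 2 + δ) * u) *
      Real.exp (C * (1 + Real.log (1 / δ)) * Real.log (3 / h) + 2 * (C * (1 + Real.log (1 / δ))) ^ 2) := by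
  obtain ⟨C, hC, hz⟩ := zeta_inv hRH
  refine ⟨C, hC, fun δ h u hδ hδ2 hh hh1 => ?_⟩
  obtain ⟨hI, hS⟩ := u_inv hRH δ h u hδ hδ2 hh hh1
  have hX0 : 0 ≤ Real.log (1 / δ) := by
    refine Real.log_nonneg ?_
    rw [le_div_iff₀ hδ]
    linarith
  set Bq : ℝ := C * (1 + Real.log (1 / δ)) with hBq
  have hB0 : 0 < Bq := by positivity
  set R : ℝ := Real.exp (Bq * Real.log (3 / h) + 2 * Bq ^ 2) with hR
  have hpt : ∀ y : ℝ, ‖GG h u (⟨1 / 2 + δ, y⟩ : ℂ)‖ ≤
      2 * Real.exp (1 / 2) * Real.exp ((1 / 2 + δ) * u) * R * Real.exp (-(3 / 8 * h ^ 2) * y ^ 2) := by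
    intro y
    have h1 := hz δ y hδ hδ2
    have hnorm : 1 / 2 ≤ ‖(⟨1 / 2 + δ, y⟩ : ℂ)‖ := by
      have := Complex.abs_re_le_norm (⟨1 / 2 + δ, y⟩ : ℂ)
      simp only at this
      have h2 := le_abs_self (1 / 2 + δ)
      linarith
    have hni : ‖(⟨1 / 2 + δ, y⟩ : ℂ)‖⁻¹ ≤ 2 := by
      rw [inv_le_comm₀ (by linarith) two_pos]
      linarith
    have h2 : ‖(riemannZeta (⟨1 / 2 + δ, y⟩ : ℂ))⁻¹‖ ≤ R * Real.exp (h ^ 2 * y ^ 2 / 8) := by
      refine h1.trans ?_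
      rw [hR, ← Real.exp_add]
      refine Real.exp_le_exp.2 ?_
      have h3 := ell_le hh hh1 y
      have h4 := mul_le_mul_of_nonneg_left h3 hB0.le
      have h5 : Bq * (h * |y|) ≤ h ^ 2 * y ^ 2 / 8 + 2 * Bq ^ 2 := by
        rw [← sq_abs y]
        nlinarith [sq_nonneg (h * |y| - 4 * Bq)]
      nlinarith
    unfold GG
    rw [norm_div, norm_mul, Pool.Agent.W892.WM.EE_norm, div_eq_mul_inv, mul_inv, ← norm_inv (riemannZeta _)]
    have hexp : h ^ 2 / 2 * ((1 / 2 + δ) ^ 2 - y ^ 2) + u * (1 / 2 + δ) ≤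
        1 / 2 + (1 / 2 + δ) * u + -(h ^ 2 * y ^ 2 / 2) := by
      have hh2 : h ^ 2 ≤ 1 := by nlinarith
      have hh3 : 0 < h ^ 2 := pow_pos hh 2
      have hd2 : (1 / 2 + δ) ^ 2 ≤ 1 := by nlinarith
      nlinarith
    calc Real.exp (h ^ 2 / 2 * ((1 / 2 + δ) ^ 2 - y ^ 2) + u * (1 / 2 + δ)) *
          (‖(⟨1 / 2 + δ, y⟩ : ℂ)‖⁻¹ * ‖(riemannZeta (⟨1 / 2 + δ, y⟩ : ℂ))⁻¹‖)
        ≤ Real.exp (1 / 2 + (1 / 2 + δ) * u + -(h ^ 2 * y ^ 2 / 2)) *
          (2 * (R * Real.exp (h ^ 2 * y ^ 2 / 8))) := by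
          refine mul_le_mul (Real.exp_le_exp.2 hexp) ?_ (by positivity) (Real.exp_pos _).le
          exact mul_le_mul hni h2 (norm_nonneg _) two_pos.le
      _ = 2 * Real.exp (1 / 2) * Real.exp ((1 / 2 + δ) * u) * R *
          (Real.exp (-(h ^ 2 * y ^ 2 / 2)) * Real.exp (h ^ 2 * y ^ 2 / 8)) := by
          rw [Real.exp_add, Real.exp_add]; ring
      _ = _ := by
          rw [← Real.exp_add]
          congr 2
          ring
  have hgi : Integrable (fun y : ℝ => 2 * Real.exp (1 / 2) * Real.exp ((1 / 2 + δ) * u) * R *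
      Real.exp (-(3 / 8 * h ^ 2) * y ^ 2)) := (integrable_exp_neg_mul_sq (by positivity)).const_mul _
  have h1 : ‖∫ y : ℝ, GG h u (⟨1 / 2 + δ, y⟩ : ℂ)‖ ≤
      2 * Real.exp (1 / 2) * Real.exp ((1 / 2 + δ) * u) * R * (3 / h) := by
    refine (norm_integral_le_of_norm_le hgi (ae_of_all _ hpt)).trans ?_
    rw [integral_const_mul, integral_gaussian]
    refine mul_le_mul_of_nonneg_left ?_ (by positivity)
    have hp := Real.pi_lt_d2
    rw [Real.sqrt_le_left (by positivity)]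
    have e1 : Real.pi / (3 / 8 * h ^ 2) = (8 * Real.pi / 3) / h ^ 2 := by field_simp
    rw [e1, div_pow]
    refine div_le_div_of_nonneg_right ?_ (by positivity)
    linarith
  have h2 : |Sm h u| = (2 * Real.pi)⁻¹ * ‖∫ y : ℝ, GG h u (⟨1 / 2 + δ, y⟩ : ℂ)‖ := by
    have e1 : |Sm h u| = ‖((Sm h u : ℝ) : ℂ)‖ := by rw [Complex.norm_real, Real.norm_eq_abs]
    rw [e1, hS, norm_mul, norm_inv, Complex.norm_real, Real.norm_eq_abs, abs_of_pos (by
      have := Real.pi_pos; positivity)]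
  rw [h2]
  have hp := Real.pi_gt_three
  have he : Real.exp (1 / 2) ≤ 2 := by
    have h5 : Real.exp (1 / 2) ^ 2 = Real.exp 1 := by
      rw [← Real.exp_nat_mul]; norm_num
    have h6 := Real.exp_one_lt_d9
    nlinarith [Real.exp_pos (1 / 2 : ℝ)]
  calc (2 * Real.pi)⁻¹ * ‖∫ y : ℝ, GG h u (⟨1 / 2 + δ, y⟩ : ℂ)‖ ≤
        (2 * Real.pi)⁻¹ * (2 * Real.exp (1 / 2) * Real.exp ((1 / 2 + δ) * u) * R * (3 / h)) :=
        mul_le_mul_of_nonneg_left h1 (by positivity)
    _ = (3 * Real.exp (1 / 2) / Real.pi) * (Real.exp ((1 / 2 + δ) * u) * R / h) := by field_simp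
    _ ≤ 2 * (Real.exp ((1 / 2 + δ) * u) * R / h) := by
        refine mul_le_mul_of_nonneg_right ?_ (by positivity)
        rw [div_le_iff₀ (by linarith)]
        nlinarith
    _ = _ := by ring

theorem sm_bound (hRH : RHp) : ∃ C : ℝ, ∀ᶠ t in atTop, ∀ v : ℝ,
    |Sf mm (hw t) (t - v)| ≤ Real.exp (t / 2) * Real.exp |v| * Real.exp (C * (Real.log t) ^ 2) := by
  obtain ⟨C, hC, hb⟩ := sm_bound0 hRH
  refine ⟨5 + 8 * C + 8 * C ^ 2, ?_⟩
  filter_upwards [eventually_ge_atTop (3:ℝ)] with t ht v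
  have ht0 : 0 < t := by linarith
  have hδ : 1 / t < 1 / 2 := one_div_lt_one_div_of_lt (by norm_num) (by linarith)
  have h1 := hb (1 / t) (hw t) (t - v) (by positivity) hδ (hw_pos ht0) (hw_le (by linarith))
  rw [Sf_mm]
  refine h1.trans ?_
  have hinv : 1 / (1 / t) = t := by field_simp
  rw [hinv]
  set l := Real.log t with hl
  have hl1 : 1 ≤ l := by
    rw [hl, Real.le_log_iff_exp_le ht0]
    have := Real.exp_one_lt_d9
    linarith
  have hs1 : Real.sqrt t ≤ t := by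
    rw [Real.sqrt_le_left ht0.le]
    nlinarith
  have e1 : 2 / hw t ≤ Real.exp (4 * l ^ 2) := by
    unfold hw
    rw [div_inv_eq_mul]
    have h3 : (8:ℝ) ≤ Real.exp 3 := by
      have h6 := Real.exp_one_gt_d9
      have h5 : Real.exp 3 = Real.exp 1 ^ 3 := by rw [← Real.exp_nat_mul]; norm_num
      rw [h5]
      calc (8:ℝ) ≤ 2.7182818283 ^ 3 := by norm_num
        _ ≤ _ := pow_le_pow_left₀ (by norm_num) h6.le 3
    calc 2 * (4 * Real.sqrt t) ≤ Real.exp 3 * t := by nlinarith [Real.sqrt_nonneg t]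
      _ = Real.exp (3 + l) := by rw [Real.exp_add, hl, Real.exp_log ht0]
      _ ≤ _ := Real.exp_le_exp.2 (by nlinarith)
  have e2 : Real.log (3 / hw t) ≤ 4 * l := by
    unfold hw
    rw [div_inv_eq_mul]
    have h3 : (12:ℝ) ≤ Real.exp 3 := by
      have h6 := Real.exp_one_gt_d9
      have h5 : Real.exp 3 = Real.exp 1 ^ 3 := by rw [← Real.exp_nat_mul]; norm_num
      rw [h5]
      calc (12:ℝ) ≤ 2.7182818283 ^ 3 := by norm_num
        _ ≤ _ := pow_le_pow_left₀ (by norm_num) h6.le 3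
    have h4 : 3 * (4 * Real.sqrt t) ≤ Real.exp (3 + l) := by
      calc 3 * (4 * Real.sqrt t) ≤ Real.exp 3 * t := by nlinarith [Real.sqrt_nonneg t]
        _ = Real.exp (3 + l) := by rw [Real.exp_add, hl, Real.exp_log ht0]
    have hs0 : 0 < Real.sqrt t := Real.sqrt_pos.2 ht0
    have h5 := Real.log_le_log (by positivity) h4
    rw [Real.log_exp] at h5
    linarith
  have e3 : Real.exp ((1 / 2 + 1 / t) * (t - v)) ≤ Real.exp (l ^ 2) * (Real.exp (t / 2) * Real.exp |v|) := by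
    rw [← Real.exp_add, ← Real.exp_add]
    refine Real.exp_le_exp.2 ?_
    have h3 : (1 / 2 + 1 / t) * (t - v) = t / 2 + 1 - (1 / 2 + 1 / t) * v := by
      have : 1 / t * t = 1 := by field_simp
      linear_combination this
    rw [h3]
    have h4 : -((1 / 2 + 1 / t) * v) ≤ |v| := by
      have h5 : |(1 / 2 + 1 / t) * v| ≤ 1 * |v| := by
        rw [abs_mul, abs_of_pos (by positivity)]
        exact mul_le_mul_of_nonneg_right (by linarith) (abs_nonneg _)
      have := neg_abs_le ((1 / 2 + 1 / t) * v)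
      linarith
    nlinarith
  have e4 : C * (1 + l) * Real.log (3 / hw t) + 2 * (C * (1 + l)) ^ 2 ≤ (8 * C + 8 * C ^ 2) * l ^ 2 := by
    have h3 : C * (1 + l) ≤ 2 * C * l := by nlinarith
    have h4 : 0 ≤ C * (1 + l) := by positivity
    have h5 : C * (1 + l) * Real.log (3 / hw t) ≤ 2 * C * l * (4 * l) := by
      calc C * (1 + l) * Real.log (3 / hw t) ≤ C * (1 + l) * (4 * l) := mul_le_mul_of_nonneg_left e2 h4
        _ ≤ _ := mul_le_mul_of_nonneg_right h3 (by linarith)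
    have h6 : (C * (1 + l)) ^ 2 ≤ (2 * C * l) ^ 2 := pow_le_pow_left₀ h4 h3 2
    nlinarith
  calc 2 / hw t * Real.exp ((1 / 2 + 1 / t) * (t - v)) *
        Real.exp (C * (1 + l) * Real.log (3 / hw t) + 2 * (C * (1 + l)) ^ 2)
      ≤ Real.exp (4 * l ^ 2) * (Real.exp (l ^ 2) * (Real.exp (t / 2) * Real.exp |v|)) *
        Real.exp ((8 * C + 8 * C ^ 2) * l ^ 2) := by
        refine mul_le_mul ?_ (Real.exp_le_exp.2 e4) (Real.exp_pos _).le (by positivity)
        exact mul_le_mul e1 e3 (Real.exp_pos _).le (Real.exp_pos _).le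
    _ = Real.exp (t / 2) * Real.exp |v| * (Real.exp (4 * l ^ 2) * Real.exp (l ^ 2) *
        Real.exp ((8 * C + 8 * C ^ 2) * l ^ 2)) := by ring
    _ = _ := by
        congr 1
        rw [← Real.exp_add, ← Real.exp_add]
        congr 1
        ring

end Pool.Agent.V5helper60.MW
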