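import Pool.Agent.V5helper60.MW.Mean

/-!
# One-sided bounds and means, III: short windows
-/

set_option autoImplicit false
set_option maxHeartbeats 4000000

open MeasureTheory Filter Topology Set

namespace Pool.Agent.V5helper60.MW

open Pool.Agent.W120.WM (gk)
open H313.TK

noncomputable section

theorem kp_far {b v : ℝ} (hb : 0 ≤ b) (hv : b ≤ |v|) :
    kp v ≤ 4 * C0 * (Real.exp (4 * b) * W (-b)) * Real.exp (-(3 * |v|)) := by
  have hC0 := C0_nonneg
  have hWb := W_pos (-b)
  refine (kp_bounds v).2.trans ?_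
  have key : W v ≤ 4 * (Real.exp (4 * b) * W (-b)) * Real.exp (-(3 * |v|)) := by
    rcases le_total 0 v with h | h
    · rw [abs_of_nonneg h] at hv ⊢
      have h1 := W_dom b v (Or.inr ⟨hb, hv⟩)
      rw [abs_of_nonpos (by linarith : b - v ≤ 0), W_sym b hb] at h1
      have e1 : Real.exp (2 * -(b - v)) * Real.exp (-(2 * -(b - v))) = 1 := by
        rw [← Real.exp_add, add_neg_cancel, Real.exp_zero]
      have h2 := mul_le_mul_of_nonneg_right h1 (Real.exp_pos (-(2 * -(b - v)))).le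
      rw [mul_assoc, e1, mul_one] at h2
      refine h2.trans (le_of_eq ?_)
      have e2 : Real.exp b * Real.exp (- -(b - v)) * Real.exp (-(2 * -(b - v))) = Real.exp (4 * b) * Real.exp (-(3 * v)) := by
        rw [← Real.exp_add, ← Real.exp_add, ← Real.exp_add]
        congr 1
        ring
      calc 4 * (Real.exp b * W (-b)) * Real.exp (- -(b - v)) * Real.exp (-(2 * -(b - v))) =
            4 * W (-b) * (Real.exp b * Real.exp (- -(b - v)) * Real.exp (-(2 * -(b - v)))) := by ring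
        _ = _ := by rw [e2]; ring
    · rw [abs_of_nonpos h] at hv ⊢
      have h1 := W_dom (-b) v (Or.inl ⟨by linarith, by linarith⟩)
      rw [abs_of_nonneg (by linarith : 0 ≤ -b - v)] at h1
      have e1 : Real.exp (2 * (-b - v)) * Real.exp (-(2 * (-b - v))) = 1 := by
        rw [← Real.exp_add, add_neg_cancel, Real.exp_zero]
      have h2 := mul_le_mul_of_nonneg_right h1 (Real.exp_pos (-(2 * (-b - v)))).le
      rw [mul_assoc, e1, mul_one] at h2
      refine h2.trans ?_
      have e2 : Real.exp (-(-b - v)) * Real.exp (-(2 * (-b - v))) = Real.exp (3 * b) * Real.exp (-(3 * -v)) := by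
        rw [← Real.exp_add, ← Real.exp_add]
        congr 1
        ring
      have e3 : Real.exp (3 * b) ≤ Real.exp (4 * b) := Real.exp_le_exp.2 (by linarith)
      calc 4 * W (-b) * Real.exp (-(-b - v)) * Real.exp (-(2 * (-b - v))) =
            4 * W (-b) * (Real.exp (-(-b - v)) * Real.exp (-(2 * (-b - v)))) := by ring
        _ = 4 * (Real.exp (3 * b) * W (-b)) * Real.exp (-(3 * -v)) := by rw [e2]; ring
        _ ≤ _ := by gcongr
  calc C0 * W v ≤ C0 * (4 * (Real.exp (4 * b) * W (-b)) * Real.exp (-(3 * |v|))) := mul_le_mul_of_nonneg_left key hC0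
    _ = _ := by ring

theorem XW2 (b : ℝ) (hb : 0 ≤ b) : Real.exp (4 * b) * W (-b) ≤ 32 * Real.exp (-(Real.exp (2 * b) / 2)) := by
  unfold W
  rw [max_eq_right (by linarith), abs_neg, abs_of_nonneg hb]
  have e4 : Real.exp (4 * b) = Real.exp (2 * b) ^ 2 := by rw [← Real.exp_nat_mul]; congr 1; push_cast; ring
  rw [e4]
  set X := Real.exp (2 * b) with hX
  have hX0 : 0 < X := Real.exp_pos _
  have h1 : X ^ 2 ≤ 32 * Real.exp (X / 4) := by
    have := Real.quadratic_le_exp_of_nonneg (show 0 ≤ X / 4 by positivity)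
    nlinarith
  have hp := Real.pi_gt_three
  calc X ^ 2 * Real.exp (0 - Real.pi / 4 * X) ≤ (32 * Real.exp (X / 4)) * Real.exp (-(3 / 4 * X)) := by
        refine mul_le_mul h1 (Real.exp_le_exp.2 ?_) (Real.exp_pos _).le (by positivity)
        nlinarith
    _ = 32 * (Real.exp (X / 4) * Real.exp (-(3 / 4 * X))) := by ring
    _ = _ := by rw [← Real.exp_add]; congr 2; ring

theorem piece {f : ℝ → ℝ} {B : ℝ} (hf : MB f B) (hf0 : ∀ u, 0 ≤ f u) {x a q y : ℝ}
    (ha : ∀ v ∈ Icc a (a + 1), q ≤ |v|) (hy : y - 1 ≤ x - a - 1 ∧ x - a ≤ y + 1) :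
    ∫ v in a..(a + 1), f (x - v) * Real.exp (-(3 * |v|)) ≤ Real.exp (-(3 * q)) * ∫ u in Icc (y - 1) (y + 1), f u := by
  have i0 : IntervalIntegrable (fun v => f (x - v)) volume a (a + 1) := by
    rw [intervalIntegrable_iff_integrableOn_Icc_of_le (by linarith)]
    exact hf.loc' x a (a + 1)
  have i1 : IntervalIntegrable (fun v => f (x - v) * Real.exp (-(3 * |v|))) volume a (a + 1) :=
    i0.mul_continuousOn (by fun_prop : Continuous fun v : ℝ => Real.exp (-(3 * |v|))).continuousOn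
  have h1 : ∫ v in a..(a + 1), f (x - v) * Real.exp (-(3 * |v|)) ≤ ∫ v in a..(a + 1), Real.exp (-(3 * q)) * f (x - v) := by
    refine intervalIntegral.integral_mono_on (by linarith) i1 (i0.const_mul _) fun v hv => ?_
    rw [mul_comm]
    refine mul_le_mul_of_nonneg_right (Real.exp_le_exp.2 ?_) (hf0 _)
    have := ha v hv
    linarith
  refine h1.trans ?_
  rw [intervalIntegral.integral_const_mul, intervalIntegral.integral_comp_sub_left (fun u => f u) x]
  refine mul_le_mul_of_nonneg_left ?_ (Real.exp_pos _).le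
  rw [intervalIntegral.integral_of_le (by linarith), ← integral_Icc_eq_integral_Ioc]
  refine setIntegral_mono_set (hf.loc _ _) (ae_of_all _ fun u => hf0 u) (Eventually.of_forall ?_)
  exact Icc_subset_Icc (by linarith [hy.1]) (by linarith [hy.2])

theorem unif {f : ℝ → ℝ} {B : ℝ} (hf : MB f B) (hf0 : ∀ u, 0 ≤ f u) {x Λ : ℝ} (hΛ : 0 ≤ Λ) (N : ℕ)
    (hb : ∀ y ∈ Icc (x - N - 1) (x + N + 1), ∫ u in Icc (y - 1) (y + 1), f u ≤ Λ * Real.exp (y / 2)) :
    ∫ v in Icc (-(N:ℝ)) N, f (x - v) * Real.exp (-(3 * |v|)) ≤ 8 * Λ * Real.exp (x / 2) := by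
  have ii : ∀ a b : ℝ, IntervalIntegrable (fun v => f (x - v) * Real.exp (-(3 * |v|))) volume a b := by
    intro a b
    have i0 : IntervalIntegrable (fun v => f (x - v)) volume a b := by
      rw [intervalIntegrable_iff]
      exact (hf.loc' x (min a b) (max a b)).mono_set Ioc_subset_Icc_self
    exact i0.mul_continuousOn (by fun_prop : Continuous fun v : ℝ => Real.exp (-(3 * |v|))).continuousOn
  set E := Real.exp (x / 2) with hE
  have hE0 : 0 < E := Real.exp_pos _
  have key : ∀ n : ℕ, n ≤ N → ∫ v in (-(n:ℝ))..n, f (x - v) * Real.exp (-(3 * |v|)) ≤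
      Λ * E * (8 - 8 * Real.exp (-(n:ℝ))) := by
    intro n
    induction n with
    | zero =>
      intro _
      simp
    | succ n ih =>
      intro hn
      have hn' : (n : ℝ) + 1 ≤ N := by exact_mod_cast hn
      have hn0 : (0:ℝ) ≤ n := Nat.cast_nonneg n
      have ih := ih (by omega)
      have h1 := intervalIntegral.integral_add_adjacent_intervals (ii (-((n:ℝ) + 1)) (-(n:ℝ))) (ii (-(n:ℝ)) n)
      have h2 := intervalIntegral.integral_add_adjacent_intervals (ii (-((n:ℝ) + 1)) n) (ii n ((n:ℝ) + 1))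
      have p1 := piece hf hf0 (x := x) (a := (n:ℝ)) (q := n) (y := x - n - 1 / 2) (fun v hv => by
        rw [abs_of_nonneg (by linarith [hv.1])]; exact hv.1) ⟨by linarith, by linarith⟩
      have p2 := piece hf hf0 (x := x) (a := -((n:ℝ) + 1)) (q := n) (y := x + n + 1 / 2) (fun v hv => by
        rw [abs_of_nonpos (by linarith [hv.2])]; linarith [hv.2]) ⟨by linarith, by linarith⟩
      have e1 : -((n:ℝ) + 1) + 1 = -(n:ℝ) := by ring
      rw [e1] at p2
      have b1 := hb (x - n - 1 / 2) ⟨by linarith, by linarith⟩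
      have b2 := hb (x + n + 1 / 2) ⟨by linarith, by linarith⟩
      have c1 : Real.exp ((x - n - 1 / 2) / 2) ≤ E * Real.exp ((n + 1) / 2) := by
        rw [hE, ← Real.exp_add]
        exact Real.exp_le_exp.2 (by linarith)
      have c2 : Real.exp ((x + n + 1 / 2) / 2) ≤ E * Real.exp ((n + 1) / 2) := by
        rw [hE, ← Real.exp_add]
        exact Real.exp_le_exp.2 (by linarith)
      have d1 : Real.exp (-(3 * (n:ℝ))) * ∫ u in Icc (x - n - 1 / 2 - 1) (x - n - 1 / 2 + 1), f u ≤
          Real.exp (-(3 * (n:ℝ))) * (Λ * (E * Real.exp ((n + 1) / 2))) :=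
        mul_le_mul_of_nonneg_left (b1.trans (mul_le_mul_of_nonneg_left c1 hΛ)) (Real.exp_pos _).le
      have d2 : Real.exp (-(3 * (n:ℝ))) * ∫ u in Icc (x + n + 1 / 2 - 1) (x + n + 1 / 2 + 1), f u ≤
          Real.exp (-(3 * (n:ℝ))) * (Λ * (E * Real.exp ((n + 1) / 2))) :=
        mul_le_mul_of_nonneg_left (b2.trans (mul_le_mul_of_nonneg_left c2 hΛ)) (Real.exp_pos _).le
      -- numerical inequality
      have g1 : Real.exp (-(3 * (n:ℝ))) * Real.exp ((n + 1) / 2) ≤ Real.exp (-(n:ℝ)) * Real.exp (1 / 2) := by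
        rw [← Real.exp_add, ← Real.exp_add]
        exact Real.exp_le_exp.2 (by linarith)
      have g2 : Real.exp (1 / 2) ≤ 2 := by
        have h3 : Real.exp (1 / 2) ^ 2 = Real.exp 1 := by rw [← Real.exp_nat_mul]; norm_num
        have h4 := Real.exp_one_lt_d9
        have h5 := Real.exp_pos (1 / 2)
        nlinarith
      have g3 : Real.exp (-((n:ℝ) + 1)) ≤ Real.exp (-(n:ℝ)) / 2 := by
        have h3 : Real.exp (-((n:ℝ) + 1)) = Real.exp (-(n:ℝ)) * Real.exp (-1) := by
          rw [← Real.exp_add]; congr 1; ring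
        have h4 : Real.exp (-1) ≤ 1 / 2 := by
          have h5 : Real.exp (-1) = (Real.exp 1)⁻¹ := Real.exp_neg 1
          rw [h5, inv_le_comm₀ (Real.exp_pos 1) (by norm_num)]
          have := Real.exp_one_gt_d9
          norm_num
          linarith
        rw [h3]
        have := Real.exp_pos (-(n:ℝ))
        nlinarith
      have hn1 := Real.exp_pos (-(n:ℝ))
      have g4 : 2 * (Real.exp (-(3 * (n:ℝ))) * Real.exp ((n + 1) / 2)) ≤ 8 * Real.exp (-(n:ℝ)) - 8 * Real.exp (-((n:ℝ) + 1)) := by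
        nlinarith
      have hΛE : 0 ≤ Λ * E := by positivity
      have g5 := mul_le_mul_of_nonneg_left g4 hΛE
      push_cast
      rw [← h2, ← h1]
      nlinarith
  have h3 := key N le_rfl
  rw [integral_Icc_eq_integral_Ioc, ← intervalIntegral.integral_of_le (by have : (0:ℝ) ≤ N := Nat.cast_nonneg N; linarith)]
  refine h3.trans ?_
  have := Real.exp_pos (-(N:ℝ))
  have hΛE : 0 ≤ Λ * E := by positivity
  nlinarith

theorem int_box3 {f : ℝ → ℝ} {B : ℝ} (hf : MB f B) {h : ℝ} (hh : 0 < h) (t a c : ℝ) :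
    Integrable (fun p : ℝ × ℝ => f (t - p.1 - p.2) * gk h p.2 * Real.exp (-(3 * |p.1|)))
      ((volume.restrict (Icc (-a) a)).prod (volume.restrict (Icc (-c) c))) := by
  rw [Measure.prod_restrict]
  have hB := hf.nonneg
  have hg := gk_cont h
  refine Integrable.mono' (g := fun p : ℝ × ℝ => B * (Real.exp (t / 2) + Real.exp t) * Real.exp |p.1| * Real.exp |p.2| *
    gk h p.2 * Real.exp (-(3 * |p.1|))) ?_ ?_ (ae_of_all _ fun p => ?_)
  · exact (by fun_prop : Continuous fun p : ℝ × ℝ => B * (Real.exp (t / 2) + Real.exp t) * Real.exp |p.1| *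
      Real.exp |p.2| * gk h p.2 * Real.exp (-(3 * |p.1|))).continuousOn.integrableOn_compact
      (isCompact_Icc.prod isCompact_Icc)
  · have h2 := hf.meas
    have h3 := hg.measurable
    exact (by fun_prop : Measurable fun p : ℝ × ℝ =>
      f (t - p.1 - p.2) * gk h p.2 * Real.exp (-(3 * |p.1|))).aestronglyMeasurable
  · have h5 := gk_pos hh p.2
    rw [Real.norm_eq_abs, abs_mul, abs_mul, abs_of_pos h5, abs_of_pos (Real.exp_pos _)]
    have := hf.bd2 t p.1 p.2
    gcongr

/-- the shell -/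
theorem shell {f : ℝ → ℝ} {B : ℝ} (hf : MB f B) (hf0 : ∀ u, 0 ≤ f u) {t Λ b : ℝ} (ht : 1 ≤ t) (hΛ : 0 ≤ Λ) (hb0 : 0 ≤ b)
    (N : ℕ) (hbN : b ≤ N)
    (hb : ∀ y ∈ Icc (t - N - 2) (t + N + 2), ∫ u in Icc (y - 1) (y + 1), f u ≤ Λ * Real.exp (y / 2)) :
    box f (hw t) t N ≤ box f (hw t) t b +
      4 * C0 * (Real.exp (4 * b) * W (-b)) * (16 * Λ * Real.exp (t / 2)) := by
  have ht0 : 0 < t := by linarith
  have hh0 := hw_pos ht0
  have hh1 := hw_le ht
  have hC0 := C0_nonneg
  have hWb := W_pos (-b)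
  unfold box
  set h := hw t with hh
  set η : ℝ := 4 * C0 * (Real.exp (4 * b) * W (-b)) with hη
  have hη0 : 0 ≤ η := by positivity
  have i1 := int_inner hf hh0 hh1 t (Icc (-(N:ℝ)) N) (Icc (-1) 1)
  have hsub : Icc (-b) b ⊆ Icc (-(N:ℝ)) N := Icc_subset_Icc (by linarith) hbN
  have hsplit : ∫ v in Icc (-(N:ℝ)) N, (∫ w in Icc (-1) 1, f (t - v - w) * gk h w) * kp v =
      (∫ v in Icc (-b) b, (∫ w in Icc (-1) 1, f (t - v - w) * gk h w) * kp v) +
      ∫ v in Icc (-(N:ℝ)) N \ Icc (-b) b, (∫ w in Icc (-1) 1, f (t - v - w) * gk h w) * kp v := by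
    rw [← setIntegral_union disjoint_sdiff_right (measurableSet_Icc.diff measurableSet_Icc) (i1.mono_set hsub)
      (i1.mono_set sdiff_subset), union_sdiff_cancel hsub]
  rw [hsplit]
  refine add_le_add le_rfl ?_
  have key := int_box3 hf hh0 t N 1
  have i2 : IntegrableOn (fun v : ℝ => (∫ w in Icc (-1) 1, f (t - v - w) * gk h w) * Real.exp (-(3 * |v|)))
      (Icc (-(N:ℝ)) N) := by
    have k := key.integral_prod_left
    refine k.congr (ae_of_all _ fun v => ?_)
    simp only
    rw [integral_mul_const]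
  have q1 : ∫ v in Icc (-(N:ℝ)) N \ Icc (-b) b, (∫ w in Icc (-1) 1, f (t - v - w) * gk h w) * kp v ≤
      ∫ v in Icc (-(N:ℝ)) N \ Icc (-b) b, η * ((∫ w in Icc (-1) 1, f (t - v - w) * gk h w) * Real.exp (-(3 * |v|))) := by
    refine setIntegral_mono_on (i1.mono_set sdiff_subset) ((i2.mono_set sdiff_subset).const_mul _)
      (measurableSet_Icc.diff measurableSet_Icc) fun v hv => ?_
    have hv2 : b ≤ |v| := by
      by_contra h8
      push Not at h8
      rw [abs_lt] at h8
      exact hv.2 ⟨h8.1.le, h8.2.le⟩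
    have q2 := kp_far hb0 hv2
    have q3 : 0 ≤ ∫ w in Icc (-1) 1, f (t - v - w) * gk h w :=
      integral_nonneg fun w => mul_nonneg (hf0 _) (gk_pos hh0 w).le
    calc (∫ w in Icc (-1) 1, f (t - v - w) * gk h w) * kp v ≤
          (∫ w in Icc (-1) 1, f (t - v - w) * gk h w) * (η * Real.exp (-(3 * |v|))) := mul_le_mul_of_nonneg_left q2 q3
      _ = _ := by ring
  have q2 : ∫ v in Icc (-(N:ℝ)) N \ Icc (-b) b, η * ((∫ w in Icc (-1) 1, f (t - v - w) * gk h w) * Real.exp (-(3 * |v|))) ≤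
      ∫ v in Icc (-(N:ℝ)) N, η * ((∫ w in Icc (-1) 1, f (t - v - w) * gk h w) * Real.exp (-(3 * |v|))) := by
    refine setIntegral_mono_set (i2.const_mul _) (ae_of_all _ fun v => ?_) (Eventually.of_forall sdiff_subset)
    have q3 : 0 ≤ ∫ w in Icc (-1) 1, f (t - v - w) * gk h w :=
      integral_nonneg fun w => mul_nonneg (hf0 _) (gk_pos hh0 w).le
    show 0 ≤ η * ((∫ w in Icc (-1) 1, f (t - v - w) * gk h w) * Real.exp (-(3 * |v|)))
    positivity
  refine (q1.trans q2).trans ?_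
  rw [integral_const_mul]
  refine mul_le_mul_of_nonneg_left ?_ hη0
  have swap := integral_integral_swap (μ := volume.restrict (Icc (-(N:ℝ)) N)) (ν := volume.restrict (Icc (-1:ℝ) 1))
    (f := fun (v w : ℝ) => f (t - v - w) * gk h w * Real.exp (-(3 * |v|))) key
  have e1 : ∫ v in Icc (-(N:ℝ)) N, (∫ w in Icc (-1:ℝ) 1, f (t - v - w) * gk h w) * Real.exp (-(3 * |v|)) =
      ∫ w in Icc (-1:ℝ) 1, ∫ v in Icc (-(N:ℝ)) N, f (t - v - w) * gk h w * Real.exp (-(3 * |v|)) := by
    rw [← swap]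
    refine integral_congr_ae (ae_of_all _ fun v => ?_)
    simp only
    rw [integral_mul_const]
  rw [e1]
  have hin : ∀ w ∈ Icc (-1:ℝ) 1, ∫ v in Icc (-(N:ℝ)) N, f (t - v - w) * gk h w * Real.exp (-(3 * |v|)) ≤
      (16 * Λ * Real.exp (t / 2)) * gk h w := by
    intro w hw
    have q3 := unif hf hf0 (x := t - w) hΛ N (fun y hy => hb y ⟨by linarith [hy.1, hw.2], by linarith [hy.2, hw.1]⟩)
    have e2 : ∫ v in Icc (-(N:ℝ)) N, f (t - v - w) * gk h w * Real.exp (-(3 * |v|)) =
        gk h w * ∫ v in Icc (-(N:ℝ)) N, f (t - w - v) * Real.exp (-(3 * |v|)) := by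
      rw [← integral_const_mul]
      refine integral_congr_ae (ae_of_all _ fun v => ?_)
      simp only
      rw [show t - v - w = t - w - v by ring]
      ring
    rw [e2, mul_comm]
    refine mul_le_mul_of_nonneg_right ?_ (gk_pos hh0 w).le
    refine q3.trans ?_
    have q4 : Real.exp ((t - w) / 2) ≤ 2 * Real.exp (t / 2) := by
      have q5 : Real.exp ((t - w) / 2) ≤ Real.exp (1 / 2) * Real.exp (t / 2) := by
        rw [← Real.exp_add]
        exact Real.exp_le_exp.2 (by linarith [hw.1])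
      have g2 : Real.exp (1 / 2) ≤ 2 := by
        have h3 : Real.exp (1 / 2) ^ 2 = Real.exp 1 := by rw [← Real.exp_nat_mul]; norm_num
        have h4 := Real.exp_one_lt_d9
        have h5 := Real.exp_pos (1 / 2)
        nlinarith
      exact q5.trans (mul_le_mul_of_nonneg_right g2 (Real.exp_pos _).le)
    calc 8 * Λ * Real.exp ((t - w) / 2) ≤ 8 * Λ * (2 * Real.exp (t / 2)) := mul_le_mul_of_nonneg_left q4 (by positivity)
      _ = _ := by ring
  have q5 : ∫ w in Icc (-1:ℝ) 1, ∫ v in Icc (-(N:ℝ)) N, f (t - v - w) * gk h w * Real.exp (-(3 * |v|)) ≤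
      ∫ w in Icc (-1:ℝ) 1, (16 * Λ * Real.exp (t / 2)) * gk h w :=
    setIntegral_mono_on key.integral_prod_right ((gk_int hh0).const_mul _).integrableOn measurableSet_Icc hin
  refine q5.trans ?_
  rw [integral_const_mul]
  have q6 : ∫ w in Icc (-1:ℝ) 1, gk h w ≤ 1 := by
    rw [← gk_mass hh0]
    exact setIntegral_le_integral (gk_int hh0) (ae_of_all _ fun w => (gk_pos hh0 w).le)
  calc 16 * Λ * Real.exp (t / 2) * ∫ w in Icc (-1:ℝ) 1, gk h w ≤ 16 * Λ * Real.exp (t / 2) * 1 :=
        mul_le_mul_of_nonneg_left q6 (by positivity)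
    _ = _ := mul_one _

end

end Pool.Agent.V5helper60.MW
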