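import Pool.Agent.V5helper60.MW.Short

/-!
# One-sided bounds and means, IV: both signs in short windows
-/

set_option autoImplicit false
set_option maxHeartbeats 4000000

open MeasureTheory Filter Topology Set

namespace Pool.Agent.V5helper60.MW

open Pool.Agent.W120.WM (gk)
open H313.TK

noncomputable section

/-- the logarithmic radius of the hypothesis window -/
def rad (D t : ℝ) : ℝ := Real.log (D * (Real.log t) ^ 2)

theorem meanprop_mono {m : ℝ → ℝ} {t a b A s : ℝ} (hab : a ≤ b)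
    (h : ∀ u ∈ Icc (t - b) (t + b), s * m u ≤ A * Real.exp (u / 2)) :
    ∀ u ∈ Icc (t - a) (t + a), s * m u ≤ A * Real.exp (u / 2) :=
  fun u hu => h u ⟨by linarith [hu.1], by linarith [hu.2]⟩

theorem loc_w {m : ℝ → ℝ} {B : ℝ} (hm : MB m B) {s : ℝ} (hs : s = 1 ∨ s = -1) (x y : ℝ) :
    IntegrableOn (fun u => max (s * m u) 0 * Real.exp (-(u / 2))) (Icc x y) := by
  have h1 := (hm.pos hs).loc x y
  exact h1.mul_continuousOn (by fun_prop : Continuous fun u : ℝ => Real.exp (-(u / 2))).continuousOn isCompact_Icc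

theorem small_fac {Λ c q A b : ℝ} (hΛ : 0 ≤ Λ) (hc : 0 < c) (hA : 0 ≤ A)
    (hq : q = 2 * Λ / (c * Real.log 2)) (hb : (2 * (1 + q)) * Real.log (2 + A) ≤ Real.exp (2 * b)) :
    Λ * A * Real.exp (-(Real.exp (2 * b) / 2)) ≤ c / 2 := by
  have hl2 : 0 < Real.log 2 := Real.log_pos (by norm_num)
  have hq0 : 0 ≤ q := by rw [hq]; positivity
  have h2A : (0:ℝ) < 2 + A := by linarith
  have hlA : Real.log 2 ≤ Real.log (2 + A) := Real.log_le_log (by norm_num) (by linarith)
  have h1 : Real.exp (-(Real.exp (2 * b) / 2)) ≤ Real.exp (-(Real.log (2 + A))) * Real.exp (-(q * Real.log 2)) := by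
    rw [← Real.exp_add]
    refine Real.exp_le_exp.2 ?_
    have := mul_le_mul_of_nonneg_left hlA hq0
    nlinarith
  have h2 : Real.exp (-(Real.log (2 + A))) = (2 + A)⁻¹ := by rw [Real.exp_neg, Real.exp_log h2A]
  have h3 : A * (2 + A)⁻¹ ≤ 1 := by
    rw [← div_eq_mul_inv, div_le_one h2A]
    linarith
  have h4 : q * Real.log 2 = 2 * Λ / c := by
    rw [hq]
    field_simp
  have h5 : Λ * Real.exp (-(q * Real.log 2)) ≤ c / 2 := by
    have h6 : 1 + q * Real.log 2 ≤ Real.exp (q * Real.log 2) := by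
      have := Real.add_one_le_exp (q * Real.log 2)
      linarith
    rw [Real.exp_neg, ← div_eq_mul_inv, div_le_iff₀ (Real.exp_pos _)]
    have h7 : c / 2 * (1 + q * Real.log 2) = c / 2 + Λ := by
      rw [h4]
      field_simp
    have h8 := mul_le_mul_of_nonneg_left h6 (by positivity : 0 ≤ c / 2)
    linarith
  calc Λ * A * Real.exp (-(Real.exp (2 * b) / 2)) ≤
        Λ * A * (Real.exp (-(Real.log (2 + A))) * Real.exp (-(q * Real.log 2))) :=
        mul_le_mul_of_nonneg_left h1 (by positivity)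
    _ = (A * (2 + A)⁻¹) * (Λ * Real.exp (-(q * Real.log 2))) := by rw [h2]; ring
    _ ≤ 1 * (c / 2) := mul_le_mul h3 h5 (by positivity) (by norm_num)
    _ = c / 2 := one_mul _

/-- **One-sided bounds imply mean bounds and both signs in short windows** (logarithmic scale). -/
theorem shortB {m : ℝ → ℝ} {B : ℝ} (hm : MB m B) (hcore : CoreI m (fun _ => 1)) (hbal : BalI m) :
    ∃ c D D' C : ℝ, 0 < c ∧ 0 < D ∧ 0 < D' ∧ 0 < C ∧ ∀ᶠ t in atTop, 0 ≤ rad D t ∧
      ∀ s : ℝ, s = 1 ∨ s = -1 → ∀ A : ℝ, 0 ≤ A →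
      (∀ u ∈ Icc (t - (rad D t + 4)) (t + (rad D t + 4)), s * m u ≤ A * Real.exp (u / 2)) →
      (∫ u in Icc (t - 1) (t + 1), |m u| ≤ C * (A * Real.exp (t / 2))) ∧
      ∀ b : ℝ, 0 ≤ b → D' * Real.log (2 + A) ≤ Real.exp (2 * b) → ∀ s' : ℝ, s' = 1 ∨ s' = -1 →
        (∃ u ∈ Icc (t - b - 1) (t + b + 1), c * Real.exp (u / 2) ≤ s' * m u) ∧
        c ≤ ∫ u in Icc (t - b - 1) (t + b + 1), max (s' * m u) 0 * Real.exp (-(u / 2)) := by
  obtain ⟨C, Dm, hC, hDm, hmean⟩ := meanA hm hcore hbal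
  obtain ⟨c, Dc, hc, hDc, hevc⟩ := hcore
  have hC0 := C0_nonneg
  have hD1 := D1_nonneg
  set D : ℝ := 4 * max Dm Dc with hD
  have hmax : 0 < max Dm Dc := lt_max_of_lt_left hDm
  have hD0 : 0 < D := by positivity
  set Λ : ℝ := 4 * C0 * 32 * 16 * C with hΛ
  have hΛ0 : 0 ≤ Λ := by positivity
  have hl2 : 0 < Real.log 2 := Real.log_pos (by norm_num)
  set q : ℝ := 2 * Λ / (c * Real.log 2) with hq
  have hq0 : 0 ≤ q := by positivity
  set c1 : ℝ := (c / 2) / (168 * C0 * D1 + 1) with hc1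
  set c2 : ℝ := (c / 2) / (168 * C0 + 1) with hc2
  have hc10 : 0 < c1 := by positivity
  have hc20 : 0 < c2 := by positivity
  have hcc : ∀ I : ℝ, 0 ≤ I → c / 2 * 1 ≤ 168 * C0 * I → min c1 c2 ≤ I := by
    intro I hI0 hI
    refine (min_le_right _ _).trans ?_
    rw [hc2, div_le_iff₀ (by positivity)]
    nlinarith
  refine ⟨min c1 c2, D, 2 * (1 + q), C, lt_min hc10 hc20, hD0, by positivity, hC, ?_⟩
  obtain ⟨T0, hT0⟩ := eventually_atTop.1 hmean
  -- size of the radius
  have g1 : ∀ᶠ t : ℝ in atTop, rad D t ≤ t / 4 := by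
    have h1 : Tendsto (fun t : ℝ => Real.exp (t / 4) / (Real.log t) ^ 2) atTop atTop := by
      have h2 : ∀ᶠ t : ℝ in atTop, Real.exp (t / 4) / t ^ 2 ≤ Real.exp (t / 4) / (Real.log t) ^ 2 := by
        filter_upwards [eventually_gt_atTop (1:ℝ)] with t ht
        have h3 : 0 < Real.log t := Real.log_pos ht
        have h4 : Real.log t ≤ t := (Real.log_le_sub_one_of_pos (by linarith)).trans (by linarith)
        have h5 : (Real.log t) ^ 2 ≤ t ^ 2 := pow_le_pow_left₀ h3.le h4 2
        exact div_le_div_of_nonneg_left (Real.exp_pos _).le (by positivity) h5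
      refine tendsto_atTop_mono' atTop h2 ?_
      have h3 := (Real.tendsto_exp_div_pow_atTop 2).comp (tendsto_id.atTop_div_const (show (0:ℝ) < 4 by norm_num))
      have h4 := h3.atTop_div_const (show (0:ℝ) < 16 by norm_num)
      refine h4.congr fun t => ?_
      simp only [Function.comp, id]
      rw [div_div]
      congr 1
      ring
    filter_upwards [h1.eventually_ge_atTop D, eventually_gt_atTop (1:ℝ)] with t h2 h3
    have h4 : 0 < Real.log t := Real.log_pos h3
    unfold rad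
    rw [Real.log_le_iff_le_exp (by positivity)]
    rwa [le_div_iff₀ (by positivity)] at h2
  have g2 : ∀ᶠ t : ℝ in atTop, 1 ≤ D * (Real.log t) ^ 2 := by
    have h1 : Tendsto (fun t : ℝ => D * (Real.log t) ^ 2) atTop atTop :=
      ((tendsto_pow_atTop (by norm_num : (2:ℕ) ≠ 0)).comp Real.tendsto_log_atTop).const_mul_atTop hD0
    exact h1.eventually_ge_atTop 1
  filter_upwards [hevc, g1, g2, eventually_ge_atTop (max (2 * T0) 12)] with t k1 k2 k3 k4
  have ht12 : 12 ≤ t := le_trans (le_max_right _ _) k4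
  have htT : 2 * T0 ≤ t := le_trans (le_max_left _ _) k4
  have hr0 : 0 ≤ rad D t := Real.log_nonneg k3
  refine ⟨hr0, fun s hs A hA hb => ?_⟩
  set a : ℝ := rad D t / 2 with ha
  have ha0 : 0 ≤ a := by positivity
  have hea : Real.exp (2 * a) = D * (Real.log t) ^ 2 := by
    rw [show 2 * a = rad D t by rw [ha]; ring]
    unfold rad
    rw [Real.exp_log (by linarith)]
  set N : ℕ := ⌈a⌉₊ with hN
  have hN1 : a ≤ N := Nat.le_ceil a
  have hN2 : (N : ℝ) < a + 1 := Nat.ceil_lt_add_one ha0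
  have hlogt : 0 < Real.log t := Real.log_pos (by linarith)
  -- the means
  have hmeans : ∀ y ∈ Icc (t - N - 2) (t + N + 2), ∫ u in Icc (y - 1) (y + 1), |m u| ≤ C * (A * Real.exp (y / 2)) := by
    intro y hy
    have hy1 : t / 2 ≤ y := by linarith [hy.1]
    have hy2 : y ≤ 2 * t := by linarith [hy.2]
    have hlogy : (Real.log y) ^ 2 ≤ 4 * (Real.log t) ^ 2 := by
      have h1 : Real.log y ≤ 2 * Real.log t := by
        have h2 : y ≤ t ^ 2 := by nlinarith
        have h3 := Real.log_le_log (by linarith) h2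
        rw [Real.log_pow] at h3
        exact_mod_cast h3
      have h2 : 0 ≤ Real.log y := Real.log_nonneg (by linarith)
      nlinarith
    refine hT0 y (by linarith) a ha0 ?_ s hs A hA ?_
    · rw [hea, hD]
      have h1 : Dm ≤ max Dm Dc := le_max_left _ _
      have h2 := sq_nonneg (Real.log y)
      calc Dm * (Real.log y) ^ 2 ≤ max Dm Dc * (4 * (Real.log t) ^ 2) :=
            mul_le_mul h1 hlogy h2 hmax.le
        _ = _ := by ring
    · intro u hu
      refine hb u ⟨?_, ?_⟩
      · linarith [hu.1, hy.1]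
      · linarith [hu.2, hy.2]
  have hNn : (0:ℝ) ≤ N := Nat.cast_nonneg N
  refine ⟨hmeans t ⟨by linarith, by linarith⟩, fun b hb0 hbD s' hs' => ?_⟩
  have hbox := k1 N hNn (by
    have h1 : Dc ≤ max Dm Dc := le_max_right _ _
    have h2 : Real.exp (2 * a) ≤ Real.exp (2 * (N:ℝ)) := Real.exp_le_exp.2 (by linarith)
    have h3 := sq_nonneg (Real.log t)
    have h4 : Dc * (Real.log t) ^ 2 ≤ D * (Real.log t) ^ 2 := by
      refine mul_le_mul_of_nonneg_right ?_ h3
      rw [hD]
      linarith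
    linarith) s' hs'
  have hE := Real.exp_pos (t / 2)
  have hInn : ∀ p q : ℝ, 0 ≤ ∫ u in Icc p q, max (s' * m u) 0 * Real.exp (-(u / 2)) := fun p q =>
    integral_nonneg fun u => mul_nonneg (le_max_right _ _) (Real.exp_pos _).le
  rcases le_or_gt (N : ℝ) b with hbN | hbN
  · have hbox' : c / 2 * (1 * Real.exp (t / 2)) ≤
        ∫ v in Icc (-(N:ℝ)) N, (∫ w in Icc (-1) 1, max (s' * m (t - v - w)) 0 * gk (hw t) w) * kp v := by
      refine le_trans ?_ hbox
      have : 0 < c * (1 * Real.exp (t / 2)) := by positivity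
      linarith
    constructor
    · obtain ⟨u, hu, hu2⟩ := sup_of hm (by linarith : 1 ≤ t) s' hs' one_pos (by positivity : 0 < c / 2) hbox'
      refine ⟨u, ⟨by linarith [hu.1], by linarith [hu.2]⟩, le_trans ?_ hu2⟩
      rw [mul_one]
      exact mul_le_mul_of_nonneg_right (min_le_left _ _) (Real.exp_pos _).le
    · have h1 := mean_of hm (by linarith : 1 ≤ t) s' hs' hbox'
      refine hcc _ (hInn _ _) (h1.trans ?_)
      refine mul_le_mul_of_nonneg_left ?_ (by positivity)
      refine setIntegral_mono_set (loc_w hm hs' _ _) (ae_of_all _ fun u => ?_)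
        (Eventually.of_forall (Icc_subset_Icc (by linarith) (by linarith)))
      exact mul_nonneg (le_max_right _ _) (Real.exp_pos _).le
  · have hf := hm.pos hs'
    have hf0 : ∀ u, 0 ≤ max (s' * m u) 0 := fun u => le_max_right _ _
    have hloc : ∀ y ∈ Icc (t - N - 2) (t + N + 2), ∫ u in Icc (y - 1) (y + 1), max (s' * m u) 0 ≤
        (C * A) * Real.exp (y / 2) := by
      intro y hy
      refine le_trans ?_ ((hmeans y hy).trans (le_of_eq (by ring)))
      refine setIntegral_mono_on (hf.loc _ _) (hm.abs.loc _ _) measurableSet_Icc fun u _ => ?_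
      refine max_le ?_ (abs_nonneg _)
      rcases hs' with h | h <;> rw [h]
      · rw [one_mul]; exact le_abs_self _
      · rw [neg_one_mul]; exact neg_le_abs _
    have hsh := shell hf hf0 (by linarith : 1 ≤ t) (by positivity : 0 ≤ C * A) hb0 N hbN.le hloc
    have hX := XW2 b hb0
    have hsm := small_fac hΛ0 hc hA hq hbD
    have h1 : 4 * C0 * (Real.exp (4 * b) * W (-b)) * (16 * (C * A) * Real.exp (t / 2)) ≤ c / 2 * Real.exp (t / 2) := by
      calc 4 * C0 * (Real.exp (4 * b) * W (-b)) * (16 * (C * A) * Real.exp (t / 2)) ≤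
            4 * C0 * (32 * Real.exp (-(Real.exp (2 * b) / 2))) * (16 * (C * A) * Real.exp (t / 2)) := by
              gcongr
        _ = (Λ * A * Real.exp (-(Real.exp (2 * b) / 2))) * Real.exp (t / 2) := by rw [hΛ]; ring
        _ ≤ _ := mul_le_mul_of_nonneg_right hsm hE.le
    have h2 : c / 2 * (1 * Real.exp (t / 2)) ≤ box (fun u => max (s' * m u) 0) (hw t) t b := by
      have h3 : c * (1 * Real.exp (t / 2)) ≤ box (fun u => max (s' * m u) 0) (hw t) t N := hbox
      linarith
    constructor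
    · obtain ⟨u, hu, hu2⟩ := sup_of hm (by linarith : 1 ≤ t) s' hs' one_pos (by positivity : 0 < c / 2) h2
      refine ⟨u, hu, le_trans ?_ hu2⟩
      rw [mul_one]
      exact mul_le_mul_of_nonneg_right (min_le_left _ _) (Real.exp_pos _).le
    · exact hcc _ (hInn _ _) (mean_of hm (by linarith : 1 ≤ t) s' hs' h2)

end

end Pool.Agent.V5helper60.MW
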