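import Pool.Agent.V5helper60.MW.Short2
import Pool.Agent.V5helper60.MW.ToX

/-!
# One-sided bounds and means, V: the original variable
-/

set_option autoImplicit false
set_option maxHeartbeats 4000000

open MeasureTheory Filter Topology Set

namespace Pool.Agent.V5helper60.MW

open Pool.Agent.W190 (SF)
open Pool.Agent.N739.OW

noncomputable section

/-- the ratio of the hypothesis window -/
def hq2 (C x : ℝ) : ℝ := C * (Real.log (Real.log x)) ^ 2

/-- the ratio of the conclusion window -/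
def cq (C A : ℝ) : ℝ := C * Real.sqrt (Real.log (2 + A))

/-- the statement -/
def Bd (N : ℝ → ℝ) : Prop := ∃ c C0 C1 C2 : ℝ, 0 < c ∧ 1 ≤ C0 ∧ 0 < C1 ∧ 1 ≤ C2 ∧ ∀ C : ℝ, C0 ≤ C →
  ∀ᶠ x : ℝ in atTop, ∀ s : ℝ, s = 1 ∨ s = -1 → ∀ A : ℝ, 0 ≤ A → A ≤ Real.exp (Real.sqrt (Real.log x)) →
    (∀ u ∈ Icc (x / hq2 C x) (hq2 C x * x), s * N u ≤ A * Real.sqrt u) →
    (∫ u in (x / 2)..(2 * x), |N u| ≤ C1 * A * x ^ (3 / 2 : ℝ)) ∧
    ∀ s' : ℝ, s' = 1 ∨ s' = -1 →
      (∃ u ∈ Icc (x / cq C2 A) (cq C2 A * x), c * Real.sqrt u ≤ s' * N u) ∧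
      c ≤ ∫ u in (x / cq C2 A)..(cq C2 A * x), max (s' * N u) 0 / u ^ (3 / 2 : ℝ)

theorem exp_img (l L : ℝ) : Real.exp '' Icc l L = Icc (Real.exp l) (Real.exp L) := by
  ext y
  constructor
  · rintro ⟨u, hu, rfl⟩
    exact ⟨Real.exp_le_exp.2 hu.1, Real.exp_le_exp.2 hu.2⟩
  · intro hy
    have hy0 : 0 < y := (Real.exp_pos _).trans_le hy.1
    refine ⟨Real.log y, ⟨?_, ?_⟩, Real.exp_log hy0⟩
    · rw [Real.le_log_iff_exp_le hy0]; exact hy.1
    · rw [Real.log_le_iff_le_exp hy0]; exact hy.2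

theorem int_abs (N : ℝ → ℝ) (l L : ℝ) :
    ∫ u in Icc l L, |N (Real.exp u)| = ∫ y in Icc (Real.exp l) (Real.exp L), |N y| / y := by
  have key := integral_image_eq_integral_abs_deriv_smul (s := Icc l L) measurableSet_Icc
    (f := Real.exp) (f' := Real.exp) (fun x _ => (Real.hasDerivAt_exp x).hasDerivWithinAt)
    Real.exp_injective.injOn (fun y => |N y| / y)
  rw [exp_img] at key
  rw [key]
  refine setIntegral_congr_fun measurableSet_Icc fun u _ => ?_
  rw [smul_eq_mul, abs_of_pos (Real.exp_pos u)]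
  field_simp

theorem two_lt_e : (2:ℝ) < Real.exp 1 := by
  have := Real.exp_one_gt_d9
  linarith

theorem abs_mean {N : ℝ → ℝ} (hN : ∀ x y : ℝ, IntegrableOn N (Icc x y)) {x : ℝ} (hx : 0 < x) :
    ∫ u in (x / 2)..(2 * x), |N u| ≤
      Real.exp 1 * x * ∫ u in Icc (Real.log x - 1) (Real.log x + 1), |N (Real.exp u)| := by
  have he := two_lt_e
  have he0 := Real.exp_pos (1:ℝ)
  rw [int_abs, Real.exp_sub, Real.exp_add, Real.exp_log hx]
  rw [intervalIntegral.integral_of_le (by linarith), ← integral_Icc_eq_integral_Ioc]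
  have h1 : ∫ u in Icc (x / 2) (2 * x), |N u| ≤ ∫ u in Icc (x / Real.exp 1) (x * Real.exp 1), |N u| := by
    refine setIntegral_mono_set (hN _ _).abs (ae_of_all _ fun u => abs_nonneg _) (Eventually.of_forall ?_)
    refine Icc_subset_Icc ?_ ?_
    · exact div_le_div_of_nonneg_left hx.le (by norm_num) he.le
    · nlinarith
  refine h1.trans ?_
  rw [← integral_const_mul]
  have h2 : IntegrableOn (fun y => |N y| / y) (Icc (x / Real.exp 1) (x * Real.exp 1)) := by
    simp_rw [div_eq_mul_inv]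
    refine IntegrableOn.mul_continuousOn (hN _ _).abs ?_ isCompact_Icc
    refine ContinuousOn.inv₀ continuousOn_id fun y hy => ?_
    have : 0 < x / Real.exp 1 := by positivity
    exact (this.trans_le hy.1).ne'
  refine setIntegral_mono_on (hN _ _).abs (h2.const_mul _) measurableSet_Icc fun y hy => ?_
  have hy0 : 0 < y := lt_of_lt_of_le (by positivity) hy.1
  have h3 : 1 ≤ Real.exp 1 * x / y := by
    rw [one_le_div hy0]
    linarith [hy.2]
  have h4 := abs_nonneg (N y)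
  calc |N y| = |N y| * 1 := by ring
    _ ≤ |N y| * (Real.exp 1 * x / y) := mul_le_mul_of_nonneg_left h3 h4
    _ = _ := by ring

/-- from the logarithmic scale to the original variable -/
theorem Bd_of {N : ℝ → ℝ} (hN : ∀ x y : ℝ, IntegrableOn N (Icc x y))
    (h : ∃ c D D' C : ℝ, 0 < c ∧ 0 < D ∧ 0 < D' ∧ 0 < C ∧ ∀ᶠ t in atTop, 0 ≤ rad D t ∧
      ∀ s : ℝ, s = 1 ∨ s = -1 → ∀ A : ℝ, 0 ≤ A →
      (∀ u ∈ Icc (t - (rad D t + 4)) (t + (rad D t + 4)), s * N (Real.exp u) ≤ A * Real.exp (u / 2)) →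
      (∫ u in Icc (t - 1) (t + 1), |N (Real.exp u)| ≤ C * (A * Real.exp (t / 2))) ∧
      ∀ b : ℝ, 0 ≤ b → D' * Real.log (2 + A) ≤ Real.exp (2 * b) → ∀ s' : ℝ, s' = 1 ∨ s' = -1 →
        (∃ u ∈ Icc (t - b - 1) (t + b + 1), c * Real.exp (u / 2) ≤ s' * N (Real.exp u)) ∧
        c ≤ ∫ u in Icc (t - b - 1) (t + b + 1), max (s' * N (Real.exp u)) 0 * Real.exp (-(u / 2))) : Bd N := by
  obtain ⟨c, D, D', C1, hc, hD, hD', hC1, hev⟩ := h
  refine ⟨c, Real.exp 4 * (D + 1), Real.exp 1 * C1, Real.exp 1 * Real.sqrt (D' + 2), hc, ?_, by positivity, ?_, fun C hC => ?_⟩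
  · have h1 : 1 ≤ Real.exp 4 := Real.one_le_exp (by norm_num)
    nlinarith
  · have h1 : 1 ≤ Real.exp 1 := Real.one_le_exp (by norm_num)
    have h2 : 1 ≤ Real.sqrt (D' + 2) := by
      rw [Real.one_le_sqrt]
      linarith
    nlinarith
  have hCpos : 0 < C := lt_of_lt_of_le (by positivity) hC
  have g : ∀ᶠ l : ℝ in atTop, 1 ≤ Real.log l := Real.tendsto_log_atTop.eventually_ge_atTop 1
  filter_upwards [Real.tendsto_log_atTop.eventually hev, Real.tendsto_log_atTop.eventually g,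
    eventually_ge_atTop (1:ℝ)] with x k1 k2 k3 s hs A hA _ hyp
  obtain ⟨hr, k1⟩ := k1
  have hx0 : 0 < x := by linarith
  set t := Real.log x with ht
  have hxt : Real.exp t = x := Real.exp_log hx0
  have hq0 : 0 < hq2 C x := by unfold hq2; rw [← ht]; positivity
  -- the windows
  have hrad : Real.exp (rad D t + 4) ≤ hq2 C x := by
    rw [Real.exp_add]
    unfold rad hq2
    rw [Real.exp_log (by positivity), ← ht]
    have h1 : 0 ≤ (Real.log t) ^ 2 := sq_nonneg _
    calc D * (Real.log t) ^ 2 * Real.exp 4 ≤ (Real.exp 4 * (D + 1)) * (Real.log t) ^ 2 := by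
          have h2 : 0 ≤ Real.exp 4 * (Real.log t) ^ 2 := by positivity
          nlinarith
      _ ≤ C * (Real.log t) ^ 2 := mul_le_mul_of_nonneg_right hC h1
  have hyp' : ∀ u ∈ Icc (t - (rad D t + 4)) (t + (rad D t + 4)), s * N (Real.exp u) ≤ A * Real.exp (u / 2) := by
    intro u hu
    have h1 : Real.exp u ∈ Icc (x / hq2 C x) (hq2 C x * x) := by
      constructor
      · refine le_trans ?_ (Real.exp_le_exp.2 hu.1)
        rw [Real.exp_sub, hxt]
        exact div_le_div_of_nonneg_left hx0.le (Real.exp_pos _) hrad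
      · refine (Real.exp_le_exp.2 hu.2).trans ?_
        rw [Real.exp_add, hxt, mul_comm]
        exact mul_le_mul_of_nonneg_right hrad hx0.le
    have h2 := hyp _ h1
    have e1 : Real.sqrt (Real.exp u) = Real.exp (u / 2) := by
      rw [Real.sqrt_eq_rpow, ← Real.exp_mul]
      congr 1
      ring
    rwa [e1] at h2
  obtain ⟨m1, m2⟩ := k1 s hs A hA hyp'
  have hx32 : x ^ (3 / 2 : ℝ) = x * Real.exp (t / 2) := by
    rw [Real.rpow_def_of_pos hx0, ← ht]
    have : t * (3 / 2) = t + t / 2 := by ring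
    rw [this, Real.exp_add, hxt]
  constructor
  · refine (abs_mean hN hx0).trans ?_
    rw [← ht, hx32]
    have := mul_le_mul_of_nonneg_left m1 (by positivity : 0 ≤ Real.exp 1 * x)
    refine this.trans (le_of_eq ?_)
    ring
  intro s' hs'
  have hlA : Real.log 2 ≤ Real.log (2 + A) := Real.log_le_log (by norm_num) (by linarith)
  have hl2 : (1:ℝ) / 2 < Real.log 2 := by
    have := Real.log_two_gt_d9
    linarith
  have hX : 1 ≤ (D' + 2) * Real.log (2 + A) := by nlinarith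
  set b : ℝ := Real.log ((D' + 2) * Real.log (2 + A)) / 2 with hb
  have hb0 : 0 ≤ b := by
    have := Real.log_nonneg hX
    positivity
  have heb : Real.exp (2 * b) = (D' + 2) * Real.log (2 + A) := by
    rw [hb, mul_div_cancel₀ _ (by norm_num : (2:ℝ) ≠ 0), Real.exp_log (by linarith)]
  have heb1 : Real.exp (b + 1) = cq (Real.exp 1 * Real.sqrt (D' + 2)) A := by
    unfold cq
    rw [Real.exp_add, mul_assoc, ← Real.sqrt_mul (by linarith), ← heb]
    have : Real.sqrt (Real.exp (2 * b)) = Real.exp b := by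
      rw [Real.sqrt_eq_rpow, ← Real.exp_mul]
      congr 1
      ring
    rw [this, mul_comm]
  obtain ⟨⟨u, hu, hu2⟩, hI⟩ := m2 b hb0 (by rw [heb]; nlinarith) s' hs'
  set R := cq (Real.exp 1 * Real.sqrt (D' + 2)) A with hR
  have hR0 : 0 < R := by rw [← heb1]; exact Real.exp_pos _
  have e1 : Real.exp (t - b - 1) = x / R := by
    rw [← heb1, ← hxt, ← Real.exp_sub]
    congr 1
    ring
  have e2 : Real.exp (t + b + 1) = R * x := by
    rw [← heb1, ← hxt, ← Real.exp_add]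
    congr 1
    ring
  constructor
  · refine ⟨Real.exp u, ⟨?_, ?_⟩, ?_⟩
    · rw [← e1]; exact Real.exp_le_exp.2 hu.1
    · rw [← e2]; exact Real.exp_le_exp.2 hu.2
    · have e3 : Real.sqrt (Real.exp u) = Real.exp (u / 2) := by
        rw [Real.sqrt_eq_rpow, ← Real.exp_mul]
        congr 1
        ring
      rw [e3]
      exact hu2
  · have h1 := int_window N s' (t - b - 1) (t + b + 1) (by linarith)
    rw [e1, e2] at h1
    rw [← h1]
    exact hI

/-- the case that the Riemann hypothesis is false: the hypothesis cannot hold -/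
theorem hyp_false {a : ℕ → ℝ} (ha : Inp a) {ρ : ℂ} (hz : riemannZeta ρ = 0) (hρ : 1 / 2 < ρ.re) (b : ℝ) :
    ∀ C : ℝ, 1 ≤ C → ∀ᶠ x : ℝ in atTop, ∀ s : ℝ, s = 1 ∨ s = -1 → ∀ A : ℝ, 0 ≤ A →
      A ≤ Real.exp (Real.sqrt (Real.log x)) →
      ¬ ∀ u ∈ Icc (x / hq2 C x) (hq2 C x * x), s * (SF a u + b * Real.sqrt u) ≤ A * Real.sqrt u := by
  intro C hC
  have hρ1 := re_lt_one hz
  set ε : ℝ := (ρ.re - 1 / 2) / 2 with hε
  set σ : ℝ := (ρ.re + 1 / 2) / 2 with hσ
  have hε0 : 0 < ε := by rw [hε]; linarith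
  set A1 : ℝ := Real.exp (Real.pi * hsum σ + 1) with hA1d
  have hH0 : 0 ≤ hsum σ := tsum_nonneg fun ρ => div_nonneg (Nat.cast_nonneg _) ρ.2.2.2.le
  have hA1 : 1 < A1 := by
    rw [hA1d, Real.one_lt_exp_iff]
    have := mul_nonneg Real.pi_pos.le hH0
    linarith
  have hA0 : 0 < A1 := by linarith
  have hlA : Real.pi * hsum σ < Real.log A1 := by rw [hA1d, Real.log_exp]; linarith
  have hone : ∀ s : ℝ, s = 1 ∨ s = -1 → ∀ᶠ X : ℝ in atTop,
      X ^ (3 / 2 + ε) ≤ ∫ u in X..(A1 * X), max (s * SF a u) 0 := by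
    intro s hs
    have h1 := ha.one (σ := σ) (A := A1) (by rw [hσ]; linarith) (by rw [hσ]; linarith) hA0 hlA hz
      (by rw [hσ]; linarith) hε0 hs
    have e1 : 1 + ρ.re - ε = 3 / 2 + ε := by rw [hε]; ring
    rwa [e1] at h1
  have g1 : ∀ᶠ x : ℝ in atTop, A1 ≤ (Real.log (Real.log x)) ^ 2 := by
    have : Tendsto (fun x : ℝ => (Real.log (Real.log x)) ^ 2) atTop atTop :=
      (tendsto_pow_atTop (by norm_num : (2:ℕ) ≠ 0)).comp (Real.tendsto_log_atTop.comp Real.tendsto_log_atTop)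
    exact this.eventually_ge_atTop A1
  set K : ℝ := (A1 * Real.sqrt A1) * (1 + |b|) with hK
  have hK0 : 0 < K := by
    have := Real.sqrt_pos.2 hA0
    positivity
  have g2 : ∀ᶠ x : ℝ in atTop, K * Real.exp (Real.sqrt (Real.log x)) < x ^ ε := by
    have h1 : Tendsto (fun x : ℝ => Real.sqrt (Real.log x)) atTop atTop :=
      Real.tendsto_sqrt_atTop.comp Real.tendsto_log_atTop
    filter_upwards [h1.eventually_ge_atTop ((1 + |Real.log K| + 1) / ε), h1.eventually_ge_atTop 1,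
      eventually_gt_atTop 1] with x h2 h3 h4
    have hx0 : 0 < x := by linarith
    set y := Real.sqrt (Real.log x) with hy
    have hy2 : Real.log x = y ^ 2 := (Real.sq_sqrt (Real.log_nonneg h4.le)).symm
    rw [Real.rpow_def_of_pos hx0, hy2]
    have h5 : K = Real.exp (Real.log K) := (Real.exp_log hK0).symm
    rw [h5, ← Real.exp_add, Real.exp_lt_exp]
    rw [div_le_iff₀ hε0] at h2
    have h6 := le_abs_self (Real.log K)
    have h7 := abs_nonneg (Real.log K)
    have h8 : (1 + |Real.log K| + 1) * y ≤ (y * ε) * y := mul_le_mul_of_nonneg_right h2 (by linarith)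
    have h9 : |Real.log K| * 1 ≤ |Real.log K| * y := mul_le_mul_of_nonneg_left h3 h7
    nlinarith
  filter_upwards [hone 1 (Or.inl rfl), hone (-1) (Or.inr rfl), g1, g2, eventually_ge_atTop (max A1 (Real.exp 1))]
    with x k1 k2 k3 k4 k5 s hs A hA hAx hcon
  have hxe : Real.exp 1 ≤ x := le_trans (le_max_right _ _) k5
  have hxA : A1 ≤ x := le_trans (le_max_left _ _) k5
  have hx1 : 1 < x := by linarith
  have hxp : 0 < x := by linarith
  have hk : x ^ (3 / 2 + ε) ≤ ∫ u in x..(A1 * x), max (s * SF a u) 0 := by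
    rcases hs with rfl | rfl
    · exact k1
    · exact k2
  have hh1 : A1 ≤ hq2 C x := by
    unfold hq2
    have h1 : 0 ≤ (Real.log (Real.log x)) ^ 2 := sq_nonneg _
    nlinarith
  have hh2 : 1 ≤ hq2 C x := hA1.le.trans hh1
  have hsub : ∀ u ∈ Icc x (A1 * x), u ∈ Icc (x / hq2 C x) (hq2 C x * x) := fun u hu =>
    ⟨(div_le_self hxp.le hh2).trans hu.1, hu.2.trans (mul_le_mul_of_nonneg_right hh1 hxp.le)⟩
  have hxAx : x ≤ A1 * x := le_mul_of_one_le_left hxp.le hA1.le
  have hpi := pos_int a s x (A1 * x) hs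
  have e32 : x ^ (3 / 2 + ε) = x ^ (3 / 2 : ℝ) * x ^ ε := Real.rpow_add hxp _ _
  have hx32' : x ^ (3 / 2 : ℝ) = x * Real.sqrt x := by
    rw [Real.sqrt_eq_rpow, show (3 / 2 : ℝ) = 1 + 1 / 2 by norm_num, Real.rpow_add hxp, Real.rpow_one]
  have hb0 := abs_nonneg b
  have h1 : ∫ u in x..(A1 * x), max (s * SF a u) 0 ≤ ∫ u in x..(A1 * x), (A + |b|) * Real.sqrt (A1 * x) := by
    refine intervalIntegral.integral_mono_on hxAx hpi intervalIntegrable_const fun u hu => ?_
    have h2 := hcon u (hsub u hu)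
    have hu0 : 0 < u := hxp.trans_le hu.1
    have hsu := Real.sqrt_nonneg u
    have h6 : Real.sqrt u ≤ Real.sqrt (A1 * x) := Real.sqrt_le_sqrt hu.2
    refine max_le ?_ (by positivity)
    have h3 : s * SF a u ≤ (A + |b|) * Real.sqrt u := by
      have h4 : -(|b| * Real.sqrt u) ≤ s * (b * Real.sqrt u) := by
        have h5 := neg_abs_le b
        have h6 := le_abs_self b
        rcases hs with rfl | rfl <;> nlinarith
      nlinarith
    exact h3.trans (mul_le_mul_of_nonneg_left h6 (by positivity))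
  rw [intervalIntegral.integral_const, smul_eq_mul, Real.sqrt_mul hA0.le] at h1
  have hsA := Real.sqrt_nonneg A1
  have hsx := Real.sqrt_pos.2 hxp
  have h2 : (A1 * x - x) * ((A + |b|) * (Real.sqrt A1 * Real.sqrt x)) ≤
      ((A1 * Real.sqrt A1) * (A + |b|)) * (x * Real.sqrt x) := by
    have h3 : 0 ≤ (A + |b|) * (Real.sqrt A1 * Real.sqrt x) := by positivity
    nlinarith
  have h3 : (A1 * Real.sqrt A1) * (A + |b|) ≤ K * Real.exp (Real.sqrt (Real.log x)) := by
    rw [hK, mul_assoc (A1 * Real.sqrt A1)]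
    refine mul_le_mul_of_nonneg_left ?_ (by positivity)
    have h4 : 1 ≤ Real.exp (Real.sqrt (Real.log x)) := Real.one_le_exp (Real.sqrt_nonneg _)
    nlinarith
  have h4 : ((A1 * Real.sqrt A1) * (A + |b|)) * (x * Real.sqrt x) < x ^ ε * (x * Real.sqrt x) :=
    mul_lt_mul_of_pos_right (h3.trans_lt k4) (by positivity)
  rw [e32, hx32'] at hk
  linarith

end

end Pool.Agent.V5helper60.MW
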