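import Pool.Agent.H382R2.Zeta2
import Pool.Agent.W120.WM.Defs2

/-!
# A bound for `1/ζ` to the right of the critical line, with the dependence on the distance
-/

set_option autoImplicit false
set_option maxHeartbeats 4000000

open MeasureTheory Filter Topology Set Metric

namespace Pool.Agent.V5helper60.MW

open Pool.Agent.H437R2
open Pool.Agent.W120.WM (RHp NT)

/-- Jensen's bound for the number of the factors split off -/
theorem count_bound (F G : ℂ → ℂ) (c : ℂ) (L : List ℂ) {R1 R2 M : ℝ} (hR1 : 0 < R1) (hR : R1 < R2)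
    (hL1 : ∀ ρ ∈ L, ρ ∈ closedBall c R1) (hG : Differentiable ℂ G)
    (hFG : ∀ v, F v = (L.map (fun r => v - r)).prod * G v)
    (hM : ∀ z ∈ closedBall c R2, ‖F z‖ ≤ M) : R2 ^ L.length * ‖G c‖ ≤ M := by
  have hR2 : 0 < R2 := hR1.trans hR
  set n := L.length with hn
  have hprodnorm : ∀ v : ℂ, ‖F v‖ = (L.map (fun ρ => ‖v - ρ‖)).prod * ‖G v‖ := by
    intro v
    rw [hFG v, norm_mul, norm_list_prod, List.map_map]
    rfl
  set B : ℂ → ℂ := fun v =>
    (L.map (fun ρ => ((R2:ℂ) ^ 2 - (starRingEnd ℂ) (ρ - c) * (v - c)) / R2)).prod * G v with hB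
  have hBd : Differentiable ℂ B := by
    have : ∀ L' : List ℂ, Differentiable ℂ (fun v : ℂ =>
        (L'.map (fun ρ => ((R2:ℂ) ^ 2 - (starRingEnd ℂ) (ρ - c) * (v - c)) / R2)).prod) := by
      intro L'
      induction L' with
      | nil => simp
      | cons a L' ih =>
        simp only [List.map_cons, List.prod_cons]
        refine Differentiable.mul ?_ ih
        fun_prop
    exact (this L).mul hG
  have hBc : ‖B c‖ = R2 ^ n * ‖G c‖ := by
    simp only [hB, sub_self, mul_zero, sub_zero, norm_mul]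
    congr 1
    have hR2c : (R2:ℂ) ≠ 0 := by exact_mod_cast hR2.ne'
    have h2 : (R2:ℂ) ^ 2 / R2 = R2 := by field_simp
    rw [h2, List.map_const', List.prod_replicate, norm_pow, Complex.norm_real,
      Real.norm_of_nonneg hR2.le]
  have hBs : ∀ z ∈ frontier (ball c R2), ‖B z‖ ≤ M := by
    intro z hz
    rw [frontier_ball c hR2.ne', mem_sphere, dist_eq_norm] at hz
    have h1 : ‖B z‖ = ‖F z‖ := by
      rw [hprodnorm z]
      simp only [hB, norm_mul]
      rw [norm_list_prod, List.map_map]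
      congr 2
      refine List.map_congr_left fun ρ _ => ?_
      show ‖((R2:ℂ) ^ 2 - (starRingEnd ℂ) (ρ - c) * (z - c)) / R2‖ = ‖z - ρ‖
      have h3 : (R2:ℂ) ^ 2 = (starRingEnd ℂ) (z - c) * (z - c) := by
        rw [mul_comm, Complex.mul_conj, Complex.normSq_eq_norm_sq, hz]
        push_cast
        ring
      rw [h3, ← sub_mul, ← map_sub, norm_div, norm_mul, hz, Complex.norm_real,
        Real.norm_of_nonneg hR2.le, mul_div_cancel_right₀ _ hR2.ne', RCLike.norm_conj]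
      congr 1
      ring
    rw [h1]
    refine hM z ?_
    rw [mem_closedBall, dist_eq_norm]
    exact hz.le
  have := Complex.norm_le_of_forall_mem_frontier_norm_le isBounded_ball
    (hBd.diffContOnCl (s := ball c R2)) hBs (subset_closure (mem_ball_self hR2))
  rwa [hBc] at this

/-- **The bound for `1/ζ`.** -/
theorem zeta_inv (hRH : RHp) : ∃ C : ℝ, 1 ≤ C ∧ ∀ δ y : ℝ, 0 < δ → δ < 1 / 2 →
    ‖(riemannZeta (⟨1 / 2 + δ, y⟩ : ℂ))⁻¹‖ ≤ Real.exp (C * (1 + Real.log (1 / δ)) * ell y) := by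
  refine ⟨10000, by norm_num, ?_⟩
  intro δ y hδ hδ2
  set c : ℂ := 2 + y * Complex.I with hc
  have hcre : c.re = 2 := by simp [hc]
  have hcim : c.im = y := by simp [hc]
  have hℓ := one_le_ell y
  have hFlow := z1_lower y
  rw [← hc] at hFlow
  have hFc : riemannZeta₁ c ≠ 0 := by
    intro h
    rw [h, norm_zero] at hFlow
    norm_num at hFlow
  have hFc0 : 0 < ‖riemannZeta₁ c‖ := norm_pos_iff.2 hFc
  have hy := abs_nonneg y
  have hcn : ‖c‖ ≤ 2 + |y| := by
    rw [hc]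
    refine (norm_add_le _ _).trans ?_
    rw [norm_mul, Complex.norm_I, mul_one, Complex.norm_real]
    simp
  have hM : ∀ z ∈ closedBall c (19 / 10), ‖riemannZeta₁ z‖ ≤ 11 * (|y| + 5) ^ 2 := by
    intro z hz
    rw [mem_closedBall, dist_eq_norm] at hz
    have hre : 1 / 10 ≤ z.re := by
      have h1 := (Complex.abs_re_le_norm (z - c)).trans hz
      rw [Complex.sub_re, hcre] at h1
      have := (abs_le.1 h1).1
      linarith
    refine (SG.z1_growth hre).trans ?_
    have h3 : ‖z‖ ≤ 19 / 10 + (2 + |y|) := by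
      have := norm_add_le (z - c) c
      rw [sub_add_cancel] at this
      linarith
    have h4 : ‖z‖ + 1 ≤ |y| + 5 := by linarith
    gcongr
  obtain ⟨L, G, hL, hG, hFG, hFcG, hlow⟩ := SG.entire_lower riemannZeta₁ differentiable_riemannZeta₁ c
    (R1 := 9 / 5) (R2 := 19 / 10) (by norm_num) (by norm_num) hFc hM
  set n := L.length with hn
  have hn0 : (0:ℝ) ≤ n := Nat.cast_nonneg n
  have hcount := count_bound riemannZeta₁ G c L (R1 := 9 / 5) (R2 := 19 / 10) (by norm_num) (by norm_num)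
    (fun ρ hρ => (hL ρ hρ).2) hG hFG hM
  -- the logarithm of the maximum
  have hlogM : Real.log (11 * (|y| + 5) ^ 2 / ‖riemannZeta₁ c‖) ≤ 9 * ell y := by
    have h5 : 11 * (|y| + 5) ^ 2 / ‖riemannZeta₁ c‖ ≤ (|y| + 3) ^ 9 := by
      rw [div_le_iff₀ hFc0]
      calc 11 * (|y| + 5) ^ 2 ≤ (|y| + 3) ^ 9 * (1 / 4) := by
            have e1 : (|y| + 5) ≤ (|y| + 3) ^ 2 := by nlinarith
            have e2 : (|y| + 5) ^ 2 ≤ ((|y| + 3) ^ 2) ^ 2 := by gcongr
            have e3 : (44:ℝ) ≤ (|y| + 3) ^ 5 := by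
              have : (3:ℝ) ^ 5 ≤ (|y| + 3) ^ 5 := by gcongr; linarith
              linarith
            have e4 : (|y| + 3) ^ 9 = (|y| + 3) ^ 5 * ((|y| + 3) ^ 2) ^ 2 := by ring
            rw [e4]
            nlinarith [pow_nonneg (show 0 ≤ |y| + 3 by positivity) 4]
        _ ≤ (|y| + 3) ^ 9 * ‖riemannZeta₁ c‖ := by gcongr
    have h6 := Real.log_le_log (by positivity) h5
    rw [Real.log_pow] at h6
    exact_mod_cast h6
  have hncount : (n : ℝ) ≤ 171 * ell y := by
    have h1 : ((19 / 10 : ℝ) / (9 / 5)) ^ n ≤ 11 * (|y| + 5) ^ 2 / ‖riemannZeta₁ c‖ := by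
      rw [le_div_iff₀ hFc0, div_pow, div_mul_eq_mul_div, div_le_iff₀ (by positivity)]
      have hGc0 := norm_nonneg (G c)
      have h95 : (0:ℝ) < (9 / 5) ^ n := by positivity
      calc (19 / 10 : ℝ) ^ n * ‖riemannZeta₁ c‖ ≤ (19 / 10 : ℝ) ^ n * ((9 / 5) ^ n * ‖G c‖) := by gcongr
        _ = ((19 / 10 : ℝ) ^ n * ‖G c‖) * (9 / 5) ^ n := by ring
        _ ≤ 11 * (|y| + 5) ^ 2 * (9 / 5) ^ n := by gcongr
    have h2 := Real.log_le_log (by positivity) h1
    rw [Real.log_pow] at h2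
    have h3 : 1 / 19 ≤ Real.log ((19 / 10 : ℝ) / (9 / 5)) := by
      have h4 := Real.log_le_sub_one_of_pos (show (0:ℝ) < ((19 / 10 : ℝ) / (9 / 5))⁻¹ by norm_num)
      rw [Real.log_inv] at h4
      norm_num at h4 ⊢
      linarith
    have h4 : (n : ℝ) * (1 / 19) ≤ 9 * ell y := by
      calc (n : ℝ) * (1 / 19) ≤ n * Real.log ((19 / 10 : ℝ) / (9 / 5)) := by gcongr
        _ ≤ _ := h2.trans hlogM
    linarith
  -- the point
  set s : ℂ := ⟨1 / 2 + δ, y⟩ with hs
  have hsc : ‖s - c‖ ≤ 3 / 2 := by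
    have : s - c = ((1 / 2 + δ - 2 : ℝ) : ℂ) := by
      apply Complex.ext
      · simp [hs, hc]
      · simp [hs, hc]
    rw [this, Complex.norm_real, Real.norm_eq_abs, abs_le]
    constructor <;> linarith
  have hlow' := hlow (3 / 2) (by norm_num) (by norm_num) s (by
    rw [mem_closedBall, dist_eq_norm]; exact hsc)
  have hlog18 : |Real.log ((9 / 5 : ℝ) / (19 / 10 - 9 / 5))| ≤ 3 := by
    have e : (9 / 5 : ℝ) / (19 / 10 - 9 / 5) = 18 := by norm_num
    rw [e, abs_of_nonneg (Real.log_nonneg (by norm_num))]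
    rw [Real.log_le_iff_le_exp (by norm_num)]
    have h1 : (18:ℝ) ≤ 2.7 ^ 3 := by norm_num
    have h2 : (2.7:ℝ) ≤ Real.exp 1 := by
      have := Real.exp_one_gt_d9; linarith
    have h3 : (2.7:ℝ) ^ 3 ≤ (Real.exp 1) ^ 3 := by gcongr
    rw [← Real.exp_nat_mul] at h3
    norm_num at h1 h3 ⊢
    linarith
  set Λ : ℝ := Real.log (11 * (|y| + 5) ^ 2 / ‖riemannZeta₁ c‖) + n * |Real.log ((9 / 5) / (19 / 10 - 9 / 5))| + 1
    with hΛ
  have hΛle : Λ ≤ 523 * ell y := by
    have h1 : (n:ℝ) * |Real.log ((9 / 5) / (19 / 10 - 9 / 5))| ≤ 171 * ell y * 3 := by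
      gcongr
    rw [hΛ]
    linarith
  have hprod : δ ^ n ≤ (L.map (fun ρ => ‖s - ρ‖)).prod := by
    refine pow_le_list_prod L _ _ hδ.le ?_
    intro ρ hρ
    obtain ⟨h1, h2⟩ := hL ρ hρ
    rw [mem_closedBall, dist_eq_norm] at h2
    have h3 := (Complex.abs_re_le_norm (ρ - c)).trans h2
    rw [Complex.sub_re, hcre] at h3
    have h4 := (abs_le.1 h3).1
    have h5 : ρ.re = 1 / 2 := hRH ρ ⟨z1_zero_zeta h1, by linarith, z1_zero_re h1⟩
    have h6 := Complex.abs_re_le_norm (s - ρ)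
    have h7 : (s - ρ).re = δ := by simp [hs, h5]
    rw [h7, abs_of_pos hδ] at h6
    exact h6
  have hFs : ‖riemannZeta₁ s‖ = (L.map (fun ρ => ‖s - ρ‖)).prod * ‖G s‖ := by
    rw [hFG s, norm_mul, norm_list_prod, List.map_map]
    rfl
  have hGc : (1 / 4) / (9 / 5) ^ n ≤ ‖G c‖ := by
    rw [div_le_iff₀ (by positivity)]
    calc (1 / 4 : ℝ) ≤ ‖riemannZeta₁ c‖ := hFlow
      _ ≤ (9 / 5) ^ n * ‖G c‖ := hFcG
      _ = ‖G c‖ * (9 / 5) ^ n := mul_comm _ _
  have hbig : δ ^ n * ((1 / 4) / (9 / 5) ^ n * Real.exp (-(2 * Λ * (3 / 2) / (9 / 5 - 3 / 2)))) ≤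
      ‖riemannZeta₁ s‖ := by
    rw [hFs]
    have h1 : (1 / 4) / (9 / 5) ^ n * Real.exp (-(2 * Λ * (3 / 2) / (9 / 5 - 3 / 2))) ≤ ‖G s‖ := by
      refine le_trans ?_ hlow'
      gcongr
    have : 0 ≤ (L.map (fun ρ => ‖s - ρ‖)).prod := (pow_nonneg hδ.le n).trans hprod
    gcongr
  have hs1 : s ≠ 1 := by
    intro h
    have := congrArg Complex.re h
    simp [hs] at this
    linarith
  have hz1s := z1_of_ne hs1
  have hsn : ‖s - 1‖ ≤ Real.exp (ell y) := by
    have h1 : ‖s - 1‖ ≤ |(s - 1).re| + |(s - 1).im| := Complex.norm_le_abs_re_add_abs_im _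
    have h2 : (s - 1).re = δ - 1 / 2 := by simp [hs]; ring
    have h3 : (s - 1).im = y := by simp [hs]
    rw [h2, h3] at h1
    have h4 : |δ - 1 / 2| ≤ 1 / 2 := by rw [abs_le]; constructor <;> linarith
    unfold ell
    rw [Real.exp_log (by positivity)]
    linarith
  have hsn0 : 0 < ‖s - 1‖ := norm_pos_iff.2 (sub_ne_zero.2 hs1)
  set X : ℝ := Real.log (1 / δ) with hX
  have hX0 : 0 ≤ X := by
    rw [hX]
    refine Real.log_nonneg ?_
    rw [le_div_iff₀ hδ]
    linarith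
  have hdn : δ ^ n = Real.exp (-(n * X)) := by
    rw [hX, one_div, Real.log_inv, mul_neg, neg_neg, ← Real.log_pow, Real.exp_log (pow_pos hδ n)]
  have h95 : (1 / 4 : ℝ) / (9 / 5) ^ n = Real.exp (-(Real.log 4 + n * Real.log (9 / 5))) := by
    rw [neg_add, Real.exp_add, Real.exp_neg, Real.exp_neg, Real.exp_log (by norm_num),
      ← Real.log_pow, Real.exp_log (by positivity)]
    ring
  have hl4 : Real.log 4 ≤ 2 := by
    have : Real.log 4 = 2 * Real.log 2 := by
      rw [show (4:ℝ) = 2 ^ 2 by norm_num, Real.log_pow]; norm_num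
    have h2 := Real.log_two_lt_d9
    linarith
  have hl95 : (n:ℝ) * Real.log (9 / 5) ≤ 171 * ell y := by
    have h1 : Real.log (9 / 5) ≤ 1 := by
      have := Real.log_le_sub_one_of_pos (show (0:ℝ) < 9 / 5 by norm_num)
      linarith
    nlinarith
  have hnX : (n:ℝ) * X ≤ 171 * ell y * X := by gcongr
  -- lower bound for the entire function
  have hfin : Real.exp (-(9000 * (1 + X) * ell y)) ≤ ‖riemannZeta₁ s‖ := by
    refine le_trans ?_ hbig
    rw [hdn, h95, ← Real.exp_add, ← Real.exp_add]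
    apply Real.exp_le_exp.2
    have e1 : 2 * Λ * (3 / 2) / (9 / 5 - 3 / 2) = 10 * Λ := by ring
    rw [e1]
    nlinarith [mul_nonneg hX0 (by linarith : 0 ≤ ell y)]
  have hz1pos : 0 < ‖riemannZeta₁ s‖ := (Real.exp_pos _).trans_le hfin
  have hzval : (riemannZeta s)⁻¹ = (s - 1) / riemannZeta₁ s := by
    rw [hz1s]
    have : s - 1 ≠ 0 := sub_ne_zero.2 hs1
    field_simp
  rw [hzval, norm_div, div_le_iff₀ hz1pos]
  calc ‖s - 1‖ ≤ Real.exp (ell y) := hsn
    _ ≤ Real.exp (10000 * (1 + X) * ell y) * Real.exp (-(9000 * (1 + X) * ell y)) := by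
        rw [← Real.exp_add]
        apply Real.exp_le_exp.2
        nlinarith [mul_nonneg hX0 (by linarith : 0 ≤ ell y)]
    _ ≤ _ := mul_le_mul_of_nonneg_left hfin (Real.exp_pos _).le

end Pool.Agent.V5helper60.MW
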